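import Pool.Agent.Lib.MP_845f45_al.Bd2

namespace Pool.Agent.Lib.MP_845f45_al

open Filter Topology
open scoped NNReal

variable {W : Type} {g : W → W → ℝ}

theorem Coding.exists_visual {C D : ℕ} (c : Coding g C D) (hs : ∀ x y, g x y = g y x)
    (hδ : IsHyperbolic g) : ∃ m : MetricSpace (Bdry g), IsVisual g m := by
  classical
  obtain ⟨L, hL⟩ := c.ev_bound hs hδ
  obtain ⟨L', hL'⟩ := c.bdProd_bound hs hδ
  obtain ⟨δ, hδ'⟩ := id hδ
  have key : ∀ ξ η : Bdry g, ξ ≠ η → ∀ᶠ n : ℕ in atTop,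
      bdProd g ξ η - (L + L') ≤ g ((Quot.out ξ).1 n) ((Quot.out η).1 n) ∧
      g ((Quot.out ξ).1 n) ((Quot.out η).1 n) ≤ bdProd g ξ η + (L + L') := by
    intro ξ η hne
    have h1 := hL' ξ η hne
    filter_upwards [tendsto_diag.eventually (hL ξ η hne _ _ (Quot.out_eq ξ) (Quot.out_eq η))]
      with n hn
    constructor <;> linarith [hn.1, hn.2]
  let b : Bdry g → Bdry g → ℝ := fun ξ η => min (bdProd g ξ η) (bdProd g η ξ)
  set E : ℝ := 2 * |L + L'| + 2 * |δ| + 1 with hE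
  have e1 := le_abs_self (L + L')
  have e2 := abs_nonneg (L + L')
  have e3 := le_abs_self δ
  have e4 := abs_nonneg δ
  have hb : ∀ ξ η, ξ ≠ η → bdProd g ξ η - E ≤ b ξ η := by
    intro ξ η hne
    obtain ⟨n, h1, h2⟩ := ((key ξ η hne).and (key η ξ hne.symm)).exists
    rw [hs] at h2
    exact le_min (by linarith) (by linarith [h1.1, h2.2])
  have tri : ∀ x₁ x₂ x₃ x₄ : Bdry g, ∀ s : ℝ, x₁ ≠ x₄ → (x₁ ≠ x₂ → s ≤ b x₁ x₂) →
      (x₂ ≠ x₃ → s ≤ b x₂ x₃) → (x₃ ≠ x₄ → s ≤ b x₃ x₄) → s ≤ b x₁ x₄ + 2 * E := by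
    intro x₁ x₂ x₃ x₄ s hne h1 h2 h3
    have k2 : ∀ x y : Bdry g, (x ≠ y → s ≤ b x y) → ∀ᶠ n : ℕ in atTop,
        s - |L + L'| ≤ g ((Quot.out x).1 n) ((Quot.out y).1 n) := by
      intro x y h
      by_cases e : x = y
      · subst e
        exact tendsto_atTop.1 ((Quot.out x).2.comp tendsto_diag) _
      · filter_upwards [key x y e] with n hn
        have := (h e).trans (min_le_left _ _)
        linarith [hn.1]
    obtain ⟨n, ⟨a1, a2, a3⟩, a4⟩ := (((k2 _ _ h1).and ((k2 _ _ h2).and (k2 _ _ h3))).and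
      (key x₁ x₄ hne)).exists
    have c1 := hδ' ((Quot.out x₁).1 n) ((Quot.out x₂).1 n) ((Quot.out x₃).1 n)
    have c2 := hδ' ((Quot.out x₁).1 n) ((Quot.out x₃).1 n) ((Quot.out x₄).1 n)
    have c3 := le_min a1 a2
    have c4 : s - |L + L'| - |δ| ≤ min (g ((Quot.out x₁).1 n) ((Quot.out x₃).1 n))
      (g ((Quot.out x₃).1 n) ((Quot.out x₄).1 n)) := le_min (by linarith) (by linarith)
    have := hb _ _ hne
    linarith [a4.2]
  have hE0 : 0 < 2 * E := by linarith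
  set a : ℝ := 2 ^ (1 / (2 * E)) with ha
  have ha1 : 1 < a := Real.one_lt_rpow (by norm_num) (by positivity)
  have ha0 : 0 < a := by linarith
  have ha2 : a ^ (2 * E) = 2 := by
    rw [ha, ← Real.rpow_mul (by norm_num), one_div_mul_cancel hE0.ne', Real.rpow_one]
  let q : Bdry g → Bdry g → ℝ≥0 := fun x y => if x = y then 0 else ⟨a ^ (-b x y), by positivity⟩
  have q0 : ∀ x, q x x = 0 := fun x => if_pos rfl
  have q1 : ∀ x y, q x y = q y x := fun x y => by simp only [q, b, min_comm, eq_comm]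
  have q2 : ∀ x y, x ≠ y → (q x y : ℝ) = a ^ (-b x y) := fun x y h => by
    simp only [q, if_neg h]; rfl
  have q3 : ∀ x₁ x₂ x₃ x₄, q x₁ x₄ ≤ 2 * max (q x₁ x₂) (max (q x₂ x₃) (q x₃ x₄)) := by
    intro x₁ x₂ x₃ x₄
    by_cases h : x₁ = x₄
    · rw [h, q0]; exact zero_le
    by_contra hc
    push Not at hc
    have k3 : ∀ x y, 2 * q x y < q x₁ x₄ → x ≠ y → b x₁ x₄ + 2 * E < b x y := by
      intro x y hlt hne
      have h1 : 2 * (q x y : ℝ) < q x₁ x₄ := by exact_mod_cast hlt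
      rw [q2 _ _ hne, q2 _ _ h, ← ha2, ← Real.rpow_add ha0, Real.rpow_lt_rpow_left_iff ha1] at h1
      linarith
    have a1 := k3 x₁ x₂ (lt_of_le_of_lt (by gcongr; exact le_max_left _ _) hc)
    have a2 := k3 x₂ x₃ (lt_of_le_of_lt (by gcongr; exact le_max_of_le_right (le_max_left _ _)) hc)
    have a3 := k3 x₃ x₄ (lt_of_le_of_lt (by gcongr; exact le_max_of_le_right (le_max_right _ _)) hc)
    obtain ⟨s, s0, s1, s2, s3⟩ : ∃ s, b x₁ x₄ + 2 * E < s ∧ (x₁ ≠ x₂ → s ≤ b x₁ x₂) ∧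
        (x₂ ≠ x₃ → s ≤ b x₂ x₃) ∧ (x₃ ≠ x₄ → s ≤ b x₃ x₄) := by
      have k4 : ∀ x y, (x ≠ y → b x₁ x₄ + 2 * E < b x y) →
          ∀ᶠ s in 𝓝[>] (b x₁ x₄ + 2 * E), (x ≠ y → s ≤ b x y) := by
        intro x y hxy
        by_cases e : x = y
        · exact Eventually.of_forall fun s h => absurd e h
        · exact ((eventually_le_nhds (hxy e)).filter_mono nhdsWithin_le_nhds).mono
            fun s h _ => h
      exact (eventually_mem_nhdsWithin.and ((k4 _ _ a1).and ((k4 _ _ a2).and (k4 _ _ a3)))).exists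
    have := tri x₁ x₂ x₃ x₄ s h s1 s2 s3
    linarith
  have d1 := PseudoMetricSpace.dist_ofPreNNDist_le q q0 q1
  have d2 := PseudoMetricSpace.le_two_mul_dist_ofPreNNDist q q0 q1 q3
  let m : MetricSpace (Bdry g) :=
    { toPseudoMetricSpace := PseudoMetricSpace.ofPreNNDist q q0 q1
      eq_of_dist_eq_zero := by
        intro x y hxy
        by_contra hne
        have := d2 x y
        rw [q2 _ _ hne, hxy] at this
        have : (0 : ℝ) < a ^ (-b x y) := by positivity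
        linarith }
  have d1' : ∀ x y, m.dist x y ≤ q x y := d1
  have d2' : ∀ x y, (q x y : ℝ) ≤ 2 * m.dist x y := d2
  refine ⟨m, a, 1 / 2, a ^ E, ha1, by norm_num, fun ξ η hne => ⟨?_, ?_⟩⟩
  · have h1 := d2' ξ η
    rw [q2 _ _ hne] at h1
    have h2 : a ^ (-bdProd g ξ η) ≤ a ^ (-b ξ η) :=
      Real.rpow_le_rpow_of_exponent_le ha1.le (neg_le_neg (min_le_left _ _))
    linarith
  · refine (d1' ξ η).trans ?_
    rw [q2 _ _ hne, ← Real.rpow_add ha0]
    exact Real.rpow_le_rpow_of_exponent_le ha1.le (by linarith [hb ξ η hne])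

end Pool.Agent.Lib.MP_845f45_al
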