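import Pool.Agent.Lib.MP_845f45_al.Defs

namespace Pool.Agent.Lib.MP_845f45_al

structure Coding {W : Type} (g : W → W → ℝ) (C D : ℕ) where
  T : Type
  anc : W → ℕ → T
  ht : W → ℕ
  Nr : T → T → Prop
  τ : T → ℕ
  K : ℕ
  fin : ∀ s, ∃ F : Finset T, F.card ≤ D ^ s ∧ ∀ w, s ≤ ht w → anc w s ∈ F
  coh : ∀ w w' s t, s ≤ t → t ≤ ht w → t ≤ ht w' → anc w t = anc w' t → anc w s = anc w' s
  refl : ∀ a, Nr a a
  symm : ∀ a b, Nr a b → Nr b a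
  qt : ∀ w w' b c s t, s + C ≤ t → t ≤ ht w → t ≤ ht w' → Nr (anc w t) b → Nr b c →
    Nr c (anc w' t) → Nr (anc w s) (anc w' s)
  lo : ∀ w w' s, s ≤ ht w → s ≤ ht w' → Nr (anc w s) (anc w' s) →
    (τ (anc w s) : ℝ) - K ≤ g w w'
  hi : ∀ w w' s, s ≤ ht w → s ≤ ht w' → ¬ Nr (anc w s) (anc w' s) →
    g w w' ≤ (τ (anc w s) : ℝ) + K
  τ1 : ∀ w s t, s ≤ t → t ≤ ht w → τ (anc w s) ≤ τ (anc w t) ∧
    τ (anc w t) ≤ τ (anc w s) + (t - s) ∧ t - s ≤ K * (τ (anc w t) - τ (anc w s)) + K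
  hht : ∀ w, g w w ≤ ht w

end Pool.Agent.Lib.MP_845f45_al
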