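import Pool.Agent.Lib.MP_845f45_al.Bd1
import Pool.Agent.Lib.MP_845f45_al.Coding

namespace Pool.Agent.Lib.MP_845f45_al

open Filter Topology

variable {W : Type} {g : W → W → ℝ}

abbrev GS (g : W → W → ℝ) : Type := {x : ℕ → W // IsGromovSeq g x}

abbrev Rel (g : W → W → ℝ) (x y : GS g) : Prop :=
  Tendsto (fun n => g (x.1 n) (y.1 n)) atTop atTop

lemma tendsto_diag : Tendsto (fun n : ℕ => (n, n)) atTop atTop := by
  rw [← prod_atTop_atTop_eq]; exact tendsto_id.prodMk tendsto_id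

lemma tendsto_snd' : Tendsto (fun p : ℕ × ℕ => p.2) atTop atTop := by
  rw [← prod_atTop_atTop_eq]; exact tendsto_snd

lemma tendsto_of_min {ι : Type} {l : Filter ι} {a b c : ι → ℝ} {δ : ℝ}
    (h : ∀ i, min (a i) (b i) - δ ≤ c i) (ha : Tendsto a l atTop) (hb : Tendsto b l atTop) :
    Tendsto c l atTop := by
  rw [tendsto_atTop] at *
  intro r
  filter_upwards [ha (r + δ), hb (r + δ)] with i h1 h2
  have := h i
  have := le_min h1 h2
  linarith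

lemma Rel.cross (hδ : IsHyperbolic g) {x y : GS g} (h : Rel g x y) :
    Tendsto (fun p : ℕ × ℕ => g (x.1 p.1) (y.1 p.2)) atTop atTop := by
  obtain ⟨δ, hδ⟩ := hδ
  exact tendsto_of_min (fun p => hδ (x.1 p.1) (x.1 p.2) (y.1 p.2)) x.2 (h.comp tendsto_snd')

lemma rel_equiv (hs : ∀ x y, g x y = g y x) (hδ : IsHyperbolic g) : Equivalence (Rel g) := by
  obtain ⟨δ, hδ⟩ := hδ
  refine ⟨fun x => x.2.comp tendsto_diag, fun {x y} h => ?_, fun {x y z} h h' => ?_⟩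
  · simpa only [Rel, hs] using h
  · exact tendsto_of_min (fun n => hδ (x.1 n) (y.1 n) (z.1 n)) h h'

lemma exists_box {p : ℕ × ℕ → Prop} (h : ∀ᶠ x in atTop, p x) :
    ∃ N, ∀ i j, N ≤ i → N ≤ j → p (i, j) := by
  obtain ⟨a, ha⟩ := eventually_atTop.1 h
  exact ⟨max a.1 a.2, fun i j hi hj => ha (i, j) ⟨(le_max_left _ _).trans hi,
    (le_max_right _ _).trans hj⟩⟩

lemma ev_box (N : ℕ) : ∀ᶠ p : ℕ × ℕ in atTop, N ≤ p.1 ∧ N ≤ p.2 :=
  eventually_ge_atTop (N, N)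

namespace Coding

variable {C D : ℕ} (c : Coding g C D)

lemma ev_ht (x : GS g) (s : ℕ) : ∀ᶠ n in atTop, s ≤ c.ht (x.1 n) := by
  filter_upwards [tendsto_atTop.1 (x.2.comp tendsto_diag) s] with n hn
  have := hn.trans (c.hht _)
  exact_mod_cast this

lemma exists_lim (x : GS g) (s : ℕ) :
    ∃ a, ∀ᶠ n in (hyperfilter ℕ : Filter ℕ), c.anc (x.1 n) s = a := by
  obtain ⟨F, -, hF⟩ := c.fin s
  have : (F : Set c.T) ∈ Ultrafilter.map (fun n => c.anc (x.1 n) s) (hyperfilter ℕ) := by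
    rw [Ultrafilter.mem_map]
    exact Nat.hyperfilter_le_atTop ((c.ev_ht x s).mono fun n hn => hF _ hn)
  obtain ⟨a, -, ha⟩ := Ultrafilter.eq_pure_of_finite_mem F.finite_toSet this
  refine ⟨a, ?_⟩
  have : ({a} : Set c.T) ∈ Ultrafilter.map (fun n => c.anc (x.1 n) s) (hyperfilter ℕ) := by
    rw [ha]; simp
  exact this

noncomputable def lim (ξ : Bdry g) (s : ℕ) : c.T := (c.exists_lim (Quot.out ξ) s).choose

lemma ev_lim (ξ : Bdry g) (t : ℕ) : ∀ᶠ n in (hyperfilter ℕ : Filter ℕ),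
    t ≤ c.ht ((Quot.out ξ).1 n) ∧ ∀ s ≤ t, c.anc ((Quot.out ξ).1 n) s = c.lim ξ s := by
  refine ((c.ev_ht _ t).filter_mono Nat.hyperfilter_le_atTop).and ?_
  have : ∀ᶠ n in (hyperfilter ℕ : Filter ℕ), ∀ s ∈ Finset.Iic t,
      c.anc ((Quot.out ξ).1 n) s = c.lim ξ s :=
    (eventually_all_finset _).2 fun s _ => (c.exists_lim (Quot.out ξ) s).choose_spec
  exact this.mono fun n hn s hs => hn s (Finset.mem_Iic.2 hs)

lemma exists_rep (ξ : Bdry g) (t : ℕ) : ∃ w, t ≤ c.ht w ∧ ∀ s ≤ t, c.anc w s = c.lim ξ s :=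
  let ⟨_, h⟩ := (c.ev_lim ξ t).exists
  ⟨_, h⟩

lemma exists_rep2 (ξ η : Bdry g) (t N : ℕ) : ∃ n, N ≤ n ∧
    (t ≤ c.ht ((Quot.out ξ).1 n) ∧ ∀ s ≤ t, c.anc ((Quot.out ξ).1 n) s = c.lim ξ s) ∧
    (t ≤ c.ht ((Quot.out η).1 n) ∧ ∀ s ≤ t, c.anc ((Quot.out η).1 n) s = c.lim η s) :=
  (((eventually_ge_atTop N).filter_mono Nat.hyperfilter_le_atTop).and
    ((c.ev_lim ξ t).and (c.ev_lim η t))).exists

lemma lim_τ1 (ξ : Bdry g) (s t : ℕ) (h : s ≤ t) : c.τ (c.lim ξ s) ≤ c.τ (c.lim ξ t) ∧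
    c.τ (c.lim ξ t) ≤ c.τ (c.lim ξ s) + (t - s) ∧
    t - s ≤ c.K * (c.τ (c.lim ξ t) - c.τ (c.lim ξ s)) + c.K := by
  obtain ⟨w, h1, h2⟩ := c.exists_rep ξ t
  rw [← h2 s h, ← h2 t le_rfl]
  exact c.τ1 w s t h h1

lemma exists_not_nr (hs : ∀ x y, g x y = g y x) (hδ : IsHyperbolic g) {ξ η : Bdry g}
    (hne : ξ ≠ η) : ∃ s, ¬ c.Nr (c.lim ξ s) (c.lim η s) := by
  by_contra hc
  push Not at hc
  apply hne
  rw [← Quot.out_eq ξ, ← Quot.out_eq η]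
  apply Quot.sound
  obtain ⟨δ, hδ⟩ := hδ
  rw [tendsto_atTop]
  intro r
  obtain ⟨M, hM⟩ := exists_nat_ge (r + 2 * |δ| + c.K)
  obtain ⟨N1, h1⟩ := exists_box (tendsto_atTop.1 (Quot.out ξ).2 (r + 2 * |δ|))
  obtain ⟨N2, h2⟩ := exists_box (tendsto_atTop.1 (Quot.out η).2 (r + 2 * |δ|))
  set s := c.K * M + c.K + 1
  obtain ⟨n, hn, ⟨a1, a2⟩, a3, a4⟩ := c.exists_rep2 ξ η s (max N1 N2)
  have b1 := c.lo _ _ s a1 a3 (by rw [a2 s le_rfl, a4 s le_rfl]; exact hc s)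
  rw [a2 s le_rfl] at b1
  have b2 := (c.lim_τ1 ξ 0 s (Nat.zero_le _)).2.2
  have b3 : M ≤ c.τ (c.lim ξ s) := by
    by_contra hlt
    have := Nat.mul_le_mul_left c.K (show c.τ (c.lim ξ s) - c.τ (c.lim ξ 0) ≤ M by omega)
    omega
  have b4 : (M : ℝ) ≤ c.τ (c.lim ξ s) := by exact_mod_cast b3
  filter_upwards [eventually_ge_atTop (max N1 N2)] with i hi
  have e1 := h1 i n (le_of_max_le_left hi) (le_of_max_le_left hn)
  have e2 := h2 n i (le_of_max_le_right hn) (le_of_max_le_right hi)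
  have e3 := hδ ((Quot.out ξ).1 i) ((Quot.out ξ).1 n) ((Quot.out η).1 n)
  have e4 := hδ ((Quot.out ξ).1 i) ((Quot.out η).1 n) ((Quot.out η).1 i)
  have e5 := le_abs_self δ
  have e6 := abs_nonneg δ
  have f1 : r + 2 * |δ| ≤ min (g ((Quot.out ξ).1 i) ((Quot.out ξ).1 n))
    (g ((Quot.out ξ).1 n) ((Quot.out η).1 n)) := le_min e1 (by linarith)
  have f2 : r + |δ| ≤ min (g ((Quot.out ξ).1 i) ((Quot.out η).1 n))
    (g ((Quot.out η).1 n) ((Quot.out η).1 i)) := le_min (by linarith) (by linarith)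
  linarith

open Classical in
noncomputable def PP (ξ η : Bdry g) : ℕ :=
  if h : ∃ s, ¬ c.Nr (c.lim ξ s) (c.lim η s) then Nat.find h else 0

lemma PP_spec {ξ η : Bdry g} (h : ∃ s, ¬ c.Nr (c.lim ξ s) (c.lim η s)) :
    ¬ c.Nr (c.lim ξ (c.PP ξ η)) (c.lim η (c.PP ξ η)) := by
  classical
  unfold PP; rw [dif_pos h]; exact Nat.find_spec h

lemma PP_min {ξ η : Bdry g} {s : ℕ} (hs : s < c.PP ξ η) : c.Nr (c.lim ξ s) (c.lim η s) := by
  classical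
  unfold PP at hs
  split_ifs at hs with h
  · simpa using Nat.find_min h hs
  · omega

lemma PP_symm (ξ η : Bdry g) : c.PP ξ η = c.PP η ξ := by
  have key : ∀ ξ η : Bdry g, c.PP ξ η ≤ c.PP η ξ := by
    intro ξ η
    by_contra hc
    have h1 := c.PP_min (not_le.1 hc)
    by_cases h : ∃ s, ¬ c.Nr (c.lim η s) (c.lim ξ s)
    · exact c.PP_spec h (c.symm _ _ h1)
    · have : ¬ ∃ s, ¬ c.Nr (c.lim ξ s) (c.lim η s) := by
        rintro ⟨s, hs⟩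
        exact h ⟨s, fun h' => hs (c.symm _ _ h')⟩
      unfold PP at hc
      rw [dif_neg this] at hc
      omega
  exact le_antisymm (key _ _) (key _ _)

lemma lt_PP_of_eq {ξ η : Bdry g} (h : ∃ s, ¬ c.Nr (c.lim ξ s) (c.lim η s)) {t : ℕ}
    (ht : c.lim ξ t = c.lim η t) : t < c.PP ξ η := by
  by_contra hc
  apply c.PP_spec h
  obtain ⟨w, a1, a2⟩ := c.exists_rep ξ t
  obtain ⟨w', a3, a4⟩ := c.exists_rep η t
  have := c.coh w w' _ t (not_lt.1 hc) a1 a3 (by rw [a2 t le_rfl, a4 t le_rfl, ht])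
  rw [a2 _ (not_lt.1 hc), a4 _ (not_lt.1 hc)] at this
  rw [this]; exact c.refl _

lemma lim_mem (s : ℕ) : ∃ F : Finset c.T, F.card ≤ D ^ s ∧ ∀ ξ, c.lim ξ s ∈ F := by
  obtain ⟨F, h1, h2⟩ := c.fin s
  refine ⟨F, h1, fun ξ => ?_⟩
  obtain ⟨w, a1, a2⟩ := c.exists_rep ξ s
  rw [← a2 s le_rfl]; exact h2 w a1

lemma ev_bound (hs : ∀ x y, g x y = g y x) (hδ : IsHyperbolic g) : ∃ L : ℝ, ∀ ξ η : Bdry g,
    ξ ≠ η → ∀ x y : GS g, Quot.mk _ x = ξ → Quot.mk _ y = η → ∀ᶠ p : ℕ × ℕ in atTop,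
      (c.τ (c.lim ξ (c.PP ξ η)) : ℝ) - L ≤ g (x.1 p.1) (y.1 p.2) ∧
      g (x.1 p.1) (y.1 p.2) ≤ (c.τ (c.lim ξ (c.PP ξ η)) : ℝ) + L := by
  obtain ⟨δ, hδ'⟩ := id hδ
  refine ⟨c.K + 1 + 2 * |δ|, fun ξ η hne x y hx hy => ?_⟩
  have h0 := c.exists_not_nr hs hδ hne
  have hP : 0 < c.PP ξ η := by
    apply c.lt_PP_of_eq h0
    obtain ⟨F, h1, h2⟩ := c.lim_mem 0
    exact Finset.card_le_one.1 (by simpa using h1) _ (h2 _) _ (h2 _)
  set p := c.PP ξ η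
  set T : ℝ := (c.τ (c.lim ξ p) : ℝ)
  have rx : Rel g x (Quot.out ξ) :=
    ((rel_equiv hs hδ).quot_mk_eq_iff _ _).1 (hx.trans (Quot.out_eq ξ).symm)
  have ry : Rel g y (Quot.out η) :=
    ((rel_equiv hs hδ).quot_mk_eq_iff _ _).1 (hy.trans (Quot.out_eq η).symm)
  obtain ⟨N1, h1⟩ := exists_box (tendsto_atTop.1 (rx.cross hδ) (T + c.K + 1 + 2 * |δ|))
  obtain ⟨N2, h2⟩ := exists_box (tendsto_atTop.1 (ry.cross hδ) (T + c.K + 1 + 2 * |δ|))
  obtain ⟨n, hn, ⟨a1, a2⟩, a3, a4⟩ := c.exists_rep2 ξ η p (max N1 N2)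
  have b1 := c.lo ((Quot.out ξ).1 n) ((Quot.out η).1 n) (p - 1) (by omega) (by omega) (by
    rw [a2 _ (by omega), a4 _ (by omega)]; exact c.PP_min (by omega))
  have b2 := c.hi _ _ p a1 a3 (by rw [a2 _ le_rfl, a4 _ le_rfl]; exact c.PP_spec h0)
  rw [a2 _ (by omega)] at b1 b2
  have b3 := (c.lim_τ1 ξ (p - 1) p (by omega)).2.1
  rw [show p - (p - 1) = 1 by omega] at b3
  have b4 : T ≤ c.τ (c.lim ξ (p - 1)) + 1 := by
    change (c.τ (c.lim ξ p) : ℝ) ≤ _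
    exact_mod_cast b3
  change _ ≤ T + _ at b2
  filter_upwards [ev_box (max N1 N2)] with ⟨i, j⟩ ⟨hi, hj⟩
  have e1 := h1 i n (le_of_max_le_left hi) (le_of_max_le_left hn)
  have e2 := h2 j n (le_of_max_le_right hj) (le_of_max_le_right hn)
  simp only at e1 e2 ⊢
  have e5 := le_abs_self δ
  have e6 := abs_nonneg δ
  have e7 : (0 : ℝ) ≤ c.K := by positivity
  constructor
  · have e3 := hδ' (x.1 i) ((Quot.out ξ).1 n) ((Quot.out η).1 n)
    have e4 := hδ' (x.1 i) ((Quot.out η).1 n) (y.1 j)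
    rw [hs ((Quot.out η).1 n) (y.1 j)] at e4
    have f1 : T - c.K - 1 ≤ min (g (x.1 i) ((Quot.out ξ).1 n))
      (g ((Quot.out ξ).1 n) ((Quot.out η).1 n)) := le_min (by linarith) (by linarith)
    have f2 : T - c.K - 1 - |δ| ≤ min (g (x.1 i) ((Quot.out η).1 n))
      (g (y.1 j) ((Quot.out η).1 n)) := le_min (by linarith) (by linarith)
    linarith
  · by_contra hc
    push Not at hc
    have e3 := hδ' ((Quot.out ξ).1 n) (x.1 i) (y.1 j)
    have e4 := hδ' ((Quot.out ξ).1 n) (y.1 j) ((Quot.out η).1 n)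
    rw [hs ((Quot.out ξ).1 n) (x.1 i)] at e3
    have f1 : T + c.K + 1 + 2 * |δ| ≤ min (g (x.1 i) ((Quot.out ξ).1 n))
      (g (x.1 i) (y.1 j)) := le_min (by linarith) (by linarith)
    have f2 : T + c.K + 1 + |δ| ≤ min (g ((Quot.out ξ).1 n) (y.1 j))
      (g (y.1 j) ((Quot.out η).1 n)) := le_min (by linarith) (by linarith)
    linarith

lemma bdProd_bound (hs : ∀ x y, g x y = g y x) (hδ : IsHyperbolic g) : ∃ L : ℝ, ∀ ξ η : Bdry g,
    ξ ≠ η → (c.τ (c.lim ξ (c.PP ξ η)) : ℝ) - L ≤ bdProd g ξ η ∧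
      bdProd g ξ η ≤ (c.τ (c.lim ξ (c.PP ξ η)) : ℝ) + L := by
  obtain ⟨L, hL⟩ := c.ev_bound hs hδ
  refine ⟨L, fun ξ η hne => ?_⟩
  have key : ∀ r ∈ {r | ∃ x y : GS g, Quot.mk _ x = ξ ∧ Quot.mk _ y = η ∧
      r = liminf (fun p : ℕ × ℕ => g (x.1 p.1) (y.1 p.2)) atTop},
      (c.τ (c.lim ξ (c.PP ξ η)) : ℝ) - L ≤ r ∧ r ≤ (c.τ (c.lim ξ (c.PP ξ η)) : ℝ) + L := by
    rintro r ⟨x, y, hx, hy, rfl⟩
    have h := hL ξ η hne x y hx hy
    constructor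
    · exact le_liminf_of_le (isCoboundedUnder_ge_of_eventually_le _ (h.mono fun _ h => h.2))
        (h.mono fun _ h => h.1)
    · exact liminf_le_of_frequently_le (h.mono fun _ h => h.2).frequently
        (isBoundedUnder_of_eventually_ge (h.mono fun _ h => h.1))
  have hmem : liminf (fun p : ℕ × ℕ => g ((Quot.out ξ).1 p.1) ((Quot.out η).1 p.2)) atTop ∈
      {r | ∃ x y : GS g, Quot.mk _ x = ξ ∧ Quot.mk _ y = η ∧
      r = liminf (fun p : ℕ × ℕ => g (x.1 p.1) (y.1 p.2)) atTop} :=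
    ⟨_, _, Quot.out_eq ξ, Quot.out_eq η, rfl⟩
  exact ⟨(key _ hmem).1.trans (le_csSup ⟨_, fun r hr => (key r hr).2⟩ hmem),
    csSup_le ⟨_, hmem⟩ fun r hr => (key r hr).2⟩

include c in
theorem confDim_le (hs : ∀ x y, g x y = g y x) (hδ : IsHyperbolic g) (m : MetricSpace (Bdry g))
    (hm : IsVisual g m) : confDim m ≤ ((C + 1) * D : ℕ) := by
  obtain ⟨a, k, K', ha, hk, hv⟩ := hm
  obtain ⟨L, hL⟩ := c.bdProd_bound hs hδ
  have ha0 : 0 < a := by linarith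
  refine confDim_le_of_profile m c.PP (fun ξ s => c.τ (c.lim ξ s)) (K := c.K) (by omega)
    c.PP_symm ?_ ?_ c.lim_τ1 ha (k := k * a ^ (-L)) (K' := max K' 1 * a ^ L) (by positivity)
    (by positivity) ?_
  · intro x₁ x₂ x₃ x₄ s hne h1 h2 h3
    by_contra hc
    apply c.PP_spec (c.exists_not_nr hs hδ hne)
    have key : ∀ x y : Bdry g, (x ≠ y → s ≤ c.PP x y) →
        c.Nr (c.lim x (s - 1)) (c.lim y (s - 1)) := by
      intro x y h
      by_cases e : x = y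
      · rw [e]; exact c.refl _
      · exact c.PP_min (by have := h e; omega)
    obtain ⟨w, a1, a2⟩ := c.exists_rep x₁ (s - 1)
    obtain ⟨w', a3, a4⟩ := c.exists_rep x₄ (s - 1)
    have := c.qt w w' (c.lim x₂ (s - 1)) (c.lim x₃ (s - 1)) (c.PP x₁ x₄) (s - 1) (by omega) a1 a3
      (by rw [a2 _ le_rfl]; exact key _ _ h1) (key _ _ h2) (by rw [a4 _ le_rfl]; exact key _ _ h3)
    rwa [a2 _ (by omega), a4 _ (by omega)] at this
  · intro s
    obtain ⟨F, h1, h2⟩ := c.lim_mem s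
    exact ⟨c.T, F, fun ξ => c.lim ξ s, h1, h2, fun x y hne he =>
      (c.lt_PP_of_eq (c.exists_not_nr hs hδ hne) he).le⟩
  · intro x y hne
    obtain ⟨h1, h2⟩ := hv x y hne
    obtain ⟨h3, h4⟩ := hL x y hne
    constructor
    · refine le_trans ?_ h1
      rw [mul_assoc, ← Real.rpow_add ha0]
      gcongr
      · exact ha.le
      · linarith
    · refine h2.trans ?_
      rw [mul_assoc, ← Real.rpow_add ha0]
      gcongr
      · exact le_max_left _ _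
      · exact ha.le
      · linarith

end Coding

end Pool.Agent.Lib.MP_845f45_al
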