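import Pool.Agent.Lib.MP_845f45_al.Cnt
import Pool.Agent.Lib.MP_845f45_al.Bd2

namespace Pool.Agent.Lib.MP_845f45_al

variable {V : Type} [DecidableEq V] {G : SimpleGraph V} [DecidableRel G.Adj]

variable (G) in
noncomputable def dW (u v : WG G) : ℕ := (csG G).length (u⁻¹ * v)

lemma dW_self (u : WG G) : dW G u u = 0 := by simp [dW]

lemma dW_comm (u v : WG G) : dW G u v = dW G v u := by
  rw [dW, dW, ← (csG G).length_inv, mul_inv_rev, inv_inv]

lemma dW_tri (u v w : WG G) : dW G u w ≤ dW G u v + dW G v w := by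
  have := (csG G).length_mul_le (u⁻¹ * v) (v⁻¹ * w)
  rwa [show u⁻¹ * v * (v⁻¹ * w) = u⁻¹ * w by group] at this

lemma exists_par (w : WG G) : ∃ u, Pre G u w ∧ (csG G).length u = (csG G).length w - 1 := by
  rcases Nat.eq_zero_or_pos ((csG G).length w) with h | h
  · exact ⟨w, Pre.refl w, by omega⟩
  · have h1 : Pre G 1 w := pre_of_length (by simp)
    obtain ⟨u, -, h2, h3⟩ := h1.between 1 (by rw [CoxeterSystem.length_one]; omega)
    exact ⟨u, h2, by omega⟩

variable (G) in
noncomputable def par (w : WG G) : WG G := (exists_par w).choose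

lemma par_iter (w : WG G) (j : ℕ) :
    Pre G ((par G)^[j] w) w ∧ (csG G).length ((par G)^[j] w) = (csG G).length w - j := by
  induction j with
  | zero => exact ⟨Pre.refl w, rfl⟩
  | succ j ih =>
    rw [Function.iterate_succ_apply']
    obtain ⟨h1, h2⟩ := (exists_par ((par G)^[j] w)).choose_spec
    exact ⟨Pre.tr h1 ih.1, by rw [par, h2, ih.2]; omega⟩

variable (G) in
noncomputable def trc (w : WG G) (s : ℕ) : WG G := (par G)^[(csG G).length w - s] w

lemma trc_pre (w : WG G) (s : ℕ) : Pre G (trc G w s) w := (par_iter w _).1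

lemma trc_len {w : WG G} {s : ℕ} (h : s ≤ (csG G).length w) : (csG G).length (trc G w s) = s := by
  rw [trc, (par_iter w _).2]; omega

lemma trc_trc {w : WG G} {s t : ℕ} (h : s ≤ t) (h' : t ≤ (csG G).length w) :
    trc G (trc G w t) s = trc G w s := by
  rw [trc.eq_1 G (trc G w t), trc_len h', trc, trc, ← Function.iterate_add_apply]
  congr 1; omega

lemma trc_dist {ω : ℕ} (hω : ClB G ω) (hs : NoSq G) {v w : WG G} {s : ℕ}
    (h : s ≤ (csG G).length v) (h' : s ≤ (csG G).length w) :
    dW G (trc G v s) (trc G w s) ≤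
      4 * ω + (2 * s + dW G v w - (csG G).length v - (csG G).length w) := by
  obtain ⟨m, h1, h2, h3⟩ := exists_pre_gp v w
  rw [gp_def] at h3
  have h4 : (csG G).length v + (csG G).length w ≤ dW G v w + 2 * (csG G).length m := by
    have : ((csG G).length v : ℝ) + (csG G).length w ≤
      (csG G).length (v⁻¹ * w) + 2 * (csG G).length m := by linarith
    exact_mod_cast this
  have key : ∀ u u', Pre G u v → Pre G u' w → (csG G).length u = s → (csG G).length u' = s →
      dW G (trc G v s) (trc G w s) ≤ 4 * ω + dW G u u' := by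
    intro u u' a1 a2 a3 a4
    have b1 : dW G _ _ ≤ _ := dist_le_of_pre hω hs (trc_pre v s) a1 ((trc_len h).trans a3.symm)
    have b2 : dW G _ _ ≤ _ := dist_le_of_pre hω hs a2 (trc_pre w s) (a4.trans (trc_len h').symm)
    have := dW_tri (trc G v s) u (trc G w s)
    have := dW_tri u u' (trc G w s)
    omega
  by_cases e : s ≤ (csG G).length m
  · have := key _ _ ((trc_pre m s).tr h1) ((trc_pre m s).tr h2) (trc_len e) (trc_len e)
    rw [dW_self] at this
    omega
  · obtain ⟨u, a1, a2, a3⟩ := h1.between ((csG G).length v - s) (by omega)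
    obtain ⟨u', b1, b2, b3⟩ := h2.between ((csG G).length w - s) (by omega)
    have := key u u' a2 b2 (by omega) (by omega)
    have c1 : dW G m u + _ ≤ _ := a1.length_le
    have c2 : dW G m u' + _ ≤ _ := b1.length_le
    have := dW_tri u m u'
    rw [dW_comm u m] at this
    omega

lemma exists_layer {ω : ℕ} (hω : ClB G ω) (u : WG G) : ∃ u', Pre G u' u ∧
    (csG G).length u ≤ (csG G).length u' + ω ∧ ∀ v, ¬ Pre G u' v → ∃ s t, t ≠ s ∧ ¬ G.Adj t s ∧
      Pre G ((csG G).simple s) (u'⁻¹ * v) ∧ ∀ w, Pre G u w → Pre G ((csG G).simple t) (u'⁻¹ * w) := by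
  have hl := low_Mx (G := G) (phi G u)
  have hN := phi_normal (G := G) u
  obtain ⟨u', hu⟩ := exists_phi (hl.normal hN)
  refine ⟨u', by rw [pre_iff_low, hu]; exact hl, ?_, fun v hv => ?_⟩
  · have := card_Mx hω hN
    have := Finset.le_card_sdiff (Mx G (phi G u)) (phi G u)
    rw [length_eq_card, length_eq_card, hu]
    omega
  obtain ⟨m, h1, h2, h3⟩ := exists_pre_gp u' v
  have hne : (phi G u' \ phi G m).Nonempty := by
    rw [Finset.sdiff_nonempty]
    exact fun h => hv (phi_inj (Finset.Subset.antisymm h1.1 h) ▸ h2)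
  obtain ⟨p, p1, p2⟩ := Low.exists_mx (G := G) h1 subset_rfl hne
  have p3 := p2.1
  rw [hu, Finset.mem_sdiff, mem_Mx] at p3
  have p4 : ∃ q ∈ phi G u, p.1 < q.1 ∧ ¬ G.Adj q.2 p.2 := by
    by_contra hc
    push Not at hc
    exact p3.2 ⟨p3.1, hc⟩
  obtain ⟨q, q1, q2, q3⟩ := p4
  obtain ⟨r, r1, r2, r3, r4⟩ := hN.sep p3.1 q1 q2 q3
  have r5 : r ∉ phi G u' := fun h => r4 (p2.2 r h r2)
  have r6 : IsMx G (phi G u) r := by
    by_contra hc
    exact r5 (hu ▸ Finset.mem_sdiff.2 ⟨r1, fun h => hc (mem_Mx.1 h)⟩)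
  refine ⟨p.2, r.2, r3, r4, pre_of_length ?_, fun w hw => pre_of_length ?_⟩
  · have e := phi_mul_mx p2
    have a1 : Pre G m (u' * (csG G).simple p.2) := by
      refine Low.of_subset (G := G) h1 ?_ (e ▸ Finset.erase_subset _ _)
      rw [e]; intro q hq
      exact Finset.mem_erase.2 ⟨fun e' => p1 (e' ▸ hq), h1.1 hq⟩
    have a2 : dW G m _ + _ ≤ _ := a1.length_le
    have a3 : dW G m _ + _ ≤ _ := h2.length_le
    have a4 := dW_tri (u' * (csG G).simple p.2) m v
    have a5 : (csG G).length (u' * (csG G).simple p.2) + 1 = (csG G).length u' := by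
      rw [length_eq_card, length_eq_card, e, Finset.card_erase_add_one p2.1]
    rw [gp_def] at h3
    have h4 : (csG G).length u' + (csG G).length v ≤
        (csG G).length (u'⁻¹ * v) + 2 * (csG G).length m := by
      have : ((csG G).length u' : ℝ) + (csG G).length v ≤
        (csG G).length (u'⁻¹ * v) + 2 * (csG G).length m := by linarith
      exact_mod_cast this
    rw [dW_comm _ m, dW.eq_1 G (u' * _) v, mul_inv_rev, mul_assoc] at a4
    rw [CoxeterSystem.length_simple]
    omega
  · have a0 : insert r (phi G u') ⊆ phi G u := Finset.insert_subset r1 (hu ▸ hl.1)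
    have a1 : Low G (insert r (phi G u')) (phi G u) := by
      refine ⟨a0, fun a ha ha' b hb hlt => ?_⟩
      have : IsMx G (phi G u) a := by
        by_contra hc
        exact ha' (Finset.mem_insert_of_mem
          (hu ▸ Finset.mem_sdiff.2 ⟨ha, fun h => hc (mem_Mx.1 h)⟩))
      exact (this.2 b (a0 hb) hlt).symm
    obtain ⟨u1, e1⟩ := exists_phi (a1.normal hN)
    have a2 : IsMx G (phi G u1) r := e1 ▸ r6.mono a0 (Finset.mem_insert_self _ _)
    have a3 := phi_mul_mx a2
    rw [e1, Finset.erase_insert r5] at a3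
    have a4 : Pre G u1 w := Pre.tr (by rw [pre_iff_low, e1]; exact a1) hw
    have a5 := a4.length_le
    have a6 : (csG G).length u1 = (csG G).length u' + 1 := by
      rw [length_eq_card, length_eq_card, e1, Finset.card_insert_of_notMem r5]
    have a7 := (csG G).length_mul_le u' (u'⁻¹ * w)
    rw [mul_inv_cancel_left] at a7
    have a8 : ((csG G).simple r.2)⁻¹ * (u'⁻¹ * w) = u1⁻¹ * w := by
      rw [← phi_inj a3, mul_inv_rev, CoxeterSystem.inv_simple, mul_assoc,
        CoxeterSystem.simple_mul_simple_cancel_left]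
    rw [a8, CoxeterSystem.length_simple]
    omega

variable [Fintype V]

noncomputable def trCoding {ω : ℕ} (h0 : 0 < ω) (hω : ClB G ω) (hs : NoSq G) :
    Coding (gp G) (16 * ω) (Fintype.card V) where
  T := WG G
  anc := trc G
  ht := (csG G).length
  Nr u v := dW G u v ≤ 8 * ω
  τ := (csG G).length
  K := 8 * ω
  fin s := ⟨Sph G s, card_Sph s, fun w h => by
    have := mem_Sph (trc G w s)
    rwa [trc_len h] at this⟩
  coh w w' s t h1 h2 h3 h4 := by rw [← trc_trc h1 h2, h4, trc_trc h1 h3]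
  refl a := by rw [dW_self]; omega
  symm a b h := by rwa [dW_comm]
  qt w w' b c s t h1 h2 h3 h4 h5 h6 := by
    have := trc_dist hω hs (s := s) (v := trc G w t) (w := trc G w' t)
      (by rw [trc_len h2]; omega) (by rw [trc_len h3]; omega)
    rw [trc_trc (by omega) h2, trc_trc (by omega) h3, trc_len h2, trc_len h3] at this
    have := dW_tri (trc G w t) b (trc G w' t)
    have := dW_tri b c (trc G w' t)
    omega
  lo w w' s h1 h2 h3 := by
    obtain ⟨u, u1, u2⟩ := (csG G).exists_isReduced ((trc G w s)⁻¹ * trc G w' s)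
    have := gp_ge_of_pre (trc_pre w s) (trc_pre w' s) (u := u) (by rw [← u2]; group)
    rw [dW, u2, u1.eq] at h3
    have h4 : (u.length : ℝ) ≤ ((8 * ω : ℕ) : ℝ) := by exact_mod_cast h3
    linarith
  hi w w' s h1 h2 h3 := by
    have := trc_dist hω hs h1 h2
    rw [trc_len h1, gp_def]
    have h4 : (csG G).length w + (csG G).length w' ≤ 2 * s + (csG G).length (w⁻¹ * w') := by
      unfold dW at *; omega
    have h5 : ((csG G).length w : ℝ) + (csG G).length w' ≤ 2 * s + (csG G).length (w⁻¹ * w') := by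
      exact_mod_cast h4
    have : (0 : ℝ) ≤ ((8 * ω : ℕ) : ℝ) := by positivity
    linarith
  τ1 w s t h1 h2 := by
    rw [trc_len h2, trc_len (h1.trans h2)]
    have := Nat.le_mul_of_pos_left (t - s) (show 0 < 8 * ω by omega)
    omega
  hht w := (gp_self w).le

lemma sum_geo (w : WG G) (F : Finset (WG G)) :
    ∑ v ∈ F, (1 / (2 * Fintype.card V + 1) : ℝ) ^ dW G w v ≤ 2 := by
  classical
  rw [← Finset.sum_fiberwise_of_maps_to (t := Finset.Ico 0 (F.sup (dW G w) + 1))
    (g := dW G w) fun g hg => Finset.mem_Ico.2 ⟨Nat.zero_le _, Nat.lt_succ_of_le (Finset.le_sup hg)⟩]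
  refine le_trans (Finset.sum_le_sum fun j _ => ?_) ((geom_sum_Ico_le_of_lt_one
    (by norm_num : (0 : ℝ) ≤ 1 / 2) (by norm_num)).trans (by norm_num))
  rw [Finset.sum_congr rfl (g := fun _ => (1 / (2 * Fintype.card V + 1) : ℝ) ^ j) fun g hg => by
    rw [(Finset.mem_filter.1 hg).2], Finset.sum_const, nsmul_eq_mul]
  have h1 : (F.filter fun v => dW G w v = j).card ≤ Fintype.card V ^ j := by
    refine le_trans (Finset.card_le_card_of_injOn (fun v => w⁻¹ * v) (fun v hv => ?_)
      fun _ _ _ _ h => mul_left_cancel h) (card_Sph (G := G) j)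
    rw [← (Finset.mem_filter.1 hv).2]
    exact mem_Sph _
  calc _ ≤ ((Fintype.card V : ℝ) ^ j) * (1 / (2 * Fintype.card V + 1) : ℝ) ^ j := by
        gcongr; exact_mod_cast h1
    _ ≤ _ := by
        rw [← mul_pow]
        gcongr
        rw [mul_one_div, div_le_div_iff₀ (by positivity) (by norm_num)]
        linarith

end Pool.Agent.Lib.MP_845f45_al
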