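import Pool.Agent.Lib.MP_845f45_al.Car1
import Pool.Agent.Lib.MP_845f45_al.Car2

namespace Pool.Agent.Lib.MP_845f45_al

noncomputable def mxs {α : Type} (s : Finset α) (f : α → ℝ) : ℝ :=
  if h : s.Nonempty then s.sup' h f else 0

lemma le_mxs {α : Type} {s : Finset α} (f : α → ℝ) {a : α} (h : a ∈ s) : f a ≤ mxs s f := by
  unfold mxs; rw [dif_pos ⟨a, h⟩]; exact Finset.le_sup' f h

lemma mxs_cases {α : Type} (s : Finset α) (f : α → ℝ) :
    mxs s f = 0 ∨ ∃ a ∈ s, mxs s f = f a := by
  unfold mxs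
  split_ifs with h
  · exact Or.inr (Finset.exists_mem_eq_sup' h f)
  · exact Or.inl rfl

variable {V : Type} [DecidableEq V] {G : SimpleGraph V} [DecidableRel G.Adj] [Fintype V]

variable (G) in
noncomputable def Lv (j : ℕ) : Finset (WG G) := (Sph G j).filter fun w => (csG G).length w = j

lemma mem_Lv {j : ℕ} {w : WG G} : w ∈ Lv G j ↔ (csG G).length w = j := by
  rw [Lv, Finset.mem_filter]
  exact ⟨fun h => h.2, fun h => ⟨h ▸ mem_Sph w, h⟩⟩

variable (G) in
noncomputable def piW (k : ℕ) (κ : ℝ) (a : ℕ → WG G → WG G → ℝ) : ℕ → WG G → ℝ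
  | 0, _ => 1
  | n + 1, v => mxs (Lv G (n * k) ×ˢ Lv G ((n + 1) * k))
      fun t => piW k κ a n t.1 * a n t.1 t.2 * κ ^ dW G t.2 v

section
variable {k : ℕ} {κ : ℝ} {a : ℕ → WG G → WG G → ℝ}

lemma piW_nonneg (hκ : 0 < κ) (ha : ∀ n u w, 0 ≤ a n u w) (n : ℕ) : ∀ v, 0 ≤ piW G k κ a n v := by
  induction n with
  | zero => exact fun _ => zero_le_one
  | succ n ih =>
    intro v
    rw [piW]
    rcases mxs_cases (Lv G (n * k) ×ˢ Lv G ((n + 1) * k))
      fun t => piW G k κ a n t.1 * a n t.1 t.2 * κ ^ dW G t.2 v with h | ⟨t, -, h⟩ <;> rw [h]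
    exact mul_nonneg (mul_nonneg (ih _) (ha _ _ _)) (by positivity)

lemma piW_har (hκ : 0 < κ) (hκ1 : κ ≤ 1) (ha : ∀ n u w, 0 ≤ a n u w) (n : ℕ) (v v' : WG G) {j : ℕ}
    (hj : dW G v v' ≤ j) : κ ^ j * piW G k κ a n v ≤ piW G k κ a n v' := by
  rcases n with _ | n
  · simpa [piW] using pow_le_one₀ hκ.le hκ1
  · have h0 := piW_nonneg (k := k) hκ ha (n + 1) v'
    rw [piW] at h0 ⊢
    rcases mxs_cases (Lv G (n * k) ×ˢ Lv G ((n + 1) * k))
      fun t => piW G k κ a n t.1 * a n t.1 t.2 * κ ^ dW G t.2 v with h | ⟨t, ht, h⟩ <;> rw [h]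
    · rw [mul_zero]; exact h0
    · refine le_trans ?_ (le_mxs _ ht)
      have h1 := mul_nonneg (piW_nonneg (k := k) hκ ha n t.1) (ha n t.1 t.2)
      have h2 : κ ^ (dW G t.2 v + j) ≤ κ ^ dW G t.2 v' :=
        pow_le_pow_of_le_one hκ.le hκ1 (by have := dW_tri t.2 v v'; omega)
      rw [pow_add] at h2
      calc _ = piW G k κ a n t.1 * a n t.1 t.2 * (κ ^ dW G t.2 v * κ ^ j) := by ring
        _ ≤ _ := by gcongr

lemma piW_lo {n : ℕ} {u w : WG G} (hu : (csG G).length u = n * k)
    (hw : (csG G).length w = (n + 1) * k) :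
    piW G k κ a n u * a n u w ≤ piW G k κ a (n + 1) w := by
  have := le_mxs (s := Lv G (n * k) ×ˢ Lv G ((n + 1) * k))
    (fun t => piW G k κ a n t.1 * a n t.1 t.2 * κ ^ dW G t.2 w) (a := (u, w))
    (Finset.mem_product.2 ⟨mem_Lv.2 hu, mem_Lv.2 hw⟩)
  simpa [dW_self, piW] using this

lemma piW_hi {ω : ℕ} (hω : ClB G ω) (hs : NoSq G) (hκ : 0 < κ) (hκ1 : κ ≤ 1)
    (ha : ∀ n u w, 0 ≤ a n u w) (ha1 : ∀ n u w, (csG G).length u = n * k →
      (csG G).length w = (n + 1) * k → a n u w ≤ κ ^ (8 * ω) / 2)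
    (ha2 : ∀ n u w, 4 * ω < dW G u (trc G w (n * k)) → a n u w = 0) {n : ℕ} {v : WG G}
    (hv : (csG G).length v = (n + 1) * k) :
    piW G k κ a (n + 1) v ≤ 1 / 2 * piW G k κ a n (trc G v (n * k)) := by
  have h0 := piW_nonneg (k := k) hκ ha n (trc G v (n * k))
  rw [piW]
  rcases mxs_cases (Lv G (n * k) ×ˢ Lv G ((n + 1) * k))
    fun t => piW G k κ a n t.1 * a n t.1 t.2 * κ ^ dW G t.2 v with h | ⟨t, ht, h⟩ <;> rw [h]
  · positivity
  obtain ⟨t1, t2⟩ := Finset.mem_product.1 ht
  rw [mem_Lv] at t1 t2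
  by_cases e : 4 * ω < dW G t.1 (trc G t.2 (n * k))
  · rw [ha2 _ _ _ e, mul_zero, zero_mul]; positivity
  have l : n * k ≤ (n + 1) * k := by nlinarith
  have h1 := trc_dist hω hs (s := n * k) (v := t.2) (w := v) (by omega) (by omega)
  have h2 := dW_tri t.1 (trc G t.2 (n * k)) (trc G v (n * k))
  have h3 := piW_har (k := k) hκ hκ1 ha n t.1 (trc G v (n * k)) (j := 8 * ω + dW G t.2 v)
    (by omega)
  have h4 := piW_nonneg (k := k) hκ ha n t.1
  calc _ ≤ piW G k κ a n t.1 * (κ ^ (8 * ω) / 2) * κ ^ dW G t.2 v := by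
        gcongr; exact ha1 _ _ _ t1 t2
    _ = 1 / 2 * (κ ^ (8 * ω + dW G t.2 v) * piW G k κ a n t.1) := by rw [pow_add]; ring
    _ ≤ _ := by gcongr

lemma piW_sum {p : ℕ} (hκ : κ = 1 / (2 * Fintype.card V + 1)) (ha : ∀ n u w, 0 ≤ a n u w)
    (hs : ∀ n u, (csG G).length u = n * k → ∑ w ∈ Lv G ((n + 1) * k), a n u w ^ (p + 1) ≤ 1 / 2)
    (n : ℕ) : ∑ v ∈ Lv G (n * k), piW G k κ a n v ^ (p + 1) ≤ 1 := by
  have κ0 : 0 < κ := by rw [hκ]; positivity
  have κ1 : κ ≤ 1 := by
    rw [hκ]; exact div_le_one_of_le₀ (by linarith [Nat.cast_nonneg (α := ℝ) (Fintype.card V)])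
      (by positivity)
  induction n with
  | zero =>
    have : (Lv G 0).card ≤ 1 := (Finset.card_filter_le _ _).trans (by simpa using card_Sph (G := G) 0)
    simpa [piW] using this
  | succ n ih =>
    have nn := piW_nonneg (k := k) κ0 ha n
    calc ∑ v ∈ Lv G ((n + 1) * k), piW G k κ a (n + 1) v ^ (p + 1)
        ≤ ∑ v ∈ Lv G ((n + 1) * k), ∑ t ∈ Lv G (n * k) ×ˢ Lv G ((n + 1) * k),
            piW G k κ a n t.1 ^ (p + 1) * a n t.1 t.2 ^ (p + 1) * κ ^ dW G t.2 v := by
          refine Finset.sum_le_sum fun v _ => ?_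
          have h0 : ∀ t ∈ Lv G (n * k) ×ˢ Lv G ((n + 1) * k), 0 ≤
              piW G k κ a n t.1 ^ (p + 1) * a n t.1 t.2 ^ (p + 1) * κ ^ dW G t.2 v := fun t _ => by
            have := nn t.1; have := ha n t.1 t.2; positivity
          rw [piW]
          rcases mxs_cases (Lv G (n * k) ×ˢ Lv G ((n + 1) * k))
            fun t => piW G k κ a n t.1 * a n t.1 t.2 * κ ^ dW G t.2 v with h | ⟨t, ht, h⟩ <;> rw [h]
          · rw [zero_pow (by omega)]; exact Finset.sum_nonneg h0
          · refine le_trans ?_ (Finset.single_le_sum h0 ht)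
            rw [mul_pow, mul_pow]
            have := nn t.1; have := ha n t.1 t.2
            gcongr
            exact pow_le_of_le_one (by positivity) (pow_le_one₀ κ0.le κ1) (by omega)
      _ ≤ ∑ t ∈ Lv G (n * k) ×ˢ Lv G ((n + 1) * k),
            piW G k κ a n t.1 ^ (p + 1) * a n t.1 t.2 ^ (p + 1) * 2 := by
          rw [Finset.sum_comm]
          refine Finset.sum_le_sum fun t _ => ?_
          rw [← Finset.mul_sum]
          have := nn t.1; have := ha n t.1 t.2
          gcongr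
          rw [hκ]; exact sum_geo _ _
      _ ≤ ∑ u ∈ Lv G (n * k), piW G k κ a n u ^ (p + 1) := by
          rw [Finset.sum_product]
          refine Finset.sum_le_sum fun u hu => ?_
          simp only
          rw [← Finset.sum_mul, ← Finset.mul_sum]
          have := hs n u (mem_Lv.1 hu)
          have := pow_nonneg (nn u) (p + 1)
          nlinarith
      _ ≤ 1 := ih

end

lemma exists_lim {ω : ℕ} (h0 : 0 < ω) (hω : ClB G ω) (hδ : IsHyperbolic (gp G)) :
    ∃ (lim : Bdry (gp G) → ℕ → WG G) (PP : Bdry (gp G) → Bdry (gp G) → ℕ) (L : ℝ),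
      (∀ ξ s, (csG G).length (lim ξ s) = s) ∧ (∀ ξ s t, s ≤ t → trc G (lim ξ t) s = lim ξ s) ∧
      (∀ x y, PP x y = PP y x) ∧ (∀ x y, x ≠ y → 0 < PP x y) ∧
      (∀ x y s, s < PP x y → dW G (lim x s) (lim y s) ≤ 8 * ω) ∧
      (∀ x y, x ≠ y → ¬ dW G (lim x (PP x y)) (lim y (PP x y)) ≤ 8 * ω) ∧
      ∀ x y, x ≠ y → (PP x y : ℝ) - L ≤ bdProd (gp G) x y ∧ bdProd (gp G) x y ≤ PP x y + L := by
  let c := trCoding h0 hω (noSq_of_hyp hδ)
  have cl : ∀ ξ s, (csG G).length (c.lim ξ s) = s := fun ξ s => by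
    obtain ⟨w, h1, h2⟩ := c.exists_rep ξ s
    rw [← h2 s le_rfl]; exact trc_len h1
  obtain ⟨L, hL⟩ := c.bdProd_bound gp_comm hδ
  refine ⟨c.lim, c.PP, L, cl, fun ξ s t h => ?_, c.PP_symm, fun x y h => ?_,
    fun x y s h => c.PP_min h, fun x y h => c.PP_spec (c.exists_not_nr gp_comm hδ h),
    fun x y h => ?_⟩
  · obtain ⟨w, h1, h2⟩ := c.exists_rep ξ t
    rw [← h2 t le_rfl, ← h2 s h]; exact trc_trc h h1
  · exact c.lt_PP_of_eq (c.exists_not_nr gp_comm hδ h) (t := 0)
      (((csG G).length_eq_zero_iff.1 (cl x 0)).trans ((csG G).length_eq_zero_iff.1 (cl y 0)).symm)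
  · have h1 := hL x y h
    have h5 : c.τ (c.lim x (c.PP x y)) = c.PP x y := cl _ _
    rwa [h5] at h1

theorem confDim_le_of_hypF {ω p : ℕ} (h0 : 0 < ω) (hω : ClB G ω) (hδ : IsHyperbolic (gp G))
    (hF : HypF G (p + 1)) (m : MetricSpace (Bdry (gp G))) (hm : IsVisual (gp G) m) :
    confDim m ≤ (p + 1 : ℕ) := by
  classical
  have hs := noSq_of_hyp hδ
  set κ : ℝ := 1 / (2 * Fintype.card V + 1) with hκ
  have κ0 : 0 < κ := by rw [hκ]; positivity
  have κ1 : κ ≤ 1 := by
    rw [hκ]; exact div_le_one_of_le₀ (by linarith [Nat.cast_nonneg (α := ℝ) (Fintype.card V)])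
      (by positivity)
  set e : ℝ := κ ^ (8 * ω) / 8 with he
  have e0 : 0 < e := by positivity
  have e1 : κ ^ (8 * ω) ≤ 1 := pow_le_one₀ κ0.le κ1
  obtain ⟨k0, σ, σ0, σ1, σ2⟩ := hF (12 * ω) (e ^ (p + 1)) (by positivity)
  have σ3 : ∀ g, k0 ≤ (csG G).length g → σ g ≤ e := fun g hg =>
    (pow_le_pow_iff_left₀ (σ0 g) e0.le (Nat.succ_ne_zero p)).1 (by simpa using σ1 {g} (by simpa))
  set k := k0 + 1
  have k1 : 0 < k := by omega
  set η : ℝ := e / ((Ball G (4 * ω + k)).card + 1) with hη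
  have η0 : 0 < η := by positivity
  have η1 : η ≤ e := div_le_self e0.le (by linarith [Nat.cast_nonneg (α := ℝ) (Ball G (4 * ω + k)).card])
  choose ly l1 l2 l3 using exists_layer (G := G) hω
  let a : ℕ → WG G → WG G → ℝ := fun n u w =>
    if dW G u (trc G w (n * k)) ≤ 4 * ω then max (2 * σ ((ly u)⁻¹ * w)) η else 0
  have a0 : ∀ n u w, 0 ≤ a n u w := fun n u w => by
    simp only [a]; split_ifs
    · exact η0.le.trans (le_max_right _ _)
    · exact le_rfl
  have ln : ∀ n u w, (csG G).length u = n * k → (csG G).length w = (n + 1) * k →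
      k0 ≤ (csG G).length ((ly u)⁻¹ * w) := by
    intro n u w h1 h2
    have := (csG G).length_mul_le (ly u) ((ly u)⁻¹ * w)
    have := (l1 u).len
    rw [mul_inv_cancel_left] at *
    rw [add_mul] at h2
    omega
  have a1 : ∀ n u w, (csG G).length u = n * k → (csG G).length w = (n + 1) * k →
      a n u w ≤ κ ^ (8 * ω) / 2 := by
    intro n u w h1 h2
    simp only [a]; split_ifs
    · have := σ3 _ (ln n u w h1 h2)
      exact max_le (by linarith) (by linarith)
    · positivity
  have a2 : ∀ n u w, 4 * ω < dW G u (trc G w (n * k)) → a n u w = 0 := fun n u w h =>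
    if_neg (by omega)
  have a3 : ∀ n u, (csG G).length u = n * k →
      ∑ w ∈ Lv G ((n + 1) * k), a n u w ^ (p + 1) ≤ 1 / 2 := by
    intro n u hu
    set S := (Lv G ((n + 1) * k)).filter fun w => dW G u (trc G w (n * k)) ≤ 4 * ω
    have c1 : S.card ≤ (Ball G (4 * ω + k)).card := by
      refine Finset.card_le_card_of_injOn (fun w => u⁻¹ * w) (fun w hw => mem_Ball ?_)
        fun _ _ _ _ h => mul_left_cancel h
      obtain ⟨h1, h2⟩ := Finset.mem_filter.1 hw
      rw [mem_Lv, add_mul] at h1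
      have h3 : dW G _ _ + _ ≤ _ := (trc_pre w (n * k)).length_le
      rw [trc_len (by omega)] at h3
      have := dW_tri u (trc G w (n * k)) w
      change dW G u w ≤ _
      omega
    have c2 := σ1 (S.image fun w => (ly u)⁻¹ * w) fun g hg => by
      obtain ⟨w, hw, rfl⟩ := Finset.mem_image.1 hg
      exact ln n u w hu (mem_Lv.1 (Finset.mem_filter.1 hw).1)
    rw [Finset.sum_image fun _ _ _ _ h => mul_left_cancel h] at c2
    calc _ ≤ ∑ w ∈ S, (2 ^ (p + 1) * σ ((ly u)⁻¹ * w) ^ (p + 1) + η) := by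
          rw [Finset.sum_filter]
          refine Finset.sum_le_sum fun w _ => ?_
          simp only [a]
          split_ifs
          · have b1 := σ0 ((ly u)⁻¹ * w)
            rcases max_cases (2 * σ ((ly u)⁻¹ * w)) η with h | h <;> rw [h.1]
            · rw [mul_pow]; linarith
            · have : η ^ (p + 1) ≤ η := pow_le_of_le_one η0.le (by linarith) (Nat.succ_ne_zero p)
              have : 0 ≤ 2 ^ (p + 1) * σ ((ly u)⁻¹ * w) ^ (p + 1) := by positivity
              linarith
          · simp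
      _ ≤ (2 * e) ^ (p + 1) + (Ball G (4 * ω + k)).card * η := by
          rw [Finset.sum_add_distrib, ← Finset.mul_sum, Finset.sum_const, nsmul_eq_mul, mul_pow]
          gcongr
      _ ≤ 2 * e + e := by
          gcongr
          · exact pow_le_of_le_one (by positivity) (by linarith) (Nat.succ_ne_zero p)
          · rw [hη, mul_div_assoc', div_le_iff₀ (by positivity)]; nlinarith
      _ ≤ 1 / 2 := by linarith
  obtain ⟨lim, PP, L, cl, ct, s1, s2, s3, s4, hL⟩ := exists_lim h0 hω hδ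
  have lk : ∀ n, n * k ≤ (n + 1) * k := fun n => by nlinarith
  let D : Fill (Bdry (gp G)) (p + 1) :=
    { P := fun x y => (PP x y + k0) / k
      r := fun n x y => dW G (lim x (n * k)) (lim y (n * k))
      w := fun x n => piW G k κ a n (lim x (n * k))
      R0 := 4 * ω
      R := 8 * ω
      A := 1 / κ ^ (8 * ω)
      η := η
      η0 := η0
      η1 := by linarith
      A1 := by rw [le_div_iff₀ (by positivity)]; linarith
      R1 := by omega
      sym := fun x y => by rw [s1]
      P1 := fun x y h => Nat.div_pos (by have := s2 x y h; omega) k1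
      r0 := fun n x => dW_self _
      tri := fun n x y z => dW_tri _ _ _
      near := fun x y n h => by
        have := (Nat.le_div_iff_mul_le k1).1 h
        rw [Nat.succ_mul] at this
        exact s3 _ _ _ (by omega)
      far := fun x y n h h' => by
        have h1 := (Nat.div_lt_iff_lt_mul k1).1 (Nat.lt_succ_of_le h')
        rw [Nat.succ_mul] at h1
        have h2 := s4 x y h
        have h3 := trc_dist hω hs (s := PP x y) (v := lim x (n * k)) (w := lim y (n * k))
          (by rw [cl]; omega) (by rw [cl]; omega)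
        rw [ct _ _ _ (by omega), ct _ _ _ (by omega), cl, cl] at h3
        omega
      w0 := fun x => rfl
      lo := fun x n => by
        refine le_trans ?_ (piW_lo (cl x (n * k)) (cl x ((n + 1) * k)))
        rw [mul_comm]
        refine mul_le_mul_of_nonneg_left ?_ (piW_nonneg κ0 a0 _ _)
        simp only [a]
        rw [ct _ _ _ (lk n), dW_self, if_pos (Nat.zero_le _)]
        exact le_max_right _ _
      hi := fun x n => by
        have := piW_hi hω hs κ0 κ1 a0 a1 a2 (cl x ((n + 1) * k))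
        rwa [ct _ _ _ (lk n)] at this
      har := fun x y n h => by
        rw [div_mul_eq_mul_div, one_mul, le_div_iff₀' (by positivity)]
        exact piW_har κ0 κ1 a0 n _ _ h
      har' := fun x y n h => by
        rw [div_mul_eq_mul_div, one_mul, le_div_iff₀' (by positivity)]
        exact piW_har κ0 κ1 a0 n _ _ (by rwa [dW_comm])
      ann := fun n x y h => by
        set u := lim x (n * k)
        have hn : ¬ Pre G (ly u) (lim y ((n + 1) * k)) := by
          intro hp
          have b1 := (l1 u).len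
          have b2 := l2 u
          have b3 := lk n
          have b4 : (csG G).length u = n * k := cl _ _
          obtain ⟨u2, b5, b6, b7⟩ := hp.between ((n + 1) * k - n * k) (by rw [cl]; omega)
          rw [cl] at b7
          have b8 : dW G _ _ ≤ _ := dist_le_of_pre hω hs b6 (trc_pre _ (n * k))
            (by rw [trc_len (by rw [cl]; omega)]; omega)
          rw [ct _ _ _ b3] at b8
          have c1 : dW G _ _ + _ ≤ _ := (l1 u).length_le
          have c2 : dW G _ _ + _ ≤ _ := b5.length_le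
          have c3 := dW_tri u (ly u) (lim y (n * k))
          have c4 := dW_tri (ly u) u2 (lim y (n * k))
          rw [dW_comm u (ly u)] at c3
          omega
        obtain ⟨s, t, b1, b2, b3, b4⟩ := l3 u _ hn
        obtain ⟨F, f0, f1, f2⟩ := σ2 t s b1 b2
        refine ⟨fun z => F ((ly u)⁻¹ * lim z ((n + 1) * k)),
          fun z => σ ((ly u)⁻¹ * lim z ((n + 1) * k)), f0 _ (b4 _ ?_), f1 _ b3,
          fun z => (σ3 _ (ln n u _ (cl _ _) (cl _ _))).trans (by linarith), fun z z' hz => ?_,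
          fun z hz => ?_⟩
        · have := trc_pre (lim x ((n + 1) * k)) (n * k)
          rwa [ct _ _ _ (lk n)] at this
        · have := f2 ((ly u)⁻¹ * lim z ((n + 1) * k))
            ((lim z ((n + 1) * k))⁻¹ * lim z' ((n + 1) * k)) (by unfold dW at hz; omega)
          rwa [mul_assoc, mul_inv_cancel_left] at this
        · refine le_trans ?_ (piW_lo (cl x (n * k)) (cl z ((n + 1) * k)))
          rw [mul_comm]
          refine mul_le_mul_of_nonneg_left ?_ (piW_nonneg κ0 a0 _ _)
          simp only [a]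
          rw [ct _ _ _ (lk n), if_pos hz]
          exact le_max_left _ _
      cov := fun n => ⟨WG G, Lv G (n * k), fun x => lim x (n * k), piW G k κ a n,
        fun x => mem_Lv.2 (cl _ _), fun x y h => by simp only [h, dW_self], fun x => le_rfl,
        piW_nonneg κ0 a0 n, piW_sum hκ a0 a3 n⟩ }
  obtain ⟨b, k2, K', hb, hk, hv⟩ := hm
  have b0 : 0 < b := by linarith
  refine D.confDim_le m (a := b ^ k) (one_lt_pow₀ hb k1.ne') (k := k2 * b ^ (-L))
    (K := max K' 1 * b ^ (L + k)) (by positivity) (by positivity) fun x y hne => ?_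
  obtain ⟨h1, h2⟩ := hv x y hne
  obtain ⟨h3, h4⟩ := hL x y hne
  have h6 := Nat.div_mul_le_self (PP x y + k0) k
  have h7 := Nat.lt_div_mul_add (a := PP x y + k0) k1
  have h8 : (D.P x y : ℝ) * k ≤ PP x y + k := by
    have : (PP x y + k0) / k * k ≤ PP x y + k := by omega
    exact_mod_cast this
  have h9 : (PP x y : ℝ) ≤ (D.P x y : ℝ) * k := by
    have : PP x y ≤ (PP x y + k0) / k * k := by omega
    exact_mod_cast this
  rw [← Real.rpow_natCast, ← Real.rpow_mul b0.le]
  constructor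
  · refine le_trans ?_ h1
    rw [mul_assoc, ← Real.rpow_add b0]
    gcongr
    · exact hb.le
    · linarith
  · refine h2.trans ?_
    rw [mul_assoc, ← Real.rpow_add b0]
    gcongr
    · exact le_max_left _ _
    · exact hb.le
    · linarith

end Pool.Agent.Lib.MP_845f45_al
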