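import Pool.Agent.Lib.MP_845f45_al.Cnt

namespace Pool.Agent.Lib.MP_845f45_al

lemma cnt_num {M θ : ℝ} {T p r : ℕ} (hT : 0 < T) (hM : 1 ≤ M) (h0 : 0 ≤ θ) (h1 : θ ≤ 1)
    (h : θ ^ p ≤ 1 / (2 * M) ^ T) :
    M ^ r * (θ ^ (r / T)) ^ (p + 1) ≤ (2 * M) ^ T * (1 / 2) ^ r := by
  have e1 : (θ ^ (r / T)) ^ (p + 1) ≤ (1 / (2 * M) ^ T) ^ (r / T) := by
    rw [← pow_mul, mul_comm, pow_mul]
    gcongr
    exact (pow_le_pow_of_le_one h0 h1 (Nat.le_succ p)).trans h
  have e2 : (2 * M) ^ r ≤ (2 * M) ^ T * ((2 * M) ^ T) ^ (r / T) := by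
    rw [← pow_mul, ← pow_add]
    apply pow_le_pow_right₀ (by linarith)
    have := Nat.lt_div_mul_add (a := r) hT
    rw [mul_comm]; omega
  have e3 : (0 : ℝ) < ((2 * M) ^ T) ^ (r / T) := by positivity
  calc M ^ r * (θ ^ (r / T)) ^ (p + 1) ≤ M ^ r * (1 / (2 * M) ^ T) ^ (r / T) := by gcongr
    _ = (2 * M) ^ r / ((2 * M) ^ T) ^ (r / T) * (1 / 2) ^ r := by
        rw [one_div_pow, one_div_pow, mul_pow 2 M r]; field_simp
    _ ≤ _ := by
        gcongr
        rwa [div_le_iff₀ e3]

theorem hypF_of_LD (ω c : ℕ) (N : ℕ → ℕ) (h0 : 0 < ω) : ∃ p : ℕ, ∀ {V : Type} [Fintype V]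
    [DecidableEq V] (G : SimpleGraph V) [DecidableRel G.Adj], ClB G ω → NoSq G → LD G c N →
    HypF G (p + 1) := by
  set n := (ω + 3) * (c + 2)
  set T := 2 * (ω * (ω + 1)) with hT
  have hT0 : 0 < T := by positivity
  set M0 : ℝ := 2 * N (n + 4) * 2 ^ (n + 4)
  have hM0 : 0 ≤ M0 := by positivity
  set θ : ℝ := 1 - 1 / (ω : ℝ) ^ T with hθ
  have hω1 : (1 : ℝ) ≤ (ω : ℝ) ^ T := one_le_pow₀ (by exact_mod_cast h0)
  have θ0 : 0 ≤ θ := by rw [hθ, sub_nonneg]; exact div_le_one_of_le₀ hω1 (by positivity)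
  have θ1 : θ < 1 := by rw [hθ]; exact sub_lt_self _ (by positivity)
  obtain ⟨p, hp⟩ := exists_pow_lt_of_lt_one (show 0 < 1 / (2 * (M0 + 1)) ^ T by positivity) θ1
  refine ⟨p, fun {V} _ _ G _ hω hs D => ?_⟩
  classical
  obtain ⟨C, C0, hC⟩ := D.card_okL (n + 4)
  let NS : ℕ → Finset (WG G) := fun r =>
    (Sph G (ω + 1) ×ˢ Finset.univ.sigma fun a => D.okL (n + 4) a r).image
      fun t => t.1 * (csG G).wordProd (t.2.2 ++ [t.2.1])
  have cNS : ∀ r, ((NS r).card : ℝ) ≤ (Sph G (ω + 1)).card * (Fintype.card V * (C * (M0 + 1) ^ r)) := by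
    intro r
    refine (Nat.cast_le.2 Finset.card_image_le).trans ?_
    rw [Finset.card_product, Finset.card_sigma]
    push_cast
    gcongr
    refine (Finset.sum_le_card_nsmul _ _ (C * (M0 + 1) ^ r) fun a _ => (hC a r).trans ?_).trans
      (by simp)
    gcongr
    linarith
  let β : WG G → ℝ := fun h => if (csG G).length h < ω + 2 then 1 else
    if h ∈ NS ((csG G).length h - (ω + 2)) then θ ^ (((csG G).length h - (ω + 2)) / T) else 0
  refine hypF_of_beta β (fun g => ?_) ((Sph G (ω + 1)).card * (Fintype.card V * (C *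
    ((2 * (M0 + 1)) ^ T * 2 ^ (ω + 2))))) (ω + 2) (fun k hk S hS => ?_) fun x y hxy hn => ?_
  · simp only [β]; split_ifs <;> positivity
  · obtain ⟨r, rfl⟩ := Nat.exists_eq_add_of_le hk
    calc ∑ g ∈ S, β g ^ (p + 1) ≤ ∑ g ∈ S ∩ NS r, (θ ^ (r / T)) ^ (p + 1) := by
          rw [← Finset.filter_mem_eq_inter, Finset.sum_filter]
          refine Finset.sum_le_sum fun g hg => le_of_eq ?_
          simp only [β, hS g hg, Nat.add_sub_cancel_left, if_neg (show ¬ ω + 2 + r < ω + 2 by omega)]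
          split_ifs <;> simp
      _ ≤ (NS r).card * (θ ^ (r / T)) ^ (p + 1) := by
          rw [Finset.sum_const, nsmul_eq_mul]
          gcongr
          exact Finset.inter_subset_right
      _ ≤ (Sph G (ω + 1)).card * (Fintype.card V * (C * (M0 + 1) ^ r)) * (θ ^ (r / T)) ^ (p + 1) := by
          gcongr
          exact cNS r
      _ = (Sph G (ω + 1)).card * (Fintype.card V * (C * ((M0 + 1) ^ r * (θ ^ (r / T)) ^ (p + 1)))) := by
          ring
      _ ≤ (Sph G (ω + 1)).card * (Fintype.card V * (C * ((2 * (M0 + 1)) ^ T * (1 / 2) ^ r))) := by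
          gcongr _ * (_ * (_ * ?_))
          exact cnt_num hT0 (by linarith) θ0 θ1.le hp.le
      _ = _ := by
          rw [pow_add (1 / 2 : ℝ), one_div_pow 2 (ω + 2)]; field_simp
  · refine ⟨fun h => D.F (ω * (ω + 1)) x y (phi G h) [], fun g hg => ?_, fun g hg => ?_,
      fun g q hq => ?_⟩
    · simp only
      rw [D.F_eq, if_pos (show LD.PZ G x _ from Or.inl (pre_simple.1 hg))]
    · simp only
      have h1 := pre_simple.1 hg
      rw [D.F_eq, if_neg, if_pos (show LD.PZ G y _ from Or.inl h1)]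
      rintro (h | h)
      · exact hn ((phi_normal g).1 _ h _ h1 rfl hxy)
      · exact hn (h _ h1).symm
    · simp only [β, phi_mul_mx hq]
      have hB := phi_normal (G := G) g
      split_ifs with h1 h2
      · have a1 := D.F_mem (ω * (ω + 1)) x y _ (phi G g) [] rfl
        have a2 := D.F_mem (ω * (ω + 1)) x y _ ((phi G g).erase q) [] rfl
        rw [abs_le]; constructor <;> linarith [a1.1, a1.2, a2.1, a2.2]
      · refine LD.edge_le hω hs hxy hn hB h0 ?_ hq
        have := Nat.div_mul_le_self ((csG G).length g - (ω + 2)) T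
        rw [← length_eq_card, ← hT]
        omega
      · rw [abs_nonpos_iff, sub_eq_zero]
        by_contra hc
        apply h2
        have c1 : ((phi G g).erase q).card = (phi G g).card - 1 := Finset.card_erase_of_mem hq.1
        rw [length_eq_card] at h1 ⊢
        obtain ⟨L, l1, l2⟩ := D.exists_run (ω * (ω + 1)) ((phi G g).card - (ω + 2))
          (X := (phi G g).erase q) (by omega)
        have l3 := D.mem_okL (n := n) (p0 := q) (H := L) fun a z b e => by
          by_contra hc'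
          have b4 := congrArg List.length e
          simp only [List.length_append, List.length_cons] at b4
          refine hc (LD.edge_eq hω hs h0 hxy hn hB hq (H0 := b) (y := z)
            (fun a' z' b' e' => l2 [] (a ++ a') z' b' (by simp [e, e'])) (by omega) hc')
        obtain ⟨l4, l5⟩ := (l2 []).hs.low
        have l6 := psi_hs (hB.erase hq) (l2 []).hs
        have l7 := psi_erase _ _ rfl hB q hq
        have l8 := mem_Sph (G := G) (psi G ((phi G g).erase q \ L.toFinset))
        rw [length_eq_card, phi_psi _ _ rfl (l4.normal (hB.erase hq)),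
          show ((phi G g).erase q \ L.toFinset).card = ω + 1 by omega] at l8
        refine Finset.mem_image.2 ⟨(_, ⟨q.2, L.map Prod.snd⟩), Finset.mem_product.2 ⟨l8,
          Finset.mem_sigma.2 ⟨Finset.mem_univ _, l1 ▸ l3⟩⟩, ?_⟩
        simp only
        rw [CoxeterSystem.wordProd_append, CoxeterSystem.wordProd_singleton, ← mul_assoc, ← l6,
          ← l7, psi_phi]

end Pool.Agent.Lib.MP_845f45_al
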