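import Pool.Agent.Lib.MP_845f45_al.Tree2
import Pool.Agent.Lib.MP_845f45_al.Coding

namespace Pool.Agent.Lib.MP_845f45_al

variable {V : Type} [DecidableEq V] {G : SimpleGraph V} [DecidableRel G.Adj] {Δ lam : ℕ}

lemma Pre.trans {a b c : WG G} (h : Pre G a b) (h' : Pre G b c) : Pre G a c := by
  refine ⟨h.1.trans h'.1, fun p hp hp' q hq hlt => ?_⟩
  by_cases hb : p ∈ phi G b
  · exact h.2 p hb hp' q hq hlt
  · exact h'.2 p hp hb q (h.1 hq) hlt

lemma Pre.len_le {a b : WG G} (h : Pre G a b) : (csG G).length a ≤ (csG G).length b := by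
  have := h.length_le; omega

namespace Dat

variable {D : Dat G Δ lam}

lemma pre_dn_self (w : WG G) : Pre G (D.dn w) w ∧
    (csG G).length w ≤ (csG G).length (D.dn w) + 1 := by
  by_cases hw : (phi G w).Nonempty
  · obtain ⟨t, ht⟩ := D.exists_isTop hw
    refine ⟨⟨?_, fun p hp hp' q hq hlt => ?_⟩, ?_⟩
    · rw [ht.phi_dn]; exact Finset.erase_subset _ _
    · rw [ht.phi_dn] at hp' hq
      have : p = t := by
        by_contra hc
        exact hp' (Finset.mem_erase.2 ⟨hc, hp⟩)
      subst this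
      have := ht.level (Finset.mem_of_mem_erase hq)
      omega
    · rw [length_eq_card, length_eq_card, ht.phi_dn]
      exact (Finset.card_erase_add_one ht.1).ge
  · rw [dn_empty hw]; exact ⟨Pre.refl w, by omega⟩

lemma pre_par (x : WG G × ZZ) : Pre G (D.par x).1 x.1 ∧
    (csG G).length x.1 ≤ (csG G).length (D.par x).1 + 1 := by
  unfold par
  split_ifs
  · exact ⟨Pre.refl _, by simp⟩
  · exact pre_dn_self x.1

lemma pre_iter (k : ℕ) (x : WG G × ZZ) : Pre G (D.par^[k] x).1 x.1 ∧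
    (csG G).length x.1 ≤ (csG G).length (D.par^[k] x).1 + k := by
  induction k with
  | zero => exact ⟨Pre.refl _, by simp⟩
  | succ k ih =>
    rw [Function.iterate_succ_apply']
    have := pre_par (D := D) (D.par^[k] x)
    exact ⟨this.1.trans ih.1, by omega⟩

lemma Anc.pre {x y : WG G × ZZ} (h : D.Anc x y) : Pre G y.1 x.1 := by
  obtain ⟨k, rfl⟩ := h
  exact (pre_iter k x).1

lemma length_le_Hc (k : ℕ) : ∀ w : WG G, (phi G w).card = k → k ≤ D.Hc w := by
  induction k with
  | zero => simp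
  | succ k ih =>
    intro w hw
    obtain ⟨t, ht⟩ := D.exists_isTop (w := w) (Finset.card_pos.1 (by omega))
    have h1 := ih (D.dn w) (by
      rw [ht.phi_dn]; have := Finset.card_erase_add_one ht.1; omega)
    have := ht.Hc_eq
    simp only [Dat.ht] at this
    omega

variable (D) in
noncomputable def XX (w : WG G) : WG G × ZZ := (w, D.ent w)

lemma exists_trunc (L k : ℕ) : ∀ w : WG G, (phi G w).card = k →
    ∃ w', phi G w' = (phi G w).filter (fun p => p.1 < L) ∧ D.Anc (D.XX w) (D.XX w') := by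
  induction k using Nat.strong_induction_on with
  | _ k ih =>
    intro w hw
    by_cases h : ∀ p ∈ phi G w, p.1 < L
    · exact ⟨w, (Finset.filter_true_of_mem h).symm, Anc.refl _⟩
    · push Not at h
      obtain ⟨p, hp, hp'⟩ := h
      obtain ⟨t, ht⟩ := D.exists_isTop ⟨p, hp⟩
      have := ht.level hp
      obtain ⟨w', h1, h2⟩ := ih _ (by
        rw [← hw, ht.phi_dn]; exact Finset.card_erase_lt_of_mem ht.1) (D.dn w) rfl
      refine ⟨w', ?_, (anc_dn w _).trans ((anc_ent _ _).trans h2)⟩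
      rw [h1, ht.phi_dn, Finset.filter_erase, Finset.erase_eq_of_notMem]
      rw [Finset.mem_filter]
      intro hc
      have := hc.2
      omega

lemma pre_trunc {L : ℕ} {m w m' w' : WG G} (h : Pre G m w)
    (hm : phi G m' = (phi G m).filter (fun p => p.1 < L))
    (hw : phi G w' = (phi G w).filter (fun p => p.1 < L)) :
    Pre G m' w' ∧ ∀ p ∈ phi G w' \ phi G m', p ∈ phi G w \ phi G m ∧ p.1 < L := by
  have key : ∀ p ∈ phi G w' \ phi G m', p ∈ phi G w \ phi G m ∧ p.1 < L := by
    intro p hp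
    rw [hm, hw] at hp
    simp only [Finset.mem_sdiff, Finset.mem_filter] at hp ⊢
    tauto
  refine ⟨⟨?_, fun p hp hp' q hq => ?_⟩, key⟩
  · rw [hm, hw]; exact Finset.filter_subset_filter _ h.1
  · have := (key p (Finset.mem_sdiff.2 ⟨hp, hp'⟩)).1
    rw [Finset.mem_sdiff] at this
    rw [hm] at hq
    exact h.2 p this.1 this.2 q (Finset.mem_filter.1 hq).1

lemma good_iter {N : ℕ} (hN : ∀ w w' : WG G, Cl N (D.ent w) (D.ent w')) (k : ℕ) (x : WG G × ZZ)
    (hx : htZ (D.ent x.1) x.2 ≤ 2 * N) :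
    htZ (D.ent (D.par^[k] x).1) (D.par^[k] x).2 ≤ 2 * N ∧
    D.Hc x.1 + (2 * N + 1) * (csG G).length (D.par^[k] x).1 ≤
      D.Hc (D.par^[k] x).1 + (2 * N + 1) * (csG G).length x.1 := by
  induction k with
  | zero => exact ⟨hx, le_rfl⟩
  | succ k ih =>
    rw [Function.iterate_succ_apply']
    generalize D.par^[k] x = y at ih ⊢
    obtain ⟨w, z⟩ := y
    by_cases h : z = D.ent w
    · subst h
      rw [par_ent]
      have a1 := htZ_le_of_Cl (hN (D.dn w) w)
      refine ⟨a1, ?_⟩
      by_cases hw : (phi G w).Nonempty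
      · obtain ⟨t, ht⟩ := D.exists_isTop hw
        have e1 := ht.Hc_eq
        rw [← ht.ent_eq] at e1
        have e2 : (csG G).length w = (csG G).length (D.dn w) + 1 := by
          rw [length_eq_card, length_eq_card, ht.phi_dn]
          exact (Finset.card_erase_add_one ht.1).symm
        have e3 := ih.2
        simp only [Dat.ht] at e1 e3 ⊢
        rw [e2, mul_add] at e3
        omega
      · rw [dn_empty hw]; exact ih.2
    · rw [par_ne h]
      have := htZ_parZ h
      refine ⟨?_, ih.2⟩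
      have := ih.1
      simp only at this ⊢
      omega

open Classical in
variable (D) in
noncomputable def kidsT (fib : ZZ → Finset V) (x : WG G × ZZ) : Finset (WG G × ZZ) :=
  (kids x.2).image (fun z => (x.1, z)) ∪ (fib x.2).image fun v => (x.1 * (csG G).simple v, x.2)

open Classical in
variable (D) in
noncomputable def lvl (fib : ZZ → Finset V) : ℕ → Finset (WG G × ZZ)
  | 0 => {(1, (0, 0, 0))}
  | s + 1 => (lvl fib s).biUnion (kidsT (G := G) fib)

lemma card_lvl {μ : ℕ} {fib : ZZ → Finset V} (hfib : ∀ z, (fib z).card ≤ μ) (s : ℕ) :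
    (lvl (G := G) fib s).card ≤ (14 + μ) ^ s := by
  classical
  induction s with
  | zero => simp [lvl]
  | succ s ih =>
    rw [lvl, pow_succ]
    refine (Finset.card_biUnion_le_card_mul _ _ (14 + μ) fun x _ => ?_).trans
      (Nat.mul_le_mul_right _ ih)
    unfold kidsT
    refine (Finset.card_union_le _ _).trans (Nat.add_le_add ?_ ?_)
    · exact Finset.card_image_le.trans (card_kids _)
    · exact Finset.card_image_le.trans (hfib _)

lemma mem_lvl {fib : ZZ → Finset V} (hfib : ∀ v, v ∈ fib (D.f v)) (s : ℕ) :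
    ∀ x, D.ht x = s → x ∈ lvl (G := G) fib s := by
  classical
  induction s with
  | zero =>
    rintro ⟨w, z⟩ h
    simp only [Dat.ht] at h
    have h1 := length_le_Hc (D := D) _ w rfl
    have h2 : phi G w = ∅ := Finset.card_eq_zero.1 (by omega)
    have h3 : w = 1 := phi_inj (h2.trans phi_one.symm)
    have h4 : z = D.ent w := by
      by_contra hc
      have := htZ_parZ hc
      omega
    have h5 : D.ent w = (0, 0, 0) := by
      unfold ent; rw [dif_neg (by simp [h2])]
    simp [lvl, h4, h5, ← h3]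
  | succ s ih =>
    rintro ⟨w, z⟩ h
    rw [lvl, Finset.mem_biUnion]
    refine ⟨D.par (w, z), ih _ (by rw [(ht_par _).1]; omega), ?_⟩
    unfold kidsT
    rw [Finset.mem_union]
    by_cases hz : z = D.ent w
    · subst hz
      right
      rw [par_ent]
      have hw : (phi G w).Nonempty := by
        by_contra hw
        simp [Dat.ht, Hc_empty hw, htZ_self] at h
      obtain ⟨t, ht⟩ := D.exists_isTop hw
      refine Finset.mem_image.2 ⟨t.2, ?_, ?_⟩
      · rw [ht.ent_eq]; exact hfib _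
      · rw [ht.dn_eq, CoxeterSystem.simple_mul_simple_cancel_right]
    · left
      rw [par_ne hz]
      exact Finset.mem_image.2 ⟨z, mem_kids hz, rfl⟩

lemma exists_N [Fintype V] (D : Dat G Δ lam) : ∃ N, lam ≤ N ∧
    (∀ w w' : WG G, Cl N (D.ent w) (D.ent w')) ∧ ∀ v (w : WG G), Cl N (D.f v) (D.ent w) := by
  choose c hc using fun v => exists_Cl (D.f v) (0, 0, 0)
  obtain ⟨M, hM⟩ := (Set.finite_range c).bddAbove
  have h1 : ∀ v, Cl (M + 1) (D.f v) (0, 0, 0) := fun v =>
    (hc v).mono ((hM ⟨v, rfl⟩).trans (by omega))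
  have h2 : ∀ w : WG G, Cl (M + 1) (D.ent w) (0, 0, 0) := by
    intro w
    unfold ent
    split_ifs
    · exact h1 _
    · exact (Cl.refl _).mono (by omega)
  exact ⟨lam + (M + 1) + (M + 1), by omega,
    fun w w' => ((h2 w).trans (h2 w').symm).mono (by omega),
    fun v w => ((h1 v).trans (h2 w).symm).mono (by omega)⟩

lemma gp_le_of_not_near {N : ℕ} (hN0 : lam ≤ N) (hN : ∀ w w' : WG G, Cl N (D.ent w) (D.ent w'))
    (hN' : ∀ v (w : WG G), Cl N (D.f v) (D.ent w)) : ∃ K : ℕ, ∀ w w' s, s ≤ D.ht (D.XX w) →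
      s ≤ D.ht (D.XX w') → ¬ D.Near (RR Δ lam) (D.anc (D.XX w) s) (D.anc (D.XX w') s) →
      gp G w w' ≤ ((csG G).length (D.anc (D.XX w) s).1 : ℝ) + K := by
  set n := 2 * Δ + N
  refine ⟨2 * Δ + 2 + (cP Δ n n + (n * (6 * n + 1) + 4 * n)), fun w w' s hs hs' hn => ?_⟩
  obtain ⟨m, h1, h2, h3⟩ := exists_pre_gp w w'
  refine h3.trans ?_
  rw [← Nat.cast_add, Nat.cast_le]
  by_cases hc : ∃ q ∈ phi G m, 2 ≤ q.1
  swap
  · push Not at hc
    have := D.card_two_levels m 0 (phi G m) fun q hq => ⟨hq, by omega, by simpa using hc q hq⟩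
    rw [length_eq_card]
    omega
  obtain ⟨q0, hq0, hq0'⟩ := hc
  obtain ⟨q, hq, hq'⟩ := exists_top ⟨q0, hq0⟩
  have hq2 := hq' q0 hq0
  obtain ⟨q', e0, e1, e2, e3⟩ := (phi_normal m).2 q hq (by omega)
  obtain ⟨mL, a1, -⟩ := exists_trunc (D := D) q'.1 _ m rfl
  obtain ⟨wL, a2, a3⟩ := exists_trunc (D := D) q'.1 _ w rfl
  obtain ⟨wL', a4, a5⟩ := exists_trunc (D := D) q'.1 _ w' rfl
  obtain ⟨b1, b2⟩ := pre_trunc h1 a1 a2
  obtain ⟨b3, b4⟩ := pre_trunc h2 a1 a4
  have c1 := D.card_diff b1 e2 e3 fun p hp => by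
    have := b2 p hp
    exact ⟨h1.adj this.1 e0 (by omega), h1.adj this.1 hq (by omega)⟩
  have c2 := D.card_diff b3 e2 e3 fun p hp => by
    have := b4 p hp
    exact ⟨h2.adj this.1 e0 (by omega), h2.adj this.1 hq (by omega)⟩
  obtain ⟨u, u1, u2, -⟩ := pre_word b1 b3
  have hnear : D.Near n (D.XX wL) (D.XX wL') :=
    ⟨(hN _ _).mono (by omega), u, by omega, u2,
      fun v _ => ⟨(hN' _ _).mono (by omega), (hN' _ _).mono (by omega)⟩⟩
  have d1 := Near.ht_le (by omega) hnear
  have d2 : D.ht (D.XX wL) ≤ s + (cP Δ n n + (n * (6 * n + 1) + 4 * n)) := by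
    by_contra hc
    apply hn
    rw [a3.anc_eq (by omega), a5.anc_eq (by omega)]
    exact contract (by omega) hnear (by omega) (by omega)
  have d3 : (csG G).length m ≤ (csG G).length mL + (2 * Δ + 2) := by
    rw [length_eq_card, length_eq_card, a1]
    have := D.card_two_levels m q'.1 ((phi G m).filter fun p => ¬ p.1 < q'.1) fun p hp => by
      rw [Finset.mem_filter] at hp
      have := hq' p hp.1
      exact ⟨hp.1, by omega, by omega⟩
    have := Finset.card_filter_add_card_filter_not (s := phi G m) (fun p => p.1 < q'.1)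
    omega
  have d4 := b1.len_le
  have d5 : (csG G).length wL ≤ (csG G).length (D.anc (D.XX w) s).1 +
      (cP Δ n n + (n * (6 * n + 1) + 4 * n)) := by
    by_cases hle : s ≤ D.ht (D.XX wL)
    · rw [a3.anc_eq hle]
      have := (pre_iter (D := D) (D.ht (D.XX wL) - s) (D.XX wL)).2
      change (csG G).length wL ≤ (csG G).length (D.anc (D.XX wL) s).1 + _ at this
      omega
    · have e : D.XX wL = D.anc (D.anc (D.XX w) s) (D.ht (D.XX wL)) := by
        rw [← (anc_anc _ s).anc_eq (by rw [ht_anc hs]; omega)]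
        exact a3.eq_anc
      have := (anc_anc (D := D) (D.anc (D.XX w) s) (D.ht (D.XX wL))).pre.len_le
      rw [← e] at this
      change (csG G).length wL ≤ _ at this
      omega
  omega

end Dat

theorem exists_coding [Fintype V] (D : Dat G Δ lam) {μ : ℕ} {fib : ZZ → Finset V}
    (hfib : ∀ z, (fib z).card ≤ μ) (hfib' : ∀ v, v ∈ fib (D.f v)) :
    Nonempty (Coding (gp G) (cP Δ (3 * RR Δ lam) (3 * RR Δ lam)) (14 + μ)) := by
  obtain ⟨N, hN0, hN, hN'⟩ := D.exists_N
  obtain ⟨K, hK⟩ := Dat.gp_le_of_not_near hN0 hN hN'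
  refine ⟨{
    T := WG G × ZZ
    anc := fun w s => D.anc (D.XX w) s
    ht := fun w => D.ht (D.XX w)
    Nr := D.Near (RR Δ lam)
    τ := fun x => (csG G).length x.1
    K := K + RR Δ lam + (2 * N + 1)
    fin := fun s => ⟨Dat.lvl (G := G) fib s, Dat.card_lvl hfib s, fun w hw =>
      Dat.mem_lvl hfib' s _ (Dat.ht_anc hw)⟩
    coh := ?_, refl := ?_, symm := fun a b h => h.symm, qt := ?_, lo := ?_, hi := ?_
    τ1 := ?_, hht := ?_ }⟩
  · intro w w' s t hst h1 h2 h3
    rw [(Dat.anc_anc _ t).anc_eq (by rw [Dat.ht_anc h1]; exact hst),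
      (Dat.anc_anc (D.XX w') t).anc_eq (by rw [Dat.ht_anc h2]; exact hst), h3]
  · intro a
    exact (Dat.Near.refl a).mono (by unfold RR; omega)
  · intro w w' b c s t hst h1 h2 h3 h4 h5
    rw [(Dat.anc_anc _ t).anc_eq (by rw [Dat.ht_anc h1]; omega),
      (Dat.anc_anc (D.XX w') t).anc_eq (by rw [Dat.ht_anc h2]; omega)]
    have := Dat.lam_le_RR (Δ := Δ) (lam := lam)
    exact Dat.contract (n := 3 * RR Δ lam) (by omega) (((h3.trans h4).trans h5).mono (by omega))
      (by rw [Dat.ht_anc h1]; exact hst) (by rw [Dat.ht_anc h2]; omega)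
  · intro w w' s _ _ ⟨_, u, h2, h3, _⟩
    have := gp_ge_of_pre (Dat.anc_anc (D.XX w) s).pre (Dat.anc_anc (D.XX w') s).pre h3
    have h2' : (u.length : ℝ) ≤ RR Δ lam := by exact_mod_cast h2
    change _ ≤ gp G w w' at this
    push_cast
    have : (0 : ℝ) ≤ K := by positivity
    have : (0 : ℝ) ≤ N := by positivity
    linarith
  · intro w w' s h1 h2 h3
    have := hK w w' s h1 h2 h3
    push_cast
    have : (0 : ℝ) ≤ RR Δ lam := by positivity
    have : (0 : ℝ) ≤ N := by positivity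
    linarith
  · intro w s t hst h1
    have e := (Dat.anc_anc (D := D) (D.XX w) t).anc_eq (s := s) (by rw [Dat.ht_anc h1]; exact hst)
    have g1 := (Dat.good_iter hN (D.ht (D.XX w) - t) (D.XX w) (by simp [Dat.XX, htZ_self])).1
    change htZ (D.ent (D.anc (D.XX w) t).1) (D.anc (D.XX w) t).2 ≤ _ at g1
    have h2 := Dat.ht_anc h1
    simp only [e]
    generalize D.anc (D.XX w) t = y at g1 h2 ⊢
    have a1 := Dat.pre_iter (D := D) (D.ht y - s) y
    have a2 := (Dat.good_iter hN (D.ht y - s) y g1).2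
    have a3 := Dat.ht_anc (D := D) (x := y) (s := s) (by omega)
    change Pre G (D.anc y s).1 y.1 ∧ _ ≤ (csG G).length (D.anc y s).1 + _ at a1
    change _ + _ * (csG G).length (D.anc y s).1 ≤ D.Hc (D.anc y s).1 + _ at a2
    have a4 := a1.1.len_le
    refine ⟨a4, by omega, ?_⟩
    obtain ⟨j, hj⟩ := Nat.exists_eq_add_of_le a4
    rw [hj, mul_add] at a2
    rw [hj, Nat.add_sub_cancel_left, add_mul]
    simp only [Dat.ht] at a3 h2
    omega
  · intro w
    rw [gp_self, Nat.cast_le, length_eq_card]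
    have := Dat.length_le_Hc (D := D) _ w rfl
    simp only [Dat.ht, Dat.XX]
    omega

end Pool.Agent.Lib.MP_845f45_al
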