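import Pool.Agent.Lib.MP_845f45_al.Reg
import Pool.Agent.Lib.MP_845f45_al.Tree3
import Pool.Agent.Lib.MP_845f45_al.Bd3

namespace Pool.Agent.Lib.MP_845f45_al

open SimpleGraph

variable {V : Type} {G : SimpleGraph V}

lemma cyc_of_iso {v : V} {n : ℕ} (hn : 4 ≤ n) (φ : G.induce (G.neighborSet v) ≃g cycleGraph n) :
    ∃ c, Cyc G v n c := by
  refine ⟨fun i => if h : i < n then (φ.symm ⟨i, h⟩).1 else v, hn, ?_, ?_, ?_, ?_⟩
  · intro i j hi hj e
    simp only [dif_pos hi, dif_pos hj] at e
    have := φ.symm.injective (Subtype.ext e)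
    simpa using this
  · intro i hi
    simp only [dif_pos hi]
    exact (φ.symm ⟨i, hi⟩).2
  · intro u hu
    exact ⟨(φ ⟨u, hu⟩).1, (φ ⟨u, hu⟩).2, by simp⟩
  · intro i j hi hj
    simp only [dif_pos hi, dif_pos hj]
    have := φ.symm.map_adj_iff (v := ⟨i, hi⟩) (w := ⟨j, hj⟩)
    rw [cycleGraph_adj'] at this
    refine this.trans ?_
    simp only [Fin.sub_def, Nx]
    have key : ∀ a b : ℕ, a < n → b < n → ((n - b + a) % n = 1 ↔ (a = b + 1 ∨ (a = 0 ∧ b + 1 = n))) := by
      intro a b ha hb
      by_cases h : b ≤ a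
      · rw [show n - b + a = (a - b) + n by omega, Nat.add_mod_right, Nat.mod_eq_of_lt (by omega)]
        omega
      · rw [Nat.mod_eq_of_lt (by omega)]
        omega
    rw [key i j hi hj, key j i hj hi]
    tauto

lemma surf_of_nerve [Fintype V] [DecidableEq V] [DecidableRel G.Adj] {χ : ℤ} {Δ : ℕ}
    (h : IsSurfaceNerve G χ) (hΔ : ∀ v, G.degree v ≤ Δ) : Surf G Δ (-6 * χ).toNat := by
  obtain ⟨h1, h2, h3⟩ := h
  have h4 : ∀ v, ∃ c, Cyc G v (G.degree v) c := by
    intro v
    obtain ⟨n, hn, ⟨φ⟩⟩ := h2 v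
    have : G.degree v = n := by
      rw [← card_neighborSet_eq_degree, Fintype.card_congr φ.toEquiv, Fintype.card_fin]
    rw [this]
    exact cyc_of_iso hn φ
  refine ⟨fun u v => (reachable_iff_reflTransGen u v).1 (h1.preconnected u v),
    fun v => G.degree v, fun v => ⟨hΔ v, h4 v⟩, ?_⟩
  have h5 := sum_SW (θ := fun v => (Fintype.equivFin V v : ℕ)) h4
  have h6 : (G.cliqueFinset 3).card ≤ ∑ v, (SW G (fun v => (Fintype.equivFin V v : ℕ)) v).card := by
    rw [← Finset.card_sigma]
    refine le_trans (Finset.card_le_card ?_) (Finset.card_image_le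
      (f := fun t : (Σ _ : V, V × V) => ({t.1, t.2.1, t.2.2} : Finset V)))
    intro s hs
    rw [mem_cliqueFinset_iff, is3Clique_iff] at hs
    obtain ⟨a, b, c, hab, hac, hbc, rfl⟩ := hs
    have key : ∀ x y z : V, G.Adj x y → G.Adj x z → G.Adj y z →
        (Fintype.equivFin V y : ℕ) < Fintype.equivFin V x →
        (Fintype.equivFin V x : ℕ) < Fintype.equivFin V z → ({x, y, z} : Finset V) = {a, b, c} →
        ({a, b, c} : Finset V) ∈ (Finset.univ.sigma
          (SW G fun v => (Fintype.equivFin V v : ℕ))).image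
          fun t : (Σ _ : V, V × V) => ({t.1, t.2.1, t.2.2} : Finset V) := by
      intro x y z a1 a2 a3 a4 a5 a6
      refine Finset.mem_image.2 ⟨⟨x, y, z⟩, ?_, a6⟩
      simp only [SW, Finset.mem_sigma, Finset.mem_filter, Finset.mem_univ, true_and]
      exact ⟨a1, a2, a3, a4, a5⟩
    have ne : ∀ x y : V, G.Adj x y → (Fintype.equivFin V x : ℕ) ≠ Fintype.equivFin V y :=
      fun x y h e => h.ne ((Fintype.equivFin V).injective (Fin.ext e))
    have n1 := ne _ _ hab
    have n2 := ne _ _ hac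
    have n3 := ne _ _ hbc
    rcases lt_or_gt_of_ne n1 with l1 | l1 <;> rcases lt_or_gt_of_ne n2 with l2 | l2 <;>
      rcases lt_or_gt_of_ne n3 with l3 | l3
    · exact key b a c hab.symm hbc hac l1 l3 (by ext; simp; tauto)
    · exact key c a b hac.symm hbc.symm hab l2 l3 (by ext; simp; tauto)
    · omega
    · exact key a c b hac hab hbc.symm l2 l1 (by ext; simp; tauto)
    · exact key a b c hab hac hbc l1 l2 rfl
    · omega
    · exact key c b a hbc.symm hac.symm hab.symm l3 l2 (by ext; simp; tauto)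
    · exact key b c a hbc hab.symm hac.symm l3 l1 (by ext; simp; tauto)
  have h7 := G.sum_degrees_eq_twice_card_edges
  have h8 := Int.self_le_toNat (-6 * χ)
  change ∑ v, G.degree v ≤ _
  omega

theorem thmA (Δ lam μ : ℕ) : ∃ d : ℕ, ∀ {V : Type} [Fintype V] [DecidableEq V]
    (G : SimpleGraph V) [DecidableRel G.Adj] (f : V → ZZ),
    (∀ v (s : Finset V), (∀ u ∈ s, G.Adj v u) → s.card ≤ Δ) →
    (∀ u v, G.Adj u v → Cl lam (f u) (f v)) → (∀ z, {v | f v = z}.ncard ≤ μ) →
    IsHyperbolic (gp G) → (∃ m : MetricSpace (Bdry (gp G)), IsVisual (gp G) m) ∧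
      ∀ m : MetricSpace (Bdry (gp G)), IsVisual (gp G) m → confDim m ≤ d := by
  refine ⟨(cP Δ (3 * RR Δ lam) (3 * RR Δ lam) + 1) * (14 + μ),
    fun {V} _ _ G _ f h1 h2 h3 h4 => ?_⟩
  let D : Dat G Δ lam :=
    { κ := fun p => p.1 * Fintype.card V + Fintype.equivFin V p.2
      κinj := by
        intro p q h
        have a1 := (Fintype.equivFin V p.2).2
        have a2 := (Fintype.equivFin V q.2).2
        have e1 : p.1 = q.1 := by
          rcases lt_trichotomy p.1 q.1 with l | l | l
          · have := Nat.mul_le_mul_right (Fintype.card V) (show p.1 + 1 ≤ q.1 from l)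
            simp only [add_mul] at this h
            omega
          · exact l
          · have := Nat.mul_le_mul_right (Fintype.card V) (show q.1 + 1 ≤ p.1 from l)
            simp only [add_mul] at this h
            omega
        simp only [e1] at h
        exact Prod.ext e1 ((Fintype.equivFin V).injective (Fin.ext (by omega)))
      κmono := by
        intro p q l
        have a1 := (Fintype.equivFin V p.2).2
        have := Nat.mul_le_mul_right (Fintype.card V) (show p.1 + 1 ≤ q.1 from l)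
        simp only [add_mul] at this
        omega
      f := f, hf := h2, hΔ := h1, nosq := noSq_of_hyp h4 }
  obtain ⟨c⟩ := exists_coding D (μ := μ) (fib := fun z => Finset.univ.filter fun v => f v = z)
    (fun z => by
      have := h3 z
      rwa [Set.ncard_eq_toFinset_card', Set.toFinset_setOf] at this)
    (fun v => by simp [D])
  exact ⟨c.exists_visual gp_comm h4, fun m hm => c.confDim_le gp_comm h4 m hm⟩

theorem bounded_valence (χ : ℤ) (Δ : ℕ) : ∃ d : ℕ, ∀ (V : Type) [Fintype V] [DecidableEq V]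
    (G : SimpleGraph V) [DecidableRel G.Adj], IsSurfaceNerve G χ → (∀ v, G.degree v ≤ Δ) →
    IsHyperbolic (gp G) → (∃ m : MetricSpace (Bdry (gp G)), IsVisual (gp G) m) ∧
      ∀ m : MetricSpace (Bdry (gp G)), IsVisual (gp G) m → confDim m ≤ d := by
  obtain ⟨lam, μ, h1⟩ := exists_regular (Δ := max Δ 6) (e := (-6 * χ).toNat) (le_max_right _ _)
  obtain ⟨d, h2⟩ := thmA (max Δ 6) lam μ
  refine ⟨d, fun V _ _ G _ a1 a2 a3 => ?_⟩
  have hS := surf_of_nerve a1 fun v => (a2 v).trans (le_max_left Δ 6)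
  obtain ⟨f, b1, b2⟩ := h1 G hS
  refine h2 G f (fun v s hs => ?_) b1 b2 a3
  exact (Finset.card_le_card fun u hu => mem_nb.2 (hs u hu)).trans (hS.card_nb v)

end Pool.Agent.Lib.MP_845f45_al
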