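import Pool.Agent.Lib.MP_845f45_al.Pack
import Pool.Agent.Lib.MP_845f45_al.Car3
import Pool.Agent.Lib.MP_845f45_al.Cnt2
import Pool.Agent.Lib.MP_845f45_al.Main

namespace Pool.Agent.Lib.MP_845f45_al

open Real Relation

variable {V : Type} [Fintype V] {G : SimpleGraph V} {r : V → ℝ}

def Opp (G : SimpleGraph V) (v b b' : V) : Prop := G.Adj v b ∧ G.Adj v b' ∧ b ≠ b' ∧ ¬ G.Adj b b'

lemma exists_ext (r : V → ℝ) : ∃ r' : V → ℝ, ∀ v, r v ≤ r' v ∧
    (∀ b b', Opp G v b b' → min (r b) (r b') ≤ r' v) ∧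
    (r' v = r v ∨ ∃ b b', Opp G v b b' ∧ r' v ≤ r b ∧ r' v ≤ r b') := by
  classical
  have key : ∀ v, ∃ x, r v ≤ x ∧ (∀ b b', Opp G v b b' → min (r b) (r b') ≤ x) ∧
      (x = r v ∨ ∃ b b', Opp G v b b' ∧ x ≤ r b ∧ x ≤ r b') := by
    intro v
    obtain ⟨p, hp⟩ := Finite.exists_max fun o : Option {p : V × V // Opp G v p.1 p.2} =>
      o.elim (r v) fun p => min (r p.1.1) (r p.1.2)
    refine ⟨_, hp none, fun b b' h => hp (some ⟨(b, b'), h⟩), ?_⟩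
    rcases p with _ | p
    · exact Or.inl rfl
    · exact Or.inr ⟨_, _, p.2, min_le_left _ _, min_le_right _ _⟩
  choose r' h using key
  exact ⟨r', h⟩

lemma PK.cl {E : ℝ} (h : PK G r E) (hs : NoSq G) {r' : V → ℝ} (h1 : ∀ v, r v ≤ r' v)
    (h2 : ∀ v b b', Opp G v b b' → min (r b) (r b') ≤ r' v)
    (h3 : ∀ v, r' v = r v ∨ ∃ b b', Opp G v b b' ∧ r' v ≤ r b ∧ r' v ≤ r b') {Λ : ℝ}
    (hΛ : 40 * (2 * |E| + 1) ≤ Λ) {v b b' : V} (hv : Opp G v b b') :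
    min (r' b) (r' b') ≤ Λ * (4 + 8 * Λ) * r' v := by
  have E0 := abs_nonneg E
  have rR : ∀ g, 40 * r g ≤ Λ := fun g => by
    have a1 := sq_le_cosh (h.1 g).le
    have a2 := (Finset.single_le_sum (f := fun v => cosh (r v) - 1)
      (fun v _ => sub_nonneg.2 (one_le_cosh (r v))) (Finset.mem_univ g)).trans h.2.1
    have a3 := le_abs_self E
    nlinarith [h.1 g]
  have thr : ∀ {g1 g2 g3 x1 x2 x3 x}, 0 < x → Wk G r v g1 x1 → Wk G r v g2 x2 → Wk G r v g3 x3 →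
      x1 ≤ x → x2 ≤ x → x3 ≤ x → Λ * x ≤ r g1 → Λ * x ≤ r g2 → Λ * x ≤ r g3 → g1 ≠ g2 → g1 ≠ g3 →
      g2 ≠ g3 → False := by
    intro g1 g2 g3 x1 x2 x3 x x0 w1 w2 w3 l1 l2 l3 r1 r2 r3
    refine h.three (s := Λ * x) ?_ (by nlinarith) (by nlinarith) w1 w2 w3 l1 l2 l3 r1 r2 r3
    refine le_of_mul_le_mul_left (a := Λ) ?_ (by linarith)
    linarith [rR g1]
  have key : ∀ b b', Opp G v b b' → r b ≤ r' v → Λ * (4 + 8 * Λ) * r' v < r' b →
      Λ * (4 + 8 * Λ) * r' v < r' b' → False := by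
    intro b b' hv a1 a2 a3
    have ρ0 : 0 < r' v := (h.1 v).trans_le (h1 v)
    have ρ1 := h1 v
    have Λ1 : 1 ≤ Λ := by linarith
    have m0 : 0 < Λ * r' v := by positivity
    have m1 : r' v ≤ Λ * r' v := le_mul_of_one_le_left ρ0.le Λ1
    have m2 : Λ * r' v ≤ Λ * (Λ * r' v) := le_mul_of_one_le_left m0.le Λ1
    rw [show Λ * (4 + 8 * Λ) * r' v = 4 * (Λ * r' v) + 8 * (Λ * (Λ * r' v)) by ring] at a2 a3
    obtain ⟨c, c', c1, c2, c3⟩ := (h3 b).resolve_left (by linarith)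
    have wb := (Wk.refl (G := G) (r := r)).tail hv.1
    have wb' := (Wk.refl (G := G) (r := r)).tail hv.2.1
    by_cases e : Λ * (4 * r' v) ≤ r b'
    · exact thr (x := 4 * r' v) (by linarith) (wb.tail c1.1) (wb.tail c1.2.1) wb' (by linarith)
        (by linarith) (by linarith) (by linarith) (by linarith) e c1.2.2.1
        (fun e => hv.2.2.2 (e ▸ c1.1)) fun e => hv.2.2.2 (e ▸ c1.2.1)
    obtain ⟨d, d', d1, d2, d3⟩ := (h3 b').resolve_left (by linarith)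
    have k : ∀ d, G.Adj b' d → r' b' ≤ r d → d = c ∨ d = c' := fun d e1 e2 => by
      by_contra hc
      push Not at hc
      exact thr (x := 4 * r' v + 8 * (Λ * r' v)) (by linarith) (wb.tail c1.1) (wb.tail c1.2.1)
        (wb'.tail e1) (by linarith) (by linarith) (by linarith) (by linarith) (by linarith)
        (by linarith) c1.2.2.1 hc.1.symm hc.2.symm
    have k1 : G.Adj b' c ∧ G.Adj b' c' := by
      rcases k d d1.1 d2 with rfl | rfl <;> rcases k d' d1.2.1 d3 with rfl | rfl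
      · exact absurd rfl d1.2.2.1
      · exact ⟨d1.1, d1.2.1⟩
      · exact ⟨d1.2.1, d1.1⟩
      · exact absurd rfl d1.2.2.1
    exact hv.2.2.2 (hs c c' b b' c1.2.2.1 c1.2.2.2 c1.1 c1.2.1 k1.1 k1.2 hv.2.2.1)
  by_contra hc
  rw [not_le, lt_min_iff] at hc
  rcases min_le_iff.1 (h2 v b b' hv) with e | e
  · exact key b b' hv e hc.1 hc.2
  · exact key b' b ⟨hv.2.1, hv.1, hv.2.2.1.symm, fun e => hv.2.2.2 e.symm⟩ e hc.2 hc.1

lemma ext_count (E μ : ℝ) (hμ : 0 < μ) (ω : ℕ) : ∃ N : ℕ, ∀ {V : Type} [Fintype V]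
    {G : SimpleGraph V} {r r' : V → ℝ}, PK G r E → NoSq G → ClB G ω →
    (∀ v, r' v = r v ∨ ∃ b b', Opp G v b b' ∧ r' v ≤ r b ∧ r' v ≤ r b') →
    ∀ (a : V) (s : ℝ) (S : Finset V), 0 < s →
      (∀ g ∈ S, s ≤ r' g ∧ ∃ x, x ≤ μ * s ∧ Wk G r a g x) → S.card ≤ N := by
  obtain ⟨N, hN⟩ := pk_count E (μ + 2) (by linarith)
  refine ⟨N + N * N * ω, fun {V} _ {G r r'} h hs hω h3 a s S s0 hS => ?_⟩
  classical
  set T := Finset.univ.filter fun g => s ≤ r g ∧ ∃ x, x ≤ (μ + 2) * s ∧ Wk G r a g x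
  have hT : T.card ≤ N := hN h a s T s0 fun g hg => (Finset.mem_filter.1 hg).2
  have sub : S ⊆ T ∪ (T ×ˢ T).biUnion fun p => Finset.univ.filter fun g => Opp G g p.1 p.2 := by
    intro g hg
    obtain ⟨a1, x, a2, a3⟩ := hS g hg
    by_cases e : s ≤ r g
    · exact Finset.mem_union_left _ (Finset.mem_filter.2
        ⟨Finset.mem_univ _, e, x, by linarith, a3⟩)
    · obtain ⟨b, b', b1, b2, b3⟩ := (h3 g).resolve_left fun e' => e (e' ▸ a1)
      refine Finset.mem_union_right _ (Finset.mem_biUnion.2 ⟨(b, b'), Finset.mem_product.2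
        ⟨Finset.mem_filter.2 ⟨Finset.mem_univ _, a1.trans b2, _, ?_, a3.tail b1.1⟩,
        Finset.mem_filter.2 ⟨Finset.mem_univ _, a1.trans b3, _, ?_, a3.tail b1.2.1⟩⟩,
        Finset.mem_filter.2 ⟨Finset.mem_univ _, b1⟩⟩) <;> linarith
  refine (Finset.card_le_card sub).trans ((Finset.card_union_le _ _).trans (add_le_add hT ?_))
  refine (Finset.card_biUnion_le_card_mul _ _ ω fun p _ => hω _ fun g hg g' hg' hne => ?_).trans ?_
  · have e1 := (Finset.mem_filter.1 hg).2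
    have e2 := (Finset.mem_filter.1 hg').2
    exact hs p.1 p.2 g g' e1.2.2.1 e1.2.2.2 e1.1 e1.2.1 e2.1 e2.2.1 hne
  · rw [Finset.card_product]; gcongr

theorem exists_LD (E : ℝ) (ω : ℕ) : ∃ (c : ℕ) (N : ℕ → ℕ), ∀ {V : Type} [Fintype V]
    {G : SimpleGraph V} {r : V → ℝ}, PK G r E → NoSq G → ClB G ω →
    (∀ u v, ReflTransGen G.Adj u v) → Nonempty (LD G c N) := by
  choose N hN using fun n : ℕ => ext_count E (4 * 2 ^ n * 2 ^ n) (by positivity) ω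
  set Λ := 40 * (2 * |E| + 1)
  obtain ⟨c, hc⟩ := pow_unbounded_of_one_lt (Λ * (4 + 8 * Λ)) (one_lt_two (α := ℝ))
  refine ⟨c, N, fun {V} _ {G r} h hs hω hcon => ?_⟩
  classical
  obtain ⟨r', hr⟩ := exists_ext (G := G) r
  obtain ⟨ε, ε0, -, hε⟩ := FlD.exists_low r h.1
  have ex : ∀ x : ℝ, ∃ j : ℕ, x ≤ ε * 2 ^ j := fun x => by
    obtain ⟨j, hj⟩ := pow_unbounded_of_one_lt (x / ε) (one_lt_two (α := ℝ))
    exact ⟨j, ((div_lt_iff₀' ε0).1 hj).le⟩
  have ex2 : ∀ a g, ∃ j : ℕ, ∃ x, Wk G r a g x ∧ x ≤ ε * 2 ^ j := fun a g => by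
    obtain ⟨x, hx⟩ := Wk.of_rtg (r := r) (hcon a g)
    exact (ex x).imp fun j hj => ⟨x, hx, hj⟩
  have mono : ∀ {i j : ℕ}, i ≤ j → ε * 2 ^ i ≤ ε * 2 ^ j := fun h => by
    gcongr; exact one_le_two
  have ρ1 := fun v => Nat.find_spec (ex (2 * r' v))
  refine ⟨⟨fun v => Nat.find (ex (2 * r' v)), fun a g => Nat.find (ex2 a g), fun a => ?_,
    fun a b g => ?_, fun a g e => ?_, fun a g => ?_, fun v b b' e1 e2 e3 e4 => ?_,
    fun a K n s hS => ?_⟩⟩
  · exact Nat.find_min' _ ⟨0, Wk.refl, by positivity⟩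
  · obtain ⟨x, x1, x2⟩ := Nat.find_spec (ex2 a b)
    obtain ⟨y, y1, y2⟩ := Nat.find_spec (ex2 b g)
    refine Nat.find_min' _ ⟨_, x1.trans y1, ?_⟩
    rw [pow_succ]
    linarith [x2.trans (mono (le_max_left _ (Nat.find (ex2 b g)))),
      y2.trans (mono (le_max_right (Nat.find (ex2 a b)) _))]
  · exact Nat.find_min' _ ⟨_, Wk.refl.tail e, by linarith [ρ1 a, (hr a).1]⟩
  · obtain ⟨x, x1, x2⟩ := Nat.find_spec (ex2 a g)
    refine Nat.find_min' _ ⟨_, x1.symm, ?_⟩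
    rw [pow_succ]
    linarith [x2.trans (mono (le_max_left _ (Nat.find (ex (2 * r' g))))),
      (ρ1 g).trans (mono (le_max_right (Nat.find (ex2 a g)) _)), (hr g).1, h.1 a]
  · have k : ∀ b, r' b ≤ Λ * (4 + 8 * Λ) * r' v →
        Nat.find (ex (2 * r' b)) ≤ Nat.find (ex (2 * r' v)) + c := fun b hb => by
      refine Nat.find_min' _ ?_
      have a1 := (h.1 v).trans_le (hr v).1
      have a2 := mul_le_mul_of_nonneg_right hc.le a1.le
      have a3 := mul_le_mul_of_nonneg_left (ρ1 v) (show (0 : ℝ) ≤ 2 ^ c by positivity)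
      rw [pow_add]
      linarith
    rcases min_le_iff.1 (h.cl hs (fun v => (hr v).1) (fun v => (hr v).2.1) (fun v => (hr v).2.2)
      (le_refl Λ) ⟨e3, e4, e1, e2⟩) with e | e
    · exact (min_le_left _ _).trans (k b e)
    · exact (min_le_right _ _).trans (k b' e)
  · refine hN n h hs hω (fun v => (hr v).2.2) a (ε * 2 ^ K / (4 * 2 ^ n)) s (by positivity)
      fun g hg => ⟨?_, ?_⟩
    · have a1 := mono (hS g hg).2
      have a2 : ε * 2 ^ Nat.find (ex (2 * r' g)) ≤ 4 * r' g := by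
        rcases e : Nat.find (ex (2 * r' g)) with _ | j
        · linarith [hε g, (hr g).1, h.1 g]
        · have := Nat.find_min (ex (2 * r' g)) (m := j) (by omega)
          rw [pow_succ]; linarith
      rw [div_le_iff₀ (by positivity)]
      have a3 := mul_le_mul_of_nonneg_right a2 (show (0 : ℝ) ≤ 2 ^ n by positivity)
      rw [pow_add] at a1
      linarith
    · obtain ⟨x, x1, x2⟩ := Nat.find_spec (ex2 a g)
      refine ⟨x, (x2.trans (mono (hS g hg).1)).trans (le_of_eq ?_), x1⟩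
      rw [pow_add]; field_simp

lemma Surf.clB {Δ e : ℕ} (h : Surf G Δ e) : ClB G 3 := by
  intro s hs
  by_contra hc
  obtain ⟨a, b, x, y, ha, hb, hx, hy, n1, n2, n3, n4, n5, n6⟩ :=
    Finset.three_lt_card_iff.1 (not_le.1 hc)
  obtain ⟨-, n, h2, -⟩ := h
  obtain ⟨c, hc⟩ := (h2 a).2
  obtain ⟨u, w, -, e1, -, -, -, -, e2⟩ := hc.two (hs a ha b hb n1)
  have e3 := hs x hx y hy n6
  rcases e2 x (hs a ha x hx n2) (hs b hb x hx n4) with rfl | rfl <;>
    rcases e2 y (hs a ha y hy n3) (hs b hb y hy n5) with rfl | rfl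
  · exact n6 rfl
  · exact e1 e3
  · exact e1 e3.symm
  · exact n6 rfl

theorem full (χ : ℤ) : ∃ d : ℕ, ∀ (V : Type) [Fintype V] [DecidableEq V]
    (G : SimpleGraph V) [DecidableRel G.Adj], IsSurfaceNerve G χ → IsHyperbolic (gp G) →
      ∀ m : MetricSpace (Bdry (gp G)), IsVisual (gp G) m → confDim m ≤ d := by
  obtain ⟨c, N, h1⟩ := exists_LD (7 * (((-6 * χ).toNat : ℝ) + 16)) 3
  obtain ⟨p, h2⟩ := hypF_of_LD 3 c N (by norm_num)
  refine ⟨p + 1, fun V _ _ G _ a1 a2 m hm => ?_⟩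
  haveI := a1.1.nonempty
  have hS := surf_of_nerve a1 fun v => (G.degree_lt_card_verts v).le
  obtain ⟨r, hr⟩ := exists_PK hS
  obtain ⟨D⟩ := h1 hr (noSq_of_hyp a2) hS.clB hS.1
  exact confDim_le_of_hypF (by norm_num) hS.clB a2 (h2 G hS.clB (noSq_of_hyp a2) D) m hm

end Pool.Agent.Lib.MP_845f45_al
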