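import Pool.Agent.Lib.MP_845f45_al.Hyp

namespace Pool.Agent.Lib.MP_845f45_al

open Real

noncomputable def TT (r a b : ℝ) : ℝ := √(sinh r * sinh a * sinh b / sinh (r + a + b))

noncomputable def eta (r a b : ℝ) : ℝ := arctan (TT r a b / sinh r)

lemma TT_comm (r a b : ℝ) : TT r a b = TT r b a := by
  unfold TT; rw [mul_right_comm, add_right_comm]

lemma TT_comm' (r a b : ℝ) : TT r a b = TT a r b := by
  unfold TT; rw [mul_comm (sinh r), add_comm r]

lemma eta_comm (r a b : ℝ) : eta r a b = eta r b a := by unfold eta; rw [TT_comm]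

lemma arctan_le {x : ℝ} (h : 0 ≤ x) : arctan x ≤ x := by
  have := le_tan (arctan_nonneg.2 h) (arctan_lt_pi_div_two x)
  rwa [tan_arctan] at this

lemma half_le_arctan {x : ℝ} (h : 0 ≤ x) (h1 : x ≤ 1) : x / 2 ≤ arctan x := by
  refine le_trans ?_ (sin_le (arctan_nonneg.2 h))
  rw [sin_arctan]
  gcongr
  exact sqrt_le_iff.2 ⟨by norm_num, by nlinarith⟩

variable {r a b : ℝ}

lemma TT_pos (hr : 0 < r) (ha : 0 < a) (hb : 0 < b) : 0 < TT r a b := by
  have := sinh_pos_iff.2 hr
  have := sinh_pos_iff.2 ha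
  have := sinh_pos_iff.2 hb
  have := sinh_pos_iff.2 (show 0 < r + a + b by positivity)
  exact sqrt_pos.2 (by positivity)

lemma TT_sq (hr : 0 < r) (ha : 0 < a) (hb : 0 < b) :
    TT r a b ^ 2 * sinh (r + a + b) = sinh r * sinh a * sinh b := by
  have := sinh_pos_iff.2 hr
  have := sinh_pos_iff.2 ha
  have := sinh_pos_iff.2 hb
  have := sinh_pos_iff.2 (show 0 < r + a + b by positivity)
  rw [TT, sq_sqrt (by positivity)]
  field_simp

lemma eta_pos (hr : 0 < r) (ha : 0 < a) (hb : 0 < b) : 0 < eta r a b :=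
  arctan_pos.2 (div_pos (TT_pos hr ha hb) (sinh_pos_iff.2 hr))

lemma eta_lt (r a b : ℝ) : eta r a b < π / 2 := arctan_lt_pi_div_two _

lemma eta_le (hr : 0 < r) (ha : 0 < a) (hb : 0 < b) : eta r a b ≤ TT r a b / sinh r :=
  arctan_le (div_pos (TT_pos hr ha hb) (sinh_pos_iff.2 hr)).le

lemma eta_mono {a' : ℝ} (hr : 0 < r) (ha : 0 < a) (hb : 0 < b) (h : a ≤ a') :
    eta r a b ≤ eta r a' b := by
  have h1 := sinh_pos_iff.2 hr
  have h2 := sinh_pos_iff.2 hb
  have h3 := sinh_pos_iff.2 (show 0 < r + a + b by positivity)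
  have h4 := sinh_pos_iff.2 (show 0 < r + a' + b by linarith)
  refine arctan_le_arctan_iff.2 (div_le_div_of_nonneg_right (sqrt_le_sqrt ?_) h1.le)
  rw [div_le_div_iff₀ h3 h4]
  have h5 : sinh a' * sinh (r + a + b) - sinh a * sinh (r + a' + b) =
      sinh (r + b) * sinh (a' - a) := by
    rw [show r + a + b = (r + b) + a by ring, show r + a' + b = (r + b) + a' by ring,
      sinh_add (r + b), sinh_add (r + b), sinh_sub]
    ring
  have h6 := mul_nonneg (sinh_nonneg_iff.2 (show 0 ≤ r + b by positivity))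
    (sinh_nonneg_iff.2 (sub_nonneg.2 h))
  nlinarith [mul_pos h1 h2]

lemma sinh_key (r a b : ℝ) :
    sinh (r + a) * sinh (r + b) = sinh r * sinh (r + a + b) + sinh a * sinh b := by
  simp only [sinh_add, cosh_add]
  linear_combination (sinh a * sinh b) * cosh_sq r

lemma cos_eta (hr : 0 < r) (ha : 0 < a) (hb : 0 < b) :
    sinh (r + a) * sinh (r + b) * cos (2 * eta r a b) =
      sinh r * sinh (r + a + b) - sinh a * sinh b := by
  have h1 := sinh_pos_iff.2 hr
  have h2 := TT_sq hr ha hb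
  rw [cos_two_mul, eta, cos_sq_arctan, sinh_key]
  field_simp
  linear_combination (-2 * sinh r) * h2

lemma sin_eta (hr : 0 < r) (ha : 0 < a) (hb : 0 < b) :
    sinh (r + a) * sinh (r + b) * sin (2 * eta r a b) = 2 * TT r a b * sinh (r + a + b) := by
  have h1 := sinh_pos_iff.2 hr
  have h2 := TT_sq hr ha hb
  have h3 : √(1 + (TT r a b / sinh r) ^ 2) * √(1 + (TT r a b / sinh r) ^ 2) =
      1 + (TT r a b / sinh r) ^ 2 := mul_self_sqrt (by positivity)
  rw [sin_two_mul, eta, cos_arctan, sin_arctan, sinh_key, mul_assoc 2, div_mul_div_comm, h3]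
  field_simp
  linear_combination (- TT r a b) * h2

lemma sin_eta_ne (hr : 0 < r) (ha : 0 < a) (hb : 0 < b) : sin (2 * eta r a b) ≠ 0 :=
  (sin_pos_of_pos_of_lt_pi (by linarith [eta_pos hr ha hb]) (by linarith [eta_lt r a b])).ne'

open H2 in
lemma phi_P (hr : 0 < r) (ha : 0 < a) (hb : 0 < b) :
    Φ (r + a) (P (2 * eta r a b) (r + b)) = P (2 * eta a r b) (a + b) := by
  have h0 := sinh_pos_iff.2 (show 0 < r + a by positivity)
  have c1 := cos_eta hr ha hb
  have c2 := cos_eta ha hr hb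
  have s1 := sin_eta hr ha hb
  have s2 := sin_eta ha hr hb
  rw [add_comm a r] at c2 s2
  rw [TT_comm'] at s2
  refine ext' (mul_left_cancel₀ h0.ne' ?_) (mul_left_cancel₀ h0.ne' ?_) <;>
    simp only [Φ_apply, ff, P]
  · have e : sinh (r + a) ^ 2 * cosh (r + b) - cosh (r + a) *
        (sinh r * sinh (r + a + b) - sinh a * sinh b) =
        sinh a * sinh (r + a + b) - sinh r * sinh b := by
      simp only [sinh_eq, cosh_eq, exp_add, exp_neg]
      field_simp
      ring
    linear_combination e - cosh (r + a) * c1 - c2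
  · linarith

open H2 in
lemma law_K {z : ℝ} (hz : 0 < z) (ha : 0 < a) (hb : 0 < b) :
    Φ (z + a) * Q (2 * eta a z b) * Φ (a + b) = Q (2 * eta z a b) * Φ (z + b) * Q (2 * eta b z a) := by
  have k1 := phi_P ha hz hb
  have k2 := phi_P hb hz ha
  have k3 := phi_P hb ha hz
  rw [add_comm a z] at k1
  rw [add_comm b z, add_comm b a, eta_comm z b a] at k2
  rw [add_comm b z, add_comm b a, add_comm a z, eta_comm b a z, eta_comm a b z] at k3
  refine rigid (((iso_Φ _).mul (iso_Q _)).mul (iso_Φ _)) (((iso_Q _).mul (iso_Φ _)).mul (iso_Q _))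
    (l := a + b) (m := z + b) (by positivity) (by positivity) (sin_eta_ne hb hz ha) ?_ ?_ ?_ <;>
    simp only [Equiv.Perm.mul_apply]
  · rw [Φ_o, Q_P, sub_zero, k1, Q_o, Φ_o, Q_P, sub_zero]
  · rw [Φ_P, Q_o, Φ_o, Q_P, sub_zero, k2, Q_P, sub_self]
  · rw [k3, Q_P, sub_self, Φ_P, Q_P, sub_self, Φ_P, Q_o]

lemma sinh_three (r a b : ℝ) : sinh (r + a + b) = sinh r * cosh a * cosh b +
    cosh r * sinh a * cosh b + cosh r * cosh a * sinh b + sinh r * sinh a * sinh b := by
  simp only [sinh_add, cosh_add]; ring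

lemma defect (hr : 0 < r) (ha : 0 < a) (hb : 0 < b) :
    9 * TT r a b ^ 2 ≤ sinh r * sinh a + sinh r * sinh b + sinh a * sinh b ∧
    π / 2 - eta r a b - eta a r b - eta b r a =
      arctan (TT r a b * (sinh (r + a + b) - sinh r - sinh a - sinh b) /
        (sinh r * sinh a + sinh r * sinh b + sinh a * sinh b - TT r a b ^ 2)) := by
  have h1 := sinh_pos_iff.2 hr
  have h2 := sinh_pos_iff.2 ha
  have h3 := sinh_pos_iff.2 hb
  have h4 := TT_sq hr ha hb
  have h5 := TT_pos hr ha hb
  have h6 : sinh r + sinh a + sinh b < sinh (r + a + b) := by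
    rw [sinh_three]
    have := one_le_cosh r
    have := one_le_cosh a
    have := one_le_cosh b
    have : 1 ≤ cosh a * cosh b := one_le_mul_of_one_le_of_one_le ‹_› ‹_›
    have : 1 ≤ cosh r * cosh b := one_le_mul_of_one_le_of_one_le ‹_› ‹_›
    have : 1 ≤ cosh r * cosh a := one_le_mul_of_one_le_of_one_le ‹_› ‹_›
    nlinarith [mul_pos (mul_pos h1 h2) h3]
  simp only [eta]
  rw [← TT_comm' r a b, ← TT_comm' r b a, ← TT_comm r a b]
  generalize TT r a b = T at *
  generalize sinh (r + a + b) = S at *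
  generalize sinh r = x at *
  generalize sinh a = y at *
  generalize sinh b = z at *
  have S0 : 0 < S := by linarith
  have e1 : 9 * T ^ 2 ≤ x * y + x * z + y * z := by
    have : 9 * (x * y * z) ≤ (x * y + x * z + y * z) * (x + y + z) := by
      nlinarith [mul_nonneg h1.le (sq_nonneg (y - z)), mul_nonneg h2.le (sq_nonneg (x - z)),
        mul_nonneg h3.le (sq_nonneg (x - y))]
    have h7 : 0 < x * y + x * z + y * z := by positivity
    refine le_of_mul_le_mul_right ?_ S0
    nlinarith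
  refine ⟨e1, ?_⟩
  have e2 : T ^ 2 < y * z := by
    refine lt_of_mul_lt_mul_right ?_ S0.le
    nlinarith [mul_pos h2 h3]
  have e3 : T / y * (T / z) < 1 := by
    rw [div_mul_div_comm, div_lt_one (by positivity)]; nlinarith
  have e4 : 0 < (T / y + T / z) / (1 - T / y * (T / z)) := div_pos (by positivity) (by linarith)
  rw [sub_sub, arctan_add e3, ← arctan_inv_of_pos (by positivity), sub_eq_add_neg, ← arctan_neg,
    arctan_add (lt_of_le_of_lt (mul_nonpos_of_nonneg_of_nonpos (by positivity) (by linarith))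
      one_pos)]
  congr 1
  have e5 : y * z - T ^ 2 ≠ 0 := by linarith
  have e6 : x * y + x * z + y * z - T ^ 2 ≠ 0 := by nlinarith [mul_pos h1 h2, mul_pos h1 h3]
  have e7 : 1 - T / y * (T / z) = (y * z - T ^ 2) / (y * z) := by field_simp
  have e8 : 1 - (T / x)⁻¹ * -((T / y + T / z) / ((y * z - T ^ 2) / (y * z))) =
      (x * y + x * z + y * z - T ^ 2) / (y * z - T ^ 2) := by field_simp; ring
  rw [e7, e8, div_eq_div_iff (div_ne_zero e6 e5) e6]
  field_simp
  linear_combination (-(x * y + x * z + y * z - T ^ 2)) * h4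

lemma defect_le (hr : 0 < r) (ha : 0 < a) (hb : 0 < b) {M : ℝ} (m1 : sinh r ≤ M)
    (m2 : sinh a ≤ M) (m3 : sinh b ≤ M) :
    π / 2 - eta r a b - eta a r b - eta b r a ≤ 2 * M * TT r a b := by
  obtain ⟨e1, e2⟩ := defect hr ha hb
  have h1 := sinh_pos_iff.2 hr
  have h2 := sinh_pos_iff.2 ha
  have h3 := sinh_pos_iff.2 hb
  have h5 := TT_pos hr ha hb
  have p1 := mul_pos h1 h2
  have p2 := mul_pos h1 h3
  have p3 := mul_pos h2 h3
  have e3 : sinh (r + a + b) - sinh r - sinh a - sinh b ≤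
      4 / 3 * M * (sinh r * sinh a + sinh r * sinh b + sinh a * sinh b) := by
    rw [sinh_three]
    have k : ∀ u v, cosh u * cosh v ≤ 1 + (sinh u ^ 2 + sinh v ^ 2) / 2 := fun u v => by
      nlinarith [cosh_sq u, cosh_sq v, sq_nonneg (cosh u - cosh v)]
    have k1 := mul_le_mul_of_nonneg_left (k a b) h1.le
    have k2 := mul_le_mul_of_nonneg_left (k r b) h2.le
    have k3 := mul_le_mul_of_nonneg_left (k r a) h3.le
    nlinarith [mul_le_mul_of_nonneg_left m1 p1.le, mul_le_mul_of_nonneg_left m2 p1.le,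
      mul_le_mul_of_nonneg_left m3 p1.le, mul_le_mul_of_nonneg_left m1 p2.le,
      mul_le_mul_of_nonneg_left m2 p2.le, mul_le_mul_of_nonneg_left m3 p2.le,
      mul_le_mul_of_nonneg_left m1 p3.le, mul_le_mul_of_nonneg_left m2 p3.le,
      mul_le_mul_of_nonneg_left m3 p3.le]
  have e4 : 0 < sinh r * sinh a + sinh r * sinh b + sinh a * sinh b - TT r a b ^ 2 := by linarith
  rw [e2]
  by_cases h : 0 ≤ sinh (r + a + b) - sinh r - sinh a - sinh b
  · refine (arctan_le (by positivity)).trans ?_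
    rw [div_le_iff₀ e4]
    have M0 : 0 < M := by linarith
    have : sinh (r + a + b) - sinh r - sinh a - sinh b ≤
        2 * M * (sinh r * sinh a + sinh r * sinh b + sinh a * sinh b - TT r a b ^ 2) := by
      nlinarith
    nlinarith
  · have M0 : 0 < M := by linarith
    refine (arctan_le_zero.2 (div_nonpos_of_nonpos_of_nonneg ?_ e4.le)).trans (by positivity)
    exact mul_nonpos_of_nonneg_of_nonpos h5.le (by linarith)

lemma le_defect (hr : 0 < r) (ha : 0 < a) (hb : 0 < b) :
    (cosh r - 1) * eta r a b / 2 ≤ π / 2 - eta r a b - eta a r b - eta b r a := by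
  obtain ⟨e1, e2⟩ := defect hr ha hb
  have h1 := sinh_pos_iff.2 hr
  have h2 := sinh_pos_iff.2 ha
  have h3 := sinh_pos_iff.2 hb
  have h4 := TT_sq hr ha hb
  have h5 := TT_pos hr ha hb
  have p1 := mul_pos h1 h2
  have p2 := mul_pos h1 h3
  have p3 := mul_pos h2 h3
  have c1 := one_le_cosh r
  have c2 := one_le_cosh a
  have c3 := one_le_cosh b
  have c4 : cosh r - 1 ≤ sinh r := by
    have := cosh_sub_sinh r
    have := exp_le_one_iff.2 (neg_nonpos.2 hr.le)
    linarith
  have t1 : TT r a b ≤ 1 := by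
    have : sinh r * sinh a * sinh b ≤ sinh (r + a + b) := by
      rw [sinh_three]; have := cosh_pos r; have := cosh_pos a; have := cosh_pos b
      have : 0 ≤ sinh r * cosh a * cosh b + cosh r * sinh a * cosh b + cosh r * cosh a * sinh b := by
        positivity
      linarith
    have h6 : TT r a b ^ 2 ≤ 1 := by
      refine le_of_mul_le_mul_right ?_ (sinh_pos_iff.2 (show 0 < r + a + b by positivity))
      linarith
    nlinarith
  have y0 : 0 ≤ (cosh r - 1) * (TT r a b / sinh r) := mul_nonneg (by linarith) (by positivity)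
  have y1 : (cosh r - 1) * (TT r a b / sinh r) ≤ 1 := by
    rw [mul_div_assoc', div_le_one h1]; nlinarith
  have e4 : 0 < sinh r * sinh a + sinh r * sinh b + sinh a * sinh b - TT r a b ^ 2 := by linarith
  rw [e2]
  refine le_trans ?_ ((half_le_arctan y0 y1).trans (arctan_le_arctan_iff.2 ?_))
  · gcongr
    exact eta_le hr ha hb
  · rw [mul_div_assoc', div_le_div_iff₀ h1 e4]
    have k : (cosh r - 1) * (sinh r * sinh a + sinh r * sinh b + sinh a * sinh b) ≤
        (sinh (r + a + b) - sinh r - sinh a - sinh b) * sinh r := by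
      rw [sinh_three]
      have k1 : 1 ≤ cosh a * cosh b := one_le_mul_of_one_le_of_one_le c2 c3
      have k2 : cosh r ≤ cosh r * cosh a := le_mul_of_one_le_right (by linarith) c2
      have k3 : cosh r ≤ cosh r * cosh b := le_mul_of_one_le_right (by linarith) c3
      have k4 : cosh r - 1 ≤ sinh r ^ 2 := by nlinarith [cosh_sq r]
      nlinarith [mul_le_mul_of_nonneg_left k1 (mul_pos h1 h1).le,
        mul_le_mul_of_nonneg_left k3 p1.le, mul_le_mul_of_nonneg_left k2 p2.le,
        mul_le_mul_of_nonneg_left k4 p3.le]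
    nlinarith [mul_le_mul_of_nonneg_left k h5.le,
      mul_nonneg (mul_nonneg (sub_nonneg.2 c1) h5.le) (sq_nonneg (TT r a b))]

lemma TT_le (hr : 0 < r) (ha : 0 < a) (hb : 0 < b) : TT r a b ≤ √(sinh r) := by
  refine le_sqrt_of_sq_le ?_
  have h1 := sinh_pos_iff.2 hr
  have h2 := sinh_pos_iff.2 ha
  have h3 := sinh_pos_iff.2 hb
  refine le_of_mul_le_mul_right ?_ (sinh_pos_iff.2 (show 0 < r + a + b by positivity))
  rw [TT_sq hr ha hb, mul_assoc]
  refine mul_le_mul_of_nonneg_left ?_ h1.le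
  refine le_trans ?_ (sinh_le_sinh.2 (show a + b ≤ r + a + b by linarith))
  rw [sinh_add]
  nlinarith [sinh_lt_cosh b, mul_pos (cosh_pos a) h3]

lemma eta_const {R : ℝ} (hR : 0 < R) : eta R R R ≤ 1 / R := by
  refine (eta_le hR hR hR).trans ?_
  have h1 := sinh_pos_iff.2 hR
  have h2 : TT R R R ^ 2 ≤ 1 := by
    refine le_of_mul_le_mul_right ?_ (sinh_pos_iff.2 (show 0 < R + R + R by positivity))
    rw [TT_sq hR hR hR, sinh_three]
    have := cosh_pos R
    have : 0 ≤ sinh R * cosh R * cosh R + cosh R * sinh R * cosh R + cosh R * cosh R * sinh R := by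
      positivity
    linarith
  gcongr
  · nlinarith [TT_pos hR hR hR]
  · exact self_le_sinh_iff.2 hR.le

lemma eta_cont {X : Type} [TopologicalSpace X] {f g h : X → ℝ} {x : X} (hf : ContinuousAt f x)
    (hg : ContinuousAt g x) (hh : ContinuousAt h x) (h1 : 0 < f x) (h2 : 0 < g x) (h3 : 0 < h x) :
    ContinuousAt (fun y => eta (f y) (g y) (h y)) x := by
  unfold eta TT
  have a1 := (sinh_pos_iff.2 h1).ne'
  have a2 := (sinh_pos_iff.2 (show 0 < f x + g x + h x by positivity)).ne'
  refine continuous_arctan.continuousAt.comp ?_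
  fun_prop (disch := assumption)

end Pool.Agent.Lib.MP_845f45_al
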