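import Pool.Agent.Lib.MP_845f45_al.Defs

namespace Pool.Agent.Lib.MP_845f45_al

open Filter MeasureTheory Topology
open scoped NNReal ENNReal

lemma exists_eta {A B α β : ℝ} (hA : 0 < A) (hB : 1 ≤ B) (hα : 0 < α) (hβ : 1 ≤ β) :
    ∃ η : ℝ≥0 ≃ₜ ℝ≥0, ∀ t : ℝ≥0, (η t : ℝ) = B * ((A * t) ^ α + (A * t) ^ β) := by
  let f : ℝ≥0 → ℝ≥0 := fun t => ⟨B * ((A * t) ^ α + (A * t) ^ β), by positivity⟩
  have hf : ∀ t, (f t : ℝ) = B * ((A * t) ^ α + (A * t) ^ β) := fun t => rfl
  have hmono : StrictMono f := by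
    intro s t hst
    rw [← NNReal.coe_lt_coe, hf, hf]
    have h1 : A * s < A * t := mul_lt_mul_of_pos_left (by exact_mod_cast hst) hA
    have h0 : 0 ≤ A * s := by positivity
    have := Real.rpow_lt_rpow h0 h1 hα
    have := Real.rpow_lt_rpow h0 h1 (by linarith : 0 < β)
    apply mul_lt_mul_of_pos_left <;> linarith
  have hcont : Continuous f := by
    apply Continuous.subtype_mk
    have h1 : Continuous fun t : ℝ≥0 => A * (t : ℝ) := by fun_prop
    exact continuous_const.mul ((h1.rpow_const fun _ => Or.inr hα.le).add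
      (h1.rpow_const fun _ => Or.inr (by linarith)))
  have hsurj : Function.Surjective f := by
    intro y
    let b : ℝ≥0 := ⟨(y + 1) / A, by positivity⟩
    have hb : A * (b : ℝ) = y + 1 := by
      change A * ((y + 1) / A) = _
      field_simp
    apply intermediate_value_univ 0 b hcont
    constructor
    · rw [← NNReal.coe_le_coe, hf]
      simp [Real.zero_rpow hα.ne', Real.zero_rpow (by linarith : β ≠ 0)]
    · rw [← NNReal.coe_le_coe, hf, hb]
      have h0 : (0 : ℝ) ≤ y := y.2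
      have h1 : (y + 1 : ℝ) ≤ (y + 1) ^ β := by
        have := Real.rpow_le_rpow_of_exponent_le (by linarith : (1 : ℝ) ≤ y + 1) hβ
        rwa [Real.rpow_one] at this
      have h2 : (0 : ℝ) ≤ (y + 1) ^ α := by positivity
      nlinarith
  exact ⟨(hmono.orderIsoOfSurjective f hsurj).toHomeomorph, fun t => hf t⟩

lemma dimH_le_of_cover {X : Type} [MetricSpace X] (d : ℕ)
    (h : ∀ k : ℕ, ∃ (ι : Type) (F : Finset ι) (c : X → ι), F.card ≤ 2 ^ (d * k) ∧
      (∀ x, c x ∈ F) ∧ ∀ x y, c x = c y → dist x y ≤ (1 / 2) ^ k) :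
    dimH (Set.univ : Set X) ≤ d := by
  borelize X
  choose ι F c h1 h2 h3 using h
  have key : ∀ k (i : F k), Metric.ediam (c k ⁻¹' {i.1}) ≤ (1 / 2 : ℝ≥0∞) ^ k := by
    intro k i
    refine (Metric.ediam_le_of_forall_dist_le (C := (1 / 2) ^ k) fun x hx y hy => ?_).trans ?_
    · exact h3 k x y (hx.trans hy.symm)
    · rw [ENNReal.ofReal_pow (by norm_num), ENNReal.ofReal_div_of_pos (by norm_num)]
      simp
  have := Measure.hausdorffMeasure_le_liminf_sum (ι := fun k => F k) (d : ℝ) (Set.univ : Set X)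
    (l := atTop) (fun k : ℕ => (1 / 2 : ℝ≥0∞) ^ k)
    (ENNReal.tendsto_pow_atTop_nhds_zero_of_lt_one (by norm_num))
    (fun k i => c k ⁻¹' {i.1}) (Eventually.of_forall key)
    (Eventually.of_forall fun k x _ => Set.mem_iUnion.2 ⟨⟨c k x, h2 k x⟩, rfl⟩)
  have h4 : ∀ k : ℕ, ∑ i : F k, Metric.ediam (c k ⁻¹' {i.1}) ^ (d : ℝ) ≤ 1 := by
    intro k
    calc ∑ i : F k, Metric.ediam (c k ⁻¹' {i.1}) ^ (d : ℝ)
        ≤ ∑ _i : F k, ((1 / 2 : ℝ≥0∞) ^ k) ^ d := by
          apply Finset.sum_le_sum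
          intro i _
          rw [ENNReal.rpow_natCast]
          exact pow_le_pow_left' (key k i) d
      _ = (F k).card * (1 / 2 : ℝ≥0∞) ^ (d * k) := by
          rw [Finset.sum_const, Finset.card_univ, Fintype.card_coe, nsmul_eq_mul, ← pow_mul,
            mul_comm k d]
      _ ≤ (2 : ℝ≥0∞) ^ (d * k) * (1 / 2 : ℝ≥0∞) ^ (d * k) := by
          gcongr
          exact_mod_cast h1 k
      _ = 1 := by
          rw [← mul_pow, one_div, ENNReal.mul_inv_cancel (by norm_num) (by norm_num), one_pow]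
  have h5 : Measure.hausdorffMeasure (d : ℝ) (Set.univ : Set X) ≤ 1 :=
    this.trans (liminf_le_of_frequently_le' (Frequently.of_forall h4))
  have := dimH_le_of_hausdorffMeasure_ne_top (d := (d : ℝ≥0)) (s := (Set.univ : Set X))
    (by simpa using (h5.trans_lt ENNReal.one_lt_top).ne)
  simpa using this

lemma qs_num {a k K' : ℝ} (ha : 1 < a) (hk : 0 < k) (hK' : 0 < K') {C K β : ℕ} (hC : 1 ≤ C)
    (hβ : (2 : ℝ) ^ K ≤ a ^ β) {p q u v : ℕ} {t : ℝ}
    (h1 : q ≤ p → u ≤ v + (p - q)) (h2 : p ≤ q → u ≤ v ∧ q - p ≤ K * (v - u) + K)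
    (h3 : k * a ^ (-(u : ℝ)) ≤ t * (K' * a ^ (-(v : ℝ)))) :
    (1 / 2 : ℝ) ^ (p / C) ≤ (4 * 2 ^ K * ((K' / k * t) ^ (Real.log 2 / (C * Real.log a)) +
      (K' / k * t) ^ ((β + 1 : ℕ) : ℝ))) * ((1 / 2) ^ (q / C) / 2) := by
  have ha0 : 0 < a := by linarith
  have hla : 0 < Real.log a := Real.log_pos ha
  have hC' : (1 : ℝ) ≤ C := by exact_mod_cast hC
  set U := K' / k * t with hU
  have hU1 : a ^ ((v : ℝ) - u) ≤ U := by
    rw [hU, div_mul_eq_mul_div, le_div_iff₀ hk, sub_eq_add_neg, Real.rpow_add ha0]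
    have e : a ^ (v : ℝ) * a ^ (-(v : ℝ)) = 1 := by rw [← Real.rpow_add ha0]; simp
    have e2 : 0 < a ^ (v : ℝ) := by positivity
    calc a ^ (v : ℝ) * a ^ (-(u : ℝ)) * k = a ^ (v : ℝ) * (k * a ^ (-(u : ℝ))) := by ring
      _ ≤ a ^ (v : ℝ) * (t * (K' * a ^ (-(v : ℝ)))) := by gcongr
      _ = K' * t * (a ^ (v : ℝ) * a ^ (-(v : ℝ))) := by ring
      _ = K' * t := by rw [e, mul_one]
  have hU0 : 0 < U := lt_of_lt_of_le (by positivity) hU1
  have e1 : (1 / 2 : ℝ) ^ (p / C) = 2 ^ (((q / C : ℕ) : ℝ) - ((p / C : ℕ) : ℝ)) * (1 / 2) ^ (q / C) := by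
    rw [Real.rpow_sub (by norm_num), Real.rpow_natCast, Real.rpow_natCast, one_div_pow, one_div_pow]
    field_simp
  have e2 : ((q / C : ℕ) : ℝ) ≤ q / C := Nat.cast_div_le
  have e3 : (p : ℝ) / C ≤ ((p / C : ℕ) : ℝ) + 1 := by
    rw [div_le_iff₀ (by linarith)]
    have := Nat.lt_div_mul_add (a := p) (b := C) hC
    have : (p : ℝ) < ((p / C : ℕ) : ℝ) * C + C := by exact_mod_cast this
    linarith
  have e4 : (2 : ℝ) ^ (((q / C : ℕ) : ℝ) - ((p / C : ℕ) : ℝ)) ≤ 2 * 2 ^ (((q : ℝ) - p) / C) := by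
    have : (2 : ℝ) * 2 ^ (((q : ℝ) - p) / C) = 2 ^ (1 + ((q : ℝ) - p) / C) := by
      rw [Real.rpow_add (by norm_num), Real.rpow_one]
    rw [this]
    apply Real.rpow_le_rpow_of_exponent_le (by norm_num)
    rw [sub_div]; linarith
  have e5 : (2 : ℝ) ^ (((q : ℝ) - p) / C) ≤ 2 ^ K * (U ^ (Real.log 2 / (C * Real.log a)) +
      U ^ ((β + 1 : ℕ) : ℝ)) := by
    have p1 : 0 ≤ U ^ (Real.log 2 / (C * Real.log a)) := by positivity
    have p2 : 0 ≤ U ^ ((β + 1 : ℕ) : ℝ) := by positivity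
    have p3 : (1 : ℝ) ≤ 2 ^ K := one_le_pow₀ (by norm_num)
    rcases le_total q p with hqp | hpq
    · have g1 := h1 hqp
      have g2 : (q : ℝ) - p ≤ (v : ℝ) - u := by
        have : u + q ≤ v + p := by omega
        have : (u : ℝ) + q ≤ v + p := by exact_mod_cast this
        linarith
      have g3 : (2 : ℝ) ^ (((q : ℝ) - p) / C) ≤ U ^ (Real.log 2 / (C * Real.log a)) := by
        calc (2 : ℝ) ^ (((q : ℝ) - p) / C) ≤ 2 ^ (((v : ℝ) - u) / C) := by
              apply Real.rpow_le_rpow_of_exponent_le (by norm_num)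
              gcongr
          _ = (a ^ ((v : ℝ) - u)) ^ (Real.log 2 / (C * Real.log a)) := by
              rw [← Real.rpow_mul ha0.le, Real.rpow_def_of_pos ha0,
                Real.rpow_def_of_pos (by norm_num)]
              congr 1
              field_simp
          _ ≤ _ := Real.rpow_le_rpow (by positivity) hU1
              (div_nonneg (Real.log_nonneg (by norm_num)) (by positivity))
      nlinarith
    · obtain ⟨g1, g2⟩ := h2 hpq
      obtain ⟨j, rfl⟩ := Nat.exists_eq_add_of_le g1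
      obtain ⟨i, rfl⟩ := Nat.exists_eq_add_of_le hpq
      rw [Nat.add_sub_cancel_left, Nat.add_sub_cancel_left] at g2
      have g3 : a ^ j ≤ U := by
        rw [← Real.rpow_natCast]
        convert hU1 using 2
        push_cast; ring
      have g4 : (2 : ℝ) ^ ((((p + i : ℕ) : ℝ) - p) / C) ≤ 2 ^ (K * j + K) := by
        rw [← Real.rpow_natCast]
        apply Real.rpow_le_rpow_of_exponent_le (by norm_num)
        have : (i : ℝ) ≤ ((K * j + K : ℕ) : ℝ) := by exact_mod_cast g2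
        have i0 : (0 : ℝ) ≤ i := by positivity
        rw [show ((p + i : ℕ) : ℝ) - p = i by push_cast; ring]
        exact (div_le_self i0 hC').trans this
      have g5 : (2 : ℝ) ^ (K * j) ≤ U ^ ((β + 1 : ℕ) : ℝ) := by
        rw [Real.rpow_natCast, pow_mul]
        calc ((2 : ℝ) ^ K) ^ j ≤ (a ^ (β + 1)) ^ j := by
              gcongr
              exact hβ.trans (pow_le_pow_right₀ ha.le (by omega))
          _ = (a ^ j) ^ (β + 1) := by rw [← pow_mul, ← pow_mul, mul_comm]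
          _ ≤ U ^ (β + 1) := by gcongr
      rw [pow_add] at g4
      nlinarith
  rw [e1]
  have : (0 : ℝ) < (1 / 2) ^ (q / C) := by positivity
  nlinarith

theorem confDim_le_of_profile {X : Type} (m : MetricSpace X) (P : X → X → ℕ) (τ : X → ℕ → ℕ)
    {C D K : ℕ} (hC : 1 ≤ C) (sym : ∀ x y, P x y = P y x)
    (qu : ∀ x₁ x₂ x₃ x₄ s, x₁ ≠ x₄ → (x₁ ≠ x₂ → s ≤ P x₁ x₂) → (x₂ ≠ x₃ → s ≤ P x₂ x₃) →
      (x₃ ≠ x₄ → s ≤ P x₃ x₄) → s ≤ P x₁ x₄ + C)
    (cov : ∀ s, ∃ (ι : Type) (F : Finset ι) (c : X → ι), F.card ≤ D ^ s ∧ (∀ x, c x ∈ F) ∧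
      ∀ x y, x ≠ y → c x = c y → s ≤ P x y)
    (τ1 : ∀ x s t, s ≤ t → τ x s ≤ τ x t ∧ τ x t ≤ τ x s + (t - s) ∧
      t - s ≤ K * (τ x t - τ x s) + K)
    {a k K' : ℝ} (ha : 1 < a) (hk : 0 < k) (hK' : 0 < K')
    (vis : ∀ x y, x ≠ y → k * a ^ (-(τ x (P x y) : ℝ)) ≤ m.dist x y ∧
      m.dist x y ≤ K' * a ^ (-(τ x (P x y) : ℝ))) :
    confDim m ≤ (C * D : ℕ) := by
  classical
  let q : X → X → ℝ≥0 := fun x y => if x = y then 0 else (1 / 2) ^ (P x y / C)
  have q0 : ∀ x, q x x = 0 := fun x => if_pos rfl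
  have q1 : ∀ x y, q x y = q y x := fun x y => by simp only [q, sym x y, eq_comm]
  have q2 : ∀ x y, x ≠ y → (q x y : ℝ) = (1 / 2) ^ (P x y / C) := fun x y h => by
    simp [q, h]
  have q3 : ∀ x₁ x₂ x₃ x₄, q x₁ x₄ ≤ 2 * max (q x₁ x₂) (max (q x₂ x₃) (q x₃ x₄)) := by
    intro x₁ x₂ x₃ x₄
    by_cases h : x₁ = x₄
    · rw [h, q0]; exact zero_le
    by_contra hc
    push Not at hc
    have key : ∀ x y, 2 * q x y < q x₁ x₄ → x ≠ y → P x₁ x₄ + C + 1 ≤ P x y := by
      intro x y hlt hne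
      have h1 : 2 * (q x y : ℝ) < q x₁ x₄ := by exact_mod_cast hlt
      rw [q2 _ _ hne, q2 _ _ h] at h1
      have h2 : (1 / 2 : ℝ) ^ (P x y / C) < (1 / 2) ^ (P x₁ x₄ / C + 1) := by
        rw [pow_succ]; linarith
      have h3 := (pow_lt_pow_iff_right_of_lt_one₀ (by norm_num) (by norm_num)).1 h2
      have h4 : (P x₁ x₄ / C + 2) * C ≤ P x y := (Nat.le_div_iff_mul_le hC).1 h3
      have := Nat.lt_div_mul_add (a := P x₁ x₄) (b := C) hC
      rw [add_mul] at h4
      omega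
    have := qu x₁ x₂ x₃ x₄ (P x₁ x₄ + C + 1) h
      (key _ _ (lt_of_le_of_lt (by gcongr; exact le_max_left _ _) hc))
      (key _ _ (lt_of_le_of_lt (by gcongr; exact le_max_of_le_right (le_max_left _ _)) hc))
      (key _ _ (lt_of_le_of_lt (by gcongr; exact le_max_of_le_right (le_max_right _ _)) hc))
    omega
  have d1 := PseudoMetricSpace.dist_ofPreNNDist_le q q0 q1
  have d2 := PseudoMetricSpace.le_two_mul_dist_ofPreNNDist q q0 q1 q3
  let m' : MetricSpace X :=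
    { toPseudoMetricSpace := PseudoMetricSpace.ofPreNNDist q q0 q1
      eq_of_dist_eq_zero := by
        intro x y hxy
        by_contra hne
        have := d2 x y
        rw [q2 _ _ hne, hxy] at this
        have : (0 : ℝ) < (1 / 2) ^ (P x y / C) := by positivity
        linarith }
  have d1' : ∀ x y, m'.dist x y ≤ q x y := d1
  have d2' : ∀ x y, (q x y : ℝ) ≤ 2 * m'.dist x y := d2
  have hqs : QSEquiv m m' := by
    obtain ⟨β, hβ⟩ := pow_unbounded_of_one_lt ((2 : ℝ) ^ K) ha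
    have hla : 0 < Real.log a := Real.log_pos ha
    have hC' : (1 : ℝ) ≤ C := by exact_mod_cast hC
    obtain ⟨η, hη⟩ := exists_eta (A := K' / k) (B := 4 * 2 ^ K)
      (α := Real.log 2 / (C * Real.log a)) (β := ((β + 1 : ℕ) : ℝ)) (by positivity)
      (by have : (1 : ℝ) ≤ 2 ^ K := one_le_pow₀ (by norm_num); linarith)
      (div_pos (Real.log_pos (by norm_num)) (by positivity)) (by exact_mod_cast Nat.le_add_left _ _)
    refine ⟨η, fun x y z t hxyz => ?_⟩
    by_cases hxy : x = y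
    · have h1 := d1' x y
      rw [hxy, q0] at h1
      have h2 : 0 ≤ m'.dist x z := @dist_nonneg X m'.toPseudoMetricSpace x z
      rw [hxy] at h2 ⊢
      exact h1.trans (by positivity)
    have v1 := (vis x y hxy).1
    by_cases hxz : x = z
    · have : m.dist x z = 0 := by rw [hxz]; exact @dist_self X m.toPseudoMetricSpace z
      rw [this, mul_zero] at hxyz
      have : 0 < k * a ^ (-(τ x (P x y) : ℝ)) := by positivity
      linarith
    have v2 := (vis x z hxz).2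
    have := qs_num ha hk hK' hC hβ.le (p := P x y) (q := P x z) (u := τ x (P x y))
      (v := τ x (P x z)) (t := t) (fun h => (τ1 x _ _ h).2.1)
      (fun h => ⟨(τ1 x _ _ h).1, (τ1 x _ _ h).2.2⟩)
      (v1.trans (hxyz.trans (by gcongr)))
    rw [← hη, ← q2 _ _ hxy, ← q2 _ _ hxz] at this
    refine (d1' x y).trans (this.trans ?_)
    gcongr
    have := d2' x z
    linarith
  refine (iInf₂_le m' hqs).trans ?_
  refine @dimH_le_of_cover X m' (C * D) fun j => ?_
  obtain ⟨ι, F, c, h1, h2, h3⟩ := cov (C * j)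
  refine ⟨ι, F, c, h1.trans ?_, h2, fun x y hxy => (d1' x y).trans ?_⟩
  · rw [show C * D * j = D * (C * j) by ring, pow_mul 2 D]
    exact Nat.pow_le_pow_left Nat.lt_two_pow_self.le _
  · by_cases hne : x = y
    · rw [hne, q0]; positivity
    · rw [q2 _ _ hne]
      apply pow_le_pow_of_le_one (by norm_num) (by norm_num)
      rw [Nat.le_div_iff_mul_le hC, mul_comm]
      exact h3 x y hne hxy

end Pool.Agent.Lib.MP_845f45_al
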