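import Pool.Agent.Lib.MP_845f45_al.Bd1

namespace Pool.Agent.Lib.MP_845f45_al

open Filter MeasureTheory Topology
open scoped NNReal ENNReal

structure Fill (X : Type) (p : ℕ) where
  P : X → X → ℕ
  r : ℕ → X → X → ℕ
  w : X → ℕ → ℝ
  R0 : ℕ
  R : ℕ
  A : ℝ
  η : ℝ
  η0 : 0 < η
  η1 : η ≤ 1
  A1 : 1 ≤ A
  R1 : R0 ≤ R
  sym : ∀ x y, P x y = P y x
  P1 : ∀ x y, x ≠ y → 0 < P x y
  r0 : ∀ n x, r n x x = 0
  tri : ∀ n x y z, r n x z ≤ r n x y + r n y z
  near : ∀ x y n, n < P x y → r n x y ≤ R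
  far : ∀ x y n, x ≠ y → P x y ≤ n → R0 < r n x y
  w0 : ∀ x, w x 0 = 1
  lo : ∀ x n, η * w x n ≤ w x (n + 1)
  hi : ∀ x n, w x (n + 1) ≤ 1 / 2 * w x n
  har : ∀ x y n, r n x y ≤ R → w x n ≤ A * w y n
  har' : ∀ x y n, r n x y ≤ R → w y n ≤ A * w x n
  ann : ∀ n x y, R0 < r n x y → ∃ f σ : X → ℝ, f x = 0 ∧ f y = 1 ∧ (∀ z, σ z ≤ 1 / 2) ∧
    (∀ z z', r (n + 1) z z' ≤ R0 + R → |f z - f z'| ≤ σ z) ∧
    ∀ z, r n x z ≤ R0 → 2 * σ z * w x n ≤ w z (n + 1)
  cov : ∀ n, ∃ (ι : Type) (F : Finset ι) (c : X → ι) (u : ι → ℝ), (∀ x, c x ∈ F) ∧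
    (∀ x y, c x = c y → r n x y = 0) ∧ (∀ x, w x n ≤ u (c x)) ∧ (∀ i, 0 ≤ u i) ∧
    ∑ i ∈ F, u i ^ p ≤ 1

namespace Fill

variable {X : Type} {p : ℕ} (D : Fill X p)

lemma w_pos (x : X) (n : ℕ) : 0 < D.w x n := by
  induction n with
  | zero => rw [D.w0]; exact one_pos
  | succ n ih => exact (mul_pos D.η0 ih).trans_le (D.lo x n)

lemma w_add (x : X) (n j : ℕ) :
    D.η ^ j * D.w x n ≤ D.w x (n + j) ∧ D.w x (n + j) ≤ (1 / 2) ^ j * D.w x n := by
  induction j with
  | zero => simp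
  | succ j ih =>
    have h1 := D.lo x (n + j)
    have h2 := D.hi x (n + j)
    have h3 := mul_le_mul_of_nonneg_left ih.1 D.η0.le
    rw [← add_assoc, pow_succ, pow_succ]
    constructor <;> linarith [ih.2]

lemma w_anti (x : X) {n m : ℕ} (h : n ≤ m) : D.w x m ≤ D.w x n := by
  obtain ⟨j, rfl⟩ := Nat.exists_eq_add_of_le h
  refine (D.w_add x n j).2.trans (mul_le_of_le_one_left (D.w_pos x n).le ?_)
  exact pow_le_one₀ (by norm_num) (by norm_num)

open Classical in
noncomputable def q (x y : X) : ℝ≥0 :=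
  if x = y then 0 else ⟨D.w x (D.P x y - 1) + D.w y (D.P x y - 1),
    (add_pos (D.w_pos _ _) (D.w_pos _ _)).le⟩

lemma q_ne {x y : X} (h : x ≠ y) :
    (D.q x y : ℝ) = D.w x (D.P x y - 1) + D.w y (D.P x y - 1) := by
  unfold q; rw [if_neg h]; rfl

lemma q_self (x : X) : D.q x x = 0 := if_pos rfl

lemma q_comm (x y : X) : D.q x y = D.q y x := by
  by_cases h : x = y
  · rw [h]
  · rw [← NNReal.coe_inj, D.q_ne h, D.q_ne (Ne.symm h), D.sym y x, add_comm]

lemma chain (c : ℕ → X) (m : ℕ) (n i i' : ℕ) (hi : i ≤ i') (hm : i' ≤ m)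
    (hf : D.R0 < D.r n (c i) (c i')) :
    D.w (c i) n ≤ D.A * ∑ l ∈ Finset.Ico i i', (D.q (c l) (c (l + 1)) : ℝ) := by
  classical
  set S : ℕ → ℕ → ℝ := fun a b => ∑ l ∈ Finset.Ico a b, (D.q (c l) (c (l + 1)) : ℝ) with hS
  have S0 : ∀ a b, 0 ≤ S a b := fun a b => Finset.sum_nonneg fun _ _ => NNReal.coe_nonneg _
  have S1 : ∀ a b e, a ≤ b → b ≤ e → S a b + S b e = S a e := fun a b e h1 h2 =>
    Finset.sum_Ico_consecutive _ h1 h2
  have A0 : 0 < D.A := by linarith [D.A1]
  have first : ∀ n a b, a ≤ b → D.R0 < D.r n (c a) (c b) → ∃ e, a < e ∧ e ≤ b ∧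
      D.R0 < D.r n (c a) (c e) ∧ ∀ l, a ≤ l → l < e → D.r n (c a) (c l) ≤ D.R0 := by
    intro n a b hab h
    have hex : ∃ e, a ≤ e ∧ D.R0 < D.r n (c a) (c e) := ⟨b, hab, h⟩
    obtain ⟨h1, h2⟩ := Nat.find_spec hex
    refine ⟨Nat.find hex, lt_of_le_of_ne h1 fun e => ?_, Nat.find_min' hex ⟨hab, h⟩, h2,
      fun l h3 h4 => ?_⟩
    · rw [← e, D.r0] at h2; omega
    · by_contra hc
      exact Nat.find_min hex h4 ⟨h3, by omega⟩
  set Nm := (Finset.range m).sup fun l => D.P (c l) (c (l + 1))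
  have step : ∀ n, (Nm ≤ n ∨ ∀ i i', i ≤ i' → i' ≤ m → D.R0 < D.r (n + 1) (c i) (c i') →
      D.w (c i) (n + 1) ≤ D.A * S i i') → ∀ i i', i ≤ i' → i' ≤ m → D.R0 < D.r n (c i) (c i') →
      D.w (c i) n ≤ D.A * S i i' := by
    intro n hn i i' hi hm hf
    obtain ⟨e, e1, e2, e3, e4⟩ := first n i i' hi hf
    refine le_trans ?_ (mul_le_mul_of_nonneg_left
      (show S i e ≤ S i i' by linarith [S1 i e i' e1.le e2, S0 e i']) A0.le)
    by_cases h1 : ∃ l, i ≤ l ∧ l < e ∧ c l ≠ c (l + 1) ∧ D.P (c l) (c (l + 1)) ≤ n + 1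
    · obtain ⟨l, l1, l2, l3, l4⟩ := h1
      have a1 := D.har _ _ _ ((e4 l l1 l2).trans D.R1)
      have a2 := D.w_anti (c l) (show D.P (c l) (c (l + 1)) - 1 ≤ n by omega)
      have a3 := D.q_ne l3
      have a4 := D.w_pos (c (l + 1)) (D.P (c l) (c (l + 1)) - 1)
      have a5 : (D.q (c l) (c (l + 1)) : ℝ) ≤ S i e :=
        Finset.single_le_sum (f := fun l => (D.q (c l) (c (l + 1)) : ℝ))
          (fun _ _ => NNReal.coe_nonneg _) (Finset.mem_Ico.2 ⟨l1, l2⟩)
      exact a1.trans (mul_le_mul_of_nonneg_left (by linarith) A0.le)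
    push Not at h1
    rcases hn with hn | hn
    · obtain ⟨l, rfl⟩ : ∃ l, e = l + 1 := ⟨e - 1, by omega⟩
      have a1 := e4 l (by omega) (by omega)
      have a2 := h1 l (by omega) (by omega) fun h => by rw [h] at a1; omega
      have a3 : D.P (c l) (c (l + 1)) ≤ Nm :=
        Finset.le_sup (f := fun l => D.P (c l) (c (l + 1))) (Finset.mem_range.2 (by omega))
      omega
    have h2 : ∀ l, i ≤ l → l < e → D.r (n + 1) (c l) (c (l + 1)) ≤ D.R := by
      intro l l1 l2
      by_cases h : c l = c (l + 1)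
      · rw [h, D.r0]; omega
      · exact D.near _ _ _ (h1 l l1 l2 h)
    obtain ⟨f, σ, f0, f1, f2, f3, f4⟩ := D.ann n _ _ e3
    have wp := D.w_pos (c i) n
    have key : ∀ t a, i ≤ a → a ≤ e → e - a = t →
        2 * D.w (c i) n * (|f (c a) - f (c e)| - 1 / 2) ≤ D.A * S a e := by
      intro t
      induction t using Nat.strong_induction_on with
      | _ t ih =>
        intro a a1 a2 a3
        by_cases h : D.R0 < D.r (n + 1) (c a) (c e)
        · obtain ⟨b, b1, b2, b3, b4⟩ := first (n + 1) a e a2 h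
          have c1 := ih (e - b) (by omega) b (by omega) b2 rfl
          have c2 := hn a b b1.le (by omega) b3
          have c3 := f4 (c a) (e4 a a1 (by omega))
          have c4 : |f (c a) - f (c b)| ≤ σ (c a) := by
            obtain ⟨l, rfl⟩ : ∃ l, b = l + 1 := ⟨b - 1, by omega⟩
            have := D.tri (n + 1) (c a) (c l) (c (l + 1))
            have := b4 l (by omega) (by omega)
            have := h2 l (by omega) (by omega)
            exact f3 _ _ (by omega)
          have c5 := abs_sub_le (f (c a)) (f (c b)) (f (c e))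
          rw [← S1 a b e b1.le b2]
          nlinarith
        · have c1 := (f3 (c a) (c e) (by omega)).trans (f2 _)
          have := mul_nonneg A0.le (S0 a e)
          nlinarith
    have := key _ i le_rfl e1.le rfl
    rw [f0, f1] at this
    norm_num at this
    linarith
  have fin : ∀ j n, Nm ≤ n + j → ∀ i i', i ≤ i' → i' ≤ m → D.R0 < D.r n (c i) (c i') →
      D.w (c i) n ≤ D.A * S i i' := by
    intro j
    induction j with
    | zero => exact fun n h => step n (Or.inl h)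
    | succ j ih => exact fun n h => step n (Or.inr (ih (n + 1) (by omega)))
  exact fin Nm n (by omega) i i' hi hm hf

lemma list_chain (q : X → X → ℝ≥0) (y : X) (l : List X) : ∀ x, ∃ (m : ℕ) (c : ℕ → X), c 0 = x ∧
    c m = y ∧ ∑ i ∈ Finset.range m, q (c i) (c (i + 1)) = ((x :: l).zipWith q (l ++ [y])).sum := by
  induction l with
  | nil => exact fun x => ⟨1, fun i => if i = 0 then x else y, by simp, by simp, by simp⟩
  | cons a l ih =>
    intro x
    obtain ⟨m, c, h1, h2, h3⟩ := ih a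
    refine ⟨m + 1, fun i => Nat.casesOn i x c, rfl, h2, ?_⟩
    rw [Finset.sum_range_succ', List.cons_append, List.zipWith_cons_cons, List.sum_cons, ← h3,
      add_comm]
    simp [h1]

@[reducible] noncomputable def pm : PseudoMetricSpace X :=
  PseudoMetricSpace.ofPreNNDist D.q D.q_self D.q_comm

lemma pm_ge {x y : X} (h : x ≠ y) : D.η * D.w x (D.P x y - 1) ≤ D.A * D.pm.dist x y := by
  have A0 : 0 < D.A := by linarith [D.A1]
  have h1 := D.lo x (D.P x y - 1)
  rw [Nat.sub_add_cancel (D.P1 x y h)] at h1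
  refine h1.trans ?_
  rw [← div_le_iff₀' A0]
  let t : ℝ≥0 := ⟨D.w x (D.P x y) / D.A, (div_pos (D.w_pos _ _) A0).le⟩
  have : t ≤ ⨅ l : List X, ((x :: l).zipWith D.q (l ++ [y])).sum := by
    refine le_ciInf fun l => ?_
    obtain ⟨m, c, h1, h2, h3⟩ := list_chain D.q y l x
    have := D.chain c m (D.P x y) 0 m (Nat.zero_le _) le_rfl (by
      rw [h1, h2]; exact D.far x y _ h le_rfl)
    rw [← h3, ← NNReal.coe_le_coe, NNReal.coe_sum, Finset.range_eq_Ico]
    rw [h1, ← div_le_iff₀' A0] at this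
    exact this
  exact this

lemma pm_le (x y : X) : D.pm.dist x y ≤ D.q x y :=
  PseudoMetricSpace.dist_ofPreNNDist_le _ D.q_self D.q_comm x y

@[reducible] noncomputable def mt : MetricSpace X :=
  { toPseudoMetricSpace := D.pm
    eq_of_dist_eq_zero := by
      intro x y hxy
      by_contra hne
      have h1 := D.pm_ge hne
      have h2 := mul_pos D.η0 (D.w_pos x (D.P x y - 1))
      rw [show D.pm.dist x y = 0 from hxy] at h1
      linarith }

lemma dimH_le : @dimH X D.mt.toEMetricSpace Set.univ ≤ p := by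
  letI := D.mt
  borelize X
  choose ι F c u h1 h2 h3 h4 h5 using D.cov
  have k0 : ∀ n x y, c n x = c n y → dist x y ≤ D.w x n + D.w y n := by
    intro n x y h
    refine (D.pm_le x y).trans ?_
    by_cases e : x = y
    · rw [e, D.q_self]; exact (add_pos (D.w_pos _ _) (D.w_pos _ _)).le
    · have : n ≤ D.P x y - 1 := by
        by_contra hc
        have := D.far x y n e (by omega)
        rw [h2 n x y h] at this
        omega
      rw [D.q_ne e]
      exact add_le_add (D.w_anti x this) (D.w_anti y this)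
  have k1 : ∀ n x, D.w x n ≤ (1 / 2) ^ n := fun n x => by
    simpa [D.w0] using (D.w_add x 0 n).2
  have key : ∀ n (i : F n), Metric.ediam (c n ⁻¹' {i.1}) ≤ ENNReal.ofReal (2 * (1 / 2) ^ n) :=
    fun n i => Metric.ediam_le_of_forall_dist_le fun x hx y hy =>
      (k0 n x y (hx.trans hy.symm)).trans (by linarith [k1 n x, k1 n y])
  have := Measure.hausdorffMeasure_le_liminf_sum (ι := fun n => F n) (p : ℝ) (Set.univ : Set X)
    (l := atTop) (fun n : ℕ => ENNReal.ofReal (2 * (1 / 2) ^ n))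
    (by
      rw [← ENNReal.ofReal_zero]
      refine ENNReal.tendsto_ofReal ?_
      simpa using (tendsto_pow_atTop_nhds_zero_of_lt_one (by norm_num : (0 : ℝ) ≤ 1 / 2)
        (by norm_num)).const_mul 2)
    (fun n i => c n ⁻¹' {i.1}) (Eventually.of_forall key)
    (Eventually.of_forall fun n x _ => Set.mem_iUnion.2 ⟨⟨c n x, h1 n x⟩, rfl⟩)
  have h6 : ∀ n : ℕ, ∑ i : F n, Metric.ediam (c n ⁻¹' {i.1}) ^ (p : ℝ) ≤
      ENNReal.ofReal (2 ^ p) := by
    intro n
    calc ∑ i : F n, Metric.ediam (c n ⁻¹' {i.1}) ^ (p : ℝ)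
        ≤ ∑ i : F n, ENNReal.ofReal (2 ^ p * u n i ^ p) := by
          refine Finset.sum_le_sum fun i _ => ?_
          rw [ENNReal.rpow_natCast, ← mul_pow, ENNReal.ofReal_pow (by linarith [h4 n i])]
          refine pow_le_pow_left' (Metric.ediam_le_of_forall_dist_le fun x hx y hy => ?_) p
          have a1 := h3 n x
          have a2 := h3 n y
          rw [show c n x = i from hx] at a1
          rw [show c n y = i from hy] at a2
          linarith [k0 n x y (hx.trans hy.symm)]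
      _ = ENNReal.ofReal (2 ^ p * ∑ i ∈ F n, u n i ^ p) := by
          rw [← ENNReal.ofReal_sum_of_nonneg fun i _ => by have := h4 n i; positivity,
            ← Finset.mul_sum, Finset.sum_coe_sort (F n) fun i => u n i ^ p]
      _ ≤ _ := ENNReal.ofReal_le_ofReal (mul_le_of_le_one_right (by positivity) (h5 n))
  have h7 : Measure.hausdorffMeasure (p : ℝ) (Set.univ : Set X) ≤ ENNReal.ofReal (2 ^ p) :=
    this.trans (liminf_le_of_frequently_le' (Frequently.of_forall h6))
  have := dimH_le_of_hausdorffMeasure_ne_top (d := (p : ℝ≥0)) (s := (Set.univ : Set X))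
    (by simpa using (h7.trans_lt ENNReal.ofReal_lt_top).ne)
  simpa using this

theorem confDim_le (m : MetricSpace X) {a k K : ℝ} (ha : 1 < a) (hk : 0 < k) (hK : 0 < K)
    (vis : ∀ x y, x ≠ y → k * a ^ (-(D.P x y : ℝ)) ≤ m.dist x y ∧
      m.dist x y ≤ K * a ^ (-(D.P x y : ℝ))) : confDim m ≤ p := by
  refine (iInf₂_le D.mt ?_).trans D.dimH_le
  have A1 := D.A1
  have η0 := D.η0
  have ha0 : 0 < a := by linarith
  obtain ⟨β, hβ⟩ := pow_unbounded_of_one_lt (1 / D.η) ha
  have hla : 0 < Real.log a := Real.log_pos ha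
  obtain ⟨η, hη⟩ := exists_eta (A := K / k) (B := (1 + D.A) * D.A / D.η)
    (α := Real.log 2 / Real.log a) (β := ((β + 1 : ℕ) : ℝ)) (by positivity)
    (by rw [le_div_iff₀ η0]; nlinarith [D.η1]) (div_pos (Real.log_pos (by norm_num)) hla)
    (by exact_mod_cast Nat.le_add_left _ _)
  refine ⟨η, fun x y z t hxyz => ?_⟩
  have h2 : 0 ≤ D.mt.dist x z := @dist_nonneg X D.pm x z
  by_cases hxy : x = y
  · have h1 := D.pm_le x y
    rw [hxy, D.q_self] at h1
    rw [hxy] at h2 ⊢
    exact h1.trans (by positivity)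
  have v1 := (vis x y hxy).1
  by_cases hxz : x = z
  · have : m.dist x z = 0 := by rw [hxz]; exact @dist_self X m.toPseudoMetricSpace z
    rw [this, mul_zero] at hxyz
    have : 0 < k * a ^ (-(D.P x y : ℝ)) := by positivity
    linarith
  have v2 := (vis x z hxz).2
  set U := K / k * t with hU
  have hU1 : a ^ ((D.P x z : ℝ) - D.P x y) ≤ U := by
    have h3 : k * a ^ (-(D.P x y : ℝ)) ≤ t * (K * a ^ (-(D.P x z : ℝ))) :=
      v1.trans (hxyz.trans (by gcongr))
    rw [hU, div_mul_eq_mul_div, le_div_iff₀ hk, sub_eq_add_neg, Real.rpow_add ha0]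
    have e : a ^ (D.P x z : ℝ) * a ^ (-(D.P x z : ℝ)) = 1 := by rw [← Real.rpow_add ha0]; simp
    have e2 : 0 < a ^ (D.P x z : ℝ) := by positivity
    calc _ = a ^ (D.P x z : ℝ) * (k * a ^ (-(D.P x y : ℝ))) := by ring
      _ ≤ a ^ (D.P x z : ℝ) * (t * (K * a ^ (-(D.P x z : ℝ)))) := by gcongr
      _ = K * t * (a ^ (D.P x z : ℝ) * a ^ (-(D.P x z : ℝ))) := by ring
      _ = K * t := by rw [e, mul_one]
  have hU0 : 0 < U := lt_of_lt_of_le (by positivity) hU1
  have p1 := D.P1 x y hxy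
  have p2 := D.P1 x z hxz
  have w2 := D.w_pos x (D.P x z - 1)
  have e1 : D.w x (D.P x y - 1) ≤
      (U ^ (Real.log 2 / Real.log a) + U ^ ((β + 1 : ℕ) : ℝ)) * D.w x (D.P x z - 1) := by
    have q1 : 0 ≤ U ^ (Real.log 2 / Real.log a) := by positivity
    have q2 : 0 ≤ U ^ ((β + 1 : ℕ) : ℝ) := by positivity
    rcases le_total (D.P x z) (D.P x y) with h | h
    · obtain ⟨j, hj⟩ := Nat.exists_eq_add_of_le h
      have g1 := (D.w_add x (D.P x z - 1) j).2
      rw [show D.P x z - 1 + j = D.P x y - 1 by omega] at g1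
      have g2 : (1 / 2 : ℝ) ^ j ≤ U ^ (Real.log 2 / Real.log a) := by
        refine le_trans (le_of_eq ?_) (Real.rpow_le_rpow (by positivity) hU1 (by positivity))
        rw [← Real.rpow_mul ha0.le, Real.rpow_def_of_pos ha0, hj, one_div, inv_pow,
          ← Real.rpow_natCast, ← Real.rpow_neg (by norm_num), Real.rpow_def_of_pos (by norm_num)]
        congr 1
        push_cast
        field_simp
        ring
      nlinarith
    · obtain ⟨j, hj⟩ := Nat.exists_eq_add_of_le h
      have g1 := (D.w_add x (D.P x y - 1) j).1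
      rw [show D.P x y - 1 + j = D.P x z - 1 by omega] at g1
      have g3 : a ^ j ≤ U := by
        rw [← Real.rpow_natCast]
        convert hU1 using 2
        rw [hj]; push_cast; ring
      have g4 : (1 / D.η) ^ j ≤ U ^ ((β + 1 : ℕ) : ℝ) := by
        rw [Real.rpow_natCast]
        calc (1 / D.η) ^ j ≤ (a ^ (β + 1)) ^ j := by
              gcongr
              exact hβ.le.trans (pow_le_pow_right₀ ha.le (by omega))
          _ = (a ^ j) ^ (β + 1) := by rw [← pow_mul, ← pow_mul, mul_comm]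
          _ ≤ U ^ (β + 1) := by gcongr
      have g5 : D.w x (D.P x y - 1) ≤ (1 / D.η) ^ j * D.w x (D.P x z - 1) := by
        rw [one_div_pow, div_mul_eq_mul_div, one_mul, le_div_iff₀' (by positivity)]
        exact g1
      nlinarith
  have e2 := D.pm_le x y
  rw [D.q_ne hxy] at e2
  have e3 := D.har' x y (D.P x y - 1) (D.near _ _ _ (by omega))
  have e4 := D.pm_ge hxz
  have e5 : D.w x (D.P x z - 1) ≤ D.A / D.η * D.pm.dist x z := by
    rw [div_mul_eq_mul_div, le_div_iff₀' η0]; exact e4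
  rw [hη, ← hU]
  change D.pm.dist x y ≤ _ * D.pm.dist x z
  calc D.pm.dist x y ≤ (1 + D.A) * D.w x (D.P x y - 1) := by linarith
    _ ≤ (1 + D.A) * ((U ^ (Real.log 2 / Real.log a) + U ^ ((β + 1 : ℕ) : ℝ)) *
        (D.A / D.η * D.pm.dist x z)) := by
        gcongr
        exact e1.trans (by gcongr)
    _ = _ := by ring

end Fill

end Pool.Agent.Lib.MP_845f45_al
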