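import Pool.Agent.Lib.MP_845f45_al.Proc3

namespace Pool.Agent.Lib.MP_845f45_al

variable {V : Type} {G : SimpleGraph V} {c : ℕ} {N : ℕ → ℕ}

lemma sum_biUnion_le' {α β : Type} [DecidableEq β] (s : Finset α) (t : α → Finset β) (f : β → ℝ)
    (hf : ∀ b, 0 ≤ f b) : ∑ b ∈ s.biUnion t, f b ≤ ∑ a ∈ s, ∑ b ∈ t a, f b := by
  classical
  induction s using Finset.induction_on with
  | empty => simp
  | insert a s ha ih =>
    rw [Finset.biUnion_insert, Finset.sum_insert ha]
    have := Finset.sum_union_inter (s₁ := t a) (s₂ := s.biUnion t) (f := f)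
    have := Finset.sum_nonneg (s := t a ∩ s.biUnion t) fun b _ => hf b
    linarith

namespace LD

variable (D : LD G c N)

def stp (e : V × ℕ) (g : V) : V × ℕ :=
  if max e.2 (D.δ e.1 g) ≤ D.ρ g + 2 then (e.1, max e.2 (D.δ e.1 g)) else (g, D.ρ g)

def anch (a : V) : List V → V × ℕ
  | [] => (a, D.ρ a)
  | g :: L => D.stp (anch a L) g

def Good (n : ℕ) (y : V) (e : V × ℕ) : Prop :=
  e.2 ≤ D.ρ y + (n + 4) ∧ D.δ e.1 y ≤ D.ρ y + (n + 3)

lemma good_of_cap {n : ℕ} {y : V} {p0 : ℕ × V} {H : List (ℕ × V)} (h : D.Cap n y (H ++ [p0])) :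
    D.Good n y (D.anch p0.2 (H.map Prod.snd)) := by
  induction H with
  | nil =>
    obtain ⟨l1, x, l2, h1, h2, h3⟩ := h
    rcases l1 with _ | ⟨a, l1⟩
    · simp only [List.nil_append, List.cons.injEq] at h1
      have := h3 x List.mem_cons_self
      have := D.L4 y x.2
      rw [h1.1]
      constructor <;> simp only [List.map_nil, anch] <;> omega
    · simp at h1
  | cons g H ih =>
    obtain ⟨l1, x, l2, h1, h2, h3⟩ := h
    simp only [List.map_cons, anch, stp]
    rcases l1 with _ | ⟨a, l1⟩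
    · simp only [List.nil_append, List.cons_append, List.cons.injEq] at h1
      have := h3 x List.mem_cons_self
      have := D.L4 y x.2
      have := D.L2 (D.anch p0.2 (H.map Prod.snd)).1 x.2 y
      rw [h1.1]
      split_ifs <;> constructor <;> simp only <;> omega
    · simp only [List.cons_append, List.cons.injEq] at h1
      obtain ⟨a1, a2⟩ := ih ⟨l1, x, l2, h1.2, h2, fun w hw => h3 w (by
        simp only [List.mem_cons] at hw ⊢; tauto)⟩
      have := h3 a (by simp)
      have := D.L4 y a.2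
      have := D.L2 (D.anch p0.2 (H.map Prod.snd)).1 y a.2
      rw [h1.1]
      split_ifs <;> constructor <;> simp only <;> omega

variable [Fintype V] [DecidableEq V]

def okS (n : ℕ) (e : V × ℕ) : Finset V :=
  Finset.univ.filter fun g => max e.2 (D.δ e.1 g) ≤ D.ρ g + n

def okL (n : ℕ) (a : V) : ℕ → Finset (List V)
  | 0 => {[]}
  | r + 1 => (okL n a r).biUnion fun L => (D.okS n (D.anch a L)).image fun g => g :: L

omit [DecidableEq V] in
lemma sum_okS (n : ℕ) (e : V × ℕ) :
    ∑ g ∈ D.okS n e, (1 / 2 : ℝ) ^ (D.stp e g).2 ≤ (2 * N n * 2 ^ n) * (1 / 2) ^ e.2 := by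
  obtain ⟨B, hB⟩ := (Set.finite_range fun g => max e.2 (D.δ e.1 g)).bddAbove
  calc ∑ g ∈ D.okS n e, (1 / 2 : ℝ) ^ (D.stp e g).2
      ≤ ∑ g ∈ D.okS n e, 2 ^ n * (1 / 2 : ℝ) ^ (max e.2 (D.δ e.1 g)) := by
        refine Finset.sum_le_sum fun g hg => ?_
        have h1 := (Finset.mem_filter.1 hg).2
        have h2 : max e.2 (D.δ e.1 g) ≤ (D.stp e g).2 + n := by
          unfold stp; split_ifs <;> simp only <;> omega
        have h3 := pow_le_pow_of_le_one (by norm_num : (0 : ℝ) ≤ 1 / 2) (by norm_num) h2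
        rw [pow_add] at h3
        have h4 : (2 : ℝ) ^ n * (1 / 2) ^ n = 1 := by rw [← mul_pow]; simp
        have h5 : (0 : ℝ) < 2 ^ n := by positivity
        calc (1 / 2 : ℝ) ^ (D.stp e g).2 = 2 ^ n * ((1 / 2) ^ (D.stp e g).2 * (1 / 2) ^ n) := by
              rw [mul_left_comm, h4, mul_one]
          _ ≤ _ := by gcongr
    _ = 2 ^ n * ∑ K ∈ Finset.Ico e.2 (B + 1), ∑ g ∈ (D.okS n e).filter
          (fun g => max e.2 (D.δ e.1 g) = K), (1 / 2 : ℝ) ^ (max e.2 (D.δ e.1 g)) := by
        rw [← Finset.mul_sum, Finset.sum_fiberwise_of_maps_to]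
        intro g _
        have := hB ⟨g, rfl⟩
        simp only [Finset.mem_Ico] at this ⊢
        omega
    _ ≤ 2 ^ n * ∑ K ∈ Finset.Ico e.2 (B + 1), N n * (1 / 2 : ℝ) ^ K := by
        gcongr with K _
        rw [Finset.sum_congr rfl (g := fun _ => (1 / 2 : ℝ) ^ K) fun g hg => by
          rw [(Finset.mem_filter.1 hg).2], Finset.sum_const, nsmul_eq_mul]
        gcongr
        refine D.M e.1 K n _ fun g hg => ?_
        obtain ⟨h1, h2⟩ := Finset.mem_filter.1 hg
        have := (Finset.mem_filter.1 h1).2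
        omega
    _ ≤ _ := by
        rw [← Finset.mul_sum]
        have := geom_sum_Ico_le_of_lt_one (m := e.2) (n := B + 1) (by norm_num : (0 : ℝ) ≤ 1 / 2)
          (by norm_num)
        calc (2 : ℝ) ^ n * (N n * ∑ K ∈ Finset.Ico e.2 (B + 1), (1 / 2 : ℝ) ^ K)
            ≤ 2 ^ n * (N n * ((1 / 2) ^ e.2 / (1 - 1 / 2))) := by gcongr
          _ = _ := by ring

lemma sum_okL (n : ℕ) (a : V) (r : ℕ) :
    ∑ L ∈ D.okL n a r, (1 / 2 : ℝ) ^ (D.anch a L).2 ≤ (2 * N n * 2 ^ n) ^ r := by
  induction r with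
  | zero => simpa [okL, anch] using pow_le_one₀ (by norm_num : (0 : ℝ) ≤ 2⁻¹) (by norm_num)
  | succ r ih =>
    rw [okL]
    refine (sum_biUnion_le' _ _ _ fun _ => by positivity).trans ?_
    calc _ ≤ ∑ L ∈ D.okL n a r, (2 * N n * 2 ^ n) * (1 / 2 : ℝ) ^ (D.anch a L).2 := by
          refine Finset.sum_le_sum fun L _ => ?_
          rw [Finset.sum_image fun _ _ _ _ h => (List.cons.inj h).1]
          exact D.sum_okS n _
      _ ≤ _ := by
          rw [← Finset.mul_sum, pow_succ']
          gcongr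

lemma card_okL (n : ℕ) : ∃ C : ℝ, 0 ≤ C ∧ ∀ a r,
    ((D.okL n a r).card : ℝ) ≤ C * (2 * N n * 2 ^ n) ^ r := by
  obtain ⟨B, hB⟩ := (Set.finite_range fun p : V × V => max (D.ρ p.1) (D.δ p.1 p.2)).bddAbove
  refine ⟨2 ^ B, by positivity, fun a r => ?_⟩
  have key : ∀ L, (D.anch a L).2 ≤ B := by
    intro L
    induction L with
    | nil => have := hB ⟨(a, a), rfl⟩; simp only [anch] at this ⊢; omega
    | cons g L ih =>
      have := hB ⟨(g, a), rfl⟩
      have := hB ⟨((D.anch a L).1, g), rfl⟩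
      simp only [anch, stp] at *
      split_ifs <;> simp only <;> omega
  refine le_trans ?_ (mul_le_mul_of_nonneg_left (D.sum_okL n a r) (by positivity))
  rw [Finset.mul_sum, Finset.card_eq_sum_ones, Nat.cast_sum]
  refine Finset.sum_le_sum fun L _ => ?_
  have h3 := pow_le_pow_of_le_one (by norm_num : (0 : ℝ) ≤ 1 / 2) (by norm_num) (key L)
  have h4 : (2 : ℝ) ^ B * (1 / 2) ^ B = 1 := by rw [← mul_pow]; simp
  rw [Nat.cast_one]
  exact h4.symm.trans_le (by gcongr)

lemma mem_okL {n : ℕ} {p0 : ℕ × V} {H : List (ℕ × V)}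
    (h : ∀ l1 y l2, H = l1 ++ y :: l2 → D.Cap n y.2 (l2 ++ [p0])) :
    H.map Prod.snd ∈ D.okL (n + 4) p0.2 H.length := by
  induction H with
  | nil => simp [okL]
  | cons y H ih =>
    obtain ⟨h1, h2⟩ := (dec_cons (P := fun y l2 => D.Cap n y.2 (l2 ++ [p0]))).1 h
    obtain ⟨a1, a2⟩ := D.good_of_cap h1
    simp only [List.map_cons, List.length_cons, okL, Finset.mem_biUnion, Finset.mem_image]
    exact ⟨_, ih h2, y.2, Finset.mem_filter.2 ⟨Finset.mem_univ _, by omega⟩, rfl⟩

end LD

variable [Fintype V] [DecidableEq V] [DecidableRel G.Adj]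

open Classical in
variable (G) in
noncomputable def Sph : ℕ → Finset (WG G)
  | 0 => {1}
  | j + 1 => (Sph j ×ˢ Finset.univ).image fun p : WG G × V => p.1 * (csG G).simple p.2

lemma card_Sph (j : ℕ) : (Sph G j).card ≤ Fintype.card V ^ j := by
  classical
  induction j with
  | zero => simp [Sph]
  | succ j ih =>
    rw [Sph]
    refine Finset.card_image_le.trans ?_
    rw [Finset.card_product, Finset.card_univ, pow_succ]
    gcongr

lemma word_mem_Sph (u : List V) : (csG G).wordProd u ∈ Sph G u.length := by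
  classical
  induction u using List.reverseRecOn with
  | nil => simp [Sph]
  | append_singleton u v ih =>
    rw [List.length_append, List.length_singleton, Sph, CoxeterSystem.wordProd_append,
      CoxeterSystem.wordProd_singleton]
    exact Finset.mem_image.2 ⟨(_, v), Finset.mem_product.2 ⟨ih, Finset.mem_univ _⟩, rfl⟩

lemma mem_Sph (w : WG G) : w ∈ Sph G ((csG G).length w) := by
  obtain ⟨u, h1, rfl⟩ := (csG G).exists_isReduced w
  rw [h1.eq]; exact word_mem_Sph u

open Classical in
variable (G) in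
noncomputable def Ball (j : ℕ) : Finset (WG G) := (Finset.range (j + 1)).biUnion (Sph G)

lemma mem_Ball {w : WG G} {j : ℕ} (h : (csG G).length w ≤ j) : w ∈ Ball G j := by
  classical
  exact Finset.mem_biUnion.2 ⟨_, Finset.mem_range.2 (by omega), mem_Sph w⟩

omit [Fintype V] in
lemma psi_hs {B : Finset (ℕ × V)} (hB : Normal G B) {H : List (ℕ × V)} (h : LD.Hs G B H) :
    psi G B = psi G (B \ H.toFinset) * (csG G).wordProd (H.map Prod.snd) := by
  induction H with
  | nil => simp
  | cons p H ih =>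
    obtain ⟨h1, h2⟩ := LD.hs_cons.1 h
    rw [ih h2, psi_erase _ _ rfl (h2.low.1.normal hB) p h1, LD.sdiff_cons, List.map_cons,
      CoxeterSystem.wordProd_cons, mul_assoc]

variable (G) in
def HypF (p : ℕ) : Prop :=
  ∀ (L : ℕ) (ε : ℝ), 0 < ε → ∃ (k : ℕ) (σ : WG G → ℝ), (∀ g, 0 ≤ σ g) ∧
    (∀ S : Finset (WG G), (∀ g ∈ S, k ≤ (csG G).length g) → ∑ g ∈ S, σ g ^ p ≤ ε) ∧
    ∀ x y, x ≠ y → ¬ G.Adj x y → ∃ F : WG G → ℝ,
      (∀ g, Pre G ((csG G).simple x) g → F g = 0) ∧ (∀ g, Pre G ((csG G).simple y) g → F g = 1) ∧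
      ∀ g b, (csG G).length b ≤ L → |F g - F (g * b)| ≤ σ g

lemma hypF_of_beta {p : ℕ} (β : WG G → ℝ) (h0 : ∀ g, 0 ≤ β g) (C : ℝ) (k0 : ℕ)
    (h1 : ∀ n, k0 ≤ n → ∀ S : Finset (WG G), (∀ g ∈ S, (csG G).length g = n) →
      ∑ g ∈ S, β g ^ (p + 1) ≤ C * (1 / 2) ^ n)
    (h2 : ∀ x y, x ≠ y → ¬ G.Adj x y → ∃ F : WG G → ℝ,
      (∀ g, Pre G ((csG G).simple x) g → F g = 0) ∧ (∀ g, Pre G ((csG G).simple y) g → F g = 1) ∧
      ∀ g q, IsMx G (phi G g) q → |F g - F (g * (csG G).simple q.2)| ≤ β g) :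
    HypF G (p + 1) := by
  classical
  intro L ε hε
  have hC : 0 ≤ C := by
    have := h1 k0 le_rfl ∅ (by simp)
    simp only [Finset.sum_empty] at this
    exact nonneg_of_mul_nonneg_left this (by positivity)
  have tail : ∀ k, k0 ≤ k → ∀ S : Finset (WG G), (∀ g ∈ S, k ≤ (csG G).length g) →
      ∑ g ∈ S, β g ^ (p + 1) ≤ 2 * C * (1 / 2) ^ k := by
    intro k hk S hS
    rw [← Finset.sum_fiberwise_of_maps_to (t := Finset.Ico k (S.sup (csG G).length + 1))
      (g := (csG G).length) fun g hg => Finset.mem_Ico.2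
        ⟨hS g hg, Nat.lt_succ_of_le (Finset.le_sup hg)⟩]
    calc _ ≤ ∑ n ∈ Finset.Ico k (S.sup (csG G).length + 1), C * (1 / 2 : ℝ) ^ n :=
          Finset.sum_le_sum fun n hn => h1 n (hk.trans (Finset.mem_Ico.1 hn).1) _
            fun g hg => (Finset.mem_filter.1 hg).2
      _ ≤ C * ((1 / 2) ^ k / (1 - 1 / 2)) := by
          rw [← Finset.mul_sum]
          gcongr
          exact geom_sum_Ico_le_of_lt_one (by norm_num) (by norm_num)
      _ = _ := by ring
  set A : ℝ := (2 * L) ^ (p + 1) * ((Ball G L).card ^ p * ((Ball G L).card * (2 * C))) with hA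
  have hA0 : 0 ≤ A := by positivity
  obtain ⟨k1, hk1⟩ := exists_pow_lt_of_lt_one (show 0 < ε / (A + 1) by positivity)
    (by norm_num : (1 / 2 : ℝ) < 1)
  refine ⟨max k0 k1 + L, fun g => 2 * L * ∑ b ∈ Ball G L, β (g * b),
    fun g => mul_nonneg (by positivity) (Finset.sum_nonneg fun _ _ => h0 _), fun S hS => ?_,
    fun x y hxy hn => ?_⟩
  · calc ∑ g ∈ S, (2 * L * ∑ b ∈ Ball G L, β (g * b)) ^ (p + 1)
        ≤ ∑ g ∈ S, (2 * L) ^ (p + 1) * ((Ball G L).card ^ p *
            ∑ b ∈ Ball G L, β (g * b) ^ (p + 1)) := by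
          refine Finset.sum_le_sum fun g _ => ?_
          rw [mul_pow]
          gcongr
          exact pow_sum_le_card_mul_sum_pow (fun _ _ => h0 _) p
      _ = (2 * L) ^ (p + 1) * ((Ball G L).card ^ p *
            ∑ b ∈ Ball G L, ∑ g ∈ S, β (g * b) ^ (p + 1)) := by
          rw [← Finset.mul_sum, ← Finset.mul_sum, Finset.sum_comm]
      _ ≤ (2 * L) ^ (p + 1) * ((Ball G L).card ^ p *
            ∑ _b ∈ Ball G L, 2 * C * (1 / 2 : ℝ) ^ (max k0 k1)) := by
          gcongr with b hb
          have := tail (max k0 k1) (le_max_left _ _) (S.image (· * b)) fun g hg => by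
            obtain ⟨g', h3, rfl⟩ := Finset.mem_image.1 hg
            have h4 := hS g' h3
            have h5 := (csG G).length_le_length_mul_add_right g' b
            obtain ⟨j, h6, h7⟩ := Finset.mem_biUnion.1 hb
            have h8 : ∀ j, ∀ b ∈ Sph G j, (csG G).length b ≤ j := by
              intro j
              induction j with
              | zero => intro b hb; simp only [Sph, Finset.mem_singleton] at hb; simp [hb]
              | succ j ih =>
                intro b hb
                obtain ⟨q, q1, rfl⟩ := Finset.mem_image.1 hb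
                have := ih _ (Finset.mem_product.1 q1).1
                have := (csG G).length_mul_le q.1 ((csG G).simple q.2)
                rw [CoxeterSystem.length_simple] at this
                omega
            have := h8 j b h7
            have := Finset.mem_range.1 h6
            omega
          rwa [Finset.sum_image fun _ _ _ _ h => mul_right_cancel h] at this
      _ = A * (1 / 2) ^ (max k0 k1) := by
          rw [Finset.sum_const, nsmul_eq_mul, hA]; ring
      _ ≤ (A + 1) * (ε / (A + 1)) := by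
          gcongr
          · linarith
          · exact (pow_le_pow_of_le_one (by norm_num) (by norm_num) (le_max_right _ _)).trans hk1.le
      _ = ε := by field_simp
  · obtain ⟨F, f0, f1, f2⟩ := h2 x y hxy hn
    refine ⟨F, f0, f1, fun g b hb => ?_⟩
    have e1 : ∀ g v, |F g - F (g * (csG G).simple v)| ≤ β g + β (g * (csG G).simple v) := by
      intro g v
      rcases act_cases (G := G) (phi G g) v with ⟨q, q1, rfl, -⟩ | ⟨l, -, q1, q2, -⟩
      · linarith [f2 g q q1, h0 (g * (csG G).simple q.2)]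
      · have := f2 (g * (csG G).simple v) (l, v) (by rw [phi_mul, q1]; exact isMx_insert q2)
        rw [CoxeterSystem.simple_mul_simple_cancel_right, abs_sub_comm] at this
        linarith [h0 g]
    have e2 : ∀ u : List V, u.length ≤ L → |F g - F (g * (csG G).wordProd u)| ≤
        2 * u.length * ∑ b ∈ Ball G L, β (g * b) := by
      intro u
      induction u using List.reverseRecOn with
      | nil => simp
      | append_singleton u v ih =>
        intro hu
        have a1 := Finset.single_le_sum (f := fun b => β (g * b)) (fun _ _ => h0 _)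
          (mem_Ball (((csG G).length_wordProd_le (u ++ [v])).trans hu))
        rw [List.length_append, List.length_singleton] at hu ⊢
        have a2 := Finset.single_le_sum (f := fun b => β (g * b)) (fun _ _ => h0 _)
          (mem_Ball (((csG G).length_wordProd_le u).trans (by omega : u.length ≤ L)))
        rw [CoxeterSystem.wordProd_append, CoxeterSystem.wordProd_singleton, ← mul_assoc] at a1 ⊢
        have a3 := e1 (g * (csG G).wordProd u) v
        have a4 := abs_sub_le (F g) (F (g * (csG G).wordProd u))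
          (F (g * (csG G).wordProd u * (csG G).simple v))
        have a5 := ih (by omega)
        push_cast
        linarith
    obtain ⟨u, u1, rfl⟩ := (csG G).exists_isReduced b
    rw [u1.eq] at hb
    refine (e2 u hb).trans (mul_le_mul_of_nonneg_right ?_ (Finset.sum_nonneg fun _ _ => h0 _))
    gcongr

end Pool.Agent.Lib.MP_845f45_al
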