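import Mathlib

namespace Pool.Agent.Lib.MP_845f45_al

open Filter SimpleGraph
open scoped NNReal ENNReal

/-- Coxeter matrix of the right-angled Coxeter group of a graph (entry 0 means no relation). -/
def racg {V : Type} [DecidableEq V] (G : SimpleGraph V) [DecidableRel G.Adj] :
    CoxeterMatrix V where
  M := Matrix.of fun u v => if u = v then 1 else if G.Adj u v then 2 else 0
  isSymm := by
    ext u v
    simp only [Matrix.transpose_apply, Matrix.of_apply, eq_comm (a := v), G.adj_comm v u]
  diagonal := by simp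
  off_diagonal := by
    intro u v h
    simp only [Matrix.of_apply, if_neg h]
    split_ifs <;> decide

/-- Gromov product, based at the identity, for the word metric of `W_G`. -/
noncomputable def gp {V : Type} [DecidableEq V] (G : SimpleGraph V) [DecidableRel G.Adj]
    (x y : (racg G).Group) : ℝ :=
  (((racg G).toCoxeterSystem.length x : ℝ) + ((racg G).toCoxeterSystem.length y : ℝ)
    - ((racg G).toCoxeterSystem.length (x⁻¹ * y) : ℝ)) / 2

/-- Gromov hyperbolicity in terms of the Gromov product `g`. -/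
def IsHyperbolic {W : Type} (g : W → W → ℝ) : Prop :=
  ∃ δ : ℝ, ∀ x y z, min (g x y) (g y z) - δ ≤ g x z

/-- Sequences converging at infinity. -/
def IsGromovSeq {W : Type} (g : W → W → ℝ) (x : ℕ → W) : Prop :=
  Tendsto (fun p : ℕ × ℕ => g (x p.1) (x p.2)) atTop atTop

/-- Gromov boundary: sequences converging at infinity modulo `(x_n | y_n) → ∞`. -/
def Bdry {W : Type} (g : W → W → ℝ) : Type :=
  Quot fun x y : {x : ℕ → W // IsGromovSeq g x} =>
    Tendsto (fun n => g (x.1 n) (y.1 n)) atTop atTop

/-- Gromov product on the boundary: supremum over representatives of the lower limit. -/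
noncomputable def bdProd {W : Type} (g : W → W → ℝ) (ξ η : Bdry g) : ℝ :=
  sSup {r | ∃ x y : {x : ℕ → W // IsGromovSeq g x}, Quot.mk _ x = ξ ∧ Quot.mk _ y = η ∧
    r = liminf (fun p : ℕ × ℕ => g (x.1 p.1) (y.1 p.2)) atTop}

/-- Visual metrics on the boundary. -/
def IsVisual {W : Type} (g : W → W → ℝ) (m : MetricSpace (Bdry g)) : Prop :=
  ∃ a k K : ℝ, 1 < a ∧ 0 < k ∧ ∀ ξ η, ξ ≠ η →
    k * a ^ (-bdProd g ξ η) ≤ m.dist ξ η ∧ m.dist ξ η ≤ K * a ^ (-bdProd g ξ η)

/-- The identity map from `(Z, m)` to `(Z, m')` is quasisymmetric. -/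
def QSEquiv {Z : Type} (m m' : MetricSpace Z) : Prop :=
  ∃ η : ℝ≥0 ≃ₜ ℝ≥0, ∀ (x y z : Z) (t : ℝ≥0),
    m.dist x y ≤ t * m.dist x z → m'.dist x y ≤ η t * m'.dist x z

/-- Conformal dimension of `(Z, m)`. -/
noncomputable def confDim {Z : Type} (m : MetricSpace Z) : ℝ≥0∞ :=
  ⨅ (m' : MetricSpace Z) (_ : QSEquiv m m'), @dimH Z m'.toEMetricSpace Set.univ

/-- The flag complex of `G` is a triangulated closed connected surface of Euler characteristic
`χ`: `G` is connected, the link of every vertex is a cycle (of length at least 4, so that there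
is no tetrahedron), and vertices minus edges plus triangles is `χ`. -/
def IsSurfaceNerve {V : Type} [Fintype V] [DecidableEq V] (G : SimpleGraph V)
    [DecidableRel G.Adj] (χ : ℤ) : Prop :=
  G.Connected ∧
  (∀ v, ∃ n, 4 ≤ n ∧ Nonempty (G.induce (G.neighborSet v) ≃g cycleGraph n)) ∧
  (Fintype.card V : ℤ) - G.edgeFinset.card + (G.cliqueFinset 3).card = χ

end Pool.Agent.Lib.MP_845f45_al
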