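import Pool.Agent.Lib.MP_845f45_al.Surf

namespace Pool.Agent.Lib.MP_845f45_al

open Relation

variable {V : Type} {G : SimpleGraph V}

lemma Wi.grow [Finite V] (R : V → V → Prop) (x : V) (n : ℕ) :
    (∀ v, ReflTransGen R x v → Wi R n x v) ∨ n + 1 ≤ {v | Wi R n x v}.ncard := by
  induction n with
  | zero =>
    right
    have : {v | Wi R 0 x v} = {x} := by ext v; simp [Wi, eq_comm]
    simp [this]
  | succ n ih =>
    rcases ih with ih | ih
    · exact Or.inl fun v hv => Or.inl (ih v hv)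
    by_cases h : ∀ v, Wi R (n + 1) x v → Wi R n x v
    · left
      intro v hv
      induction hv with
      | refl => exact Wi.refl _ _ _
      | tail _ hbc ih => exact Or.inr ⟨_, h _ ih, hbc⟩
    · right
      push Not at h
      obtain ⟨v, h1, h2⟩ := h
      have : {v | Wi R n x v}.ncard < {v | Wi R (n + 1) x v}.ncard :=
        Set.ncard_lt_ncard ⟨fun u hu => Or.inl hu, fun hc => h2 (hc h1)⟩
      omega

lemma Wi.rtg {R : V → V → Prop} {n : ℕ} {u v : V} (h : Wi R n u v) : ReflTransGen R u v := by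
  induction n generalizing v with
  | zero => exact h ▸ ReflTransGen.refl
  | succ n ih =>
    rcases h with h | ⟨w, h1, h2⟩
    · exact ih h
    · exact (ih h1).tail h2

lemma Wi.lip {R : V → V → Prop} {F : V → ℕ} {η : ℕ}
    (hF : ∀ a b, R a b → F a ≤ F b + η ∧ F b ≤ F a + η) {n : ℕ} {u v : V} (h : Wi R n u v) :
    F u ≤ F v + n * η ∧ F v ≤ F u + n * η := by
  induction n generalizing v with
  | zero => rw [show u = v from h]; omega
  | succ n ih =>
    rw [add_mul]
    rcases h with h | ⟨w, h1, h2⟩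
    · have := ih h; omega
    · have := ih h1; have := hF _ _ h2; omega

lemma Wi.symm {n : ℕ} {u v : V} (h : Wi G.Adj n u v) : Wi G.Adj n v u := by
  induction n generalizing v with
  | zero => exact Eq.symm h
  | succ n ih =>
    rcases h with h | ⟨w, h1, h2⟩
    · exact Or.inl (ih h)
    · rw [add_comm]; exact (Wi.single h2.symm).trans (ih h1)

lemma ncard_biUnion_le {α β : Type} [Finite α] [Finite β] (s : Set α) (t : α → Set β) {k : ℕ}
    (h : ∀ a ∈ s, (t a).ncard ≤ k) : (⋃ a ∈ s, t a).ncard ≤ s.ncard * k := by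
  induction s, Set.toFinite s using Set.Finite.induction_on with
  | empty => simp
  | @insert a s ha hs ih =>
    rw [Set.biUnion_insert, Set.ncard_insert_of_notMem ha, add_mul]
    have h1 := Set.ncard_union_le (t a) (⋃ a ∈ s, t a)
    have h2 := ih fun b hb => h b (Or.inr hb)
    have h3 := h a (Or.inl rfl)
    omega

lemma Wi.ncard_le [Finite V] {Δ : ℕ} (hΔ : ∀ v, {u | G.Adj v u}.ncard ≤ Δ) (x : V) (n : ℕ) :
    {v | Wi G.Adj n x v}.ncard ≤ (Δ + 1) ^ n := by
  induction n with
  | zero =>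
    have : {v | Wi G.Adj 0 x v} = {x} := by ext v; simp [Wi, eq_comm]
    simp [this]
  | succ n ih =>
    have h1 : {v | Wi G.Adj (n + 1) x v} ⊆
        ⋃ w ∈ {v | Wi G.Adj n x v}, insert w {u | G.Adj w u} := by
      rintro v (h | ⟨w, h1, h2⟩)
      · exact Set.mem_biUnion h (Or.inl rfl)
      · exact Set.mem_biUnion h1 (Or.inr h2)
    refine (Set.ncard_le_ncard h1).trans ((ncard_biUnion_le _ _ (k := Δ + 1) fun w _ => ?_).trans ?_)
    · exact (Set.ncard_insert_le _ _).trans (Nat.succ_le_succ (hΔ w))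
    · rw [pow_succ]; exact Nat.mul_le_mul_right _ ih

variable [Fintype V]

open Classical in
variable (G) in
noncomputable def nb (v : V) : Finset V := Finset.univ.filter (G.Adj v)

@[simp] lemma mem_nb {v u : V} : u ∈ nb G v ↔ G.Adj v u := by simp [nb]

lemma harm_eq {h : V → ℚ} {v : V} (h1 : ∑ u ∈ nb G v, (h u - h v) = 0)
    (h2 : ∀ u, G.Adj v u → h u ≤ h v) : ∀ u, G.Adj v u → h u = h v := by
  intro u hu
  have := (Finset.sum_eq_zero_iff_of_nonpos (fun u hu => sub_nonpos.2 (h2 u (mem_nb.1 hu)))).1 h1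
    u (mem_nb.2 hu)
  linarith

lemma max_principle (hc : ∀ u v, ReflTransGen G.Adj u v) {Bd : Set V} (hB : Bd.Nonempty)
    {h : V → ℚ} (hh : ∀ v, v ∉ Bd → ∑ u ∈ nb G v, (h u - h v) = 0) (v : V) :
    ∃ w ∈ Bd, h v ≤ h w := by
  obtain ⟨b, hb⟩ := hB
  obtain ⟨m, -, hm⟩ := Finset.exists_max_image Finset.univ h ⟨v, Finset.mem_univ _⟩
  by_contra hcon
  push Not at hcon
  have key : ∀ u, ReflTransGen G.Adj m u → h u = h m := by
    intro u hu
    induction hu with
    | refl => rfl
    | @tail a c _ hac ih =>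
      have ha : a ∉ Bd := fun ha => by
        have := hcon a ha
        have := hm v (Finset.mem_univ _)
        linarith
      rw [harm_eq (hh a ha) (fun u _ => ih ▸ hm u (Finset.mem_univ _)) c hac, ih]
  have := hcon b hb
  have := hm v (Finset.mem_univ _)
  have := key b (hc m b)
  linarith

lemma min_principle (hc : ∀ u v, ReflTransGen G.Adj u v) {Bd : Set V} (hB : Bd.Nonempty)
    {h : V → ℚ} (hh : ∀ v, v ∉ Bd → ∑ u ∈ nb G v, (h u - h v) = 0) (v : V) :
    ∃ w ∈ Bd, h w ≤ h v := by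
  obtain ⟨w, h1, h2⟩ := max_principle hc hB (h := fun v => - h v) (fun v hv => by
    have := hh v hv
    rw [← neg_eq_zero, ← Finset.sum_neg_distrib] at this
    rw [← this]
    exact Finset.sum_congr rfl fun u _ => by ring) v
  exact ⟨w, h1, by linarith⟩

lemma dirichlet (hc : ∀ u v, ReflTransGen G.Adj u v) {Bd : Set V} (hB : Bd.Nonempty)
    (g : V → ℚ) : ∃ h : V → ℚ, (∀ v ∈ Bd, h v = g v) ∧
      ∀ v, v ∉ Bd → ∑ u ∈ nb G v, (h u - h v) = 0 := by
  classical
  let L : (V → ℚ) →ₗ[ℚ] (V → ℚ) :=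
    { toFun := fun h v => if v ∈ Bd then h v else ∑ u ∈ nb G v, (h u - h v)
      map_add' := by
        intro x y; ext v
        simp only [Pi.add_apply]
        split_ifs
        · rfl
        · rw [← Finset.sum_add_distrib]
          exact Finset.sum_congr rfl fun u _ => by ring
      map_smul' := by
        intro c x; ext v
        simp only [Pi.smul_apply, smul_eq_mul, RingHom.id_apply]
        split_ifs
        · rfl
        · rw [Finset.mul_sum]
          exact Finset.sum_congr rfl fun u _ => by ring }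
  have hinj : Function.Injective L := by
    rw [injective_iff_map_eq_zero]
    intro h hL
    have h1 : ∀ v ∈ Bd, h v = 0 := fun v hv => by
      have := congrFun hL v
      simpa [L, hv] using this
    have h2 : ∀ v, v ∉ Bd → ∑ u ∈ nb G v, (h u - h v) = 0 := fun v hv => by
      have := congrFun hL v
      simpa [L, hv] using this
    ext v
    obtain ⟨w, a1, a2⟩ := max_principle hc hB h2 v
    obtain ⟨w', a3, a4⟩ := min_principle hc hB h2 v
    rw [h1 w a1] at a2
    rw [h1 w' a3] at a4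
    exact le_antisymm a2 a4
  obtain ⟨h, hh⟩ := LinearMap.surjective_of_injective hinj fun v => if v ∈ Bd then g v else 0
  refine ⟨h, fun v hv => ?_, fun v hv => ?_⟩
  · have := congrFun hh v
    simpa [L, hv] using this
  · have := congrFun hh v
    simpa [L, hv] using this

lemma harm_both {h : V → ℚ} {v : V} (h1 : ∑ u ∈ nb G v, (h u - h v) = 0)
    (h2 : ¬ ∀ u, G.Adj v u → h u = h v) :
    (∃ u, G.Adj v u ∧ h u < h v) ∧ ∃ u, G.Adj v u ∧ h v < h u := by
  constructor
  · by_contra hc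
    push Not at hc
    apply h2
    intro u hu
    have := harm_eq (h := fun v => - h v) (v := v) (by
      rw [← neg_eq_zero, ← Finset.sum_neg_distrib] at h1
      rw [← h1]
      exact Finset.sum_congr rfl fun u _ => by ring) (fun u hu => by simpa using hc u hu) u hu
    linarith
  · by_contra hc
    push Not at hc
    exact h2 (harm_eq h1 hc)

lemma Surf.avoid {Δ e : ℕ} (h : Surf G Δ e) (p : V) {u v : V} (hu : u ≠ p) (hv : v ≠ p) :
    ReflTransGen (fun a b => G.Adj a b ∧ b ≠ p) u v := by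
  have hl := (h.sep_star p).2.2
  have key : ∀ w, ReflTransGen G.Adj u w →
      (w ≠ p → ReflTransGen (fun a b => G.Adj a b ∧ b ≠ p) u w) ∧
      (w = p → ∀ z, G.Adj p z → ReflTransGen (fun a b => G.Adj a b ∧ b ≠ p) u z) := by
    intro w hw
    induction hw with
    | refl => exact ⟨fun _ => ReflTransGen.refl, fun e => absurd e hu⟩
    | @tail a b _ hab ih =>
      by_cases ha : a = p
      · subst ha
        exact ⟨fun _ => ih.2 rfl b hab, fun e => absurd e hab.ne'⟩
      · refine ⟨fun hb => (ih.1 ha).tail ⟨hab, hb⟩, fun e z hz => (ih.1 ha).trans ?_⟩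
        subst e
        exact ReflTransGen.mono (fun c d hcd => ⟨hcd.1, G.ne_of_adj hcd.2 |>.symm⟩) _ _ (hl a hab.symm z hz)
  exact (key v (h.1 u v)).1 hv

variable (G) in
def UpDn (a b : V) {α : Type} [LinearOrder α] (g : V → α) (v : V) : Prop :=
  (v ≠ a → ∃ u, G.Adj v u ∧ g u < g v) ∧ (v ≠ b → ∃ u, G.Adj v u ∧ g v < g u)

omit [Fintype V] in
lemma UpDn.refine {a b : V} {α β : Type} [LinearOrder α] [LinearOrder β] {g : V → α} {g' : V → β}
    (hg : ∀ u v, g u < g v → g' u < g' v) {v : V} (h : UpDn G a b g v) : UpDn G a b g' v :=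
  ⟨fun hv => let ⟨u, h1, h2⟩ := h.1 hv; ⟨u, h1, hg _ _ h2⟩,
    fun hv => let ⟨u, h1, h2⟩ := h.2 hv; ⟨u, h1, hg _ _ h2⟩⟩

lemma exists_st {Δ e : ℕ} (hS : Surf G Δ e) {a b : V} (hab : a ≠ b) (k : ℕ) :
    ∀ {α : Type} [LinearOrder α] (g : V → α), {v | ¬ UpDn G a b g v}.ncard ≤ k →
      (∀ v, ¬ UpDn G a b g v → v ≠ a ∧ v ≠ b ∧ ∀ u, G.Adj v u → g u = g v) →
      ∃ θ : V → ℕ, Function.Injective θ ∧ (∀ u v, g u < g v → θ u < θ v) ∧
        ∀ v, UpDn G a b θ v := by
  classical
  have fin : ∀ {α : Type} [LinearOrder α] (g : V → α), (∀ v, UpDn G a b g v) →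
      ∃ θ : V → ℕ, Function.Injective θ ∧ (∀ u v, g u < g v → θ u < θ v) ∧
        ∀ v, UpDn G a b θ v := by
    intro α _ g hg
    let key : V → α ×ₗ Fin (Fintype.card V) := fun v => toLex (g v, Fintype.equivFin V v)
    have kinj : Function.Injective key := fun u v h =>
      (Fintype.equivFin V).injective (congrArg (fun x => (ofLex x).2) h)
    let θ : V → ℕ := fun v => (Finset.univ.filter fun u => key u < key v).card
    have hθ : ∀ u v, key u < key v → θ u < θ v := by
      intro u v huv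
      apply Finset.card_lt_card
      refine ⟨fun w hw => ?_, fun hc => ?_⟩
      · simp only [Finset.mem_filter, Finset.mem_univ, true_and] at hw ⊢
        exact hw.trans huv
      · have := hc (Finset.mem_filter.2 ⟨Finset.mem_univ u, huv⟩)
        simp at this
    have hθ' : ∀ u v, g u < g v → θ u < θ v := fun u v h =>
      hθ u v (Prod.Lex.toLex_lt_toLex.2 (Or.inl h))
    refine ⟨θ, fun u v h => ?_, hθ', fun v => (hg v).refine hθ'⟩
    rcases lt_trichotomy (key u) (key v) with h1 | h1 | h1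
    · exact absurd h (hθ _ _ h1).ne
    · exact kinj h1
    · exact absurd h (hθ _ _ h1).ne'
  induction k with
  | zero =>
    intro α _ g h1 _
    apply fin g
    intro v
    by_contra hc
    have := (Set.ncard_eq_zero (s := {v | ¬ UpDn G a b g v})).1 (by omega)
    exact Set.eq_empty_iff_forall_notMem.1 this v hc
  | succ k ih =>
    intro α _ g h1 h2
    by_cases h0 : ∀ v, UpDn G a b g v
    · exact fin g h0
    push Not at h0
    obtain ⟨v0, hv0⟩ := h0
    have ha : UpDn G a b g a := by by_contra hc; exact (h2 a hc).1 rfl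
    have hb : UpDn G a b g b := by by_contra hc; exact (h2 b hc).2.1 rfl
    obtain ⟨g2, e1, e2⟩ := dirichlet hS.1 (Bd := {v | UpDn G a b g v}) ⟨a, ha⟩
      fun v => ((Fintype.equivFin V v : ℕ) : ℚ)
    let g' : V → α ×ₗ ℚ := fun v => toLex (g v, g2 v)
    have r1 : ∀ u v, g u < g v → g' u < g' v := fun u v h =>
      Prod.Lex.toLex_lt_toLex.2 (Or.inl h)
    have r2 : ∀ v, ¬ UpDn G a b g' v → ¬ UpDn G a b g v ∧ ∀ u, G.Adj v u → g2 u = g2 v := by
      intro v hv
      have hv' : ¬ UpDn G a b g v := fun h => hv (h.refine r1)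
      refine ⟨hv', ?_⟩
      by_contra hc
      obtain ⟨⟨u, a1, a2⟩, w, a3, a4⟩ := harm_both (e2 v hv') hc
      exact hv ⟨fun _ => ⟨u, a1, Prod.Lex.toLex_lt_toLex.2 (Or.inr ⟨(h2 v hv').2.2 u a1, a2⟩)⟩,
        fun _ => ⟨w, a3, Prod.Lex.toLex_lt_toLex.2 (Or.inr ⟨((h2 v hv').2.2 w a3).symm, a4⟩)⟩⟩
    have r3 : ∃ v, ¬ UpDn G a b g v ∧ UpDn G a b g' v := by
      by_contra hc
      push Not at hc
      obtain ⟨p, hp, hp'⟩ : ∃ p, UpDn G a b g p ∧ ∀ w, UpDn G a b g w → g2 w = g2 v0 → w = p := by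
        by_cases hex : ∃ p, UpDn G a b g p ∧ g2 p = g2 v0
        · obtain ⟨p, p1, p2⟩ := hex
          refine ⟨p, p1, fun w w1 w2 => ?_⟩
          rw [← p2, e1 w w1, e1 p p1] at w2
          exact (Fintype.equivFin V).injective (Fin.ext (by exact_mod_cast w2))
        · push Not at hex
          exact ⟨a, ha, fun w w1 w2 => absurd w2 (hex w w1)⟩
      obtain ⟨q, hq, hq'⟩ : ∃ q, UpDn G a b g q ∧ q ≠ p := by
        by_cases e : a = p
        · exact ⟨b, hb, fun e' => hab (e.trans e'.symm)⟩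
        · exact ⟨a, ha, e⟩
      have key : ∀ w, ReflTransGen (fun a b => G.Adj a b ∧ b ≠ p) v0 w →
          ¬ UpDn G a b g w ∧ g2 w = g2 v0 := by
        intro w hw
        induction hw with
        | refl => exact ⟨hv0, rfl⟩
        | @tail c d _ hcd ih =>
          have := ((r2 c (hc c ih.1)).2 d hcd.1).trans ih.2
          exact ⟨fun h => hcd.2 (hp' d h this), this⟩
      exact (key q (hS.avoid p (fun e => hv0 (e ▸ hp)) hq')).1 hq
    obtain ⟨θ, t1, t2, t3⟩ := ih g' (by
      obtain ⟨v, v1, v2⟩ := r3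
      have : {v | ¬ UpDn G a b g' v}.ncard < {v | ¬ UpDn G a b g v}.ncard :=
        Set.ncard_lt_ncard ⟨fun u hu => (r2 u hu).1, fun hc => hc v1 v2⟩
      omega) (fun v hv => by
        obtain ⟨a1, a2⟩ := r2 v hv
        obtain ⟨b1, b2, b3⟩ := h2 v a1
        exact ⟨b1, b2, fun u hu => by simp only [g', b3 u hu, a2 u hu]⟩)
    exact ⟨θ, t1, fun u v h => t2 u v (r1 u v h), t3⟩

theorem exists_potential {Δ e : ℕ} (hS : Surf G Δ e) {a b : V} (hab : a ≠ b) :
    ∃ (h θ : V → ℕ), h a < h b ∧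
      (∀ v, v ≠ a → v ≠ b → ∑ u ∈ nb G v, ((h u : ℤ) - h v) = 0) ∧ Function.Injective θ ∧
      (∀ u v, h u < h v → θ u < θ v) ∧ ∀ v, UpDn G a b θ v := by
  classical
  obtain ⟨g, e1, e2⟩ := dirichlet hS.1 (Bd := {a, b}) ⟨a, Or.inl rfl⟩
    fun v => if v = a then 0 else 1
  have ga : g a = 0 := by rw [e1 a (Or.inl rfl), if_pos rfl]
  have gb : g b = 1 := by rw [e1 b (Or.inr rfl), if_neg hab.symm]
  have g0 : ∀ v, 0 ≤ g v := fun v => by
    obtain ⟨w, rfl | rfl, h⟩ := min_principle hS.1 ⟨a, Or.inl rfl⟩ e2 v <;> linarith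
  have g1 : ∀ v, g v ≤ 1 := fun v => by
    obtain ⟨w, rfl | rfl, h⟩ := max_principle hS.1 ⟨a, Or.inl rfl⟩ e2 v <;> linarith
  have ua : UpDn G a b g a := by
    refine ⟨fun h => absurd rfl h, fun _ => ?_⟩
    by_contra hc
    push Not at hc
    obtain ⟨w, hw, h⟩ := min_principle hS.1 (Bd := {b}) ⟨b, rfl⟩ (h := g) (fun v hv => by
      by_cases e : v = a
      · subst e
        exact Finset.sum_eq_zero fun u hu => by
          have := hc u (mem_nb.1 hu); have := g0 u; linarith
      · exact e2 v (by simp only [Set.mem_insert_iff, not_or]; exact ⟨e, hv⟩)) a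
    rw [hw] at h
    linarith
  have ub : UpDn G a b g b := by
    refine ⟨fun _ => ?_, fun h => absurd rfl h⟩
    by_contra hc
    push Not at hc
    obtain ⟨w, hw, h⟩ := max_principle hS.1 (Bd := {a}) ⟨a, rfl⟩ (h := g) (fun v hv => by
      by_cases e : v = b
      · subst e
        exact Finset.sum_eq_zero fun u hu => by
          have := hc u (mem_nb.1 hu); have := g1 u; linarith
      · exact e2 v (by simp only [Set.mem_insert_iff, not_or]; exact ⟨hv, e⟩)) b
    rw [hw] at h
    linarith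
  obtain ⟨θ, t1, t2, t3⟩ := exists_st hS hab _ g le_rfl fun v hv => by
    have h1 : v ≠ a := fun e => hv (e ▸ ua)
    have h2 : v ≠ b := fun e => hv (e ▸ ub)
    refine ⟨h1, h2, ?_⟩
    by_contra hc
    have := harm_both (e2 v (by simp [h1, h2])) hc
    exact hv ⟨fun _ => this.1, fun _ => this.2⟩
  obtain ⟨d, hd, hd'⟩ : ∃ d : ℕ, 0 < d ∧ ∀ v, ∃ k : ℕ, (k : ℚ) = d * g v := by
    refine ⟨∏ v, (g v).den, Finset.prod_pos fun v _ => (g v).den_pos, fun v => ?_⟩
    obtain ⟨c, hc⟩ := Finset.dvd_prod_of_mem (fun v => (g v).den) (Finset.mem_univ v)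
    refine ⟨c * (g v).num.toNat, ?_⟩
    rw [hc]
    have h1 : (((g v).num.toNat : ℕ) : ℚ) = (g v).num := by
      have := Int.toNat_of_nonneg (Rat.num_nonneg.2 (g0 v))
      exact_mod_cast this
    push_cast
    rw [h1, ← Rat.den_mul_eq_num]
    ring
  choose h hh using hd'
  have hd0 : (0 : ℚ) < d := by exact_mod_cast hd
  refine ⟨h, θ, ?_, fun v h1 h2 => ?_, t1, fun u v huv => t2 u v ?_, t3⟩
  · have : (h a : ℚ) < h b := by rw [hh, hh, ga, gb]; linarith
    exact_mod_cast this
  · have : ∑ u ∈ nb G v, ((h u : ℚ) - h v) = 0 := by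
      simp only [hh, ← mul_sub]
      rw [← Finset.mul_sum, e2 v (by simp [h1, h2]), mul_zero]
    exact_mod_cast this
  · have : (h u : ℚ) < h v := by exact_mod_cast huv
    rw [hh, hh] at this
    exact lt_of_mul_lt_mul_left this hd0.le

end Pool.Agent.Lib.MP_845f45_al
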