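import Pool.Agent.Lib.MP_845f45_al.Ord

namespace Pool.Agent.Lib.MP_845f45_al

open Relation

variable {V : Type} [Fintype V] {G : SimpleGraph V}

structure FD (G : SimpleGraph V) (a b : V) (e : ℕ) where
  θ : V → ℕ
  θinj : Function.Injective θ
  ud : ∀ v, UpDn G a b θ v
  O : OrdD G θ e
  φ : V → V → ℕ
  φsymm : ∀ u v, φ u v = φ v u
  φpos : ∀ u v, G.Adj u v → 0 < φ u v
  cons : ∀ v, v ≠ a → v ≠ b → ∑ u ∈ (nb G v).filter (fun u => θ u < θ v), φ v u =
    ∑ u ∈ (nb G v).filter (fun u => ¬ θ u < θ v), φ v u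

lemma exists_block {α : Type} (κ φ : α → ℕ) (s : Finset α)
    (hinj : ∀ u ∈ s, ∀ u' ∈ s, κ u = κ u' → u = u') :
    ∀ p, p < ∑ u ∈ s, φ u → ∃ u ∈ s, ∃ k, k < φ u ∧
      (∑ u' ∈ s.filter (fun u' => κ u' < κ u), φ u') + k = p := by
  classical
  induction s using Finset.induction_on_max_value κ with
  | empty => simp
  | insert a s ha hmax ih =>
    intro p hp
    rw [Finset.sum_insert ha] at hp
    by_cases h : p < ∑ u ∈ s, φ u
    · obtain ⟨u, hu, k, h1, h2⟩ := ih (fun u hu u' hu' => hinj u (Finset.mem_insert_of_mem hu) u'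
        (Finset.mem_insert_of_mem hu')) p h
      refine ⟨u, Finset.mem_insert_of_mem hu, k, h1, ?_⟩
      rw [Finset.filter_insert, if_neg (not_lt.2 (hmax u hu))]
      exact h2
    · refine ⟨a, Finset.mem_insert_self _ _, p - ∑ u ∈ s, φ u, by omega, ?_⟩
      rw [Finset.filter_insert, if_neg (lt_irrefl _), Finset.filter_true_of_mem]
      · omega
      · intro u hu
        refine lt_of_le_of_ne (hmax u hu) fun e => ha ?_
        rw [← hinj u (Finset.mem_insert_of_mem hu) a (Finset.mem_insert_self _ _) e]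
        exact hu

namespace FD

variable {a b : V} {e : ℕ} (F : FD G a b e)

noncomputable def pre (v u : V) : ℕ :=
  ∑ u' ∈ (nb G v).filter (fun u' => F.O.κ v u' < F.O.κ v u), F.φ v u'

noncomputable def T (v : V) : ℕ := ∑ u ∈ nb G v, F.φ v u

noncomputable def σ (v : V) : ℕ := ∑ u ∈ (nb G v).filter (fun u => F.θ u < F.θ v), F.φ v u

variable {F}

lemma min_a (v : V) : F.θ a ≤ F.θ v := by
  induction hk : F.θ v using Nat.strong_induction_on generalizing v with
  | _ k ih =>
    by_cases h : v = a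
    · rw [← hk, h]
    · obtain ⟨u, -, h2⟩ := (F.ud v).1 h
      have := ih _ (hk ▸ h2) u rfl
      omega

lemma max_b (v : V) : F.θ v ≤ F.θ b := by
  obtain ⟨m, -, hm⟩ := Finset.exists_max_image Finset.univ F.θ ⟨v, Finset.mem_univ _⟩
  by_cases h : m = b
  · exact h ▸ hm v (Finset.mem_univ _)
  · obtain ⟨u, -, h2⟩ := (F.ud m).2 h
    have := hm u (Finset.mem_univ _)
    omega

lemma θ_ne {u v : V} (h : G.Adj u v) : F.θ u ≠ F.θ v := F.θinj.ne h.ne

lemma T_eq {v : V} (h1 : v ≠ a) (h2 : v ≠ b) : F.T v = 2 * F.σ v := by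
  classical
  have := Finset.sum_filter_add_sum_filter_not (nb G v) (fun u => F.θ u < F.θ v) (F.φ v)
  have h3 := F.cons v h1 h2
  unfold T σ
  omega

lemma pre_add_le {v u : V} (hu : G.Adj v u) (s : Finset V) (hs : u ∈ s)
    (h : ∀ w, G.Adj v w → F.O.κ v w < F.O.κ v u → w ∈ s) :
    F.pre v u + F.φ v u ≤ ∑ w ∈ s, F.φ v w := by
  classical
  unfold pre
  rw [add_comm, ← Finset.sum_insert (by simp)]
  apply Finset.sum_le_sum_of_subset
  intro w hw
  simp only [Finset.mem_insert, Finset.mem_filter, mem_nb] at hw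
  rcases hw with rfl | hw
  · exact hs
  · exact h w hw.1 hw.2

lemma pre_lt {v u u' : V} (hu : G.Adj v u) (h : F.O.κ v u < F.O.κ v u') :
    F.pre v u + F.φ v u ≤ F.pre v u' :=
  pre_add_le hu _ (by simp [hu, h]) fun w h1 h2 => by simp [h1, h2.trans h]

lemma pre_le_T {v u : V} (hu : G.Adj v u) : F.pre v u + F.φ v u ≤ F.T v :=
  pre_add_le hu _ (by simp [hu]) fun w h1 _ => by simp [h1]

lemma pre_in {v u : V} (hu : G.Adj v u) (h : F.θ u < F.θ v) : F.pre v u + F.φ v u ≤ F.σ v := by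
  refine pre_add_le hu _ (by simp [hu, h]) fun w h1 h2 => ?_
  simp only [Finset.mem_filter, mem_nb, h1, true_and]
  by_contra hc
  have := θ_ne (F := F) h1
  have := F.O.inout v u w hu h1 h (by omega)
  omega

lemma pre_out {v u : V} (hu : G.Adj v u) (h : F.θ v < F.θ u) : F.σ v ≤ F.pre v u := by
  apply Finset.sum_le_sum_of_subset
  intro w hw
  simp only [Finset.mem_filter, mem_nb] at hw ⊢
  exact ⟨hw.1, F.O.inout v w u hw.1 hu hw.2 h⟩

lemma exists_dart {v : V} {p : ℕ} (hp : p < F.T v) :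
    ∃ u, G.Adj v u ∧ ∃ k, k < F.φ v u ∧ F.pre v u + k = p := by
  obtain ⟨u, h1, k, h2, h3⟩ := exists_block (F.O.κ v) (F.φ v) (nb G v)
    (fun u hu u' hu' => F.O.inj v u u' (mem_nb.1 hu) (mem_nb.1 hu')) p hp
  exact ⟨u, mem_nb.1 h1, k, h2, h3⟩

lemma dart_inj {v u u' : V} {k k' : ℕ} (hu : G.Adj v u) (hu' : G.Adj v u') (hk : k < F.φ v u)
    (hk' : k' < F.φ v u') (h : F.pre v u + k = F.pre v u' + k') : u = u' ∧ k = k' := by
  rcases lt_trichotomy (F.O.κ v u) (F.O.κ v u') with h1 | h1 | h1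
  · have := pre_lt hu h1; omega
  · have := F.O.inj v u u' hu hu' h1
    subst this; exact ⟨rfl, by omega⟩
  · have := pre_lt hu' h1; omega

lemma σ_le_T (v : V) : F.σ v ≤ F.T v :=
  Finset.sum_le_sum_of_subset (Finset.filter_subset _ _)

lemma exists_in_dart {v : V} {p : ℕ} (hp : p < F.σ v) :
    ∃ u, G.Adj v u ∧ F.θ u < F.θ v ∧ ∃ k, k < F.φ v u ∧ F.pre v u + k = p := by
  obtain ⟨u, h1, k, h2, h3⟩ := exists_dart (hp.trans_le (σ_le_T v))
  refine ⟨u, h1, ?_, k, h2, h3⟩
  by_contra hc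
  have := θ_ne (F := F) h1
  have := pre_out (F := F) h1 (by omega)
  omega

lemma pre_succ {v : V} (hg : F.O.good v) {i : ℕ} (hi : i + 1 < F.O.n v) :
    F.pre v (F.O.c v (i + 1)) = F.pre v (F.O.c v i) + F.φ v (F.O.c v i) := by
  classical
  have hc := F.O.cyc v hg
  unfold pre
  rw [add_comm _ (F.φ v _), ← Finset.sum_insert (by simp)]
  congr 1
  ext w
  simp only [Finset.mem_insert, Finset.mem_filter, mem_nb, F.O.kc v hg _ hi,
    F.O.kc v hg i (by omega)]
  constructor
  · rintro ⟨h1, h2⟩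
    obtain ⟨j, hj, rfl⟩ := hc.surj w h1
    rw [F.O.kc v hg j hj] at h2 ⊢
    by_cases e : j = i
    · exact Or.inl (by rw [e])
    · exact Or.inr ⟨h1, by omega⟩
  · rintro (rfl | ⟨h1, h2⟩)
    · exact ⟨hc.adj i (by omega), by rw [F.O.kc v hg i (by omega)]; omega⟩
    · exact ⟨h1, by omega⟩

lemma pre_zero {v : V} (hg : F.O.good v) : F.pre v (F.O.c v 0) = 0 := by
  have := (F.O.cyc v hg).four
  unfold pre
  rw [F.O.kc v hg 0 (by omega)]
  simp

lemma pre_last {v : V} (hg : F.O.good v) {i : ℕ} (hi : i + 1 = F.O.n v) :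
    F.pre v (F.O.c v i) + F.φ v (F.O.c v i) = F.T v := by
  have hc := F.O.cyc v hg
  refine le_antisymm (pre_le_T (hc.adj i (by omega))) ?_
  by_contra h
  obtain ⟨u, h1, k, h2, h3⟩ := exists_dart (not_le.1 h)
  obtain ⟨j, hj, rfl⟩ := hc.surj u h1
  by_cases e : j = i
  · subst e; omega
  · have := pre_lt (u' := F.O.c v i) h1 (by
      rw [F.O.kc v hg j hj, F.O.kc v hg i (by omega)]; omega)
    omega

variable (F)

noncomputable def pr (v u : V) : V :=
  F.O.c v (if F.O.κ v u = 0 then F.O.n v - 1 else F.O.κ v u - 1)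

open Classical in
noncomputable def fl (u v : V) (k : ℕ) : ℕ := if F.pr u v = F.pr v u then k else F.φ u v - 1 - k

open Classical in
noncomputable def t (v : V) (p : ℕ) : ℕ :=
  if v = a then p else
    if h : ∃ d : V × ℕ, G.Adj v d.1 ∧ F.θ d.1 < F.θ v ∧ d.2 < F.φ v d.1 ∧
        F.pre v d.1 + d.2 = if p < F.σ v then p else F.T v - 1 - p then
      t h.choose.1 (F.pre h.choose.1 v + F.fl h.choose.1 v h.choose.2)
    else 0
termination_by F.θ v
decreasing_by exact h.choose_spec.2.1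

variable {F}

lemma fl_lt {u v : V} {k : ℕ} (h : k < F.φ u v) : F.fl u v k < F.φ u v := by
  unfold fl; split_ifs <;> omega

lemma fl_fl {u v : V} {k : ℕ} (h : k < F.φ u v) : F.fl u v (F.fl u v k) = k := by
  unfold fl; split_ifs <;> omega

lemma t_a (p : ℕ) : F.t a p = p := by rw [t, if_pos rfl]

lemma t_in {v u : V} {k : ℕ} (hu : G.Adj v u) (h : F.θ u < F.θ v) (hk : k < F.φ v u) :
    F.t v (F.pre v u + k) = F.t u (F.pre u v + F.fl u v k) := by
  have hv : v ≠ a := by
    rintro rfl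
    have := min_a (F := F) u
    omega
  have h1 := pre_in hu h
  have hx : ∃ d : V × ℕ, G.Adj v d.1 ∧ F.θ d.1 < F.θ v ∧ d.2 < F.φ v d.1 ∧
      F.pre v d.1 + d.2 = if F.pre v u + k < F.σ v then F.pre v u + k
        else F.T v - 1 - (F.pre v u + k) := ⟨(u, k), hu, h, hk, by rw [if_pos (by omega)]⟩
  rw [t, if_neg hv, dif_pos hx]
  obtain ⟨a1, -, a3, a4⟩ := hx.choose_spec
  obtain ⟨e1, e2⟩ := dart_inj a1 hu a3 hk (a4.trans (if_pos (by omega)))
  rw [e1, e2]

lemma t_out {v : V} (h1 : v ≠ a) (h2 : v ≠ b) {p : ℕ} (hp : F.σ v ≤ p) (hp' : p < F.T v) :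
    F.t v p = F.t v (F.T v - 1 - p) := by
  have := T_eq (F := F) h1 h2
  rw [t, t.eq_1 F v (F.T v - 1 - p), if_neg h1, if_neg h1, if_neg (not_lt.2 hp),
    if_pos (show F.T v - 1 - p < F.σ v by omega)]

lemma ne_b_of_lt {v : V} (h : F.σ v < F.T v) : v ≠ b := by
  rintro rfl
  obtain ⟨u, h1, k, h2, h3⟩ := exists_dart h
  have := max_b (F := F) u
  have := θ_ne (F := F) h1
  have := pre_in (F := F) h1 (by omega)
  omega

variable (F)

open Classical in
noncomputable def Θ : Finset ℕ :=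
  insert 0 (insert (F.T a - 1) ((Finset.univ.filter fun v => ¬ F.O.good v).biUnion fun v =>
    (nb G v).biUnion fun u => {F.t v (F.pre v u), F.t v (F.pre v u + (F.φ v u - 1))}))

noncomputable def ψ (x : ℕ) : ℕ := F.Θ.inf' ⟨0, by simp [Θ]⟩ fun y => Nat.dist x y

open Classical in
noncomputable def E (v u w : V) : ℕ := if w = F.pr v u then 0 else F.φ v u - 1

noncomputable def val (v u w : V) : ℕ := F.ψ (F.t v (F.pre v u + F.E v u w))

def Cl1 (x y : ℕ) : Prop := x ≤ y + 1 ∧ y ≤ x + 1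

variable {F}

lemma ψ_mem {x : ℕ} (h : x ∈ F.Θ) : F.ψ x = 0 := by
  have := Finset.inf'_le (fun y => Nat.dist x y) h
  rw [Nat.dist_self] at this
  exact Nat.le_zero.1 this

lemma ψ_exists (x : ℕ) : ∃ y ∈ F.Θ, F.ψ x = Nat.dist x y := Finset.exists_mem_eq_inf' _ _

lemma ψ_succ (x : ℕ) : Cl1 (F.ψ x) (F.ψ (x + 1)) := by
  obtain ⟨y, h1, h2⟩ := ψ_exists (F := F) x
  obtain ⟨z, h3, h4⟩ := ψ_exists (F := F) (x + 1)
  have a1 : F.ψ x ≤ Nat.dist x z := Finset.inf'_le _ h3
  have a2 : F.ψ (x + 1) ≤ Nat.dist (x + 1) y := Finset.inf'_le _ h1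
  unfold Cl1 Nat.dist at *
  omega

lemma ψ_bad {v u : V} (hv : ¬ F.O.good v) (hu : G.Adj v u) {k : ℕ}
    (hk : k = 0 ∨ k = F.φ v u - 1) : F.ψ (F.t v (F.pre v u + k)) = 0 := by
  apply ψ_mem
  simp only [Θ, Finset.mem_insert, Finset.mem_biUnion, Finset.mem_filter, Finset.mem_univ,
    true_and, mem_nb, Finset.mem_singleton]
  refine Or.inr (Or.inr ⟨v, hv, u, hu, ?_⟩)
  rcases hk with rfl | rfl
  · exact Or.inl rfl
  · exact Or.inr rfl

lemma E_ext (v u w : V) : F.E v u w = 0 ∨ F.E v u w = F.φ v u - 1 := by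
  unfold E; split_ifs
  · exact Or.inl rfl
  · exact Or.inr rfl

lemma val_bad {v u : V} (hv : ¬ F.O.good v) (hu : G.Adj v u) (w : V) : F.val v u w = 0 :=
  ψ_bad hv hu (E_ext v u w)

lemma pr_adj {v u : V} (hg : F.O.good v) (hu : G.Adj v u) :
    G.Adj v (F.pr v u) ∧ G.Adj u (F.pr v u) := by
  have hc := F.O.cyc v hg
  have := hc.four
  obtain ⟨i, hi, rfl⟩ := hc.surj u hu
  unfold pr
  rw [F.O.kc v hg i hi]
  refine ⟨hc.adj _ (by split_ifs <;> omega), (hc.link _ _ hi (by split_ifs <;> omega)).2 ?_⟩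
  unfold Nx
  split_ifs <;> omega

lemma val_edge {u v w : V} (h : G.Adj v u) (hlt : F.θ u < F.θ v) (h1 : G.Adj v w)
    (h2 : G.Adj u w) : F.val v u w = F.val u v w := by
  have p1 := F.φpos v u h
  have p2 := F.φsymm u v
  have key : ∀ k, k < F.φ v u → F.ψ (F.t v (F.pre v u + k)) =
    F.ψ (F.t u (F.pre u v + F.fl u v k)) := fun k hk => by rw [t_in h hlt hk]
  have e1 := E_ext (F := F) v u w
  have e2 := E_ext (F := F) u v w
  by_cases gv : F.O.good v
  · by_cases gu : F.O.good u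
    · unfold val
      rw [key _ (by omega)]
      congr 3
      obtain ⟨x, y, -, -, -, -, -, -, b⟩ := (F.O.cyc v gv).two h
      have c1 := b w h1 h2
      have c2 := b _ (pr_adj gv h).1 (pr_adj gv h).2
      have c3 := b _ (pr_adj gu h.symm).2 (pr_adj gu h.symm).1
      unfold fl E
      by_cases d1 : w = F.pr v u <;> by_cases d2 : w = F.pr u v
      · rw [if_pos (d2.symm.trans d1), if_pos d1, if_pos d2]
      · rw [if_neg (fun e => d2 (d1.trans e.symm)), if_pos d1, if_neg d2]; omega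
      · rw [if_neg (fun e => d1 (d2.trans e)), if_neg d1, if_pos d2]; omega
      · rw [if_pos (by grind), if_neg d1, if_neg d2]; omega
    · rw [val_bad gu h.symm]
      unfold val
      rw [key _ (by omega)]
      apply ψ_bad gu h.symm
      unfold fl
      split_ifs <;> omega
  · rw [val_bad gv h]
    unfold val
    rw [← fl_fl (F := F) (u := u) (v := v) (k := F.E u v w) (by omega), ← key _ (by
      have := fl_lt (F := F) (u := u) (v := v) (k := F.E u v w) (by omega); omega)]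
    symm
    apply ψ_bad gv h
    unfold fl
    split_ifs <;> omega

lemma pos_next {v : V} (hg : F.O.good v) {i : ℕ} (hi : i + 1 < F.O.n v) :
    F.E v (F.O.c v i) (F.O.c v (i + 1)) = F.φ v (F.O.c v i) - 1 ∧
    F.E v (F.O.c v (i + 1)) (F.O.c v i) = 0 := by
  have hc := F.O.cyc v hg
  have := hc.four
  unfold E pr
  rw [F.O.kc v hg _ hi, F.O.kc v hg i (by omega)]
  refine ⟨if_neg fun e => ?_, by simp⟩
  have := hc.inj _ _ hi (by split_ifs <;> omega) e
  split_ifs at this <;> omega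

lemma pos_wrap {v : V} (hg : F.O.good v) {i : ℕ} (hi : i + 1 = F.O.n v) :
    F.E v (F.O.c v i) (F.O.c v 0) = F.φ v (F.O.c v i) - 1 ∧
    F.E v (F.O.c v 0) (F.O.c v i) = 0 := by
  have hc := F.O.cyc v hg
  have := hc.four
  unfold E pr
  rw [F.O.kc v hg 0 (by omega), F.O.kc v hg i (by omega)]
  refine ⟨if_neg fun e => ?_, by simp [← hi]⟩
  have := hc.inj _ _ (by omega) (by split_ifs <;> omega) e
  split_ifs at this <;> omega

lemma val_mid {x y z : V} (h1 : G.Adj y x) (h2 : G.Adj y z) (h3 : G.Adj x z)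
    (l1 : F.θ x < F.θ y) (l2 : F.θ y < F.θ z) : F.val y x z = F.val y z x := by
  by_cases hg : F.O.good y
  swap
  · rw [val_bad hg h1, val_bad hg h2]
  have hc := F.O.cyc y hg
  have ya : y ≠ a := by
    rintro rfl
    have := min_a (F := F) x
    omega
  have yb : y ≠ b := by
    rintro rfl
    have := max_b (F := F) z
    omega
  have k1 := F.O.inout y x z h1 h2 l1 l2
  have p1 := pre_in h1 l1
  have p2 := pre_out h2 l2
  have p3 := F.φpos _ _ h1
  have p4 := F.φpos _ _ h2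
  have p5 := pre_le_T (F := F) h2
  have p6 := T_eq (F := F) ya yb
  obtain ⟨i, hi, rfl⟩ := hc.surj x h1
  obtain ⟨j, hj, rfl⟩ := hc.surj z h2
  rw [F.O.kc y hg i hi, F.O.kc y hg j hj] at k1
  rw [hc.link i j hi hj] at h3
  unfold val
  rcases h3 with rfl | h3 | ⟨rfl, h3⟩ | h3
  · obtain ⟨e1, e2⟩ := pos_next hg hj
    have e3 := pre_succ hg hj
    rw [e1, e2, t_out ya yb (p := F.pre y (F.O.c y (i + 1)) + 0) (by omega) (by omega)]
    congr 2
    omega
  · omega
  · obtain ⟨e1, e2⟩ := pos_wrap hg h3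
    have e3 := pre_last hg h3
    rw [e1, e2, pre_zero hg, t_out ya yb (p := F.pre y (F.O.c y j) + _) (by omega) (by omega)]
    congr 2
    omega
  · omega

lemma val_lo {x y z : V} (h1 : G.Adj x y) (h2 : G.Adj x z) (h3 : G.Adj y z)
    (l1 : F.θ x < F.θ y) (l2 : F.θ x < F.θ z)
    (ih : ∀ p, p + 1 < F.T x → Cl1 (F.ψ (F.t x p)) (F.ψ (F.t x (p + 1)))) :
    Cl1 (F.val x y z) (F.val x z y) := by
  by_cases hg : F.O.good x
  swap
  · rw [val_bad hg h1, val_bad hg h2]; simp [Cl1]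
  have hc := F.O.cyc x hg
  have key : ∀ i j, i < F.O.n x → j < F.O.n x → F.θ x < F.θ (F.O.c x i) →
      (j = i + 1 ∨ (i = 0 ∧ j + 1 = F.O.n x)) →
      Cl1 (F.val x (F.O.c x i) (F.O.c x j)) (F.val x (F.O.c x j) (F.O.c x i)) := by
    intro i j hi hj l h
    have p1 := F.φpos _ _ (hc.adj i hi)
    have p2 := F.φpos _ _ (hc.adj j hj)
    have p3 := pre_le_T (F := F) (hc.adj j hj)
    unfold val
    rcases h with rfl | ⟨rfl, h⟩
    · obtain ⟨e1, e2⟩ := pos_next hg hj
      have e3 := pre_succ hg hj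
      have := ih (F.pre x (F.O.c x i) + (F.φ x (F.O.c x i) - 1)) (by omega)
      rw [e1, e2]
      convert this using 3
      omega
    · obtain ⟨e1, e2⟩ := pos_wrap hg h
      have e3 := pre_last hg h
      have xa : x = a := by
        by_contra hc'
        obtain ⟨w, w1, w2⟩ := (F.ud x).1 hc'
        have := F.O.inout x w _ w1 (hc.adj 0 hi) w2 l
        rw [F.O.kc x hg 0 hi] at this
        omega
      subst xa
      rw [e1, e2, pre_zero hg, t_a, t_a, ψ_mem (by simp [Θ]), ψ_mem]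
      · simp [Cl1]
      · rw [show F.pre x (F.O.c x j) + (F.φ x (F.O.c x j) - 1) = F.T x - 1 by omega]
        simp [Θ]
  obtain ⟨i, hi, rfl⟩ := hc.surj y h1
  obtain ⟨j, hj, rfl⟩ := hc.surj z h2
  rw [hc.link i j hi hj] at h3
  rcases h3 with h3 | h3 | h3 | h3
  · exact key i j hi hj l1 (Or.inl h3)
  · exact (key j i hj hi l2 (Or.inl h3)).symm
  · exact key i j hi hj l1 (Or.inr h3)
  · exact (key j i hj hi l2 (Or.inr h3)).symm

theorem lip (v : V) : ∀ p, p + 1 < F.T v → Cl1 (F.ψ (F.t v p)) (F.ψ (F.t v (p + 1))) := by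
  induction hk : F.θ v using Nat.strong_induction_on generalizing v with
  | _ k ih =>
    subst hk
    have face : ∀ x y, G.Adj v x → G.Adj v y → G.Adj x y → F.θ x < F.θ y → F.θ y < F.θ v →
        Cl1 (F.val v x y) (F.val v y x) := by
      intro x y h1 h2 h3 l1 l2
      rw [val_edge h1 (l1.trans l2) h2 h3, val_edge h2 l2 h1 h3.symm,
        ← val_mid h3.symm h2.symm h1.symm l1 l2, val_edge h3.symm l1 h2.symm h1.symm]
      exact (val_lo h3 h1.symm h2.symm l1 (l1.trans l2) (ih _ (l1.trans l2) x rfl)).symm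
    have inin : ∀ p, p + 1 < F.σ v → Cl1 (F.ψ (F.t v p)) (F.ψ (F.t v (p + 1))) := by
      intro p hp
      obtain ⟨u, a1, a2, k, a3, a4⟩ := exists_in_dart (F := F) (v := v) (p := p) (by omega)
      obtain ⟨u', b1, b2, k', b3, b4⟩ := exists_in_dart hp
      by_cases huu : u = u'
      · subst huu
        have e1 := F.φsymm u v
        have e2 := pre_le_T (F := F) a1.symm
        rw [← a4, add_assoc, t_in a1 a2 a3, t_in a1 a2 (by omega)]
        unfold fl
        split_ifs
        · exact ih _ a2 u rfl _ (by omega)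
        · have := ih _ a2 u rfl (F.pre u v + (F.φ u v - 1 - (k + 1))) (by omega)
          rw [show F.pre u v + (F.φ u v - 1 - (k + 1)) + 1 = F.pre u v + (F.φ u v - 1 - k) by
            omega] at this
          exact this.symm
      have c1 : F.O.κ v u < F.O.κ v u' := by
        rcases lt_trichotomy (F.O.κ v u) (F.O.κ v u') with h | h | h
        · exact h
        · exact absurd (F.O.inj v u u' a1 b1 h) huu
        · have := pre_lt b1 h; omega
      have c2 := pre_lt a1 c1
      by_cases hg : F.O.good v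
      swap
      · rw [← b4, ← a4, ψ_bad hg a1 (by omega), ψ_bad hg b1 (by omega)]
        simp [Cl1]
      have hc := F.O.cyc v hg
      obtain ⟨i, hi, rfl⟩ := hc.surj u a1
      obtain ⟨j, hj, rfl⟩ := hc.surj u' b1
      rw [F.O.kc v hg i hi, F.O.kc v hg j hj] at c1
      have c3 : j = i + 1 := by
        by_contra hc'
        have d1 := pre_succ hg (i := i) (by omega)
        have d2 := pre_lt (F := F) (u' := F.O.c v j) (hc.adj (i + 1) (by omega)) (by
          rw [F.O.kc v hg _ (by omega), F.O.kc v hg j hj]; omega)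
        have d3 := F.φpos _ _ (hc.adj (i + 1) (by omega))
        omega
      subst c3
      obtain ⟨e1, e2⟩ := pos_next hg hj
      have h3 := (hc.link i (i + 1) hi hj).2 (Or.inl rfl)
      have : Cl1 (F.val v (F.O.c v i) (F.O.c v (i + 1))) (F.val v (F.O.c v (i + 1)) (F.O.c v i)) := by
        rcases lt_or_gt_of_ne (θ_ne (F := F) h3) with l | l
        · exact face _ _ a1 b1 h3 l b2
        · exact (face _ _ b1 a1 h3.symm l a2).symm
      unfold val at this
      rw [e1, e2] at this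
      convert this using 3 <;> omega
    intro p hp
    by_cases ha : v = a
    · rw [ha, t_a, t_a]; exact ψ_succ p
    by_cases h1 : p + 1 < F.σ v
    · exact inin p h1
    have hb := ne_b_of_lt (F := F) (v := v) (by omega)
    have hT := T_eq (F := F) ha hb
    rw [t_out ha hb (p := p + 1) (by omega) hp]
    by_cases h2 : p + 1 = F.σ v
    · rw [show F.T v - 1 - (p + 1) = p by omega]; simp [Cl1]
    · rw [t_out ha hb (p := p) (by omega) (by omega)]
      have := inin (F.T v - 1 - (p + 1)) (by omega)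
      rw [show F.T v - 1 - (p + 1) + 1 = F.T v - 1 - p by omega] at this
      exact this.symm

lemma lip' (v : V) {p q : ℕ} (hpq : p ≤ q) (hq : q < F.T v) :
    F.ψ (F.t v p) ≤ F.ψ (F.t v q) + (q - p) ∧ F.ψ (F.t v q) ≤ F.ψ (F.t v p) + (q - p) := by
  induction hpq with
  | refl => simp
  | @step q hpq ih =>
    have h1 := ih (by omega)
    have h2 := lip (F := F) v q hq
    have : p ≤ q := hpq
    unfold Cl1 at h2
    simp only [Nat.succ_eq_add_one] at *
    omega

lemma back {u v : V} {k : ℕ} (h : G.Adj u v) (l : F.θ u < F.θ v) (hk : k < F.φ u v) (ha : u ≠ a) :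
    ∃ w j, G.Adj w u ∧ F.θ w < F.θ u ∧ j < F.φ w u ∧
      F.t u (F.pre u v + k) = F.t w (F.pre w u + j) ∧
      F.pre u v + k + (F.pre u w + F.fl w u j) + 1 = F.T u := by
  have p1 := pre_out h l
  have p2 := pre_le_T (F := F) h
  have hb := ne_b_of_lt (F := F) (v := u) (by omega)
  have hT := T_eq (F := F) ha hb
  obtain ⟨w, a1, a2, j, a3, a4⟩ := exists_in_dart (F := F) (v := u)
    (p := F.T u - 1 - (F.pre u v + k)) (by omega)
  have a5 := F.φsymm u w
  refine ⟨w, F.fl w u j, a1.symm, a2, fl_lt (by omega), ?_, ?_⟩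
  · rw [t_out ha hb (by omega) (by omega), ← a4, t_in a1 a2 a3]
  · rw [fl_fl (by omega)]; omega

theorem src_inj (m : ℕ) : ∀ (u v u' v' : V) (k k' : ℕ), F.θ u + F.θ u' = m → G.Adj u v →
    F.θ u < F.θ v → k < F.φ u v → G.Adj u' v' → F.θ u' < F.θ v' → k' < F.φ u' v' →
    F.t u (F.pre u v + k) = F.t u' (F.pre u' v' + k') →
    (u = u' ∧ v = v' ∧ k = k') ∨ F.θ v ≤ F.θ u' ∨ F.θ v' ≤ F.θ u := by
  induction m using Nat.strong_induction_on with
  | _ m ih =>
    intro u v u' v' k k' hm h l hk h' l' hk' ht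
    wlog hle : F.θ u' ≤ F.θ u generalizing u v u' v' k k'
    · rcases this u' v' u v k' k (by omega) h' l' hk' h l hk ht.symm (by omega) with h | h | h
      · exact Or.inl ⟨h.1.symm, h.2.1.symm, h.2.2.symm⟩
      · exact Or.inr (Or.inr h)
      · exact Or.inr (Or.inl h)
    by_cases ha : u = a
    · have ha' : u' = a := F.θinj (le_antisymm (ha ▸ hle) (min_a _))
      subst ha
      subst ha'
      rw [t_a, t_a] at ht
      obtain ⟨e1, e2⟩ := dart_inj h h' hk hk' ht
      exact Or.inl ⟨rfl, e1, e2⟩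
    obtain ⟨w, j, a1, a2, a3, a4, a5⟩ := back h l hk ha
    rcases ih _ (by omega) w u u' v' j k' rfl a1 a2 a3 h' l' hk' (a4 ▸ ht) with b | b | b
    · exact Or.inr (Or.inr (by rw [b.2.1]))
    · have e : u = u' := F.θinj (le_antisymm b hle)
      subst e
      obtain ⟨w', j', c1, c2, c3, c4, c5⟩ := back h' l' hk' ha
      rcases ih _ (by omega) w u w' u j j' rfl a1 a2 a3 c1 c2 c3 (a4 ▸ c4 ▸ ht) with d | d | d
      · obtain ⟨rfl, -, rfl⟩ := d
        obtain ⟨e1, e2⟩ := dart_inj h h' hk hk' (by omega)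
        exact Or.inl ⟨rfl, e1, e2⟩
      · omega
      · omega
    · exact Or.inr (Or.inr (by omega))

lemma card_Θ {Δ : ℕ} (hΔ : ∀ v, (nb G v).card ≤ Δ) : F.Θ.card ≤ 2 + (e + 4) * (Δ * 2) := by
  classical
  unfold Θ
  refine (Finset.card_insert_le _ _).trans ?_
  have := Finset.card_insert_le (F.T a - 1) ((Finset.univ.filter fun v => ¬ F.O.good v).biUnion
    fun v => (nb G v).biUnion fun u => {F.t v (F.pre v u), F.t v (F.pre v u + (F.φ v u - 1))})
  have h2 : ((Finset.univ.filter fun v => ¬ F.O.good v).biUnion fun v => (nb G v).biUnion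
      fun u => ({F.t v (F.pre v u), F.t v (F.pre v u + (F.φ v u - 1))} : Finset ℕ)).card ≤
      (e + 4) * (Δ * 2) := by
    refine (Finset.card_biUnion_le_card_mul _ _ (Δ * 2) fun v _ => ?_).trans
      (Nat.mul_le_mul_right _ ?_)
    · exact (Finset.card_biUnion_le_card_mul _ _ 2 fun u _ => Finset.card_le_two).trans
        (Nat.mul_le_mul_right _ (hΔ v))
    · have := F.O.bad
      rwa [Set.ncard_eq_toFinset_card', Set.toFinset_setOf] at this
  omega

lemma card_window (c ω : ℕ) (S : Finset ℕ) (hS : ∀ x ∈ S, F.ψ x ≤ c + ω ∧ c ≤ F.ψ x + ω) :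
    S.card ≤ F.Θ.card * (2 * (2 * ω + 1)) := by
  have : S ⊆ F.Θ.biUnion fun y => (Finset.Icc (c - ω) (c + ω)).image (fun j => y + j) ∪
      (Finset.Icc (c - ω) (c + ω)).image (fun j => y - j) := by
    intro x hx
    obtain ⟨y, h1, h2⟩ := ψ_exists (F := F) x
    have := hS x hx
    simp only [Finset.mem_biUnion, Finset.mem_union, Finset.mem_image, Finset.mem_Icc]
    refine ⟨y, h1, ?_⟩
    unfold Nat.dist at h2
    by_cases h : y ≤ x
    · exact Or.inl ⟨F.ψ x, by omega, by omega⟩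
    · exact Or.inr ⟨F.ψ x, by omega, by omega⟩
  refine (Finset.card_le_card this).trans (Finset.card_biUnion_le_card_mul _ _ _ fun y _ => ?_)
  refine (Finset.card_union_le _ _).trans ?_
  have h1 := Finset.card_image_le (s := Finset.Icc (c - ω) (c + ω)) (f := fun j => y + j)
  have h2 := Finset.card_image_le (s := Finset.Icc (c - ω) (c + ω)) (f := fun j => y - j)
  rw [Nat.card_Icc] at h1 h2
  omega

end FD

end Pool.Agent.Lib.MP_845f45_al
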