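import Pool.Agent.Lib.MP_845f45_al.Flow

namespace Pool.Agent.Lib.MP_845f45_al

open Relation

variable {V : Type} [Fintype V] {G : SimpleGraph V}

structure Flow (G : SimpleGraph V) (a b : V) (κ B N : ℕ) where
  H : V → ℕ
  φ : V → V → ℕ
  Ψ : V → V → ℕ → ℕ
  φsymm : ∀ u v, φ u v = φ v u
  Ψsymm : ∀ u v k, Ψ u v k = Ψ v u k
  φpos : ∀ u v, G.Adj u v → 0 < φ u v
  φhi : ∀ u v, G.Adj u v → φ u v ≤ Nat.dist (H u) (H v) + B
  φlo : ∀ u v, G.Adj u v → Nat.dist (H u) (H v) ≤ φ u v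
  harm : ∀ v, v ≠ a → v ≠ b → ∑ u ∈ nb G v, ((H u : ℤ) - H v) = 0
  hab : H a < H b
  amin : ∀ v, H a ≤ H v
  bmax : ∀ v, H v ≤ H b
  big : ∀ u v, H u < H v → H u + N ≤ H v
  L1 : ∀ v u u' k k', G.Adj v u → G.Adj v u' → k < φ v u → k' < φ v u' →
    Ψ v u k ≤ Ψ v u' k' + ∑ w ∈ nb G v, φ v w
  L2 : ∀ v u k L, G.Adj v u → k < φ v u → L ≤ ∑ w ∈ nb G v, φ v w →
    ∃ S : Finset (V × ℕ), L ≤ S.card ∧ ∀ d ∈ S, G.Adj v d.1 ∧ d.2 < φ v d.1 ∧
      Ψ v d.1 d.2 ≤ Ψ v u k + L ∧ Ψ v u k ≤ Ψ v d.1 d.2 + L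
  cnt : ∀ (l c ω : ℕ) (S : Finset (V × V × ℕ)), (∀ d ∈ S, G.Adj d.1 d.2.1 ∧ H d.1 < l ∧
    l ≤ H d.2.1 ∧ d.2.2 < φ d.1 d.2.1 ∧ Ψ d.1 d.2.1 d.2.2 ≤ c + ω ∧ c ≤ Ψ d.1 d.2.1 d.2.2 + ω) →
    S.card ≤ κ * (2 * ω + 1)

namespace FD

variable {a b : V} {e : ℕ} (F : FD G a b e)

noncomputable def Ψ (u v : V) (k : ℕ) : ℕ :=
  if F.θ u < F.θ v then F.ψ (F.t u (F.pre u v + k)) else F.ψ (F.t v (F.pre v u + k))

noncomputable def lo (v u : V) (k : ℕ) : ℕ := if F.θ v < F.θ u then k else F.fl u v k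

variable {F}

lemma lo_lt {v u : V} {k : ℕ} (h : k < F.φ v u) : F.lo v u k < F.φ v u := by
  unfold lo; split_ifs
  · exact h
  · rw [F.φsymm] at h ⊢; exact fl_lt h

lemma lo_lo {v u : V} {k : ℕ} (h : k < F.φ v u) : F.lo v u (F.lo v u k) = k := by
  unfold lo; split_ifs
  · rfl
  · rw [F.φsymm] at h; exact fl_fl h

lemma Ψ_eq {v u : V} {k : ℕ} (hu : G.Adj v u) (h : k < F.φ v u) :
    F.Ψ v u k = F.ψ (F.t v (F.pre v u + F.lo v u k)) := by
  have h1 := lo_lt h
  unfold Ψ lo at *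
  split_ifs at * with hlt
  · rfl
  · have := θ_ne (F := F) hu
    rw [t_in hu (by omega) h1, fl_fl (by rwa [F.φsymm])]

lemma Ψ_symm (u v : V) (k : ℕ) : F.Ψ u v k = F.Ψ v u k := by
  unfold Ψ
  rcases lt_trichotomy (F.θ u) (F.θ v) with h | h | h
  · rw [if_pos h, if_neg (by omega)]
  · rw [F.θinj h]
  · rw [if_neg (by omega), if_pos h]

lemma L1 {v u u' : V} {k k' : ℕ} (hu : G.Adj v u) (hu' : G.Adj v u') (hk : k < F.φ v u)
    (hk' : k' < F.φ v u') : F.Ψ v u k ≤ F.Ψ v u' k' + F.T v := by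
  rw [Ψ_eq hu hk, Ψ_eq hu' hk']
  have a1 := lo_lt hk
  have a2 := lo_lt hk'
  have a3 := pre_le_T (F := F) hu
  have a4 := pre_le_T (F := F) hu'
  rcases le_total (F.pre v u + F.lo v u k) (F.pre v u' + F.lo v u' k') with h | h
  · have := (lip' (F := F) v h (by omega)).1; omega
  · have := (lip' (F := F) v h (by omega)).2; omega

lemma L2 {v u : V} {k L : ℕ} (hu : G.Adj v u) (hk : k < F.φ v u) (hL : L ≤ F.T v) :
    ∃ S : Finset (V × ℕ), L ≤ S.card ∧ ∀ d ∈ S, G.Adj v d.1 ∧ d.2 < F.φ v d.1 ∧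
      F.Ψ v d.1 d.2 ≤ F.Ψ v u k + L ∧ F.Ψ v u k ≤ F.Ψ v d.1 d.2 + L := by
  classical
  have a1 := lo_lt hk
  have a3 := pre_le_T (F := F) hu
  rw [Ψ_eq hu hk]
  set p := F.pre v u + F.lo v u k
  have key : ∀ q, ∃ d : V × ℕ, q < F.T v → G.Adj v d.1 ∧ d.2 < F.φ v d.1 ∧
      F.pre v d.1 + F.lo v d.1 d.2 = q := by
    intro q
    by_cases hq : q < F.T v
    · obtain ⟨w, h1, j, h2, h3⟩ := exists_dart hq
      exact ⟨(w, F.lo v w j), fun _ => ⟨h1, lo_lt h2, by simp only [lo_lo h2]; exact h3⟩⟩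
    · exact ⟨(u, 0), fun h => absurd h hq⟩
  choose D hD using key
  refine ⟨(Finset.Ico (min p (F.T v - L)) (min p (F.T v - L) + L)).image D, ?_, fun d hd => ?_⟩
  · rw [Finset.card_image_of_injOn]
    · simp
    · intro q hq q' hq' he
      simp only [Finset.coe_Ico, Set.mem_Ico] at hq hq'
      rw [← (hD q (by omega)).2.2, ← (hD q' (by omega)).2.2, he]
  · obtain ⟨q, hq, rfl⟩ := Finset.mem_image.1 hd
    rw [Finset.mem_Ico] at hq
    obtain ⟨b1, b2, b3⟩ := hD q (by omega)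
    refine ⟨b1, b2, ?_⟩
    rw [Ψ_eq b1 b2, b3]
    rcases le_total p q with h | h
    · have := lip' (F := F) v h (by omega); omega
    · have := lip' (F := F) v h (by omega); omega

lemma cnt {Δ : ℕ} (hΔ : ∀ v, (nb G v).card ≤ Δ) (c ω : ℕ) (S : Finset (V × V × ℕ))
    (hS : ∀ d ∈ S, G.Adj d.1 d.2.1 ∧ d.2.2 < F.φ d.1 d.2.1 ∧
      F.Ψ d.1 d.2.1 d.2.2 ≤ c + ω ∧ c ≤ F.Ψ d.1 d.2.1 d.2.2 + ω)
    (hS' : ∀ d ∈ S, ∀ d' ∈ S, F.θ d.1 < F.θ d'.2.1) :
    S.card ≤ (2 + (e + 4) * (Δ * 2)) * 2 * (2 * ω + 1) := by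
  classical
  rw [← Finset.card_image_of_injOn (f := fun d => F.t d.1 (F.pre d.1 d.2.1 + d.2.2))]
  · refine (card_window (F := F) c ω _ fun x hx => ?_).trans ?_
    · obtain ⟨d, hd, rfl⟩ := Finset.mem_image.1 hx
      have := (hS d hd).2.2
      unfold Ψ at this
      rwa [if_pos (hS' d hd d hd)] at this
    · rw [mul_assoc]
      exact Nat.mul_le_mul_right _ (card_Θ hΔ)
  · intro d hd d' hd' he
    rcases src_inj _ _ _ _ _ _ _ rfl (hS d hd).1 (hS' d hd d hd) (hS d hd).2.1 (hS d' hd').1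
      (hS' d' hd' d' hd') (hS d' hd').2.1 he with h | h | h
    · exact Prod.ext h.1 (Prod.ext h.2.1 h.2.2)
    · have := hS' d' hd' d hd; omega
    · have := hS' d hd d' hd'; omega

end FD

lemma Surf.card_nb {Δ e : ℕ} (hS : Surf G Δ e) (v : V) : (nb G v).card ≤ Δ := by
  obtain ⟨-, n, h2, -⟩ := hS
  obtain ⟨a1, c, hc⟩ := h2 v
  exact (hc.card_le _ fun u hu => mem_nb.1 hu).trans a1

theorem exists_flow {Δ e : ℕ} (hS : Surf G Δ e) {a b : V} (hab : a ≠ b) :
    ∃ B, 1 ≤ B ∧ ∀ N, 1 ≤ N → Nonempty (Flow G a b ((2 + (e + 4) * (Δ * 2)) * 2) B N) := by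
  classical
  obtain ⟨h, θ, h1, h2, h3, h4, h5⟩ := exists_potential hS hab
  obtain ⟨O⟩ := exists_ordD hS h3 h5
  obtain ⟨U, U1, U2⟩ := exists_count (G := G) (a := a) (θ := θ) fun v hv => (h5 v).1 hv
  obtain ⟨M, hM⟩ := (Set.finite_range θ).bddAbove
  have hM' : ∀ v, θ v ≤ M := fun v => hM ⟨v, rfl⟩
  obtain ⟨D, D1, D2⟩ := exists_count (G := G) (a := b) (θ := fun v => M - θ v) fun v hv => by
    obtain ⟨u, a1, a2⟩ := (h5 v).2 hv
    have := hM' u
    exact ⟨u, a1, by omega⟩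
  obtain ⟨B, hB⟩ := (Set.finite_range fun p : V × V => U p.1 * D p.2).bddAbove
  have hB' : ∀ u v, U u * D v ≤ B := fun u v => hB ⟨(u, v), rfl⟩
  have mono : ∀ u v, θ u ≤ θ v → h u ≤ h v := fun u v huv => by
    by_contra hc
    have := h4 v u (by omega)
    omega
  refine ⟨B + 1, by omega, fun N hN => ?_⟩
  let φ : V → V → ℕ := fun u v =>
    if θ u < θ v then N * (h v - h u) + U u * D v else N * (h u - h v) + U v * D u
  have φs : ∀ u v, φ u v = φ v u := by
    intro u v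
    simp only [φ]
    rcases lt_trichotomy (θ u) (θ v) with h | h | h
    · rw [if_pos h, if_neg (by omega)]
    · rw [h3 h]
    · rw [if_neg (by omega), if_pos h]
  have φb : ∀ u v, Nat.dist (N * h u) (N * h v) < φ u v ∧
      φ u v ≤ Nat.dist (N * h u) (N * h v) + B := by
    intro u v
    simp only [φ, Nat.dist, ← Nat.mul_sub]
    split_ifs with hlt
    · have := mono u v hlt.le
      have a1 := Nat.mul_pos (U1 u) (D1 v)
      have a2 := hB' u v
      rw [show h u - h v = 0 by omega]; omega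
    · have := mono v u (by omega)
      have a1 := Nat.mul_pos (U1 v) (D1 u)
      have a2 := hB' v u
      rw [show h v - h u = 0 by omega]; omega
  let F : FD G a b e :=
    { θ := θ, θinj := h3, ud := h5, O := O, φ := φ, φsymm := φs
      φpos := fun u v _ => by have := (φb u v).1; omega
      cons := by
        intro v v1 v2
        have e1 : ∑ u ∈ (nb G v).filter (fun u => θ u < θ v), (φ v u : ℤ) =
            ∑ u ∈ (nb G v).filter (fun u => θ u < θ v), (N * ((h v : ℤ) - h u) + U u * D v) := by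
          refine Finset.sum_congr rfl fun u hu => ?_
          have := (Finset.mem_filter.1 hu).2
          simp only [φ]
          rw [if_neg (by omega)]
          push_cast [Nat.cast_sub (mono u v this.le)]
          rfl
        have e2 : ∑ u ∈ (nb G v).filter (fun u => ¬ θ u < θ v), (φ v u : ℤ) =
            ∑ u ∈ (nb G v).filter (fun u => ¬ θ u < θ v),
              (N * ((h u : ℤ) - h v) + U v * D u) := by
          refine Finset.sum_congr rfl fun u hu => ?_
          have a1 := (Finset.mem_filter.1 hu).2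
          have a2 := h3.ne (mem_nb.1 (Finset.mem_filter.1 hu).1).ne
          simp only [φ]
          rw [if_pos (by omega)]
          push_cast [Nat.cast_sub (mono v u (by omega))]
          rfl
        have e3 := Finset.sum_filter_add_sum_filter_not (nb G v) (fun u => θ u < θ v)
          (fun u => (h u : ℤ) - h v)
        rw [h2 v v1 v2] at e3
        have e4 : (U v : ℤ) = ∑ u ∈ (nb G v).filter (fun u => θ u < θ v), (U u : ℤ) := by
          exact_mod_cast U2 v v1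
        have e5 : (D v : ℤ) = ∑ u ∈ (nb G v).filter (fun u => ¬ θ u < θ v), (D u : ℤ) := by
          have : (nb G v).filter (fun u => ¬ θ u < θ v) =
              (nb G v).filter (fun u => M - θ u < M - θ v) := by
            refine Finset.filter_congr fun u hu => ?_
            have := h3.ne (mem_nb.1 hu).ne
            have := hM' u
            have := hM' v
            omega
          rw [this]
          exact_mod_cast D2 v v2
        rw [Finset.sum_add_distrib, ← Finset.mul_sum, ← Finset.sum_mul, ← e4] at e1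
        rw [Finset.sum_add_distrib, ← Finset.mul_sum, ← Finset.mul_sum, ← e5] at e2
        have e6 : ∑ u ∈ (nb G v).filter (fun u => θ u < θ v), ((h v : ℤ) - h u) =
            - ∑ u ∈ (nb G v).filter (fun u => θ u < θ v), ((h u : ℤ) - h v) := by
          rw [← Finset.sum_neg_distrib]
          exact Finset.sum_congr rfl fun u _ => by ring
        have : ∑ u ∈ (nb G v).filter (fun u => θ u < θ v), (φ v u : ℤ) =
            ∑ u ∈ (nb G v).filter (fun u => ¬ θ u < θ v), (φ v u : ℤ) := by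
          rw [e1, e2, e6]
          congr 2
          linarith
        exact_mod_cast this }
  refine ⟨{
    H := fun v => N * h v, φ := φ, Ψ := F.Ψ, φsymm := φs, Ψsymm := FD.Ψ_symm
    φpos := F.φpos
    φhi := fun u v _ => (φb u v).2.trans (by omega)
    φlo := fun u v _ => (φb u v).1.le
    harm := ?_, hab := Nat.mul_lt_mul_of_pos_left h1 hN
    amin := fun v => Nat.mul_le_mul_left _ (mono _ _ (FD.min_a (F := F) v))
    bmax := fun v => Nat.mul_le_mul_left _ (mono _ _ (FD.max_b (F := F) v))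
    big := ?_
    L1 := fun v u u' k k' => FD.L1 (F := F)
    L2 := fun v u k L => FD.L2 (F := F)
    cnt := ?_ }⟩
  · intro v v1 v2
    push_cast
    simp only [← mul_sub]
    rw [← Finset.mul_sum, h2 v v1 v2, mul_zero]
  · intro u v huv
    have := Nat.lt_of_mul_lt_mul_left huv
    have := Nat.mul_le_mul_left N (show h u + 1 ≤ h v by omega)
    rwa [mul_add, mul_one] at this
  · intro l c ω S hS'
    refine FD.cnt (F := F) hS.card_nb c ω S (fun d hd => ?_) fun d hd d' hd' => ?_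
    · obtain ⟨a1, -, -, a2⟩ := hS' d hd
      exact ⟨a1, a2⟩
    · apply h4
      exact Nat.lt_of_mul_lt_mul_left ((hS' d hd).2.1.trans_le (hS' d' hd').2.2.1)

end Pool.Agent.Lib.MP_845f45_al
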