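import Mathlib

namespace Pool.Agent.Lib.MP_845f45_al

open Relation

variable {α β : Type} {R : α → α → Prop} {w : α → ℕ}

inductive WP (R : α → α → Prop) (w : α → ℕ) : α → α → ℕ → Prop
  | refl (X : α) : WP R w X X 0
  | step {X Y Z : α} {n : ℕ} : R X Y → WP R w Y Z n → WP R w X Z (w X + n)

lemma WP.trans {X Y Z : α} {n m : ℕ} (h : WP R w X Y n) (h' : WP R w Y Z m) :
    WP R w X Z (n + m) := by
  induction h with
  | refl X => simpa using h'
  | step h1 _ ih => rw [add_assoc]; exact WP.step h1 (ih h')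

lemma WP.of_rtg {X Y : α} (h : ReflTransGen R X Y) : ∃ n, WP R w X Y n := by
  induction h using ReflTransGen.head_induction_on with
  | refl => exact ⟨0, WP.refl _⟩
  | head h1 _ ih => exact ⟨_, WP.step h1 ih.choose_spec⟩

lemma WP.peak {φ : α → ℝ} {Y Z : α} {n : ℕ} (h : WP R w Y Z n) (hZ : ∀ U, R U Z → φ Z < φ U) :
    ∀ X, R X Y → φ X ≤ φ Y → ∃ U0 V0 U1 n1 n2, WP R w X U0 n1 ∧ R U0 V0 ∧ R V0 U1 ∧
      WP R w U1 Z n2 ∧ φ U0 ≤ φ V0 ∧ φ U1 ≤ φ V0 ∧ n1 + w U0 + w V0 + n2 = w X + n := by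
  induction h with
  | refl Y => exact fun X h1 h2 => absurd (hZ X h1) (not_lt.2 h2)
  | @step Y Y' Z n h1 h2 ih =>
    intro X h3 h4
    by_cases e : φ Y' ≤ φ Y
    · exact ⟨X, Y, Y', 0, n, WP.refl _, h3, h1, h2, h4, e, by omega⟩
    · obtain ⟨U0, V0, U1, n1, n2, a1, a2, a3, a4, a5, a6, a7⟩ := ih hZ Y h1 (not_le.1 e).le
      exact ⟨U0, V0, U1, w X + n1, n2, WP.step h3 a1, a2, a3, a4, a5, a6, by omega⟩

lemma wp_chain {B W : ℕ} (Y : ℕ → α) (K : ℕ) (h1 : ∀ k, k < K + 1 → R (Y k) (Y (k + 1)))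
    (h2 : ∀ k, 0 < k → k < K + 1 → B * w (Y k) ≤ W) :
    ∃ m, B * m ≤ K * W ∧ WP R w (Y 0) (Y (K + 1)) (w (Y 0) + m) := by
  induction K with
  | zero => exact ⟨0, by simp, WP.step (h1 0 one_pos) (WP.refl _)⟩
  | succ K ih =>
    obtain ⟨m, a1, a2⟩ := ih (fun k hk => h1 k (by omega)) fun k hk hk' => h2 k hk (by omega)
    refine ⟨m + w (Y (K + 1)), ?_, ?_⟩
    · have := h2 (K + 1) (by omega) (by omega)
      rw [mul_add, add_mul]; omega
    · rw [← add_assoc]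
      exact a2.trans (WP.step (h1 (K + 1) (by omega)) (WP.refl _))

def Arc (R : α → α → Prop) (φ : α → ℝ) (B : ℕ) (s : ℝ) (U U' : α) : Prop :=
  ∃ (K : ℕ) (Y : ℕ → α), K < B ∧ Y 0 = U ∧ Y (K + 1) = U' ∧
    (∀ k, k < K + 1 → R (Y k) (Y (k + 1))) ∧ ∀ k, 0 < k → k < K + 1 → φ (Y k) ≤ s

lemma Arc.symm (hs : ∀ X Y, R X Y → R Y X) {φ : α → ℝ} {B : ℕ} {s : ℝ} {U U' : α}
    (h : Arc R φ B s U U') : Arc R φ B s U' U := by
  obtain ⟨K, Y, h1, h2, h3, h4, h5⟩ := h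
  refine ⟨K, fun k => Y (K + 1 - k), h1, h3, by simpa using h2, fun k hk => hs _ _ ?_,
    fun k hk hk' => h5 _ (by omega) (by omega)⟩
  have := h4 (K - k) (by omega)
  rwa [show K - k + 1 = K + 1 - k by omega, show K - k = K + 1 - (k + 1) by omega] at this

theorem mountain (hs : ∀ X Y, R X Y → R Y X) {φ : α → ℝ} (φ0 : ∀ X, 0 ≤ φ X) (lab : α → β)
    {B : ℕ} (hB : 0 < B) {δ : ℝ} (hδ : 0 < δ)
    (hloc : ∀ X U U', R X U → R X U' → φ U ≤ φ X → φ U' ≤ φ X →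
      (lab U = lab U' ∧ φ U = φ U' ∧ ∀ T, R U T ↔ R U' T) ∨ Arc R φ B (φ X - δ) U U')
    {X Z : α} (h : ReflTransGen R X Z) (hX : ∀ U, R U X → φ X < φ U)
    (hZ : ∀ U, R U Z → φ Z < φ U) : lab X = lab Z := by
  obtain ⟨n, hn⟩ := WP.of_rtg (w := fun X => B ^ ⌊φ X / δ⌋₊) h
  clear h
  induction n using Nat.strong_induction_on generalizing Z with
  | _ n ih =>
    cases hn with
    | refl => rfl
    | @step _ Y _ n h1 h2 =>
      obtain ⟨U0, V0, U1, n1, n2, a1, a2, a3, a4, a5, a6, a7⟩ :=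
        h2.peak hZ X h1 (hX Y (hs _ _ h1)).le
      have p := pow_pos hB ⌊φ V0 / δ⌋₊
      rcases hloc V0 U0 U1 (hs _ _ a2) a3 a5 a6 with ⟨b1, b2, b3⟩ | ⟨K, Y, b1, b2, b3, b4, b5⟩
      · cases a4 with
        | refl =>
          rw [← b1]
          exact ih n1 (by omega) (fun U hU => b2 ▸ hZ U (hs _ _ ((b3 U).1 (hs _ _ hU)))) a1
        | step c1 c2 => exact ih _ (by omega) hZ (a1.trans (WP.step ((b3 _).2 c1) c2))
      · obtain ⟨m, c1, c2⟩ := wp_chain (w := fun X => B ^ ⌊φ X / δ⌋₊) (B := B)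
          (W := B ^ ⌊φ V0 / δ⌋₊) Y K b4 fun k hk hk' => by
            rw [← pow_succ']
            refine Nat.pow_le_pow_right hB ?_
            rw [← Nat.floor_add_one (div_nonneg (φ0 _) hδ.le)]
            refine Nat.floor_le_floor ?_
            rw [div_add_one hδ.ne']
            gcongr
            linarith [b5 k hk hk']
        rw [b2, b3] at c2
        have c3 : m < B ^ ⌊φ V0 / δ⌋₊ :=
          lt_of_mul_lt_mul_left (c1.trans_lt (Nat.mul_lt_mul_of_pos_right b1 p)) (Nat.zero_le B)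
        exact ih _ (by omega) hZ ((a1.trans c2).trans a4)

end Pool.Agent.Lib.MP_845f45_al
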