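import Pool.Agent.Lib.MP_845f45_al.Per
import Pool.Agent.Lib.MP_845f45_al.Mnt

namespace Pool.Agent.Lib.MP_845f45_al

open Real Relation H2

noncomputable def AF (a : ℝ) (s : ℤ) : Equiv.Perm H2 := if s = 1 then Q a * Q 0 else Q a

lemma AF_iso (a : ℝ) (s : ℤ) : Iso (AF a s) := by
  unfold AF; split_ifs
  · exact (iso_Q _).mul (iso_Q _)
  · exact iso_Q _

lemma AF_flip (a : ℝ) {s : ℤ} (hs : s = 1 ∨ s = -1) : AF a (-s) = AF a s * Q 0 := by
  rcases hs with rfl | rfl <;> simp [AF, mul_assoc, Q_Q]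

lemma AF_rot (a b : ℝ) {s : ℤ} (hs : s = 1 ∨ s = -1) : AF (a + s * b) (-s) = AF a s * Q b := by
  rcases hs with rfl | rfl
  · simp [AF, Q_three]
  · have := Q_three a b 0
    simp only [add_zero] at this
    simp [AF, ← sub_eq_add_neg, ← this, mul_assoc, Q_Q]

lemma AF_shift (a b : ℝ) (s : ℤ) : AF (a + b) s = Q b * Q 0 * AF a s := by
  unfold AF; split_ifs
  · rw [← mul_assoc, Q_three, sub_zero, add_comm]
  · rw [Q_three, sub_zero, add_comm]

lemma AF_per (a : ℝ) (k s : ℤ) : AF (a + k * (2 * π)) s = AF a s := by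
  unfold AF; rw [Q_per]

lemma AF_o (a : ℝ) (s : ℤ) : AF a s o = o := by
  unfold AF; split_ifs <;> simp [Q_o]

lemma AF_P (a l : ℝ) (s : ℤ) : AF a s (P 0 l) = P a l := by
  unfold AF; split_ifs <;> simp [Q_P]

lemma trig_drop {a b ψ γ ρ τ : ℝ} (h1 : a + γ ≤ ψ) (h2 : ψ + γ ≤ b) (ha : -π ≤ a) (hb : b ≤ π)
    (hγ : 0 ≤ γ) (hρ : 0 ≤ ρ) (h3 : τ ≤ ρ * cos a) (h4 : τ ≤ ρ * cos b) :
    τ * (1 - cos γ) ≤ ρ * cos ψ - τ := by
  have k : ∀ x, a ≤ x → x ≤ b → τ ≤ ρ * cos x := fun x x1 x2 => by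
    rcases le_total 0 x with h | h
    · exact h4.trans (mul_le_mul_of_nonneg_left (cos_le_cos_of_nonneg_of_le_pi h hb x2) hρ)
    · refine h3.trans (mul_le_mul_of_nonneg_left ?_ hρ)
      rw [← cos_neg a, ← cos_neg x]
      exact cos_le_cos_of_nonneg_of_le_pi (by linarith) (by linarith) (by linarith)
  have k1 := k (ψ - γ) (by linarith) (by linarith)
  have k2 := k (ψ + γ) (by linarith) (by linarith)
  have k3 := k ψ (by linarith) (by linarith)
  rw [cos_sub] at k1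
  rw [cos_add] at k2
  nlinarith [mul_le_mul_of_nonneg_right k3 (sub_nonneg.2 (cos_le_one γ))]

variable {V : Type}

structure FlD (G : SimpleGraph V) where
  n : V → ℕ
  c : V → ℤ → V
  r : V → ℝ
  m : V → ℕ
  θ : V → ℝ
  a : V → ℤ → ℝ
  pc : ∀ v, PC G v (n v) (c v)
  r0 : ∀ v, 0 < r v
  hm : ∀ v, m v * θ v = 2 * π
  succ : ∀ v i, a v (i + 1) = a v i + 2 * eta (r v) (r (c v i)) (r (c v (i + 1)))
  per : ∀ v i (k : ℤ), a v (i + k * n v) = a v i + k * θ v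

structure Pl (V : Type) where
  v : V
  g : Equiv.Perm H2
  iso : Iso g

namespace FlD

variable {G : SimpleGraph V} (D : FlD G)

def Via (X : Pl V) (i s : ℤ) (Y : Pl V) (j t : ℤ) : Prop :=
  (s = 1 ∨ s = -1) ∧ (t = 1 ∨ t = -1) ∧ D.c X.v i = Y.v ∧ D.c Y.v j = X.v ∧
    D.c X.v (i + s) = D.c Y.v (j + t) ∧
    X.g * AF (D.a X.v i) s * Φ (D.r X.v + D.r Y.v) = Y.g * AF (D.a Y.v j) t

def Vi (X : Pl V) (i : ℤ) (Y : Pl V) : Prop := ∃ j t, D.Via X i 1 Y j t

def Ag (X Y : Pl V) : Prop := ∃ i, D.Vi X i Y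

variable {D} {X Y Z : Pl V} {i j k s t u : ℤ}

lemma Via.symm (h : D.Via X i s Y j t) : D.Via Y j t X i s := by
  obtain ⟨h1, h2, h3, h4, h5, h6⟩ := h
  refine ⟨h2, h1, h4, h3, h5.symm, ?_⟩
  rw [← h6, add_comm, mul_assoc, Φ_Φ, mul_one]

lemma Via.flip (h : D.Via X i s Y j t) : D.Via X i (-s) Y j (-t) := by
  obtain ⟨h1, h2, h3, h4, h5, h6⟩ := h
  refine ⟨by omega, by omega, h3, h4, ?_, ?_⟩
  · have p := D.pc X.v
    have q := D.pc Y.v
    have q4 := q.four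
    have a1 : G.Adj X.v (D.c Y.v (j + -t)) := by
      rw [← h4]
      rcases h2 with rfl | rfl
      · exact q.adj_pred j
      · exact q.adj_succ j
    have a2 : D.c Y.v (j + -t) ≠ D.c Y.v (j + t) := by
      rcases h2 with rfl | rfl
      · exact q.ne (by omega) (by omega)
      · exact (q.ne (by omega) (by omega)).symm
    rcases p.common (i := i) a1 (h3 ▸ q.adj _) with e | e <;> rcases h1 with rfl | rfl
    · exact absurd (e.trans h5) a2
    · exact e.symm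
    · exact e.symm
    · exact absurd (e.trans h5) a2
  · rw [AF_flip _ h1, AF_flip _ h2, ← mul_assoc, ← mul_assoc, ← h6, mul_assoc _ (Q 0), Q_Φ,
      ← mul_assoc]

lemma Via.vi (h : D.Via X i s Y j t) : D.Vi X i Y := by
  rcases h.1 with rfl | rfl
  · exact ⟨j, t, h⟩
  · exact ⟨j, -t, h.flip⟩

lemma Ag.symm (h : D.Ag X Y) : D.Ag Y X := by
  obtain ⟨i, j, t, h⟩ := h
  exact ⟨j, h.symm.vi⟩

lemma Vi.center (h : D.Vi X i Y) : Y.g o = X.g (P (D.a X.v i) (D.r X.v + D.r Y.v)) := by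
  obtain ⟨j, t, -, -, -, -, -, h⟩ := h
  have := congrArg (fun g : Equiv.Perm H2 => g o) h
  simpa only [Equiv.Perm.mul_apply, Φ_o, AF_P, AF_o] using this.symm

variable (D) in
lemma exists_vi (X : Pl V) (i : ℤ) : ∃ Y, D.Vi X i Y := by
  have p := D.pc X.v
  have q := D.pc (D.c X.v i)
  obtain ⟨j, hj⟩ := q.surj X.v (p.adj i).symm
  obtain ⟨t, t1, t2⟩ : ∃ t : ℤ, (t = 1 ∨ t = -1) ∧ D.c X.v (i + 1) = D.c (D.c X.v i) (j + t) := by
    rcases q.common (i := j) (p.adj_succ i) (hj.symm ▸ p.adj _) with e | e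
    · exact ⟨1, Or.inl rfl, e⟩
    · exact ⟨-1, Or.inr rfl, e⟩
  exact ⟨⟨D.c X.v i, X.g * AF (D.a X.v i) 1 * Φ (D.r X.v + D.r (D.c X.v i)) *
    (AF (D.a (D.c X.v i) j) t)⁻¹, ((X.iso.mul (AF_iso _ _)).mul (iso_Φ _)).mul (AF_iso _ _).inv⟩,
    j, t, Or.inl rfl, t1, rfl, hj, t2, by simp⟩

variable (D) in
lemma a_step (v : V) (i : ℤ) {s : ℤ} (hs : s = 1 ∨ s = -1) : D.a v (i + s) =
    D.a v i + s * (2 * eta (D.r v) (D.r (D.c v i)) (D.r (D.c v (i + s)))) := by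
  rcases hs with rfl | rfl
  · simpa using D.succ v i
  · have := D.succ v (i + -1)
    rw [show i + -1 + 1 = i by ring, eta_comm] at this
    push_cast; linarith

lemma Vi.tri (h : D.Vi X i Y) (h' : D.Vi X (i + 1) Z) : D.Ag Y Z := by
  obtain ⟨j, t, -, h2, h3, h4, h5, h6⟩ := h
  obtain ⟨k, u, h'⟩ := h'
  obtain ⟨-, a2, a3, a4, a5, a6⟩ := h'.flip
  generalize -u = u at *
  rw [show i + 1 + -1 = i by ring] at a5
  refine ⟨j + t, Via.vi (s := -t) (j := k + u) (t := -u) ⟨by omega, by omega, h5 ▸ a3,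
    a5 ▸ h3, by rw [add_neg_cancel_right, add_neg_cancel_right, h4, a4], ?_⟩⟩
  rw [D.a_step _ _ (Or.inl rfl), AF_rot _ _ (Or.inl rfl), h3, a3] at a6
  rw [D.a_step _ _ h2, D.a_step _ _ a2, AF_rot _ _ h2, AF_rot _ _ a2, ← mul_assoc, ← mul_assoc,
    ← h6, ← a6, h4, a4, ← h5, ← a5, h3, a3]
  have := law_K (D.r0 X.v) (D.r0 Y.v) (D.r0 Z.v)
  simp only [mul_assoc] at this ⊢
  rw [this]

lemma Vi.shift (h : D.Vi X i Y) (k : ℤ) : D.Vi X (i + k * D.m X.v * D.n X.v) Y := by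
  obtain ⟨j, t, h1, h2, h3, h4, h5, h6⟩ := h
  refine ⟨j, t, h1, h2, by rw [(D.pc _).per, h3], h4, by rw [add_right_comm, (D.pc _).per, h5], ?_⟩
  rw [D.per, ← h6]
  push_cast
  rw [mul_assoc (k : ℝ), D.hm, AF_per]

lemma Vi.same {Y' : Pl V} (h : D.Vi X i Y) (h' : D.Vi X i Y') :
    Y.v = Y'.v ∧ ∀ T, D.Ag Y T → D.Ag Y' T := by
  obtain ⟨j, t, -, h2, h3, h4, h5, h6⟩ := h
  obtain ⟨j', t', -, a2, a3, a4, a5, a6⟩ := h'
  obtain ⟨w, g, hg⟩ := Y
  obtain ⟨w', g', hg'⟩ := Y'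
  simp only at *
  obtain rfl : w = w' := h3.symm.trans a3
  refine ⟨rfl, ?_⟩
  have q := D.pc w
  have q4 := q.four
  obtain ⟨k, hk⟩ := (q.eq _ _).1 (h4.trans a4.symm)
  obtain rfl : j' = j + k * D.n w := by linarith
  obtain rfl : t = t' := by
    rw [h5, add_right_comm, q.per] at a5
    rcases h2 with rfl | rfl <;> rcases a2 with rfl | rfl
    · rfl
    · exact absurd a5.symm (q.ne (by omega) (by omega))
    · exact absurd a5 (q.ne (by omega) (by omega))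
    · rfl
  rw [h6, D.per, AF_shift, ← mul_assoc] at a6
  have e := mul_right_cancel a6
  rintro T ⟨l, j1, t1, b1, b2, b3, b4, b5, b6⟩
  refine ⟨l + k * D.n w, j1, t1, b1, b2, by rw [q.per]; exact b3, b4,
    by rw [add_right_comm, q.per]; exact b5, ?_⟩
  simp only at *
  rw [D.per, AF_shift, ← mul_assoc, ← e, b6]

variable (D) in
noncomputable def ph (q : H2) (X : Pl V) : ℝ := B q (X.g o) / cosh (D.r X.v)

lemma ph_eq {q : H2} {α d : ℝ} (hq : X.g⁻¹ q = P α d) (h : D.Vi X i Y) :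
    cosh (D.r X.v) * cosh (D.r Y.v) * (D.ph q X - D.ph q Y) = sinh (D.r X.v + D.r Y.v) *
      (cosh (D.r X.v) * sinh d * cos (D.a X.v i - α) - sinh (D.r X.v) * cosh d) := by
  have c1 := cosh_pos (D.r X.v)
  have c2 := cosh_pos (D.r Y.v)
  rw [ph, ph, h.center, X.iso.left, X.iso.left, hq, B_o, B_P, ← cos_neg, neg_sub, cosh_add,
    sinh_add]
  simp only [P]
  field_simp
  linear_combination (- cosh d * cosh (D.r Y.v)) * cosh_sq (D.r X.v)

lemma ph_nonneg (q : H2) (X : Pl V) : 0 ≤ D.ph q X := by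
  rw [ph, X.iso.left, B_o]
  exact div_nonneg (H2.p _).le (cosh_pos _).le

lemma ph_min {q : H2} (hq : B q (X.g o) < cosh (D.r X.v)) (U : Pl V) (h : D.Ag U X) :
    D.ph q X < D.ph q U := by
  obtain ⟨i, h⟩ := h.symm
  obtain ⟨α, d, d0, hd⟩ := polar (X.g⁻¹ q)
  have e := ph_eq hd h
  rw [X.iso.left, B_o, hd] at hq
  have r0 := D.r0 X.v
  have h1 : d < D.r X.v := by
    have := cosh_lt_cosh.1 hq
    rwa [abs_of_nonneg d0, abs_of_pos r0] at this
  have h2 := sinh_pos_iff.2 (sub_pos.2 h1)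
  rw [sinh_sub] at h2
  have h3 := sinh_pos_iff.2 (add_pos r0 (D.r0 U.v))
  have h4 := mul_le_mul_of_nonneg_left (cos_le_one (D.a X.v i - α))
    (mul_nonneg (cosh_pos (D.r X.v)).le (sinh_nonneg_iff.2 d0))
  have h5 := mul_neg_of_pos_of_neg h3 (show cosh (D.r X.v) * sinh d * cos (D.a X.v i - α) -
    sinh (D.r X.v) * cosh d < 0 by linarith)
  rw [← e] at h5
  have := neg_of_mul_neg_right h5 (mul_pos (cosh_pos _) (cosh_pos _)).le
  linarith

lemma a_mono {γ : ℝ} (hγ : ∀ v x y, γ ≤ 2 * eta (D.r v) (D.r x) (D.r y)) (v : V) (i : ℤ) (k : ℕ) :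
    D.a v i + k * γ ≤ D.a v (i + k) := by
  induction k with
  | zero => simp
  | succ k ih =>
    push_cast
    rw [← add_assoc, D.succ]
    linarith [hγ v (D.c v (i + k)) (D.c v (i + k + 1))]

lemma Vi.norm (h : D.Vi X i Y) (α : ℝ) :
    ∃ j, D.Vi X j Y ∧ -π ≤ D.a X.v j - α ∧ D.a X.v j - α ≤ π := by
  refine ⟨_, h.shift (-toIocDiv two_pi_pos (-π) (D.a X.v i - α)), ?_⟩
  have := sub_toIocDiv_zsmul_mem_Ioc two_pi_pos (-π) (D.a X.v i - α)
  rw [D.per]
  push_cast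
  rw [mul_assoc, D.hm]
  simp only [Set.mem_Ioc, zsmul_eq_mul] at this
  constructor <;> linarith [this.1, this.2]

lemma arc {γ δ : ℝ} {Bn : ℕ} (γ0 : 0 < γ) (hγ : ∀ v x y, γ ≤ 2 * eta (D.r v) (D.r x) (D.r y))
    (hB : 2 * π ≤ Bn * γ)
    (hδ : ∀ v, δ * cosh (D.r v) ≤ sinh (D.r v) * sinh (D.r v) * (1 - cos γ)) {q : H2} {α d : ℝ}
    (d0 : 0 ≤ d) (hq : X.g⁻¹ q = P α d) (h1 : D.Vi X i Y) (h2 : D.Vi X j Z) (hij : i < j)
    (h3 : -π ≤ D.a X.v i - α) (h4 : D.a X.v j - α ≤ π) (h5 : D.ph q Y ≤ D.ph q X)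
    (h6 : D.ph q Z ≤ D.ph q X) : Arc D.Ag (D.ph q) Bn (D.ph q X - δ) Y Z := by
  classical
  obtain ⟨K, rfl⟩ : ∃ K : ℕ, j = i + (K + 1 : ℕ) := ⟨(j - i - 1).toNat, by omega⟩
  choose U hU using D.exists_vi X
  let W : ℕ → Pl V := fun k => if k = 0 then Y else if k = K + 1 then Z else U (i + k)
  have hW : ∀ k : ℕ, D.Vi X (i + k) (W k) := fun k => by
    simp only [W]
    split_ifs with e1 e2
    · simpa [e1] using h1
    · rw [e2]; exact h2
    · exact hU _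
  have r0 := D.r0 X.v
  have low : ∀ {l T}, D.Vi X l T → D.ph q T ≤ D.ph q X →
      sinh (D.r X.v) * cosh d ≤ cosh (D.r X.v) * sinh d * cos (D.a X.v l - α) := by
    intro l T a1 a2
    have e := ph_eq hq a1
    have := mul_nonneg (mul_pos (cosh_pos (D.r X.v)) (cosh_pos (D.r T.v))).le (sub_nonneg.2 a2)
    rw [e] at this
    exact sub_nonneg.1 (nonneg_of_mul_nonneg_right this (sinh_pos_iff.2 (add_pos r0 (D.r0 T.v))))
  refine ⟨K, W, ?_, if_pos rfl, by simp [W], fun k _ => (hW k).tri ?_, fun k k1 k2 => ?_⟩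
  · have := a_mono hγ X.v i (K + 1)
    have : ((K + 1 : ℕ) : ℝ) ≤ Bn := le_of_mul_le_mul_right (by linarith) γ0
    exact_mod_cast this
  · rw [add_assoc]; exact hW (k + 1)
  · have m1 := a_mono hγ X.v i k
    have m2 := a_mono hγ X.v (i + k) (K + 1 - k)
    rw [show i + k + ((K + 1 - k : ℕ) : ℤ) = i + (K + 1 : ℕ) by omega] at m2
    have m3 : γ ≤ k * γ := le_mul_of_one_le_left γ0.le (by exact_mod_cast k1)
    have m4 : γ ≤ ((K + 1 - k : ℕ) : ℝ) * γ :=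
      le_mul_of_one_le_left γ0.le (by exact_mod_cast (show 1 ≤ K + 1 - k by omega))
    have t := trig_drop (ψ := D.a X.v (i + k) - α) (by linarith) (by linarith) h3 h4 γ0.le
      (mul_nonneg (cosh_pos _).le (sinh_nonneg_iff.2 d0)) (low h1 h5) (low h2 h6)
    have e := ph_eq hq (hW k)
    have s0 := sinh_pos_iff.2 r0
    have c0 := cosh_pos (D.r X.v)
    have c1 := cosh_pos (D.r (W k).v)
    have g0 := sub_nonneg.2 (cos_le_one γ)
    have t1 : sinh (D.r X.v) * (1 - cos γ) ≤ sinh (D.r X.v) * cosh d * (1 - cos γ) := by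
      gcongr; exact le_mul_of_one_le_right s0.le (one_le_cosh d)
    have t2 : sinh (D.r X.v) * cosh (D.r (W k).v) ≤ sinh (D.r X.v + D.r (W k).v) := by
      rw [sinh_add]
      linarith [mul_pos c0 (sinh_pos_iff.2 (D.r0 (W k).v))]
    have t3 := mul_le_mul t2 (t1.trans t) (by positivity) (le_trans (by positivity) t2)
    have t4 := mul_le_mul_of_nonneg_right (hδ X.v) c1.le
    rw [← e] at t3
    have : cosh (D.r X.v) * cosh (D.r (W k).v) * δ ≤
        cosh (D.r X.v) * cosh (D.r (W k).v) * (D.ph q X - D.ph q (W k)) := by linarith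
    have := le_of_mul_le_mul_left this (by positivity)
    linarith

lemma exists_low {ι : Type} [Finite ι] (f : ι → ℝ) (h : ∀ i, 0 < f i) :
    ∃ γ, 0 < γ ∧ γ ≤ 1 ∧ ∀ i, γ ≤ f i := by
  obtain ⟨i, hi⟩ := Finite.exists_min (fun o : Option ι => o.elim 1 f)
  refine ⟨_, ?_, hi none, fun i => hi (some i)⟩
  cases i
  · exact one_pos
  · exact h _

theorem disjoint [Finite V] {X Y : Pl V} (h : ReflTransGen D.Ag X Y) (hne : X.v ≠ Y.v) :
    cosh (D.r X.v + D.r Y.v) ≤ B (X.g o) (Y.g o) := by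
  by_contra hc
  rw [not_le, B_comm, X.iso.left, B_o] at hc
  obtain ⟨q, q1, q2⟩ := exists_inside (D.r0 _) (D.r0 _) hc
  obtain ⟨γ, γ0, γ1, hγ⟩ := exists_low (fun p : V × V × V => 2 * eta (D.r p.1) (D.r p.2.1) (D.r p.2.2))
    fun p => by linarith [eta_pos (D.r0 p.1) (D.r0 p.2.1) (D.r0 p.2.2)]
  have c1 : cos γ < 1 := by
    rw [← cos_zero]
    exact cos_lt_cos_of_nonneg_of_le_pi le_rfl (by linarith [pi_gt_three]) γ0
  obtain ⟨δ, δ0, -, hδ⟩ := exists_low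
    (fun v => sinh (D.r v) * sinh (D.r v) * (1 - cos γ) / cosh (D.r v)) fun v => by
      have := sinh_pos_iff.2 (D.r0 v)
      exact div_pos (mul_pos (by positivity) (by linarith)) (cosh_pos _)
  obtain ⟨Bn, hB⟩ := exists_nat_ge (2 * π / γ)
  have B0 : 0 < Bn := by
    have : (0 : ℝ) < Bn := lt_of_lt_of_le (by positivity) hB
    exact_mod_cast this
  refine hne (mountain (φ := D.ph (X.g q)) (fun _ _ => Ag.symm) (ph_nonneg _) Pl.v B0 δ0 ?_ h
    (ph_min (by rwa [X.iso, B_o])) (ph_min ?_))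
  · rintro T U U' ⟨i, h1⟩ ⟨j, h2⟩ h3 h4
    obtain ⟨α, d, d0, hd⟩ := polar (T.g⁻¹ (X.g q))
    obtain ⟨i, a1, a2, a3⟩ := h1.norm α
    obtain ⟨j, b1, b2, b3⟩ := h2.norm α
    have hγ' : ∀ v x y, γ ≤ 2 * eta (D.r v) (D.r x) (D.r y) := fun v x y => hγ (v, x, y)
    have hB' := (div_le_iff₀ γ0).1 hB
    have hδ' := fun v => (le_div_iff₀ (cosh_pos _)).1 (hδ v)
    rcases lt_trichotomy i j with l | rfl | l
    · exact Or.inr (arc γ0 hγ' hB' hδ' d0 hd a1 b1 l a2 b3 h3 h4)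
    · refine Or.inl ⟨(a1.same b1).1, ?_, fun W => ⟨(a1.same b1).2 W, (b1.same a1).2 W⟩⟩
      rw [ph, ph, a1.center, b1.center, (a1.same b1).1]
    · exact Or.inr ((arc γ0 hγ' hB' hδ' d0 hd b1 a1 l b2 a3 h4 h3).symm fun _ _ => Ag.symm)
  · rwa [B_comm, X.iso.left, B_comm]

end FlD

lemma exists_cum (f : ℤ → ℝ) : ∃ a : ℤ → ℝ, ∀ i, a (i + 1) = a i + f i := by
  refine ⟨fun i => ∑ k ∈ Finset.Ico 0 i, f k - ∑ k ∈ Finset.Ico i 0, f k, fun i => ?_⟩
  beta_reduce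
  rcases le_or_gt 0 i with h | h
  · rw [← Finset.insert_Ico_right_eq_Ico_add_one h, Finset.sum_insert (by simp),
      Finset.Ico_eq_empty_of_le h, Finset.Ico_eq_empty_of_le (by omega : (0 : ℤ) ≤ i + 1)]
    ring
  · rw [← Finset.insert_Ico_add_one_left_eq_Ico h, Finset.sum_insert (by simp),
      Finset.Ico_eq_empty_of_le h.le, Finset.Ico_eq_empty_of_le (by omega : i + 1 ≤ 0)]
    ring

theorem exists_FD [Fintype V] [Nonempty V] {G : SimpleGraph V} {Δ e : ℕ} (hS : Surf G Δ e) :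
    ∃ D : FlD G, ∑ v, (cosh (D.r v) - 1) ≤ 7 * (e + 16) := by
  obtain ⟨r, m, r0, hm, hr⟩ := exists_radii hS
  obtain ⟨n, c, hc, -⟩ := hS.pc
  choose a ha using fun v => exists_cum fun i => 2 * eta (r v) (r (c v i)) (r (c v (i + 1)))
  refine ⟨⟨n, c, r, m, th G r, a, hc, r0, hm, ha, fun v => ?_⟩, hr⟩
  have p := hc v
  have k1 : ∀ N : ℕ, a v N = a v 0 +
      ∑ k ∈ Finset.range N, 2 * eta (r v) (r (c v k)) (r (c v (k + 1))) := by
    intro N
    induction N with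
    | zero => simp
    | succ N ih => rw [Finset.sum_range_succ, Nat.cast_succ, ha, ih, add_assoc]
  have k2 : a v (0 + n v) = a v 0 + th G r v := by
    have e1 := Finset.sum_range_succ (fun k : ℕ => eta (r v) (r (c v k)) (r (c v (k - 1)))) (n v)
    have e2 := Finset.sum_range_succ' (fun k : ℕ => eta (r v) (r (c v k)) (r (c v (k - 1)))) (n v)
    have e3 : c v (n v) = c v 0 := by simpa using p.per 0 1
    have e4 : c v (n v - 1) = c v (0 - 1) := by rw [← p.per (0 - 1) 1]; congr 1; ring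
    rw [e3, e4] at e1
    simp only [Nat.cast_add, Nat.cast_one, add_sub_cancel_right, Nat.cast_zero] at e2
    rw [zero_add, k1, th, p.L2_eq, Finset.sum_add_distrib, ← Finset.mul_sum]
    have e5 : ∑ k ∈ Finset.range (n v), eta (r v) (r (c v (k + 1))) (r (c v k)) =
        ∑ k ∈ Finset.range (n v), eta (r v) (r (c v k)) (r (c v (k + 1))) :=
      Finset.sum_congr rfl fun _ _ => eta_comm _ _ _
    linarith
  have k3 : ∀ i, a v (i + n v) = a v i + th G r v := by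
    have e : ∀ i, a v (i + 1 + n v) - a v (i + n v) = a v (i + 1) - a v i := fun i => by
      have e1 := p.per i 1
      have e2 := p.per (i + 1) 1
      rw [one_mul] at e1 e2
      rw [add_right_comm, ha, ha, add_right_comm i _ 1, e1, e2]; ring
    intro i
    induction i using Int.induction_on with
    | zero => exact k2
    | succ i ih => linarith [e i]
    | pred i ih => have := e (-i - 1); rw [sub_add_cancel] at this; linarith
  intro i k
  induction k using Int.induction_on with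
  | zero => simp
  | succ k ih => rw [add_mul, one_mul, ← add_assoc, k3, ih]; push_cast; ring
  | pred k ih =>
    have := k3 (i + (-k - 1) * n v)
    rw [show i + (-k - 1) * n v + n v = i + -k * n v by ring, ih] at this
    push_cast at this ⊢
    linarith

end Pool.Agent.Lib.MP_845f45_al
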