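import Pool.Agent.Lib.MP_845f45_al.NF2

namespace Pool.Agent.Lib.MP_845f45_al

variable {V : Type} [DecidableEq V] {G : SimpleGraph V}

variable (G) in
def Low (A B : Finset (ℕ × V)) : Prop :=
  A ⊆ B ∧ ∀ p ∈ B, p ∉ A → ∀ q ∈ A, p.1 < q.1 → G.Adj p.2 q.2

def ClB (G : SimpleGraph V) (ω : ℕ) : Prop :=
  ∀ s : Finset V, (∀ a ∈ s, ∀ b ∈ s, a ≠ b → G.Adj a b) → s.card ≤ ω

omit [DecidableEq V] in
lemma Low.refl (A : Finset (ℕ × V)) : Low G A A := ⟨subset_rfl, fun _ h h' => absurd h h'⟩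

omit [DecidableEq V] in
lemma Low.trans {A B C : Finset (ℕ × V)} (h : Low G A B) (h' : Low G B C) : Low G A C := by
  refine ⟨h.1.trans h'.1, fun p hp hp' q hq => ?_⟩
  by_cases e : p ∈ B
  · exact h.2 p e hp' q hq
  · exact h'.2 p hp e q (h.1 hq)

omit [DecidableEq V] in
lemma Low.normal {A B : Finset (ℕ × V)} (h : Low G A B) (hB : Normal G B) : Normal G A := by
  refine ⟨fun p hp q hq => hB.1 p (h.1 hp) q (h.1 hq), fun p hp h0 => ?_⟩
  obtain ⟨q, hq, e1, e2, e3⟩ := hB.2 p (h.1 hp) h0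
  refine ⟨q, ?_, e1, e2, e3⟩
  by_contra hn
  exact e3 (h.2 q hq hn p hp (by omega))

lemma IsMx.low {A : Finset (ℕ × V)} {p : ℕ × V} (h : IsMx G A p) : Low G (A.erase p) A := by
  refine ⟨Finset.erase_subset _ _, fun a ha ha' q hq hlt => ?_⟩
  have : a = p := by
    by_contra e
    exact ha' (Finset.mem_erase.2 ⟨e, ha⟩)
  subst this
  exact (h.2 q (Finset.mem_of_mem_erase hq) hlt).symm

lemma Low.union {A A' B : Finset (ℕ × V)} (h : Low G A B) (h' : Low G A' B) :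
    Low G (A ∪ A') B := by
  refine ⟨Finset.union_subset h.1 h'.1, fun p hp hp' q hq => ?_⟩
  rw [Finset.mem_union] at hp' hq
  push Not at hp'
  rcases hq with hq | hq
  · exact h.2 p hp hp'.1 q hq
  · exact h'.2 p hp hp'.2 q hq

lemma Low.inter {A A' B : Finset (ℕ × V)} (h : Low G A B) (h' : Low G A' B) :
    Low G (A ∩ A') B := by
  refine ⟨Finset.inter_subset_left.trans h.1, fun p hp hp' q hq => ?_⟩
  rw [Finset.mem_inter] at hp' hq
  by_cases e : p ∈ A
  · exact h'.2 p hp (fun e' => hp' ⟨e, e'⟩) q hq.2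
  · exact h.2 p hp e q hq.1

omit [DecidableEq V] in
lemma Low.of_subset {A B C : Finset (ℕ × V)} (h : Low G A C) (h1 : A ⊆ B) (h2 : B ⊆ C) :
    Low G A B := ⟨h1, fun p hp => h.2 p (h2 hp)⟩

lemma Low.exists_mx {A B X : Finset (ℕ × V)} (h : Low G A B) (hX : X ⊆ B)
    (hne : (X \ A).Nonempty) : ∃ p, p ∉ A ∧ IsMx G X p := by
  obtain ⟨p, hp, hp'⟩ := exists_top hne
  rw [Finset.mem_sdiff] at hp
  refine ⟨p, hp.2, hp.1, fun q hq hlt => ?_⟩
  by_cases e : q ∈ A
  · exact (h.2 p (hX hp.1) hp.2 q e hlt).symm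
  · exact absurd (hp' q (Finset.mem_sdiff.2 ⟨hq, e⟩)) (by omega)

omit [DecidableEq V] in
lemma exists_mx {X : Finset (ℕ × V)} (hne : X.Nonempty) : ∃ p, IsMx G X p := by
  obtain ⟨p, hp, hp'⟩ := exists_top hne
  exact ⟨p, hp, fun q hq hlt => absurd (hp' q hq) (by omega)⟩

omit [DecidableEq V] in
lemma IsMx.mono {X Y : Finset (ℕ × V)} {p : ℕ × V} (h : IsMx G X p) (hY : Y ⊆ X) (hp : p ∈ Y) :
    IsMx G Y p := ⟨hp, fun q hq => h.2 q (hY hq)⟩

omit [DecidableEq V] in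
lemma Normal.sep {B : Finset (ℕ × V)} (hB : Normal G B) {p q : ℕ × V} (hp : p ∈ B) (hq : q ∈ B)
    (hlt : p.1 < q.1) (hn : ¬ G.Adj q.2 p.2) :
    ∃ r ∈ B, p.1 < r.1 ∧ r.2 ≠ p.2 ∧ ¬ G.Adj r.2 p.2 := by
  by_cases e : q.2 = p.2
  · obtain ⟨r, hr, e1, e2, e3⟩ := hB.2 q hq (by omega)
    rw [e] at e2 e3
    refine ⟨r, hr, ?_, e2, e3⟩
    by_contra hc
    exact e3 (hB.1 r hr p hp (by omega) e2)
  · exact ⟨q, hq, hlt, e, hn⟩

omit [DecidableEq V] in
lemma Normal.ord {B X X' : Finset (ℕ × V)} (hB : Normal G B) {g q : ℕ × V} (hX : X ⊆ B)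
    (h1 : IsMx G X q) (h2 : g ∈ X) (h3 : IsMx G X' g) (h4 : q ∈ X') (hne : g ≠ q) :
    G.Adj g.2 q.2 := by
  rcases lt_trichotomy g.1 q.1 with l | l | l
  · exact (h3.2 q h4 l).symm
  · exact hB.1 g (hX h2) q (hX h1.1) l fun e => hne (Prod.ext l e)
  · exact h1.2 g h2 l

lemma ClB.card_le {ω : ℕ} (hω : ClB G ω) {S : Finset (ℕ × V)}
    (h : ∀ p ∈ S, ∀ q ∈ S, p ≠ q → G.Adj p.2 q.2) : S.card ≤ ω := by
  have hinj : Set.InjOn Prod.snd (S : Set (ℕ × V)) := by
    intro p hp q hq e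
    by_contra hne
    exact (h p hp q hq hne).ne e
  rw [← Finset.card_image_of_injOn hinj]
  apply hω
  intro a ha b hb hab
  obtain ⟨p, hp, rfl⟩ := Finset.mem_image.1 ha
  obtain ⟨q, hq, rfl⟩ := Finset.mem_image.1 hb
  exact h p hp q hq fun e => hab (by rw [e])

lemma pair_of {A A' B : Finset (ℕ × V)} (hB : Normal G B) (h : Low G A B) (h' : Low G A' B)
    (hp : ∀ p ∈ A \ A', ∀ q ∈ A \ A', p.2 ≠ q.2 → G.Adj p.2 q.2) :
    ∀ p ∈ A \ A', ∀ q ∈ A \ A', p ≠ q → G.Adj p.2 q.2 := by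
  have key : ∀ p ∈ A \ A', ∀ q ∈ A \ A', p.1 < q.1 → G.Adj q.2 p.2 := by
    intro p hp1 q hq hlt
    by_contra hn
    have hp2 := Finset.mem_sdiff.1 hp1
    obtain ⟨r, hr, e1, e2, e3⟩ := (h.normal hB).sep hp2.1 (Finset.mem_sdiff.1 hq).1 hlt hn
    refine e3 (hp r (Finset.mem_sdiff.2 ⟨hr, fun e => e3 ?_⟩) p hp1 e2)
    exact (h'.2 p (h.1 hp2.1) hp2.2 r e e1).symm
  intro p hp1 q hq hne
  rcases lt_trichotomy p.1 q.1 with l | l | l
  · exact (key p hp1 q hq l).symm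
  · exact hp p hp1 q hq fun e => hne (Prod.ext l e)
  · exact key q hq p hp1 l

lemma diff_adj {A A' B : Finset (ℕ × V)} (hB : Normal G B) (h : Low G A B) (h' : Low G A' B)
    {p q : ℕ × V} (hp : p ∈ A \ A') (hq : q ∈ A' \ A) : G.Adj p.2 q.2 := by
  rw [Finset.mem_sdiff] at hp hq
  rcases lt_trichotomy p.1 q.1 with l | l | l
  · exact h'.2 p (h.1 hp.1) hp.2 q hq.1 l
  · refine hB.1 p (h.1 hp.1) q (h'.1 hq.1) l fun e => hp.2 ?_
    rw [show p = q from Prod.ext l e]; exact hq.1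
  · exact (h.2 q (h'.1 hq.1) hq.2 p hp.1 l).symm

lemma diff_card {ω : ℕ} (hω : ClB G ω) (hs : NoSq G) {A A' B : Finset (ℕ × V)} (hB : Normal G B)
    (h : Low G A B) (h' : Low G A' B) (hc : A.card = A'.card) : (A \ A').card ≤ ω := by
  by_cases e : ∀ p ∈ A \ A', ∀ q ∈ A \ A', p.2 ≠ q.2 → G.Adj p.2 q.2
  · exact hω.card_le (pair_of hB h h' e)
  · push Not at e
    obtain ⟨p, hp, q, hq, e1, e2⟩ := e
    rw [Finset.card_sdiff_comm hc]
    refine hω.card_le (pair_of hB h' h fun b hb d hd hbd => ?_)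
    exact hs p.2 q.2 b.2 d.2 e1 e2 (diff_adj hB h h' hp hb).symm (diff_adj hB h h' hq hb).symm
      (diff_adj hB h h' hp hd).symm (diff_adj hB h h' hq hd).symm hbd

open Classical in
variable (G) in
noncomputable def Mx (A : Finset (ℕ × V)) : Finset (ℕ × V) := A.filter (IsMx G A)

omit [DecidableEq V] in
lemma mem_Mx {A : Finset (ℕ × V)} {p : ℕ × V} : p ∈ Mx G A ↔ IsMx G A p := by
  classical
  unfold Mx
  rw [Finset.mem_filter]
  exact ⟨fun h => h.2, fun h => ⟨h.1, h⟩⟩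

lemma card_Mx {ω : ℕ} (hω : ClB G ω) {A : Finset (ℕ × V)} (hA : Normal G A) :
    (Mx G A).card ≤ ω :=
  hω.card_le fun _ hp _ hq hne =>
    hA.ord subset_rfl (mem_Mx.1 hq) (mem_Mx.1 hp).1 (mem_Mx.1 hp) (mem_Mx.1 hq).1 hne

lemma low_Mx (A : Finset (ℕ × V)) : Low G (A \ Mx G A) A := by
  refine ⟨Finset.sdiff_subset, fun p hp hp' q hq hlt => ?_⟩
  have : p ∈ Mx G A := by
    by_contra e
    exact hp' (Finset.mem_sdiff.2 ⟨hp, e⟩)
  exact ((mem_Mx.1 this).2 q (Finset.mem_sdiff.1 hq).1 hlt).symm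

variable [DecidableRel G.Adj]

lemma phi_psi (n : ℕ) : ∀ σ : Finset (ℕ × V), σ.card = n → Normal G σ → phi G (psi G σ) = σ := by
  induction n with
  | zero =>
    intro σ h _
    rw [Finset.card_eq_zero] at h
    rw [h, psi]; simp [phi_one]
  | succ n ih =>
    intro σ h hσ
    obtain ⟨p, hp⟩ := exists_mx (G := G) (Finset.card_pos.1 (by omega : 0 < σ.card))
    rw [psi_erase _ σ rfl hσ p hp, phi_mul, ih _ (by rw [Finset.card_erase_of_mem hp.1]; omega)
      (hσ.erase hp), act_erase hσ hp]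

lemma exists_phi {σ : Finset (ℕ × V)} (h : Normal G σ) : ∃ w, phi G w = σ :=
  ⟨_, phi_psi _ σ rfl h⟩

lemma pre_iff_low {m w : WG G} : Pre G m w ↔ Low G (phi G m) (phi G w) := Iff.rfl

lemma Pre.tr {a b c : WG G} (h : Pre G a b) (h' : Pre G b c) : Pre G a c :=
  Low.trans (G := G) h h'

lemma Pre.len {a b : WG G} (h : Pre G a b) : (csG G).length a ≤ (csG G).length b := by
  have := h.length_le; omega

lemma pre_of_length {m w : WG G}
    (h : (csG G).length (m⁻¹ * w) + (csG G).length m ≤ (csG G).length w) : Pre G m w := by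
  obtain ⟨m', h1, h2, h3⟩ := exists_pre_gp m w
  rw [gp_def] at h3
  have h4 : ((csG G).length (m⁻¹ * w) : ℝ) + (csG G).length m ≤ (csG G).length w := by
    exact_mod_cast h
  have h5 : (csG G).length m ≤ (csG G).length m' := by
    have : ((csG G).length m : ℝ) ≤ (csG G).length m' := by linarith
    exact_mod_cast this
  rw [length_eq_card, length_eq_card] at h5
  rw [← phi_inj (Finset.eq_of_subset_of_card_le h1.1 h5)]
  exact h2

lemma Pre.between {m w : WG G} (h : Pre G m w) (j : ℕ)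
    (hj : (csG G).length m + j ≤ (csG G).length w) :
    ∃ u, Pre G m u ∧ Pre G u w ∧ (csG G).length u + j = (csG G).length w := by
  induction j with
  | zero => exact ⟨w, h, Pre.refl w, rfl⟩
  | succ j ih =>
    obtain ⟨u, h1, h2, h3⟩ := ih (by omega)
    have hne : (phi G u \ phi G m).Nonempty := by
      rw [← Finset.card_pos, Finset.card_sdiff_of_subset h1.1, ← length_eq_card, ← length_eq_card]
      omega
    obtain ⟨p, hp, hp'⟩ := Low.exists_mx (G := G) h1 subset_rfl hne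
    have e := phi_mul_mx hp'
    have l := hp'.low
    rw [← e] at l
    refine ⟨u * (csG G).simple p.2, Low.of_subset (G := G) h1 ?_ l.1, Pre.tr l h2, ?_⟩
    · rw [e]; intro q hq
      exact Finset.mem_erase.2 ⟨fun e' => hp (e' ▸ hq), h1.1 hq⟩
    · rw [length_eq_card (u * _), e, Finset.card_erase_of_mem hp'.1, ← length_eq_card]
      omega

lemma dist_le_of_pre {ω : ℕ} (hω : ClB G ω) (hs : NoSq G) {u u' w : WG G} (h : Pre G u w)
    (h' : Pre G u' w) (hl : (csG G).length u = (csG G).length u') :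
    (csG G).length (u⁻¹ * u') ≤ 2 * ω := by
  have hi := Low.inter (G := G) h h'
  obtain ⟨m, hm⟩ := exists_phi (hi.normal (phi_normal w))
  have h1 : Pre G m u := by
    rw [pre_iff_low, hm]; exact hi.of_subset Finset.inter_subset_left h.1
  have h2 : Pre G m u' := by
    rw [pre_iff_low, hm]; exact hi.of_subset Finset.inter_subset_right h'.1
  have h3 := h1.length_le
  have h4 := h2.length_le
  rw [length_eq_card, length_eq_card] at hl
  have h5 := diff_card hω hs (phi_normal w) h h' hl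
  have h6 := Finset.card_sdiff_add_card_inter (phi G u) (phi G u')
  have h7 := (csG G).length_mul_le (m⁻¹ * u)⁻¹ (m⁻¹ * u')
  rw [CoxeterSystem.length_inv, show (m⁻¹ * u)⁻¹ * (m⁻¹ * u') = u⁻¹ * u' by group] at h7
  rw [length_eq_card m, hm, length_eq_card u] at h3
  rw [length_eq_card m, hm, length_eq_card u'] at h4
  omega

lemma phi_simple (x : V) : phi G ((csG G).simple x) = {(0, x)} := by
  have := phi_mul (G := G) 1 x
  rw [one_mul, phi_one] at this
  rw [this]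
  rcases act_cases (G := G) ∅ x with ⟨p, hp, -, -⟩ | ⟨l, -, he, -, h2⟩
  · exact absurd hp.1 (by simp)
  · rw [he]
    rcases Nat.eq_zero_or_pos l with rfl | h0
    · rfl
    · obtain ⟨q, hq, -⟩ := h2 h0
      exact absurd hq (by simp)

lemma pre_simple {x : V} {g : WG G} : Pre G ((csG G).simple x) g ↔ (0, x) ∈ phi G g := by
  rw [pre_iff_low, phi_simple]
  refine ⟨fun h => h.1 (by simp), fun h => ⟨by simpa using h, fun p _ _ q hq hlt => ?_⟩⟩
  rw [Finset.mem_singleton.1 hq] at hlt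
  simp at hlt

end Pool.Agent.Lib.MP_845f45_al
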