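import Mathlib

namespace Pool.Agent.Lib.MP_845f45_al

abbrev ZZ : Type := ℕ × ℕ × ℕ

def up (j : ℕ) (p : ZZ) : ZZ := (j, p.2.1 / 2 ^ (j - p.1), p.2.2 / 2 ^ (j - p.1))

def par1 (p : ZZ) : ZZ := (p.1 + 1, p.2.1 / 2, p.2.2 / 2)

def W1 (p q : ZZ) : Prop :=
  p.2.1 ≤ q.2.1 + 1 ∧ q.2.1 ≤ p.2.1 + 1 ∧ p.2.2 ≤ q.2.2 + 1 ∧ q.2.2 ≤ p.2.2 + 1

def Cz (j : ℕ) (p q : ZZ) : Prop := W1 (up j p) (up j q)

def Cl (n : ℕ) (p q : ZZ) : Prop :=
  ∃ j, p.1 ≤ j ∧ q.1 ≤ j ∧ j < p.1 + n ∧ j < q.1 + n ∧ Cz j p q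

@[simp] lemma up_fst (j : ℕ) (p : ZZ) : (up j p).1 = j := rfl

lemma up_self (p : ZZ) : up p.1 p = p := by simp [up]

lemma up_succ {j : ℕ} {p : ZZ} (h : p.1 ≤ j) : up (j + 1) p = par1 (up j p) := by
  simp only [up, par1, Nat.div_div_eq_div_mul, ← pow_succ]
  rw [show j + 1 - p.1 = j - p.1 + 1 by omega]

lemma up_up {i j : ℕ} {p : ZZ} (h : p.1 ≤ i) (h' : i ≤ j) : up j (up i p) = up j p := by
  simp only [up, Nat.div_div_eq_div_mul, ← pow_add]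
  rw [show i - p.1 + (j - i) = j - p.1 by omega]

lemma par1_eq (p : ZZ) : par1 p = up (p.1 + 1) p := by rw [up_succ le_rfl, up_self]

lemma Cz.symm {j : ℕ} {p q : ZZ} (h : Cz j p q) : Cz j q p :=
  ⟨h.2.1, h.1, h.2.2.2, h.2.2.1⟩

lemma Cz.refl (j : ℕ) (p : ZZ) : Cz j p p := by simp [Cz, W1]

lemma Cz.trans {j : ℕ} {p q r : ZZ} (h : Cz j p q) (h' : Cz j q r) (hp : p.1 ≤ j)
    (hr : r.1 ≤ j) : Cz (j + 1) p r := by
  unfold Cz at *
  rw [up_succ hp, up_succ hr]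
  simp only [W1, par1] at *
  omega

lemma Cz.mono {i j : ℕ} {p q : ZZ} (h : Cz i p q) (hp : p.1 ≤ i) (hq : q.1 ≤ i) (hij : i ≤ j) :
    Cz j p q := by
  induction hij with
  | refl => exact h
  | step hij ih => exact ih.trans (Cz.refl _ q) (hp.trans hij) (hq.trans hij)

lemma Cz_up_left {i j : ℕ} {p q : ZZ} (h : p.1 ≤ i) (h' : i ≤ j) : Cz j (up i p) q ↔ Cz j p q := by
  unfold Cz; rw [up_up h h']

lemma Cz_up_right {i j : ℕ} {p q : ZZ} (h : q.1 ≤ i) (h' : i ≤ j) :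
    Cz j p (up i q) ↔ Cz j p q := by
  unfold Cz; rw [up_up h h']

lemma Cl.symm {n : ℕ} {p q : ZZ} (h : Cl n p q) : Cl n q p := by
  obtain ⟨j, h1, h2, h3, h4, h5⟩ := h
  exact ⟨j, h2, h1, h4, h3, h5.symm⟩

lemma Cl.mono {n m : ℕ} {p q : ZZ} (h : Cl n p q) (hnm : n ≤ m) : Cl m p q := by
  obtain ⟨j, h1, h2, h3, h4, h5⟩ := h
  exact ⟨j, h1, h2, by omega, by omega, h5⟩

lemma Cl.refl (p : ZZ) : Cl 1 p p := ⟨p.1, le_rfl, le_rfl, by omega, by omega, Cz.refl _ _⟩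

lemma Cl.pos {n : ℕ} {p q : ZZ} (h : Cl n p q) : 1 ≤ n := by
  obtain ⟨j, h1, h2, h3, h4, h5⟩ := h
  omega

lemma Cl.trans {n m : ℕ} {p q r : ZZ} (h : Cl n p q) (h' : Cl m q r) : Cl (n + m) p r := by
  obtain ⟨j, h1, h2, h3, h4, h5⟩ := h
  obtain ⟨i, e1, e2, e3, e4, e5⟩ := h'
  refine ⟨max i j + 1, by omega, by omega, by omega, by omega, ?_⟩
  exact (h5.mono h1 h2 (le_max_right _ _)).trans (e5.mono e1 e2 (le_max_left _ _))
    (by omega) (by omega)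

lemma exists_Cz (e z : ZZ) : ∃ j, e.1 ≤ j ∧ z.1 ≤ j ∧ Cz j e z := by
  have key : ∀ x k : ℕ, x ≤ k → x / 2 ^ k = 0 := fun x k h =>
    Nat.div_eq_of_lt (Nat.lt_two_pow_self.trans_le (Nat.pow_le_pow_right (by norm_num) h))
  refine ⟨e.1 + z.1 + e.2.1 + e.2.2 + z.2.1 + z.2.2, by omega, by omega, ?_⟩
  simp only [Cz, W1, up]
  rw [key, key, key, key] <;> omega

lemma exists_Cl (p q : ZZ) : ∃ n, Cl n p q := by
  obtain ⟨j, h1, h2, h3⟩ := exists_Cz p q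
  exact ⟨j + 1, j, h1, h2, by omega, by omega, h3⟩

open Classical in
noncomputable def JJ (e z : ZZ) : ℕ := Nat.find (exists_Cz e z)

lemma JJ_spec (e z : ZZ) : e.1 ≤ JJ e z ∧ z.1 ≤ JJ e z ∧ Cz (JJ e z) e z := by
  classical
  exact Nat.find_spec (exists_Cz e z)

lemma JJ_le {e z : ZZ} {j : ℕ} (h1 : e.1 ≤ j) (h2 : z.1 ≤ j) (h3 : Cz j e z) : JJ e z ≤ j := by
  classical
  exact Nat.find_min' (exists_Cz e z) ⟨h1, h2, h3⟩

lemma JJ_up {e z : ZZ} {i : ℕ} (h1 : z.1 ≤ i) (h2 : i ≤ JJ e z) : JJ e (up i z) = JJ e z := by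
  obtain ⟨a1, a2, a3⟩ := JJ_spec e z
  obtain ⟨b1, b2, b3⟩ := JJ_spec e (up i z)
  simp only [up_fst] at b2
  apply le_antisymm
  · exact JJ_le a1 h2 ((Cz_up_right h1 h2).2 a3)
  · exact JJ_le b1 (h1.trans b2) ((Cz_up_right h1 b2).1 b3)

lemma JJ_up_self {e : ZZ} {i : ℕ} (h1 : e.1 ≤ i) : JJ e (up i e) = i := by
  apply le_antisymm
  · exact JJ_le h1 le_rfl ((Cz_up_right h1 le_rfl).2 (Cz.refl _ _))
  · exact (JJ_spec e (up i e)).2.1

noncomputable def parZ (e z : ZZ) : ZZ :=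
  if z.1 < JJ e z then par1 z else if z = up z.1 e then up (z.1 - 1) e else up z.1 e

noncomputable def htZ (e z : ZZ) : ℕ :=
  (JJ e z - z.1) + (if up (JJ e z) z = up (JJ e z) e then 0 else 1) + (JJ e z - e.1)

lemma htZ_up_self {e : ZZ} {i : ℕ} (h1 : e.1 ≤ i) : htZ e (up i e) = i - e.1 := by
  unfold htZ
  rw [JJ_up_self h1, up_up h1 le_rfl]
  simp

lemma htZ_self (e : ZZ) : htZ e e = 0 := by
  have := htZ_up_self (e := e) le_rfl
  rwa [up_self, Nat.sub_self] at this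

lemma htZ_up {e z : ZZ} {i : ℕ} (h1 : z.1 ≤ i) (h2 : i ≤ JJ e z) :
    htZ e (up i z) + (i - z.1) = htZ e z := by
  unfold htZ
  rw [JJ_up h1 h2, up_up h1 h2, up_fst]
  omega

lemma parZ_up {e z : ZZ} {i : ℕ} (h1 : z.1 ≤ i) (h2 : i < JJ e z) :
    parZ e (up i z) = up (i + 1) z := by
  unfold parZ
  rw [JJ_up h1 h2.le, up_fst, if_pos h2, up_succ h1]

lemma parZ_up_self {e : ZZ} {i : ℕ} (h1 : e.1 ≤ i) : parZ e (up i e) = up (i - 1) e := by
  unfold parZ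
  rw [JJ_up_self h1, up_fst, if_neg (lt_irrefl _), if_pos rfl]

lemma parZ_cases {e z : ZZ} (h : z ≠ e) :
    (z.1 < JJ e z ∧ parZ e z = up (z.1 + 1) z) ∨
    (z.1 = JJ e z ∧ e.1 < z.1 ∧ z = up z.1 e ∧ parZ e z = up (z.1 - 1) e) ∨
    (z.1 = JJ e z ∧ z ≠ up z.1 e ∧ parZ e z = up z.1 e) := by
  obtain ⟨a1, a2, a3⟩ := JJ_spec e z
  unfold parZ
  split_ifs with h1 h2
  · exact Or.inl ⟨h1, par1_eq z⟩
  · refine Or.inr (Or.inl ⟨by omega, ?_, h2, rfl⟩)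
    by_contra hc
    have : z.1 = e.1 := by omega
    rw [this, up_self] at h2
    exact h h2
  · exact Or.inr (Or.inr ⟨by omega, h2, rfl⟩)

lemma htZ_parZ {e z : ZZ} (h : z ≠ e) : htZ e (parZ e z) + 1 = htZ e z := by
  obtain ⟨a1, a2, a3⟩ := JJ_spec e z
  rcases parZ_cases h with ⟨h1, h2⟩ | ⟨h1, h2, h3, h4⟩ | ⟨h1, h2, h3⟩
  · rw [h2]
    have := htZ_up (e := e) (z := z) (i := z.1 + 1) (by omega) h1
    omega
  · rw [h4, htZ_up_self (by omega)]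
    have := htZ_up_self (e := e) (i := z.1) h2.le
    rw [← h3] at this
    omega
  · rw [h3, htZ_up_self (by omega)]
    unfold htZ
    rw [← h1, up_self, if_neg h2]
    omega

lemma Cl_parZ {e z : ZZ} (h : z ≠ e) : Cl 2 z (parZ e z) := by
  obtain ⟨a1, a2, a3⟩ := JJ_spec e z
  rcases parZ_cases h with ⟨h1, h2⟩ | ⟨h1, h2, h3, h4⟩ | ⟨h1, h2, h3⟩
  · rw [h2]
    exact ⟨z.1 + 1, by omega, by simp, by omega, by simp,
      (Cz_up_right (by omega) le_rfl).2 (Cz.refl _ _)⟩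
  · rw [h4]
    refine ⟨z.1, le_rfl, by simp, by omega, by simp; omega,
      (Cz_up_right (by omega) (by omega)).2 ?_⟩
    rw [← h1] at a3; exact a3.symm
  · rw [h3]
    refine ⟨z.1, le_rfl, by simp, by omega, by simp,
      (Cz_up_right (by omega) (by omega)).2 ?_⟩
    rw [← h1] at a3; exact a3.symm

lemma htZ_le_of_Cl {n : ℕ} {e z : ZZ} (h : Cl n e z) : htZ e z ≤ 2 * n := by
  obtain ⟨j, h1, h2, h3, h4, h5⟩ := h
  have := JJ_le h1 h2 h5
  unfold htZ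
  split_ifs <;> omega

lemma JJ_le_max {e z z' : ZZ} {j : ℕ} (h1 : z.1 ≤ j) (h2 : z'.1 ≤ j) (h5 : Cz j z z') :
    JJ e z ≤ max (JJ e z') j + 1 := by
  obtain ⟨a1, a2, a3⟩ := JJ_spec e z'
  refine JJ_le (by omega) (by omega) ?_
  exact (a3.mono a1 a2 (le_max_left _ _)).trans (h5.symm.mono h2 h1 (le_max_right _ _))
    (by omega) (by omega)

lemma htZ_le_add {n : ℕ} (e : ZZ) {z z' : ZZ} (h : Cl n z z') :
    htZ e z ≤ htZ e z' + 4 * n := by
  obtain ⟨j, h1, h2, h3, h4, h5⟩ := h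
  have := JJ_le_max (e := e) h1 h2 h5
  obtain ⟨a1, a2, a3⟩ := JJ_spec e z'
  obtain ⟨b1, b2, b3⟩ := JJ_spec e z
  unfold htZ
  split_ifs <;> omega

def AncZ (e : ZZ) : ZZ → ZZ → Prop := Relation.ReflTransGen fun a b => a ≠ e ∧ b = parZ e a

lemma ancZ_up {e z : ZZ} {i : ℕ} (h1 : z.1 ≤ i) (h2 : i ≤ JJ e z) : AncZ e z (up i z) := by
  induction h1 with
  | refl => rw [up_self]; exact Relation.ReflTransGen.refl
  | @step k hk ih =>
    refine (ih (by omega)).tail ⟨fun he => ?_, (parZ_up hk (by omega)).symm⟩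
    have := JJ_up (e := e) hk (by omega)
    rw [he] at this
    have h3 := JJ_up_self (e := e) le_rfl
    rw [up_self] at h3
    have : e.1 = k := by rw [← he]; rfl
    omega

lemma ancZ_down {e : ZZ} {i : ℕ} (h1 : e.1 ≤ i) {j : ℕ} (h2 : i ≤ j) :
    AncZ e (up j e) (up i e) := by
  induction h2 with
  | refl => exact Relation.ReflTransGen.refl
  | @step k hk ih =>
    refine Relation.ReflTransGen.head ⟨fun he => ?_, ?_⟩ ih
    · have : e.1 = k + 1 := by rw [← he]; rfl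
      have : i ≤ k := hk
      omega
    · have : i ≤ k := hk
      rw [parZ_up_self (by omega)]; rfl

lemma ancZ_up_self {e z : ZZ} {i : ℕ} (h1 : e.1 ≤ i) (h2 : i ≤ JJ e z) : AncZ e z (up i e) := by
  obtain ⟨a1, a2, a3⟩ := JJ_spec e z
  refine (ancZ_up a2 le_rfl).trans (Relation.ReflTransGen.trans ?_ (ancZ_down h1 h2))
  by_cases he : up (JJ e z) z = up (JJ e z) e
  · rw [he]
  · have hne : up (JJ e z) z ≠ e := by
      intro h
      have : e.1 = JJ e z := (congrArg Prod.fst h).symm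
      rw [← this, up_self] at he
      rw [← this] at h
      exact he h
    refine Relation.ReflTransGen.single ⟨hne, ?_⟩
    unfold parZ
    rw [JJ_up a2 le_rfl, up_fst, if_neg (lt_irrefl _), if_neg he]

lemma ancZ_root (e z : ZZ) : AncZ e z e := by
  have := ancZ_up_self (e := e) (z := z) le_rfl (JJ_spec e z).1
  rwa [up_self] at this

lemma ancZ_cases {e z y : ZZ} (h : AncZ e z y) :
    (∃ i, z.1 ≤ i ∧ i ≤ JJ e z ∧ y = up i z) ∨ (∃ i, e.1 ≤ i ∧ i ≤ JJ e z ∧ y = up i e) := by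
  obtain ⟨a1, a2, a3⟩ := JJ_spec e z
  induction h with
  | refl => exact Or.inl ⟨z.1, le_rfl, a2, (up_self z).symm⟩
  | @tail b c _ hbc ih =>
    obtain ⟨hb, rfl⟩ := hbc
    rcases ih with ⟨i, h1, h2, rfl⟩ | ⟨i, h1, h2, rfl⟩
    · have hJ := JJ_up h1 h2
      rcases parZ_cases hb with ⟨e1, e2⟩ | ⟨e1, e2, e3, e4⟩ | ⟨e1, e2, e3⟩ <;>
        simp only [up_fst, hJ] at *
      · exact Or.inl ⟨i + 1, by omega, by omega, by rw [e2, up_up h1 (by omega)]⟩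
      · exact Or.inr ⟨i - 1, by omega, by omega, e4⟩
      · exact Or.inr ⟨i, by omega, by omega, e3⟩
    · refine Or.inr ⟨i - 1, ?_, by omega, parZ_up_self h1⟩
      by_contra hc
      have : i = e.1 := by omega
      rw [this, up_self] at hb
      exact hb rfl

lemma ancZ_ne {n : ℕ} {e z z' y : ZZ} (h : Cl n z z') (hy : AncZ e z y) :
    ∃ y', AncZ e z' y' ∧ Cl (2 * n + 2) y y' := by
  have h0 := h
  obtain ⟨j, h1, h2, h3, h4, h5⟩ := h
  have hJ := JJ_le_max (e := e) h1 h2 h5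
  obtain ⟨a1, a2, a3⟩ := JJ_spec e z'
  obtain ⟨b1, b2, b3⟩ := JJ_spec e z
  rcases ancZ_cases hy with ⟨i, e1, e2, rfl⟩ | ⟨i, e1, e2, rfl⟩
  · by_cases c1 : i ≤ j
    · exact ⟨z', Relation.ReflTransGen.refl, j, c1, h2, by simp; omega, by omega,
        (Cz_up_left e1 c1).2 h5⟩
    · by_cases c2 : i ≤ JJ e z'
      · refine ⟨up i z', ancZ_up (by omega) c2, i, le_rfl, le_rfl, by simp, by simp, ?_⟩
        rw [Cz_up_left e1 le_rfl, Cz_up_right (by omega) le_rfl]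
        exact h5.mono h1 h2 (by omega)
      · refine ⟨up (JJ e z') e, ancZ_up_self a1 le_rfl, i + 1, by simp, by simp; omega,
          by simp, by simp; omega, ?_⟩
        rw [Cz_up_left e1 (by omega), Cz_up_right a1 (by omega)]
        exact (h5.mono h1 h2 (by omega)).trans (a3.symm.mono a2 a1 (by omega)) e1 (by omega)
  · by_cases c2 : i ≤ JJ e z'
    · exact ⟨up i e, ancZ_up_self e1 c2, (Cl.refl _).mono (by omega)⟩
    · refine ⟨up (JJ e z') e, ancZ_up_self a1 le_rfl, i, by simp, by simp; omega,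
        by simp, by simp; omega, ?_⟩
      rw [Cz_up_left e1 le_rfl, Cz_up_right a1 (by omega)]
      exact Cz.refl _ _

lemma ancZ_contract {n : ℕ} (e : ZZ) {z z' : ZZ} (h : Cl n z z') :
    ∃ y y', AncZ e z y ∧ AncZ e z' y' ∧ Cl 1 y y' ∧ htZ e z ≤ htZ e y + 3 * n := by
  obtain ⟨j, h1, h2, h3, h4, h5⟩ := h
  have hJ := JJ_le_max (e := e) h1 h2 h5
  obtain ⟨a1, a2, a3⟩ := JJ_spec e z'
  obtain ⟨b1, b2, b3⟩ := JJ_spec e z
  by_cases c : j ≤ JJ e z ∧ j ≤ JJ e z'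
  · refine ⟨up j z, up j z', ancZ_up h1 c.1, ancZ_up h2 c.2,
      ⟨j, le_rfl, le_rfl, by simp, by simp, ?_⟩, ?_⟩
    · rw [Cz_up_left h1 le_rfl, Cz_up_right h2 le_rfl]; exact h5
    · have := htZ_up h1 c.1
      omega
  · refine ⟨up (min (JJ e z) (JJ e z')) e, up (min (JJ e z) (JJ e z')) e,
      ancZ_up_self (by omega) (by omega), ancZ_up_self (by omega) (by omega), Cl.refl _, ?_⟩
    rw [htZ_up_self (by omega)]
    unfold htZ
    split_ifs <;> omega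

def kids (z : ZZ) : Finset ZZ :=
  insert (par1 z) ((({z.1 - 1} : Finset ℕ) ×ˢ (Finset.Icc (2 * z.2.1) (2 * z.2.1 + 1) ×ˢ
    Finset.Icc (2 * z.2.2) (2 * z.2.2 + 1))) ∪
    (({z.1} : Finset ℕ) ×ˢ (Finset.Icc (z.2.1 - 1) (z.2.1 + 1) ×ˢ
    Finset.Icc (z.2.2 - 1) (z.2.2 + 1))))

lemma card_kids (z : ZZ) : (kids z).card ≤ 14 := by
  unfold kids
  refine (Finset.card_insert_le _ _).trans ?_
  refine Nat.succ_le_succ ((Finset.card_union_le _ _).trans ?_)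
  simp only [Finset.card_product, Finset.card_singleton, Nat.card_Icc]
  have h1 : z.2.1 + 1 + 1 - (z.2.1 - 1) ≤ 3 := by omega
  have h2 : z.2.2 + 1 + 1 - (z.2.2 - 1) ≤ 3 := by omega
  have h3 := Nat.mul_le_mul h1 h2
  rw [show 2 * z.2.1 + 1 + 1 - 2 * z.2.1 = 2 by omega,
    show 2 * z.2.2 + 1 + 1 - 2 * z.2.2 = 2 by omega]
  omega

lemma mem_kids {e z : ZZ} (h : z ≠ e) : z ∈ kids (parZ e z) := by
  obtain ⟨a1, a2, a3⟩ := JJ_spec e z
  unfold kids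
  simp only [Finset.mem_insert, Finset.mem_union, Finset.mem_product, Finset.mem_singleton,
    Finset.mem_Icc]
  rcases parZ_cases h with ⟨h1, h2⟩ | ⟨h1, h2, h3, h4⟩ | ⟨h1, h2, h3⟩
  · right; left
    rw [h2, ← par1_eq]
    simp only [par1]
    omega
  · left
    rw [h4, ← up_succ (by omega), show z.1 - 1 + 1 = z.1 by omega]
    exact h3
  · right; right
    rw [h3]
    rw [← h1] at a3
    unfold Cz at a3
    rw [up_self] at a3
    simp only [W1, up_fst] at a3 ⊢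
    refine ⟨trivial, ?_⟩
    omega

end Pool.Agent.Lib.MP_845f45_al
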