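import Mathlib

namespace Pool.Agent.Lib.MP_845f45_al

open Real

structure H2 where
  t : ℝ
  x : ℝ
  y : ℝ
  h : t ^ 2 = 1 + x ^ 2 + y ^ 2
  p : 0 < t

namespace H2

lemma ext' {a b : H2} (h1 : a.x = b.x) (h2 : a.y = b.y) : a = b := by
  have h3 : a.t = b.t := by
    have := a.h
    rw [h1, h2, ← b.h] at this
    exact (pow_left_inj₀ a.p.le b.p.le two_ne_zero).1 this
  cases a; cases b; simp_all

lemma one_le (a : H2) : 1 ≤ a.t := by
  nlinarith [a.h, a.p, sq_nonneg a.x, sq_nonneg a.y]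

def B (a b : H2) : ℝ := a.t * b.t - a.x * b.x - a.y * b.y

lemma B_comm (a b : H2) : B a b = B b a := by unfold B; ring

noncomputable def P (α d : ℝ) : H2 :=
  ⟨cosh d, sinh d * cos α, sinh d * sin α, by
    have := cosh_sq d
    have := sin_sq_add_cos_sq α
    nlinarith, cosh_pos d⟩

noncomputable def o : H2 := ⟨1, 0, 0, by norm_num, one_pos⟩

lemma P_zero (α : ℝ) : P α 0 = o := ext' (by simp [P, o]) (by simp [P, o])

lemma B_o (a : H2) : B a o = a.t := by simp [B, o]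

lemma B_P (α d β e : ℝ) : B (P α d) (P β e) = cosh d * cosh e - sinh d * sinh e * cos (α - β) := by
  simp only [B, P, cos_sub]; ring

lemma polar (a : H2) : ∃ α d, 0 ≤ d ∧ a = P α d := by
  let z : ℂ := ⟨a.x, a.y⟩
  refine ⟨Complex.arg z, arsinh ‖z‖, arsinh_nonneg_iff.2 (norm_nonneg _), ext' ?_ ?_⟩
  · simp only [P, sinh_arsinh]; exact (Complex.norm_mul_cos_arg z).symm
  · simp only [P, sinh_arsinh]; exact (Complex.norm_mul_sin_arg z).symm

noncomputable def qf (α : ℝ) (a : H2) : H2 :=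
  ⟨a.t, cos α * a.x + sin α * a.y, sin α * a.x - cos α * a.y, by
    have := a.h
    have := sin_sq_add_cos_sq α
    nlinarith, a.p⟩

noncomputable def Q (α : ℝ) : Equiv.Perm H2 :=
  Function.Involutive.toPerm (qf α) fun a => ext'
    (by simp only [qf]; linear_combination a.x * sin_sq_add_cos_sq α)
    (by simp only [qf]; linear_combination a.y * sin_sq_add_cos_sq α)

noncomputable def ff (l : ℝ) (a : H2) : H2 :=
  ⟨cosh l * a.t - sinh l * a.x, sinh l * a.t - cosh l * a.x, a.y, by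
    linear_combination a.h + (a.t ^ 2 - a.x ^ 2) * cosh_sq l, by
    have h1 : |a.x| < a.t := abs_lt_of_sq_lt_sq (by nlinarith [a.h, sq_nonneg a.y]) a.p.le
    have h2 : |sinh l| ≤ cosh l := abs_le_of_sq_le_sq (by nlinarith [cosh_sq l]) (cosh_pos l).le
    have h3 : sinh l * a.x ≤ |sinh l| * |a.x| := by rw [← abs_mul]; exact le_abs_self _
    have := cosh_pos l
    have := abs_nonneg a.x
    nlinarith⟩

noncomputable def Φ (l : ℝ) : Equiv.Perm H2 :=
  Function.Involutive.toPerm (ff l) fun a => ext'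
    (by simp only [ff]; linear_combination a.x * cosh_sq l) rfl

lemma Q_apply (α : ℝ) (a : H2) : Q α a = qf α a := rfl

lemma Φ_apply (l : ℝ) (a : H2) : Φ l a = ff l a := rfl

lemma Q_Q (α : ℝ) : Q α * Q α = 1 := Equiv.ext fun a => (Q α).left_inv a

lemma Φ_Φ (l : ℝ) : Φ l * Φ l = 1 := Equiv.ext fun a => (Φ l).left_inv a

lemma Q_three (a b c : ℝ) : Q a * Q b * Q c = Q (a - b + c) := by
  refine Equiv.ext fun p => ext' ?_ ?_ <;>
    simp only [Equiv.Perm.mul_apply, Q_apply, qf, cos_add, sin_add, cos_sub, sin_sub] <;> ring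

lemma Q_per (a : ℝ) (k : ℤ) : Q (a + k * (2 * π)) = Q a := by
  refine Equiv.ext fun p => ext' ?_ ?_ <;>
    simp only [Q_apply, qf, cos_add_int_mul_two_pi, sin_add_int_mul_two_pi]

lemma Q_Φ (l : ℝ) : Q 0 * Φ l = Φ l * Q 0 := by
  refine Equiv.ext fun p => ext' ?_ ?_ <;>
    simp [Q_apply, qf, Φ_apply, ff]

lemma Q_P (α β d : ℝ) : Q α (P β d) = P (α - β) d := by
  refine ext' ?_ ?_ <;> simp only [Q_apply, qf, P, cos_sub, sin_sub] <;> ring

lemma Q_o (α : ℝ) : Q α o = o := by rw [← P_zero 0, Q_P, P_zero, P_zero]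

lemma Φ_o (l : ℝ) : Φ l o = P 0 l := by
  refine ext' ?_ ?_ <;> simp [Φ_apply, ff, P, o]

lemma Φ_P (l : ℝ) : Φ l (P 0 l) = o := by
  rw [← Φ_o, ← Equiv.Perm.mul_apply, Φ_Φ]; rfl

def Iso (g : Equiv.Perm H2) : Prop := ∀ a b, B (g a) (g b) = B a b

lemma Iso.one : Iso 1 := fun _ _ => rfl

lemma Iso.mul {g h : Equiv.Perm H2} (hg : Iso g) (hh : Iso h) : Iso (g * h) := fun a b => by
  rw [Equiv.Perm.mul_apply, Equiv.Perm.mul_apply, hg, hh]

lemma Iso.inv {g : Equiv.Perm H2} (hg : Iso g) : Iso g⁻¹ := fun a b => by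
  rw [← hg]; simp

lemma Iso.left {g : Equiv.Perm H2} (hg : Iso g) (a b : H2) : B a (g b) = B (g⁻¹ a) b := by
  rw [← hg (g⁻¹ a)]; simp

lemma iso_Q (α : ℝ) : Iso (Q α) := fun a b => by
  simp only [B, Q_apply, qf]
  linear_combination (- a.x * b.x - a.y * b.y) * sin_sq_add_cos_sq α

lemma iso_Φ (l : ℝ) : Iso (Φ l) := fun a b => by
  simp only [B, Φ_apply, ff]
  linear_combination (a.t * b.t - a.x * b.x) * cosh_sq l

lemma rigid {g h : Equiv.Perm H2} (hg : Iso g) (hh : Iso h) {l m β : ℝ} (hl : 0 < l) (hm : 0 < m)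
    (hβ : sin β ≠ 0) (h1 : g o = h o) (h2 : g (P 0 l) = h (P 0 l)) (h3 : g (P β m) = h (P β m)) :
    g = h := by
  refine Equiv.ext fun a => ?_
  have key : ∀ b, g b = h b → B (h⁻¹ (g a)) b = B a b := fun b e => by
    rw [← hh.left, ← e, hg]
  have e1 := key _ h1
  have e2 := key _ h2
  have e3 := key _ h3
  rw [B_o, B_o] at e1
  simp only [B, P, cos_zero, sin_zero, mul_one, mul_zero, sub_zero, e1] at e2 e3
  have s1 := sinh_pos_iff.2 hl
  have s2 := sinh_pos_iff.2 hm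
  have e4 : (h⁻¹ (g a)).x = a.x := mul_right_cancel₀ s1.ne' (by linarith)
  rw [e4] at e3
  have e5 : (h⁻¹ (g a)).y = a.y :=
    mul_right_cancel₀ (mul_ne_zero s2.ne' hβ) (by linarith)
  exact Equiv.Perm.inv_eq_iff_eq.1 (ext' e4 e5)

lemma B_le {a : H2} {u : ℝ} (hu : 0 ≤ u) (h : a.t ≤ cosh u) (α : ℝ) {l : ℝ} (hl : 0 ≤ l) :
    B a (P α l) ≤ cosh (u + l) := by
  obtain ⟨β, d, hd, rfl⟩ := polar a
  rw [B_P, cosh_add]
  have h1 : d ≤ u := by
    have := cosh_le_cosh.1 h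
    rwa [abs_of_nonneg hd, abs_of_nonneg hu] at this
  have h2 := sinh_le_sinh.2 h1
  have h3 := sinh_nonneg_iff.2 hd
  have h4 := sinh_nonneg_iff.2 hl
  have h5 := neg_one_le_cos (β - α)
  have h6 : cosh d * cosh l ≤ cosh u * cosh l := mul_le_mul_of_nonneg_right h (cosh_pos l).le
  nlinarith [mul_nonneg h3 h4, mul_le_mul_of_nonneg_right h2 h4]

lemma exists_inside {a : H2} {r s : ℝ} (hr : 0 < r) (hs : 0 < s) (h : a.t < cosh (r + s)) :
    ∃ q : H2, q.t < cosh r ∧ B q a < cosh s := by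
  obtain ⟨β, d, hd, rfl⟩ := polar a
  have h1 : d < r + s := by
    have := cosh_lt_cosh.1 h
    rwa [abs_of_nonneg hd, abs_of_nonneg (by linarith)] at this
  refine ⟨P β (d * r / (r + s)), cosh_lt_cosh.2 ?_, ?_⟩
  · rw [abs_of_nonneg (by positivity), abs_of_pos hr, div_lt_iff₀ (by positivity)]
    nlinarith
  · rw [B_P, sub_self, cos_zero, mul_one, ← cosh_sub, cosh_lt_cosh, abs_sub_comm,
      show d - d * r / (r + s) = d * s / (r + s) by field_simp; ring,
      abs_of_nonneg (by positivity), abs_of_pos hs, div_lt_iff₀ (by positivity)]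
    nlinarith

lemma sq_ge (a b : H2) : 2 * B a b - 2 ≤ (a.x - b.x) ^ 2 + (a.y - b.y) ^ 2 := by
  unfold B
  nlinarith [a.h, b.h, sq_nonneg (a.t - b.t)]

end H2

end Pool.Agent.Lib.MP_845f45_al
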