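import Pool.Agent.Lib.MP_845f45_al.Ord

namespace Pool.Agent.Lib.MP_845f45_al

open Relation

variable {V : Type} {G : SimpleGraph V}

structure PC (G : SimpleGraph V) (v : V) (n : ℕ) (c : ℤ → V) : Prop where
  four : 4 ≤ n
  eq : ∀ i j, c i = c j ↔ (n : ℤ) ∣ j - i
  adj : ∀ i, G.Adj v (c i)
  surj : ∀ u, G.Adj v u → ∃ i, c i = u
  link : ∀ i j, G.Adj (c i) (c j) ↔ c j = c (i + 1) ∨ c j = c (i - 1)

lemma Cyc.pc {v : V} {n : ℕ} {c : ℕ → V} (h : Cyc G v n c) : ∃ c', PC G v n c' := by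
  have h4 := h.four
  have n0 : (0 : ℤ) < n := by omega
  have lt : ∀ i : ℤ, (i % n).toNat < n := fun i => by
    have := Int.emod_lt_of_pos i n0
    have := Int.emod_nonneg i n0.ne'
    omega
  have eq : ∀ i j : ℤ, c (i % n).toNat = c (j % n).toNat ↔ i % n = j % n := fun i j =>
    ⟨fun e => by
      have := h.inj _ _ (lt i) (lt j) e
      have := Int.emod_nonneg i n0.ne'
      have := Int.emod_nonneg j n0.ne'
      omega, fun e => by rw [e]⟩
  refine ⟨fun i => c (i % n).toNat, h4, fun i j => ?_, fun i => h.adj _ (lt i), fun u hu => ?_,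
    fun i j => ?_⟩
  · rw [eq]; exact Int.modEq_iff_dvd
  · obtain ⟨i, hi, rfl⟩ := h.surj u hu
    exact ⟨i, by rw [Int.emod_eq_of_lt (by omega) (by omega)]; simp⟩
  · rw [h.link _ _ (lt i) (lt j), eq, eq, Nx]
    have a1 := Int.emod_lt_of_pos i n0
    have a2 := Int.emod_nonneg i n0.ne'
    have a3 := Int.emod_lt_of_pos j n0
    have a4 := Int.emod_nonneg j n0.ne'
    have b1 : (i + 1) % n = if i % n + 1 = n then 0 else i % n + 1 := by
      rw [← Int.emod_add_emod]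
      split_ifs with e
      · rw [e]; simp
      · exact Int.emod_eq_of_lt (by omega) (by omega)
    have b2 : (i - 1) % n = if i % n = 0 then (n : ℤ) - 1 else i % n - 1 := by
      rw [← Int.emod_sub_emod]
      split_ifs with e
      · rw [e, ← Int.add_emod_right]; exact (Int.emod_eq_of_lt (by omega) (by omega)).trans (by ring)
      · exact Int.emod_eq_of_lt (by omega) (by omega)
    rw [b1, b2]
    split_ifs <;> omega

namespace PC

variable {v : V} {n : ℕ} {c : ℤ → V} (h : PC G v n c)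
include h

lemma per (i k : ℤ) : c (i + k * n) = c i := (h.eq _ _).2 ⟨-k, by ring⟩

lemma ne {i j : ℤ} (h1 : i < j) (h2 : j < i + n) : c i ≠ c j := fun e => by
  have := Int.le_of_dvd (by omega) ((h.eq _ _).1 e)
  omega

lemma exists_lt (i j : ℤ) : ∃ k : ℕ, k < n ∧ c j = c (i + k) := by
  have h4 := h.four
  have n0 : (0 : ℤ) < n := by omega
  have a1 := Int.emod_lt_of_pos (j - i) n0
  have a2 := Int.emod_nonneg (j - i) n0.ne'
  refine ⟨((j - i) % n).toNat, by omega, (h.eq _ _).2 ⟨-((j - i) / n), ?_⟩⟩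
  rw [Int.toNat_of_nonneg a2]
  have := Int.emod_add_mul_ediv (j - i) n
  linarith

lemma adj_succ (i : ℤ) : G.Adj (c i) (c (i + 1)) := (h.link _ _).2 (Or.inl rfl)

lemma adj_pred (i : ℤ) : G.Adj (c i) (c (i - 1)) := (h.link _ _).2 (Or.inr rfl)

lemma common {i : ℤ} {y : V} (h1 : G.Adj v y) (h2 : G.Adj (c i) y) :
    y = c (i + 1) ∨ y = c (i - 1) := by
  obtain ⟨j, rfl⟩ := h.surj y h1
  exact (h.link _ _).1 h2

lemma path (i : ℤ) {u : V} (hu : G.Adj v u) (hne : u ≠ c i) :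
    ReflTransGen (fun a b => G.Adj a b ∧ b ∈ {b | G.Adj v b ∧ b ≠ c i}) (c (i + 1)) u := by
  obtain ⟨j, rfl⟩ := h.surj u hu
  obtain ⟨k, h1, h2⟩ := h.exists_lt i j
  rw [h2] at hne ⊢
  rcases k with _ | k
  · simp at hne
  clear hne h2
  induction k with
  | zero => simpa using ReflTransGen.refl
  | succ k ih =>
    refine (ih (by omega)).tail ⟨?_, h.adj _, (h.ne (by omega) (by omega)).symm⟩
    have := h.adj_succ (i + ((k + 1 : ℕ) : ℤ))
    rwa [add_assoc] at this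

end PC

lemma conn_avoid (hc : ∀ u v, ReflTransGen G.Adj u v) {I S : Set V} (h : Sep G I S) {u v : V}
    (hu : u ∉ I) (hv : v ∉ I) : ReflTransGen (fun a b => G.Adj a b ∧ b ∉ I) u v := by
  have key : ∀ w, ReflTransGen G.Adj u w →
      (w ∉ I → ReflTransGen (fun a b => G.Adj a b ∧ b ∉ I) u w) ∧
      (w ∈ I → ∀ z ∈ S, ReflTransGen (fun a b => G.Adj a b ∧ b ∉ I) u z) := by
    intro w hw
    induction hw with
    | refl => exact ⟨fun _ => ReflTransGen.refl, fun e => absurd e hu⟩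
    | @tail a b _ hab ih =>
      by_cases ha : a ∈ I
      · exact ⟨fun hb => ih.2 ha b ((h.2.1 a ha b hab).resolve_left hb), fun _ => ih.2 ha⟩
      · refine ⟨fun hb => (ih.1 ha).tail ⟨hab, hb⟩, fun e z hz => (ih.1 ha).trans ?_⟩
        exact ReflTransGen.mono (fun c d hcd => ⟨hcd.1, fun e => Set.disjoint_left.1 h.1 e hcd.2⟩)
          _ _ (h.2.2 a ((h.2.1 b e a hab.symm).resolve_left ha) z hz)
  exact (key v (hc u v)).1 hv

variable [Fintype V]

lemma Surf.pc {Δ e : ℕ} (h : Surf G Δ e) : ∃ (n : V → ℕ) (c : V → ℤ → V),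
    (∀ v, PC G v (n v) (c v)) ∧ ∑ v, n v ≤ 6 * Fintype.card V + e := by
  obtain ⟨-, n, h1, h2⟩ := h
  choose c hc using fun v => (h1 v).2.choose_spec.pc
  exact ⟨n, c, hc, h2⟩

lemma Surf.avoid2 {Δ e : ℕ} (h : Surf G Δ e) {w w' : V} (hw : G.Adj w w') {u v : V}
    (hu : u ∉ ({w, w'} : Set V)) (hv : v ∉ ({w, w'} : Set V)) :
    ReflTransGen (fun a b => G.Adj a b ∧ b ∉ ({w, w'} : Set V)) u v := by
  obtain ⟨n, c, hc, -⟩ := h.pc
  obtain ⟨i, hi⟩ := (hc w).surj w' hw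
  obtain ⟨j, hj⟩ := (hc w').surj w hw.symm
  have x1 := (hc w).adj (i + 1)
  have x2 : G.Adj w' (c w (i + 1)) := hi ▸ (hc w).adj_succ i
  refine conn_avoid h.1 (S := {b | (G.Adj w b ∨ G.Adj w' b) ∧ b ≠ w ∧ b ≠ w'})
    ⟨?_, ?_, conn_of_base (x := c w (i + 1)) ⟨Or.inl x1, x1.ne', x2.ne'⟩ ?_⟩ hu hv
  · rw [Set.disjoint_left]
    rintro a (rfl | rfl) ha
    · exact ha.2.1 rfl
    · exact ha.2.2 rfl
  · intro a ha b hab
    by_cases e : b ∈ ({w, w'} : Set V)
    · exact Or.inl e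
    · simp only [Set.mem_insert_iff, Set.mem_singleton_iff, not_or] at e ha
      rcases ha with rfl | rfl
      · exact Or.inr ⟨Or.inl hab, e⟩
      · exact Or.inr ⟨Or.inr hab, e⟩
  · rintro b ⟨b1 | b1, b2, b3⟩
    · exact ReflTransGen.mono (fun c d hcd => ⟨hcd.1, Or.inl hcd.2.1, hcd.2.1.ne', hi ▸ hcd.2.2⟩)
        _ _ ((hc w).path i b1 (hi ▸ b3))
    · have p1 := (hc w').path j b1 (hj ▸ b2)
      have p2 := (hc w').path j x2 (hj ▸ x1.ne')
      have h4 := (hc w').four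
      have p3 := (rtg_symm (S := {b | G.Adj w' b ∧ b ≠ c w' j})
        ⟨(hc w').adj _, ((hc w').ne (by omega) (by omega)).symm⟩ p2).trans p1
      exact ReflTransGen.mono (fun c d hcd => ⟨hcd.1, Or.inr hcd.2.1, hj ▸ hcd.2.2, hcd.2.1.ne'⟩)
        _ _ p3

lemma exists_theta {Δ e : ℕ} (hS : Surf G Δ e) {w w' b : V} (hw : G.Adj w w') (h1 : b ≠ w)
    (h2 : b ≠ w') : ∃ θ : V → ℕ, Function.Injective θ ∧ θ w < θ w' ∧
      (∀ u, u ≠ w → u ≠ w' → θ w' < θ u) ∧ ∀ v, UpDn G w b θ v := by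
  classical
  obtain ⟨g, e1, e2⟩ := dirichlet hS.1 (Bd := {w, w', b}) ⟨w, Or.inl rfl⟩
    fun v => if v = b then 1 else 0
  have ga : g w = 0 := by rw [e1 w (Or.inl rfl), if_neg h1.symm]
  have ga' : g w' = 0 := by rw [e1 w' (by simp), if_neg h2.symm]
  have gb : g b = 1 := by rw [e1 b (by simp), if_pos rfl]
  have g0 : ∀ v, 0 ≤ g v := fun v => by
    obtain ⟨w, rfl | rfl | rfl, h⟩ := min_principle hS.1 ⟨w, Or.inl rfl⟩ e2 v <;> linarith
  have g1 : ∀ v, g v ≤ 1 := fun v => by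
    obtain ⟨w, rfl | rfl | rfl, h⟩ := max_principle hS.1 ⟨w, Or.inl rfl⟩ e2 v <;> linarith
  have gp : ∀ u, u ≠ w → u ≠ w' → 0 < g u := by
    intro u a1 a2
    have hp := hS.avoid2 hw (u := u) (v := b) (by simp [a1, a2]) (by simp [h1, h2])
    by_contra hc
    have key : ∀ z, ReflTransGen (fun a b => G.Adj a b ∧ b ∉ ({w, w'} : Set V)) u z →
        g z = 0 ∧ z ∉ ({w, w'} : Set V) := by
      intro z hz
      induction hz with
      | refl => exact ⟨by linarith [g0 u], by simp [a1, a2]⟩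
      | @tail x y _ hxy ih =>
        refine ⟨?_, hxy.2⟩
        have a3 : x ∉ ({w, w', b} : Set V) := by
          have := ih.2
          simp only [Set.mem_insert_iff, Set.mem_singleton_iff, not_or] at this ⊢
          exact ⟨this.1, this.2, fun e => by rw [e, gb] at ih; linarith [ih.1]⟩
        by_cases a4 : ∀ u, G.Adj x u → g u = g x
        · rw [a4 y hxy.1, ih.1]
        · obtain ⟨⟨z, -, z2⟩, -⟩ := harm_both (e2 x a3) a4
          linarith [g0 z, ih.1]
    linarith [(key b hp).1]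
  let g' : V → ℚ := fun v => if v = w then -1 else g v
  have f1 : g' w = -1 := if_pos rfl
  have f2 : ∀ v, v ≠ w → g' v = g v := fun v h => if_neg h
  have f3 : ∀ v, g' v ≤ g v := fun v => by
    by_cases e : v = w
    · rw [e, f1, ga]; norm_num
    · rw [f2 v e]
  have ua : UpDn G w b g' w :=
    ⟨fun h => absurd rfl h, fun _ => ⟨w', hw, by rw [f1, f2 _ hw.ne', ga']; norm_num⟩⟩
  have ua' : UpDn G w b g' w' := by
    refine ⟨fun _ => ⟨w, hw.symm, by rw [f1, f2 _ hw.ne', ga']; norm_num⟩, fun _ => ?_⟩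
    obtain ⟨n, c, hc, -⟩ := hS.pc
    obtain ⟨i, hi⟩ := (hc w).surj w' hw
    have x1 := (hc w).adj (i + 1)
    have x2 : G.Adj w' (c w (i + 1)) := hi ▸ (hc w).adj_succ i
    exact ⟨_, x2, by rw [f2 _ hw.ne', f2 _ x1.ne', ga']; exact gp _ x1.ne' x2.ne'⟩
  have ub : UpDn G w b g' b := by
    refine ⟨fun _ => ?_, fun h => absurd rfl h⟩
    by_contra hc
    push Not at hc
    obtain ⟨z, hz, h⟩ := max_principle hS.1 (Bd := {w, w'}) ⟨w, Or.inl rfl⟩ (h := g) (fun v hv => by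
      by_cases e : v = b
      · subst e
        exact Finset.sum_eq_zero fun u hu => by
          have := hc u (mem_nb.1 hu); have := g1 u; have := f3 u; have := f2 v h1; linarith
      · refine e2 v ?_
        simp only [Set.mem_insert_iff, Set.mem_singleton_iff, not_or] at hv ⊢
        exact ⟨hv.1, hv.2, e⟩) b
    rcases hz with rfl | rfl <;> linarith
  obtain ⟨θ, t1, t2, t3⟩ := exists_st hS h1.symm _ g' le_rfl fun v hv => by
    have a1 : v ≠ w := fun e => hv (e ▸ ua)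
    have a2 : v ≠ b := fun e => hv (e ▸ ub)
    have a3 : v ≠ w' := fun e => hv (e ▸ ua')
    have a4 := gp v a1 a3
    refine ⟨a1, a2, ?_⟩
    by_cases hc : ∀ u, G.Adj v u → g u = g v
    · intro u hu
      have : u ≠ w := fun e => by have := hc u hu; rw [e] at this; linarith
      rw [f2 u this, f2 v a1, hc u hu]
    · obtain ⟨⟨x, x1, x2⟩, y, y1, y2⟩ := harm_both (e2 v (by simp [a1, a2, a3])) hc
      have : y ≠ w := fun e => by rw [e] at y2; linarith
      exact absurd ⟨fun _ => ⟨x, x1, by rw [f2 v a1]; linarith [f3 x]⟩,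
        fun _ => ⟨y, y1, by rw [f2 v a1, f2 y this]; exact y2⟩⟩ hv
  refine ⟨θ, t1, t2 _ _ (by rw [f1, f2 _ hw.ne', ga']; norm_num), fun u a1 a2 => t2 _ _ ?_, t3⟩
  rw [f2 _ hw.ne', f2 _ a1, ga']
  exact gp u a1 a2

lemma exists_face {Δ e : ℕ} (hS : Surf G Δ e) {J : Set V} (hJ : J.Nonempty) {b b' : V}
    (hb : G.Adj b b') (h1 : b ∉ J) (h2 : b' ∉ J) :
    ∃ u w w', u ∈ J ∧ w ∉ J ∧ w' ∉ J ∧ G.Adj w w' ∧ G.Adj w u ∧ G.Adj w' u := by
  by_contra hc
  push Not at hc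
  obtain ⟨n, c, hp, -⟩ := hS.pc
  obtain ⟨u, hu⟩ := hJ
  have key : ∀ z, ReflTransGen G.Adj b z → z ∉ J ∧ ∃ z', G.Adj z z' ∧ z' ∉ J := by
    intro z hz
    induction hz with
    | refl => exact ⟨h1, b', hb, h2⟩
    | @tail x y _ hxy ih =>
      obtain ⟨a1, z', a2, a3⟩ := ih
      refine ⟨?_, x, hxy.symm, a1⟩
      obtain ⟨i, rfl⟩ := (hp x).surj z' a2
      obtain ⟨j, rfl⟩ := (hp x).surj y hxy
      obtain ⟨k, -, hk⟩ := (hp x).exists_lt i j
      rw [hk]
      clear hk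
      induction k with
      | zero => simpa using a3
      | succ k ih =>
        intro a4
        refine hc _ x _ a4 a1 ih ((hp x).adj _) ((hp x).adj _) ?_
        have := (hp x).adj_succ (i + k)
        rwa [add_assoc] at this
  exact (key u (hS.1 b u)).1 hu

end Pool.Agent.Lib.MP_845f45_al
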