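import Pool.Agent.Lib.MP_845f45_al.Defs

namespace Pool.Agent.Lib.MP_845f45_al

variable {V : Type} [DecidableEq V] (G : SimpleGraph V)

def Normal (σ : Finset (ℕ × V)) : Prop :=
  (∀ p ∈ σ, ∀ q ∈ σ, p.1 = q.1 → p.2 ≠ q.2 → G.Adj p.2 q.2) ∧
  (∀ p ∈ σ, 0 < p.1 → ∃ q ∈ σ, q.1 + 1 = p.1 ∧ q.2 ≠ p.2 ∧ ¬ G.Adj q.2 p.2)

omit [DecidableEq V] in
lemma lev_ex (σ : Finset (ℕ × V)) (v : V) : ∃ n, ∀ p ∈ σ, n ≤ p.1 → G.Adj p.2 v := by
  refine ⟨σ.sup (fun p => p.1) + 1, fun p hp h => ?_⟩
  have : p.1 ≤ σ.sup (fun p => p.1) := Finset.le_sup (f := fun p : ℕ × V => p.1) hp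
  omega

open Classical in
noncomputable def lev (σ : Finset (ℕ × V)) (v : V) : ℕ := Nat.find (lev_ex G σ v)

variable {G}

omit [DecidableEq V] in
lemma lev_spec (σ : Finset (ℕ × V)) (v : V) : ∀ p ∈ σ, lev G σ v ≤ p.1 → G.Adj p.2 v := by
  classical
  exact Nat.find_spec (lev_ex G σ v)

omit [DecidableEq V] in
lemma lev_le {σ : Finset (ℕ × V)} {v : V} {n : ℕ} (h : ∀ p ∈ σ, n ≤ p.1 → G.Adj p.2 v) :
    lev G σ v ≤ n := by
  classical
  exact Nat.find_min' (lev_ex G σ v) h

omit [DecidableEq V] in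
lemma lt_lev {σ : Finset (ℕ × V)} {v : V} {p : ℕ × V} (hp : p ∈ σ) (h : ¬ G.Adj p.2 v) :
    p.1 < lev G σ v := by
  by_contra h'
  exact h (lev_spec σ v p hp (by omega))

omit [DecidableEq V] in
lemma lev_min {σ : Finset (ℕ × V)} {v : V} (h : 0 < lev G σ v) :
    ∃ p ∈ σ, p.1 + 1 = lev G σ v ∧ ¬ G.Adj p.2 v := by
  by_contra hc
  push Not at hc
  have : lev G σ v ≤ lev G σ v - 1 := by
    apply lev_le
    intro p hp hle
    by_cases h1 : lev G σ v ≤ p.1
    · exact lev_spec σ v p hp h1
    · exact hc p hp (by omega)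
  omega

variable (G) in
noncomputable def act (σ : Finset (ℕ × V)) (v : V) : Finset (ℕ × V) :=
  if 0 < lev G σ v ∧ (lev G σ v - 1, v) ∈ σ then σ.erase (lev G σ v - 1, v)
  else insert (lev G σ v, v) σ

variable (G) in
def IsMx (σ : Finset (ℕ × V)) (p : ℕ × V) : Prop :=
  p ∈ σ ∧ ∀ q ∈ σ, p.1 < q.1 → G.Adj q.2 p.2

omit [DecidableEq V] in
lemma IsMx.lev_eq {σ : Finset (ℕ × V)} {p : ℕ × V} (h : IsMx G σ p) :
    lev G σ p.2 = p.1 + 1 := by
  have h1 : lev G σ p.2 ≤ p.1 + 1 := lev_le fun q hq hle => h.2 q hq (by omega)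
  have h2 := lt_lev (G := G) (v := p.2) h.1 (G.irrefl)
  omega

lemma IsMx.act_eq {σ : Finset (ℕ × V)} {p : ℕ × V} (h : IsMx G σ p) :
    act G σ p.2 = σ.erase p := by
  unfold act
  rw [h.lev_eq]
  simp [h.1]

lemma act_cases (σ : Finset (ℕ × V)) (v : V) :
    (∃ p, IsMx G σ p ∧ p.2 = v ∧ act G σ v = σ.erase p) ∨
    (∃ l, (l, v) ∉ σ ∧ act G σ v = insert (l, v) σ ∧ (∀ p ∈ σ, l ≤ p.1 → G.Adj p.2 v) ∧
      (0 < l → ∃ q ∈ σ, q.1 + 1 = l ∧ q.2 ≠ v ∧ ¬ G.Adj q.2 v)) := by
  by_cases h : 0 < lev G σ v ∧ (lev G σ v - 1, v) ∈ σ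
  · left
    refine ⟨(lev G σ v - 1, v), ⟨h.2, fun q hq hlt => lev_spec σ v q hq (by simp at hlt; omega)⟩,
      rfl, ?_⟩
    unfold act; rw [if_pos h]
  · right
    refine ⟨lev G σ v, fun hm => ?_, by unfold act; rw [if_neg h], lev_spec σ v, fun hl => ?_⟩
    · exact G.irrefl (lev_spec σ v _ hm le_rfl)
    · obtain ⟨q, hq, h1, h2⟩ := lev_min hl
      refine ⟨q, hq, h1, fun he => h ⟨hl, ?_⟩, h2⟩
      have : (lev G σ v - 1, v) = q := by
        ext
        · simp; omega
        · simp [he]
      rw [this]; exact hq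

lemma Normal.erase {σ : Finset (ℕ × V)} (hσ : Normal G σ) {p : ℕ × V} (h : IsMx G σ p) :
    Normal G (σ.erase p) := by
  refine ⟨fun a ha b hb => hσ.1 a (Finset.mem_of_mem_erase ha) b (Finset.mem_of_mem_erase hb),
    fun a ha h0 => ?_⟩
  obtain ⟨q, hq, h1, h2, h3⟩ := hσ.2 a (Finset.mem_of_mem_erase ha) h0
  refine ⟨q, Finset.mem_erase.2 ⟨?_, hq⟩, h1, h2, h3⟩
  rintro rfl
  exact h3 (h.2 a (Finset.mem_of_mem_erase ha) (by omega)).symm

lemma Normal.insert {σ : Finset (ℕ × V)} (hσ : Normal G σ) {l : ℕ} {v : V}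
    (h1 : ∀ p ∈ σ, l ≤ p.1 → G.Adj p.2 v)
    (h2 : 0 < l → ∃ q ∈ σ, q.1 + 1 = l ∧ q.2 ≠ v ∧ ¬ G.Adj q.2 v) :
    Normal G (insert (l, v) σ) := by
  constructor
  · intro a ha b hb hab hne
    rw [Finset.mem_insert] at ha hb
    rcases ha with rfl | ha <;> rcases hb with rfl | hb
    · exact absurd rfl hne
    · exact (h1 b hb (by simp at hab; omega)).symm
    · exact h1 a ha (by simp at hab; omega)
    · exact hσ.1 a ha b hb hab hne
  · intro a ha h0
    rw [Finset.mem_insert] at ha
    rcases ha with rfl | ha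
    · obtain ⟨q, hq, h⟩ := h2 h0
      exact ⟨q, Finset.mem_insert_of_mem hq, h⟩
    · obtain ⟨q, hq, h⟩ := hσ.2 a ha h0
      exact ⟨q, Finset.mem_insert_of_mem hq, h⟩

lemma Normal.act {σ : Finset (ℕ × V)} (hσ : Normal G σ) (v : V) : Normal G (act G σ v) := by
  rcases act_cases (G := G) σ v with ⟨p, hp, -, he⟩ | ⟨l, -, he, h1, h2⟩
  · rw [he]; exact hσ.erase hp
  · rw [he]; exact hσ.insert h1 h2

lemma isMx_insert {σ : Finset (ℕ × V)} {l : ℕ} {v : V}
    (h1 : ∀ p ∈ σ, l ≤ p.1 → G.Adj p.2 v) : IsMx G (insert (l, v) σ) (l, v) := by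
  refine ⟨Finset.mem_insert_self _ _, fun q hq hlt => ?_⟩
  rw [Finset.mem_insert] at hq
  rcases hq with rfl | hq
  · simp at hlt
  · exact h1 q hq hlt.le

lemma act_erase {σ : Finset (ℕ × V)} (hσ : Normal G σ) {p : ℕ × V} (h : IsMx G σ p) :
    act G (σ.erase p) p.2 = σ := by
  have h1 : lev G (σ.erase p) p.2 ≤ p.1 := by
    apply lev_le
    intro q hq hle
    rw [Finset.mem_erase] at hq
    rcases hle.lt_or_eq with hlt | heq
    · exact h.2 q hq.2 hlt
    · apply hσ.1 q hq.2 p h.1 heq.symm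
      intro he
      exact hq.1 (Prod.ext heq.symm he)
  have h2 : lev G (σ.erase p) p.2 = p.1 ∧ (0 < p.1 → (p.1 - 1, p.2) ∉ σ) := by
    rcases Nat.eq_zero_or_pos p.1 with h0 | h0
    · exact ⟨by omega, by omega⟩
    · obtain ⟨q, hq, e1, e2, e3⟩ := hσ.2 p h.1 h0
      have hq' : q ∈ σ.erase p := Finset.mem_erase.2 ⟨fun he => e2 (by rw [he]), hq⟩
      have := lt_lev hq' e3
      refine ⟨by omega, fun _ hm => e3 ?_⟩
      exact hσ.1 q hq (p.1 - 1, p.2) hm (by simp; omega) e2
  unfold act
  rw [h2.1, if_neg]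
  · exact Finset.insert_erase h.1
  · rintro ⟨h0, hm⟩
    exact h2.2 h0 (Finset.mem_of_mem_erase hm)

lemma act_act {σ : Finset (ℕ × V)} (hσ : Normal G σ) (v : V) : act G (act G σ v) v = σ := by
  rcases act_cases (G := G) σ v with ⟨p, hp, rfl, he⟩ | ⟨l, hn, he, h1, -⟩
  · rw [he]; exact act_erase hσ hp
  · rw [he]
    have := (isMx_insert h1).act_eq
    simp only at this
    rw [this, Finset.erase_insert hn]

lemma mem_act_of_ne (σ : Finset (ℕ × V)) (u : V) (p : ℕ × V) (h : p.2 ≠ u) :
    p ∈ act G σ u ↔ p ∈ σ := by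
  unfold act
  split_ifs
  · rw [Finset.mem_erase]
    exact ⟨fun h' => h'.2, fun h' => ⟨fun he => h (by rw [he]), h'⟩⟩
  · rw [Finset.mem_insert]
    exact ⟨fun h' => h'.elim (fun he => absurd (by rw [he]) h) id, Or.inr⟩

lemma lev_act_adj (σ : Finset (ℕ × V)) {u v : V} (h : G.Adj u v) :
    lev G (act G σ u) v = lev G σ v := by
  apply le_antisymm
  · apply lev_le
    intro p hp hle
    by_cases he : p.2 = u
    · rw [he]; exact h
    · exact lev_spec σ v p ((mem_act_of_ne σ u p he).1 hp) hle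
  · apply lev_le
    intro p hp hle
    by_cases he : p.2 = u
    · rw [he]; exact h
    · exact lev_spec _ v p ((mem_act_of_ne σ u p he).2 hp) hle

lemma act_comm (σ : Finset (ℕ × V)) {u v : V} (h : G.Adj u v) :
    act G (act G σ u) v = act G (act G σ v) u := by
  have e1 := lev_act_adj σ h
  have e2 := lev_act_adj σ h.symm
  have m1 := mem_act_of_ne (G := G) σ u (lev G σ v - 1, v) h.ne'
  have m2 := mem_act_of_ne (G := G) σ v (lev G σ u - 1, u) h.ne
  have hne : ∀ a b : ℕ, ((a, u) : ℕ × V) ≠ (b, v) := fun a b he => h.ne (congrArg Prod.snd he)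
  rw [act.eq_1 G (act G σ u) v, act.eq_1 G (act G σ v) u, e1, e2]
  simp only [m1, m2]
  unfold act
  split_ifs
  · exact Finset.erase_right_comm
  · exact Finset.erase_insert_of_ne (hne _ _)
  · exact (Finset.erase_insert_of_ne (hne _ _).symm).symm
  · exact Finset.insert_comm _ _ _

variable (G) in
def NFT : Type := {σ : Finset (ℕ × V) // Normal G σ}

variable (G) in
noncomputable def actP (v : V) : Equiv.Perm (NFT G) :=
  Function.Involutive.toPerm (fun σ => ⟨act G σ.1 v, σ.2.act v⟩)
    (fun σ => Subtype.ext (act_act σ.2 v))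

variable [DecidableRel G.Adj]

variable (G) in
abbrev WG : Type := (racg G).Group

variable (G) in
abbrev csG : CoxeterSystem (racg G) (WG G) := (racg G).toCoxeterSystem

lemma racg_apply (u v : V) : racg G u v = if u = v then 1 else if G.Adj u v then 2 else 0 := rfl

lemma liftable_of {H : Type} [Group H] (f : V → H) (h1 : ∀ v, f v * f v = 1)
    (h2 : ∀ u v, G.Adj u v → f u * f v = f v * f u) : (racg G).IsLiftable f := by
  intro u v
  rw [racg_apply]
  split_ifs with h h'
  · subst h; simp [h1]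
  · rw [pow_two]
    calc f u * f v * (f u * f v) = f u * (f v * f u) * f v := by group
      _ = f u * (f u * f v) * f v := by rw [h2 u v h']
      _ = (f u * f u) * (f v * f v) := by group
      _ = 1 := by rw [h1, h1, one_mul]
  · simp

lemma simple_comm {u v : V} (h : G.Adj u v) :
    (csG G).simple u * (csG G).simple v = (csG G).simple v * (csG G).simple u := by
  have := (csG G).simple_mul_simple_pow u v
  rw [racg_apply, if_neg h.ne, if_pos h, pow_two] at this
  have h2 : (csG G).simple u * (csG G).simple v = ((csG G).simple u * (csG G).simple v)⁻¹ :=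
    eq_inv_of_mul_eq_one_left this
  rw [h2, mul_inv_rev, CoxeterSystem.inv_simple, CoxeterSystem.inv_simple]

variable (G) in
noncomputable def rhoP : WG G →* Equiv.Perm (NFT G) :=
  (csG G).lift ⟨actP G, liftable_of _
    (fun v => Equiv.ext fun σ => Subtype.ext (act_act σ.2 v))
    (fun _ _ h => Equiv.ext fun σ => Subtype.ext (act_comm σ.1 h.symm))⟩

variable (G) in
noncomputable def phi (w : WG G) : Finset (ℕ × V) :=
  (rhoP G w⁻¹ ⟨∅, by simp [Normal]⟩).1

lemma phi_normal (w : WG G) : Normal G (phi G w) := (rhoP G w⁻¹ _).2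

lemma phi_one : phi G 1 = ∅ := by simp [phi]

lemma phi_mul (w : WG G) (v : V) : phi G (w * (csG G).simple v) = act G (phi G w) v := by
  unfold phi
  rw [mul_inv_rev, CoxeterSystem.inv_simple, map_mul]
  have : rhoP G ((csG G).simple v) = actP G v := CoxeterSystem.lift_apply_simple _ _ _
  rw [this]
  rfl

omit [DecidableEq V] [DecidableRel G.Adj] in
lemma exists_top {σ : Finset (ℕ × V)} (h : σ.Nonempty) : ∃ p ∈ σ, ∀ q ∈ σ, q.1 ≤ p.1 :=
  σ.exists_max_image (fun p => p.1) h

variable (G) in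
noncomputable def psi (σ : Finset (ℕ × V)) : WG G :=
  if h : σ.Nonempty then
    psi (σ.erase (exists_top h).choose) * (csG G).simple (exists_top h).choose.2
  else 1
termination_by σ.card
decreasing_by exact Finset.card_erase_lt_of_mem (exists_top h).choose_spec.1

lemma psi_erase (n : ℕ) : ∀ σ : Finset (ℕ × V), σ.card = n → Normal G σ → ∀ p, IsMx G σ p →
    psi G σ = psi G (σ.erase p) * (csG G).simple p.2 := by
  induction n using Nat.strong_induction_on with
  | _ n ih =>
    intro σ hn hσ p hp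
    have hne : σ.Nonempty := ⟨p, hp.1⟩
    rw [psi, dif_pos hne]
    obtain ⟨ht, ht'⟩ := (exists_top hne).choose_spec
    set t := (exists_top hne).choose with htdef
    by_cases hpt : p = t
    · rw [hpt]
    have htm : IsMx G σ t := ⟨ht, fun q hq hlt => absurd (ht' q hq) (by omega)⟩
    have hadj : G.Adj t.2 p.2 := by
      rcases (ht' p hp.1).lt_or_eq with hlt | heq
      · exact hp.2 t ht hlt
      · exact hσ.1 t ht p hp.1 heq.symm fun he => hpt (Prod.ext heq he.symm)
    have h1 := ih _ (by rw [← hn]; exact Finset.card_erase_lt_of_mem ht) (σ.erase t) rfl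
      (hσ.erase htm) p ⟨Finset.mem_erase.2 ⟨hpt, hp.1⟩,
        fun q hq => hp.2 q (Finset.mem_of_mem_erase hq)⟩
    have h2 := ih _ (by rw [← hn]; exact Finset.card_erase_lt_of_mem hp.1) (σ.erase p) rfl
      (hσ.erase hp) t ⟨Finset.mem_erase.2 ⟨Ne.symm hpt, ht⟩,
        fun q hq => htm.2 q (Finset.mem_of_mem_erase hq)⟩
    rw [h1, h2, Finset.erase_right_comm, mul_assoc, mul_assoc, simple_comm hadj]

lemma psi_act {σ : Finset (ℕ × V)} (hσ : Normal G σ) (v : V) :
    psi G (act G σ v) = psi G σ * (csG G).simple v := by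
  rcases act_cases (G := G) σ v with ⟨p, hp, rfl, he⟩ | ⟨l, hn, he, h1, h2⟩
  · rw [he, psi_erase _ σ rfl hσ p hp, CoxeterSystem.simple_mul_simple_cancel_right]
  · rw [he, psi_erase _ _ rfl (hσ.insert h1 h2) _ (isMx_insert h1), Finset.erase_insert hn]

lemma psi_phi (w : WG G) : psi G (phi G w) = w := by
  induction w using (csG G).simple_induction_right with
  | one => rw [phi_one, psi]; simp
  | mul_simple_right w v ih => rw [phi_mul, psi_act (phi_normal w), ih]

lemma phi_inj {w w' : WG G} (h : phi G w = phi G w') : w = w' := by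
  rw [← psi_phi w, h, psi_phi]

lemma length_psi_le (n : ℕ) : ∀ σ : Finset (ℕ × V), σ.card = n →
    (csG G).length (psi G σ) ≤ n := by
  induction n with
  | zero =>
    intro σ h
    rw [Finset.card_eq_zero] at h
    rw [h, psi]; simp
  | succ n ih =>
    intro σ h
    have hne : σ.Nonempty := Finset.card_pos.1 (by omega)
    rw [psi, dif_pos hne]
    have h1 := ih (σ.erase (exists_top hne).choose) (by
      rw [Finset.card_erase_of_mem (exists_top hne).choose_spec.1]; omega)
    have h2 := (csG G).length_mul_le (psi G (σ.erase (exists_top hne).choose))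
      ((csG G).simple (exists_top hne).choose.2)
    rw [CoxeterSystem.length_simple] at h2
    omega

omit [DecidableRel G.Adj] in
lemma card_act_le (σ : Finset (ℕ × V)) (v : V) : (act G σ v).card ≤ σ.card + 1 := by
  unfold act
  split_ifs
  · exact Finset.card_erase_le.trans (Nat.le_succ _)
  · exact Finset.card_insert_le _ _

lemma length_eq_card (w : WG G) : (csG G).length w = (phi G w).card := by
  apply le_antisymm
  · have := length_psi_le (G := G) _ (phi G w) rfl
    rwa [psi_phi] at this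
  · obtain ⟨ω, h1, rfl⟩ := (csG G).exists_isReduced w
    rw [h1.eq]
    clear h1
    induction ω using List.reverseRecOn with
    | nil => simp [phi_one]
    | append_singleton ω v ih =>
      rw [CoxeterSystem.wordProd_append, CoxeterSystem.wordProd_singleton, phi_mul]
      have := card_act_le (G := G) (phi G ((csG G).wordProd ω)) v
      simp only [List.length_append, List.length_singleton]
      omega

variable (G) in
def Pre (m w : WG G) : Prop :=
  phi G m ⊆ phi G w ∧ ∀ p ∈ phi G w, p ∉ phi G m → ∀ q ∈ phi G m, p.1 < q.1 → G.Adj p.2 q.2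

lemma Pre.refl (w : WG G) : Pre G w w := ⟨subset_rfl, fun _ h h' => absurd h h'⟩

lemma phi_mul_mx {w : WG G} {p : ℕ × V} (h : IsMx G (phi G w) p) :
    phi G (w * (csG G).simple p.2) = (phi G w).erase p := by
  rw [phi_mul, h.act_eq]

lemma Pre.word (n : ℕ) : ∀ {m w : WG G}, Pre G m w → (phi G w \ phi G m).card = n →
    ∃ u : List V, u.length = n ∧ w = m * (csG G).wordProd u ∧
      ∀ v ∈ u, ∃ p ∈ phi G w \ phi G m, p.2 = v := by
  induction n with
  | zero =>
    intro m w h hc
    rw [Finset.card_eq_zero, Finset.sdiff_eq_empty_iff_subset] at hc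
    exact ⟨[], rfl, by simpa using phi_inj (Finset.Subset.antisymm hc h.1), by simp⟩
  | succ n ih =>
    intro m w h hc
    obtain ⟨p, hp, hp'⟩ := exists_top (Finset.card_pos.1 (by omega : 0 < (phi G w \ phi G m).card))
    rw [Finset.mem_sdiff] at hp
    have hmx : IsMx G (phi G w) p := by
      refine ⟨hp.1, fun q hq hlt => ?_⟩
      by_cases hqm : q ∈ phi G m
      · exact (h.2 p hp.1 hp.2 q hqm hlt).symm
      · exact absurd (hp' q (Finset.mem_sdiff.2 ⟨hq, hqm⟩)) (by omega)
    have he := phi_mul_mx hmx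
    have hsd : phi G (w * (csG G).simple p.2) \ phi G m = (phi G w \ phi G m).erase p := by
      rw [he]; ext q; simp only [Finset.mem_sdiff, Finset.mem_erase]; tauto
    have hpre : Pre G m (w * (csG G).simple p.2) := by
      refine ⟨?_, fun a ha => ?_⟩
      · rw [he]
        intro q hq
        exact Finset.mem_erase.2 ⟨fun e => hp.2 (e ▸ hq), h.1 hq⟩
      · rw [he] at ha
        exact h.2 a (Finset.mem_of_mem_erase ha)
    obtain ⟨u, h1, h2, h3⟩ := ih hpre (by
      rw [hsd, Finset.card_erase_of_mem (Finset.mem_sdiff.2 hp)]; omega)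
    refine ⟨u ++ [p.2], by simp [h1], ?_, fun v hv => ?_⟩
    · rw [CoxeterSystem.wordProd_append, CoxeterSystem.wordProd_singleton, ← mul_assoc, ← h2,
        CoxeterSystem.simple_mul_simple_cancel_right]
    · rw [List.mem_append] at hv
      rcases hv with hv | hv
      · obtain ⟨q, hq, e⟩ := h3 v hv
        rw [hsd] at hq
        exact ⟨q, Finset.mem_of_mem_erase hq, e⟩
      · exact ⟨p, Finset.mem_sdiff.2 hp, by simpa using (List.mem_singleton.1 hv).symm⟩

lemma exists_common (w : WG G) (u : List V) :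
    ∃ m, Pre G m w ∧ Pre G m (w * (csG G).wordProd u) ∧
      (phi G w \ phi G m).card + (phi G (w * (csG G).wordProd u) \ phi G m).card ≤ u.length ∧
      (∀ p ∈ phi G w \ phi G m, p.2 ∈ u) ∧
      (∀ p ∈ phi G (w * (csG G).wordProd u) \ phi G m, p.2 ∈ u) := by
  induction u using List.reverseRecOn with
  | nil => exact ⟨w, Pre.refl w, by simpa using Pre.refl w, by simp, by simp, by simp⟩
  | append_singleton u v ih =>
    obtain ⟨m, h1, h2, h3, h4, h5⟩ := ih
    rw [CoxeterSystem.wordProd_append, CoxeterSystem.wordProd_singleton, ← mul_assoc]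
    set w' := w * (csG G).wordProd u
    simp only [List.length_append, List.length_singleton, List.mem_append, List.mem_singleton]
    rcases act_cases (G := G) (phi G w') v with ⟨p, hp, rfl, he⟩ | ⟨l, hn, he, e1, -⟩
    · rw [← phi_mul] at he
      by_cases hpm : p ∈ phi G m
      · have hmx : IsMx G (phi G m) p := ⟨hpm, fun q hq => hp.2 q (h2.1 hq)⟩
        have hm := phi_mul_mx hmx
        have s1 : phi G w \ phi G (m * (csG G).simple p.2) = insert p (phi G w \ phi G m) := by
          rw [hm]; ext q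
          simp only [Finset.mem_sdiff, Finset.mem_erase, Finset.mem_insert]
          constructor
          · intro hq; by_cases e : q = p
            · exact Or.inl e
            · exact Or.inr ⟨hq.1, fun h => hq.2 ⟨e, h⟩⟩
          · rintro (rfl | hq)
            · exact ⟨h1.1 hpm, fun h => h.1 rfl⟩
            · exact ⟨hq.1, fun h => hq.2 h.2⟩
        have s2 : phi G (w' * (csG G).simple p.2) \ phi G (m * (csG G).simple p.2)
            = phi G w' \ phi G m := by
          rw [hm, he]; ext q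
          simp only [Finset.mem_sdiff, Finset.mem_erase]
          constructor
          · intro hq; exact ⟨hq.1.2, fun h => hq.2 ⟨hq.1.1, h⟩⟩
          · intro hq; exact ⟨⟨fun e => hq.2 (e ▸ hpm), hq.1⟩, fun h => hq.2 h.2⟩
        refine ⟨m * (csG G).simple p.2, ⟨?_, ?_⟩, ⟨?_, ?_⟩, ?_, ?_, ?_⟩
        · rw [hm]; exact (Finset.erase_subset _ _).trans h1.1
        · intro a ha ha' q hq hlt
          rw [hm] at ha' hq
          by_cases e : a = p
          · subst e; exact (hmx.2 q (Finset.mem_of_mem_erase hq) hlt).symm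
          · exact h1.2 a ha (fun h => ha' (Finset.mem_erase.2 ⟨e, h⟩)) q
              (Finset.mem_of_mem_erase hq) hlt
        · rw [hm, he]; exact Finset.erase_subset_erase _ h2.1
        · intro a ha ha' q hq hlt
          have : a ∈ phi G w' \ phi G m := s2 ▸ Finset.mem_sdiff.2 ⟨ha, ha'⟩
          rw [Finset.mem_sdiff] at this
          rw [hm] at hq
          exact h2.2 a this.1 this.2 q (Finset.mem_of_mem_erase hq) hlt
        · rw [s1, s2]
          have := Finset.card_insert_le p (phi G w \ phi G m)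
          omega
        · rw [s1]; intro q hq
          rw [Finset.mem_insert] at hq
          rcases hq with rfl | hq
          · exact Or.inr rfl
          · exact Or.inl (h4 q hq)
        · rw [s2]; exact fun q hq => Or.inl (h5 q hq)
      · have s2 : phi G (w' * (csG G).simple p.2) \ phi G m ⊆ phi G w' \ phi G m := by
          rw [he]; exact Finset.sdiff_subset_sdiff (Finset.erase_subset _ _) subset_rfl
        refine ⟨m, h1, ⟨?_, ?_⟩, ?_, fun q hq => Or.inl (h4 q hq),
          fun q hq => Or.inl (h5 q (s2 hq))⟩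
        · rw [he]; intro q hq
          exact Finset.mem_erase.2 ⟨fun e => hpm (e ▸ hq), h2.1 hq⟩
        · rw [he]; exact fun a ha => h2.2 a (Finset.mem_of_mem_erase ha)
        · have := Finset.card_le_card s2
          omega
    · rw [← phi_mul] at he
      have s2 : phi G (w' * (csG G).simple v) \ phi G m ⊆ insert (l, v) (phi G w' \ phi G m) := by
        rw [he]; intro q hq
        simp only [Finset.mem_sdiff, Finset.mem_insert] at hq ⊢
        tauto
      refine ⟨m, h1, ⟨?_, ?_⟩, ?_, fun q hq => Or.inl (h4 q hq), fun q hq => ?_⟩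
      · rw [he]; exact h2.1.trans (Finset.subset_insert _ _)
      · rw [he]; intro a ha ha' q hq hlt
        rw [Finset.mem_insert] at ha
        rcases ha with rfl | ha
        · exact (e1 q (h2.1 hq) hlt.le).symm
        · exact h2.2 a ha ha' q hq hlt
      · have := Finset.card_le_card s2
        have := Finset.card_insert_le (l, v) (phi G w' \ phi G m)
        omega
      · have := s2 hq
        rw [Finset.mem_insert] at this
        rcases this with rfl | this
        · exact Or.inr rfl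
        · exact Or.inl (h5 q this)

end Pool.Agent.Lib.MP_845f45_al
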