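import Pool.Agent.Lib.MP_845f45_al.NF

namespace Pool.Agent.Lib.MP_845f45_al

variable {V : Type} [DecidableEq V] {G : SimpleGraph V} [DecidableRel G.Adj]

lemma gp_def (x y : WG G) : gp G x y = (((csG G).length x : ℝ) + ((csG G).length y : ℝ)
    - ((csG G).length (x⁻¹ * y) : ℝ)) / 2 := rfl

lemma gp_comm (x y : WG G) : gp G x y = gp G y x := by
  rw [gp_def, gp_def, ← (csG G).length_inv (x⁻¹ * y), mul_inv_rev, inv_inv]
  ring

lemma gp_self (x : WG G) : gp G x x = (csG G).length x := by
  rw [gp_def]; simp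

lemma Pre.length_le {m w : WG G} (h : Pre G m w) :
    (csG G).length (m⁻¹ * w) + (csG G).length m ≤ (csG G).length w := by
  obtain ⟨u, h1, h2, -⟩ := Pre.word _ h rfl
  have h3 : m⁻¹ * w = (csG G).wordProd u := by rw [h2]; group
  have h4 := (csG G).length_wordProd_le u
  rw [h3, length_eq_card m, length_eq_card w]
  have := Finset.card_sdiff_add_card_eq_card h.1
  omega

lemma exists_pre_gp (w w' : WG G) :
    ∃ m, Pre G m w ∧ Pre G m w' ∧ gp G w w' ≤ (csG G).length m := by
  obtain ⟨u, h1, h2⟩ := (csG G).exists_isReduced (w⁻¹ * w')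
  obtain ⟨m, e1, e2, e3, -, -⟩ := exists_common w u
  have h3 : w * (csG G).wordProd u = w' := by rw [← h2]; group
  rw [h3] at e2 e3
  refine ⟨m, e1, e2, ?_⟩
  have c1 := Finset.card_sdiff_add_card_eq_card e1.1
  have c2 := Finset.card_sdiff_add_card_eq_card e2.1
  rw [gp_def, h2, h1.eq, length_eq_card m, length_eq_card w, length_eq_card w']
  have : ((phi G w).card : ℝ) + (phi G w').card ≤ u.length + 2 * (phi G m).card := by
    have : (phi G w).card + (phi G w').card ≤ u.length + 2 * (phi G m).card := by omega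
    exact_mod_cast this
  linarith

lemma gp_ge_of_pre {y w y' w' : WG G} (h : Pre G y w) (h' : Pre G y' w') {u : List V}
    (e : y' = y * (csG G).wordProd u) :
    ((csG G).length y : ℝ) - u.length ≤ gp G w w' := by
  have h1 := h.length_le
  have h2 := h'.length_le
  have h3 := (csG G).length_wordProd_le u
  have h4 : w⁻¹ * w' = (y⁻¹ * w)⁻¹ * ((csG G).wordProd u * (y'⁻¹ * w')) := by rw [e]; group
  have h5 := (csG G).length_mul_le (y⁻¹ * w)⁻¹ ((csG G).wordProd u * (y'⁻¹ * w'))
  have h6 := (csG G).length_mul_le ((csG G).wordProd u) (y'⁻¹ * w')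
  have h7 := (csG G).length_le_length_mul_add_right y ((csG G).wordProd u)
  rw [← e] at h7
  rw [← h4, CoxeterSystem.length_inv] at h5
  rw [gp_def]
  have : 2 * (csG G).length y + (csG G).length (w⁻¹ * w') ≤
      (csG G).length w + (csG G).length w' + 2 * u.length := by omega
  have : 2 * ((csG G).length y : ℝ) + (csG G).length (w⁻¹ * w') ≤
      (csG G).length w + (csG G).length w' + 2 * u.length := by exact_mod_cast this
  linarith

def rfz (a c v : V) : Equiv.Perm ℤ :=
  if v = a then Equiv.neg ℤ else if v = c then Equiv.subLeft 4 else 1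

omit [DecidableRel G.Adj] in
lemma rfz_comm {a c : V} (h : ¬ G.Adj a c) (u v : V) (huv : G.Adj u v) :
    rfz a c u * rfz a c v = rfz a c v * rfz a c u := by
  by_cases h1 : u = a ∨ u = c
  · have : v ≠ a ∧ v ≠ c := by
      rcases h1 with rfl | rfl
      · exact ⟨huv.ne', fun e => h (e ▸ huv)⟩
      · exact ⟨fun e => h (e ▸ huv.symm), huv.ne'⟩
    have : rfz a c v = 1 := by simp [rfz, this.1, this.2]
    rw [this]; simp
  · push Not at h1
    have : rfz a c u = 1 := by simp [rfz, h1.1, h1.2]
    rw [this]; simp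

lemma rfz_sq (a c v : V) : rfz a c v * rfz a c v = 1 := by
  unfold rfz
  split_ifs
  · ext x; simp
  · ext x; simp
  · simp

noncomputable def homz {a c : V} (h : ¬ G.Adj a c) : WG G →* Equiv.Perm ℤ :=
  (csG G).lift ⟨rfz a c, liftable_of _ (rfz_sq a c) (rfz_comm h)⟩

lemma homz_simple {a c : V} (h : ¬ G.Adj a c) (v : V) :
    homz h ((csG G).simple v) = rfz a c v := CoxeterSystem.lift_apply_simple _ _ _

lemma homz_iso {a c : V} (h : ¬ G.Adj a c) (w : WG G) (x y : ℤ) :
    |homz h w x - homz h w y| = |x - y| := by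
  induction w using (csG G).simple_induction_right generalizing x y with
  | one => simp
  | mul_simple_right w v ih =>
    rw [map_mul, homz_simple, Equiv.Perm.mul_apply, Equiv.Perm.mul_apply, ih]
    unfold rfz
    split_ifs
    · simp only [Equiv.neg_apply]; rw [abs_sub_comm]; congr 1; ring
    · simp only [Equiv.subLeft_apply]; rw [abs_sub_comm]; congr 1; ring
    · simp

lemma rfz_move (a c v : V) : |rfz a c v 1 - 1| ≤ 2 := by
  unfold rfz
  split_ifs <;> simp

lemma disp_le {a b c d : V} (hac : ¬ G.Adj a c) (hbd : ¬ G.Adj b d)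
    (h1 : a ≠ b) (h2 : a ≠ d) (h3 : c ≠ b) (h4 : c ≠ d) (w : WG G) :
    |homz hac w 1 - 1| + |homz hbd w 1 - 1| ≤ 2 * (csG G).length w := by
  obtain ⟨ω, e1, rfl⟩ := (csG G).exists_isReduced w
  rw [e1.eq]
  clear e1
  induction ω using List.reverseRecOn with
  | nil => simp
  | append_singleton ω v ih =>
    rw [CoxeterSystem.wordProd_append, CoxeterSystem.wordProd_singleton, map_mul, map_mul,
      homz_simple, homz_simple, Equiv.Perm.mul_apply, Equiv.Perm.mul_apply]
    have a1 := homz_iso hac ((csG G).wordProd ω) (rfz a c v 1) 1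
    have a2 := homz_iso hbd ((csG G).wordProd ω) (rfz b d v 1) 1
    have b1 := abs_sub_le (homz hac ((csG G).wordProd ω) (rfz a c v 1))
      (homz hac ((csG G).wordProd ω) 1) 1
    have b2 := abs_sub_le (homz hbd ((csG G).wordProd ω) (rfz b d v 1))
      (homz hbd ((csG G).wordProd ω) 1) 1
    have c1 := rfz_move a c v
    have c2 := rfz_move b d v
    have : |rfz a c v 1 - 1| + |rfz b d v 1 - 1| ≤ 2 := by
      by_cases e : v = a ∨ v = c
      · have : rfz b d v = 1 := by
          rcases e with rfl | rfl <;> simp [rfz, *]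
        rw [this]; simpa using c1
      · push Not at e
        have : rfz a c v = 1 := by simp [rfz, e.1, e.2]
        rw [this]; simpa using c2
    simp only [List.length_append, List.length_singleton]
    push_cast
    linarith

lemma homz_pow {a c : V} (h : ¬ G.Adj a c) (hne : a ≠ c) (n : ℕ) (x : ℤ) :
    homz h (((csG G).simple a * (csG G).simple c) ^ n) x = x - 4 * n := by
  induction n generalizing x with
  | zero => simp
  | succ n ih =>
    rw [pow_succ, map_mul, Equiv.Perm.mul_apply, ih, map_mul, homz_simple, homz_simple]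
    simp [rfz, hne.symm]
    ring

lemma homz_pow' {a c b d : V} (h : ¬ G.Adj a c) (h1 : a ≠ b) (h2 : a ≠ d) (h3 : c ≠ b)
    (h4 : c ≠ d) (n : ℕ) :
    homz h (((csG G).simple b * (csG G).simple d) ^ n) = 1 := by
  rw [map_pow, map_mul, homz_simple, homz_simple]
  simp [rfz, h1.symm, h2.symm, h3.symm, h4.symm]

lemma length_pow_le (a c : V) (n : ℕ) :
    (csG G).length (((csG G).simple a * (csG G).simple c) ^ n) ≤ 2 * n := by
  induction n with
  | zero => simp
  | succ n ih =>
    rw [pow_succ]
    have h1 := (csG G).length_mul_le (((csG G).simple a * (csG G).simple c) ^ n)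
      ((csG G).simple a * (csG G).simple c)
    have h2 := (csG G).length_mul_le ((csG G).simple a) ((csG G).simple c)
    simp only [CoxeterSystem.length_simple] at h2
    omega

def NoSq (G : SimpleGraph V) : Prop :=
  ∀ a c b d, a ≠ c → ¬ G.Adj a c → G.Adj b a → G.Adj b c → G.Adj d a → G.Adj d c →
    b ≠ d → G.Adj b d

lemma noSq_of_hyp (h : IsHyperbolic (gp G)) : NoSq G := by
  obtain ⟨δ, hδ⟩ := h
  intro a c b d hne hac hba hbc hda hdc hbd'
  by_contra hbd
  obtain ⟨n, hn⟩ := exists_nat_gt δ
  set x := ((csG G).simple a * (csG G).simple c) ^ n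
  set y := ((csG G).simple b * (csG G).simple d) ^ n
  have hcomm : Commute x y := by
    apply Commute.pow_pow
    apply Commute.mul_left <;> apply Commute.mul_right
    · exact simple_comm hba.symm
    · exact simple_comm hda.symm
    · exact simple_comm hbc.symm
    · exact simple_comm hdc.symm
  have lx : (csG G).length x ≤ 2 * n := length_pow_le a c n
  have ly : (csG G).length y ≤ 2 * n := length_pow_le b d n
  have hx1 : ∀ t, homz hac x t = t - 4 * n := homz_pow hac hne n
  have hy1 : homz hac y = 1 := homz_pow' hac hba.ne' hda.ne' hbc.ne' hdc.ne' n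
  have hx2 : homz hbd x = 1 := homz_pow' hbd hba.ne hbc.ne hda.ne hdc.ne n
  have hy2 : ∀ t, homz hbd y t = t - 4 * n := homz_pow hbd hbd' n
  have d1 := disp_le hac hbd hba.ne' hda.ne' hbc.ne' hdc.ne' (x * y)
  have d2 := disp_le hac hbd hba.ne' hda.ne' hbc.ne' hdc.ne' (x⁻¹ * y)
  have hxi : homz hac x⁻¹ 1 = 1 + 4 * n := by
    rw [map_inv, Equiv.Perm.inv_def, Equiv.symm_apply_eq, hx1]; ring
  rw [map_mul, map_mul, hy1, hx2, mul_one, one_mul, hx1, hy2] at d1
  rw [map_mul, map_mul, hy1, map_inv (homz hbd), hx2, mul_one, inv_one, one_mul, hxi, hy2] at d2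
  have n0 : (0 : ℤ) ≤ 4 * n := by positivity
  have e1 : |(1 : ℤ) - 4 * n - 1| = 4 * n := by
    rw [show (1 : ℤ) - 4 * n - 1 = -(4 * n) by ring, abs_neg, abs_of_nonneg n0]
  have e2 : |(1 : ℤ) + 4 * n - 1| = 4 * n := by
    rw [show (1 : ℤ) + 4 * n - 1 = 4 * n by ring, abs_of_nonneg n0]
  rw [e1] at d1
  rw [e1, e2] at d2
  have l1 := (csG G).length_mul_le x y
  have g1 : gp G x y ≤ 0 := by
    rw [gp_def]
    have : (csG G).length x + (csG G).length y ≤ (csG G).length (x⁻¹ * y) := by omega
    have : ((csG G).length x : ℝ) + (csG G).length y ≤ (csG G).length (x⁻¹ * y) := by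
      exact_mod_cast this
    linarith
  have g2 : (n : ℝ) ≤ gp G x (x * y) := by
    rw [gp_def, inv_mul_cancel_left]
    have : 2 * n + (csG G).length y ≤ (csG G).length x + (csG G).length (x * y) := by omega
    have : 2 * (n : ℝ) + (csG G).length y ≤ (csG G).length x + (csG G).length (x * y) := by
      exact_mod_cast this
    linarith
  have g3 : (n : ℝ) ≤ gp G (x * y) y := by
    rw [gp_comm, gp_def, hcomm.eq, inv_mul_cancel_left, ← hcomm.eq]
    have : 2 * n + (csG G).length x ≤ (csG G).length y + (csG G).length (x * y) := by omega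
    have : 2 * (n : ℝ) + (csG G).length x ≤ (csG G).length y + (csG G).length (x * y) := by
      exact_mod_cast this
    linarith
  have := hδ x (x * y) y
  have := le_min g2 g3
  linarith

end Pool.Agent.Lib.MP_845f45_al
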