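import Mathlib

namespace Pool.Agent.Lib.MP_845f45_al

/-- Geometric realization of the flag complex of `G`: the points of the standard simplex on the
vertex set whose support is a clique of `G`, with the subspace topology. -/
def nerve {V : Type} [Fintype V] (G : SimpleGraph V) : Set (V → ℝ) :=
  {x | (∀ v, 0 ≤ x v) ∧ ∑ v, x v = 1 ∧ G.IsClique {v | x v ≠ 0}}

end Pool.Agent.Lib.MP_845f45_al
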