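import Pool.Agent.Lib.MP_845f45_al.Dir

namespace Pool.Agent.Lib.MP_845f45_al

open Relation

variable {V : Type} {G : SimpleGraph V}

lemma Cyc.rot {v : V} {n : ℕ} {c : ℕ → V} (h : Cyc G v n c) {k : ℕ} (hk : k < n) :
    Cyc G v n fun i => c (if i + k < n then i + k else i + k - n) := by
  have h4 := h.four
  refine ⟨h4, fun i j hi hj e => ?_, fun i hi => h.adj _ (by split_ifs <;> omega),
    fun u hu => ?_, fun i j hi hj => ?_⟩
  · have := h.inj _ _ (by split_ifs <;> omega) (by split_ifs <;> omega) e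
    split_ifs at this <;> omega
  · obtain ⟨j, hj, rfl⟩ := h.surj u hu
    by_cases e : k ≤ j
    · exact ⟨j - k, by omega, by rw [if_pos (by omega)]; congr 1; omega⟩
    · exact ⟨j + n - k, by omega, by rw [if_neg (by omega)]; congr 1; omega⟩
  · rw [h.link _ _ (by split_ifs <;> omega) (by split_ifs <;> omega)]
    unfold Nx
    split_ifs <;> omega

lemma exists_change {P : ℕ → Prop} {i j : ℕ} (hij : i ≤ j) (hi : ¬ P i) (hj : P j) :
    ∃ k, i ≤ k ∧ k < j ∧ ¬ P k ∧ P (k + 1) := by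
  induction hij with
  | refl => exact absurd hj hi
  | @step j hij ih =>
    by_cases h : P j
    · obtain ⟨k, h1, h2, h3⟩ := ih h
      exact ⟨k, h1, by omega, h3⟩
    · exact ⟨j, hij, by omega, h, hj⟩

lemma Cyc.exists_rot {v : V} {n : ℕ} {c : ℕ → V} (h : Cyc G v n c) {P : V → Prop}
    (h1 : ∃ u, G.Adj v u ∧ P u) (h2 : ∃ u, G.Adj v u ∧ ¬ P u) :
    ∃ c', Cyc G v n c' ∧ P (c' 0) ∧ ¬ P (c' (n - 1)) := by
  have h4 := h.four
  obtain ⟨u, a1, a2⟩ := h1
  obtain ⟨w, a3, a4⟩ := h2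
  obtain ⟨i, hi, rfl⟩ := h.surj u a1
  obtain ⟨j, hj, rfl⟩ := h.surj w a3
  by_cases hc : P (c 0) ∧ ¬ P (c (n - 1))
  · exact ⟨c, h, hc⟩
  obtain ⟨k, hk, b1, b2⟩ : ∃ k, k + 1 < n ∧ ¬ P (c k) ∧ P (c (k + 1)) := by
    by_cases h0 : P (c 0)
    · have h1 : P (c (n - 1)) := by
        by_contra h1; exact hc ⟨h0, h1⟩
      obtain ⟨k, -, e2, e3⟩ := exists_change (P := fun i => P (c i)) (by omega : j ≤ n - 1) a4 h1
      exact ⟨k, by omega, e3⟩
    · obtain ⟨k, -, e2, e3⟩ := exists_change (P := fun i => P (c i)) (Nat.zero_le i) h0 a2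
      exact ⟨k, by omega, e3⟩
  refine ⟨_, h.rot hk, ?_, ?_⟩
  · simp only [zero_add, if_pos hk]; exact b2
  · rw [if_neg (by omega), show n - 1 + (k + 1) - n = k by omega]; exact b1

variable [Fintype V]

open Classical in
variable (G) in
noncomputable def SW (θ : V → ℕ) (v : V) : Finset (V × V) :=
  Finset.univ.filter fun p => G.Adj v p.1 ∧ G.Adj v p.2 ∧ G.Adj p.1 p.2 ∧ θ p.1 < θ v ∧ θ v < θ p.2

lemma exists_key {v : V} {n : ℕ} {c : ℕ → V} (h : Cyc G v n c) :
    ∃ κ : V → ℕ, ∀ i, i < n → κ (c i) = i := by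
  classical
  refine ⟨fun u => if h : ∃ i, i < n ∧ c i = u then h.choose else 0, fun i hi => ?_⟩
  have hx : ∃ j, j < n ∧ c j = c i := ⟨i, hi, rfl⟩
  simp only [dif_pos hx]
  exact h.inj _ _ hx.choose_spec.1 hi hx.choose_spec.2

lemma exists_ord {v : V} {n : ℕ} {c : ℕ → V} (h : Cyc G v n c) {θ : V → ℕ}
    (hθ : Function.Injective θ) : ∃ (good : Prop) (κ : V → ℕ) (c' : ℕ → V),
      (∀ u u', G.Adj v u → G.Adj v u' → κ u = κ u' → u = u') ∧
      (∀ u u', G.Adj v u → G.Adj v u' → θ u < θ v → θ v < θ u' → κ u < κ u') ∧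
      (good → Cyc G v n c' ∧ ∀ i, i < n → κ (c' i) = i) ∧
      (¬ good → 3 ≤ (SW G θ v).card) ∧
      ((∃ u, G.Adj v u ∧ θ u < θ v) → (∃ u, G.Adj v u ∧ θ v < θ u) → 2 ≤ (SW G θ v).card) := by
  classical
  have h4 := h.four
  have fin : ∀ c', Cyc G v n c' → (∀ i j, i < n → j < n → θ (c' i) < θ v → θ v < θ (c' j) → i < j) →
      ((∃ u, G.Adj v u ∧ θ u < θ v) → (∃ u, G.Adj v u ∧ θ v < θ u) → 2 ≤ (SW G θ v).card) →
      ∃ (good : Prop) (κ : V → ℕ) (c' : ℕ → V),
      (∀ u u', G.Adj v u → G.Adj v u' → κ u = κ u' → u = u') ∧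
      (∀ u u', G.Adj v u → G.Adj v u' → θ u < θ v → θ v < θ u' → κ u < κ u') ∧
      (good → Cyc G v n c' ∧ ∀ i, i < n → κ (c' i) = i) ∧
      (¬ good → 3 ≤ (SW G θ v).card) ∧
      ((∃ u, G.Adj v u ∧ θ u < θ v) → (∃ u, G.Adj v u ∧ θ v < θ u) → 2 ≤ (SW G θ v).card) := by
    intro c' h' h1 h2
    obtain ⟨κ, hκ⟩ := exists_key h'
    refine ⟨True, κ, c', fun u u' a1 a2 a3 => ?_, fun u u' a1 a2 a3 a4 => ?_, fun _ => ⟨h', hκ⟩,
      fun h => absurd trivial h, h2⟩
    · obtain ⟨i, hi, rfl⟩ := h'.surj u a1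
      obtain ⟨j, hj, rfl⟩ := h'.surj u' a2
      rw [hκ i hi, hκ j hj] at a3
      rw [a3]
    · obtain ⟨i, hi, rfl⟩ := h'.surj u a1
      obtain ⟨j, hj, rfl⟩ := h'.surj u' a2
      rw [hκ i hi, hκ j hj]
      exact h1 i j hi hj a3 a4
  by_cases hm : (∃ u, G.Adj v u ∧ θ u < θ v) ∧ ∃ u, G.Adj v u ∧ θ v < θ u
  swap
  · refine fin c h (fun i j hi hj a1 a2 => ?_) fun a1 a2 => absurd ⟨a1, a2⟩ hm
    exact absurd ⟨⟨_, h.adj i hi, a1⟩, _, h.adj j hj, a2⟩ hm
  obtain ⟨c', h', b1, b2⟩ := h.exists_rot (P := fun u => θ u < θ v) hm.1 (by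
    obtain ⟨u, a1, a2⟩ := hm.2
    exact ⟨u, a1, by omega⟩)
  have flip : ∀ i, i < n → ¬ θ (c' i) < θ v → θ v < θ (c' i) := fun i hi hlt => by
    have := hθ.ne (h'.adj i hi).ne
    omega
  have mem : ∀ i j, i < n → j < n → Nx n i j → θ (c' i) < θ v → ¬ θ (c' j) < θ v →
      (c' i, c' j) ∈ SW G θ v := fun i j hi hj a1 a2 a3 => by
    simp only [SW, Finset.mem_filter, Finset.mem_univ, true_and]
    exact ⟨h'.adj i hi, h'.adj j hj, (h'.link i j hi hj).2 a1, a2, flip j hj a3⟩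
  obtain ⟨p, hp⟩ : ∃ p, p + 1 < n ∧ ¬ θ (c' (p + 1)) < θ v ∧ ∀ i, i ≤ p → θ (c' i) < θ v := by
    have hex : ∃ p, ¬ θ (c' (p + 1)) < θ v := ⟨n - 2, by
      rw [show n - 2 + 1 = n - 1 by omega]; exact b2⟩
    refine ⟨Nat.find hex, ?_, Nat.find_spec hex, fun i hi => ?_⟩
    · have := Nat.find_min' hex (m := n - 2) (by
        rw [show n - 2 + 1 = n - 1 by omega]; exact b2)
      omega
    · rcases i with _ | i
      · exact b1
      · simpa using Nat.find_min hex (m := i) (by omega)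
  have m1 := mem 0 (n - 1) (by omega) (by omega) (by unfold Nx; omega) b1 b2
  have m2 := mem p (p + 1) (by omega) hp.1 (Or.inl rfl) (hp.2.2 p le_rfl) hp.2.1
  have ne12 : (c' 0, c' (n - 1)) ≠ (c' p, c' (p + 1)) := by
    intro e
    simp only [Prod.mk.injEq] at e
    have := h'.inj _ _ (by omega) (by omega) e.1
    have := h'.inj _ _ (by omega) (by omega) e.2
    omega
  have two : 2 ≤ (SW G θ v).card := by
    rw [← Finset.card_pair ne12]
    apply Finset.card_le_card
    intro x hx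
    simp only [Finset.mem_insert, Finset.mem_singleton] at hx
    rcases hx with rfl | rfl <;> assumption
  by_cases hg : ∀ j, p < j → j < n → ¬ θ (c' j) < θ v
  · refine fin c' h' (fun i j hi hj a1 a2 => ?_) fun _ _ => two
    have e1 : i ≤ p := by
      by_contra hc; exact hg i (by omega) hi a1
    by_contra hc
    have := hp.2.2 j (by omega)
    omega
  · push Not at hg
    obtain ⟨j, j1, j2, j3⟩ := hg
    obtain ⟨k, k1, k2, k3, k4⟩ := exists_change (P := fun i => θ (c' i) < θ v)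
      (by omega : p + 1 ≤ j) hp.2.1 j3
    have m3 := mem (k + 1) k (by omega) (by omega) (Or.inr (Or.inl rfl)) k4 k3
    refine ⟨False, θ, c', fun u u' _ _ e => hθ e, fun u u' _ _ a1 a2 => a1.trans a2,
      fun h => h.elim, fun _ => ?_, fun _ _ => two⟩
    have ne13 : (c' 0, c' (n - 1)) ≠ (c' (k + 1), c' k) := by
      intro e
      simp only [Prod.mk.injEq] at e
      have := h'.inj _ _ (by omega) (by omega) e.1
      omega
    have ne23 : (c' p, c' (p + 1)) ≠ (c' (k + 1), c' k) := by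
      intro e
      simp only [Prod.mk.injEq] at e
      have := h'.inj _ _ (by omega) (by omega) e.1
      omega
    rw [← Finset.card_eq_three.2 ⟨_, _, _, ne12, ne13, ne23, rfl⟩]
    apply Finset.card_le_card
    intro x hx
    simp only [Finset.mem_insert, Finset.mem_singleton] at hx
    rcases hx with rfl | rfl | rfl <;> assumption

lemma sum_SW {n : V → ℕ} (h : ∀ v, ∃ c, Cyc G v (n v) c) {θ : V → ℕ} :
    3 * ∑ v, (SW G θ v).card ≤ ∑ v, n v := by
  classical
  let LE : V → Finset (V × V) := fun v =>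
    Finset.univ.filter fun p => G.Adj v p.1 ∧ G.Adj v p.2 ∧ G.Adj p.1 p.2 ∧ θ p.1 < θ p.2
  have h1 : ∀ v, (LE v).card ≤ n v := by
    intro v
    obtain ⟨c, hc⟩ := h v
    let F : ℕ → V × V := fun i =>
      if θ (c i) < θ (c (if i + 1 < n v then i + 1 else 0)) then
        (c i, c (if i + 1 < n v then i + 1 else 0))
      else (c (if i + 1 < n v then i + 1 else 0), c i)
    have : LE v ⊆ (Finset.range (n v)).image F := by
      rintro ⟨x, z⟩ hp
      simp only [LE, Finset.mem_filter, Finset.mem_univ, true_and] at hp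
      obtain ⟨a1, a2, a3, a4⟩ := hp
      obtain ⟨i, hi, rfl⟩ := hc.surj x a1
      obtain ⟨j, hj, rfl⟩ := hc.surj z a2
      rw [hc.link i j hi hj] at a3
      simp only [Finset.mem_image, Finset.mem_range]
      rcases a3 with rfl | rfl | ⟨rfl, a3⟩ | ⟨rfl, a3⟩
      · exact ⟨i, hi, by simp [F, hj, a4]⟩
      · exact ⟨j, hj, by simp [F, hi, a4.le]⟩
      · exact ⟨j, hj, by simp [F, a3, a4.le]⟩
      · exact ⟨i, hi, by simp [F, a3, a4]⟩
    exact (Finset.card_le_card this).trans (Finset.card_image_le.trans (by simp))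
  let A : Finset (Σ _ : V, V × V) := Finset.univ.sigma LE
  let M : Finset (Σ _ : V, V × V) := Finset.univ.sigma (SW G θ)
  have hA : A.card ≤ ∑ v, n v := by
    rw [Finset.card_sigma]; exact Finset.sum_le_sum fun v _ => h1 v
  rw [← Finset.card_sigma]
  let f1 : (Σ _ : V, V × V) → (Σ _ : V, V × V) := fun t => ⟨t.2.1, t.1, t.2.2⟩
  let f2 : (Σ _ : V, V × V) → (Σ _ : V, V × V) := fun t => ⟨t.2.2, t.2.1, t.1⟩
  have i1 : Function.Injective f1 := Function.Involutive.injective fun _ => rfl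
  have i2 : Function.Injective f2 := Function.Involutive.injective fun _ => rfl
  have hM : ∀ t ∈ M, G.Adj t.1 t.2.1 ∧ G.Adj t.1 t.2.2 ∧ G.Adj t.2.1 t.2.2 ∧ θ t.2.1 < θ t.1 ∧
      θ t.1 < θ t.2.2 := fun t ht => by simpa [M, SW] using ht
  have hsub : M ∪ (M.image f1 ∪ M.image f2) ⊆ A := by
    intro t ht
    simp only [Finset.mem_union, Finset.mem_image] at ht
    simp only [A, LE, Finset.mem_sigma, Finset.mem_filter, Finset.mem_univ, true_and]
    rcases ht with ht | ⟨s, hs, rfl⟩ | ⟨s, hs, rfl⟩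
    · obtain ⟨a1, a2, a3, a4, a5⟩ := hM t ht
      exact ⟨a1, a2, a3, a4.trans a5⟩
    · obtain ⟨a1, a2, a3, a4, a5⟩ := hM s hs
      exact ⟨a1.symm, a3, a2, a5⟩
    · obtain ⟨a1, a2, a3, a4, a5⟩ := hM s hs
      exact ⟨a3.symm, a2.symm, a1.symm, a4⟩
  have d1 : Disjoint (M.image f1) (M.image f2) := by
    rw [Finset.disjoint_left]
    intro t h1 h2
    obtain ⟨s, hs, rfl⟩ := Finset.mem_image.1 h1
    obtain ⟨s', hs', e⟩ := Finset.mem_image.1 h2
    have a := hM s hs
    have b := hM s' hs'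
    have e1 : s'.2.2 = s.2.1 := congrArg (fun t => t.1) e
    have e2 : s'.1 = s.2.2 := congrArg (fun t => t.2.2) e
    rw [e1, e2] at b
    omega
  have d2 : Disjoint M (M.image f1 ∪ M.image f2) := by
    rw [Finset.disjoint_left]
    intro t h1 h2
    have a := hM t h1
    rcases Finset.mem_union.1 h2 with h2 | h2
    · obtain ⟨s, hs, rfl⟩ := Finset.mem_image.1 h2
      have b := hM s hs
      simp only [f1] at a
      omega
    · obtain ⟨s, hs, rfl⟩ := Finset.mem_image.1 h2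
      have b := hM s hs
      simp only [f2] at a
      omega
  have := Finset.card_le_card hsub
  rw [Finset.card_union_of_disjoint d2, Finset.card_union_of_disjoint d1,
    Finset.card_image_of_injective _ i1, Finset.card_image_of_injective _ i2] at this
  change 3 * M.card ≤ _
  omega

structure OrdD (G : SimpleGraph V) (θ : V → ℕ) (e : ℕ) where
  good : V → Prop
  κ : V → V → ℕ
  n : V → ℕ
  c : V → ℕ → V
  inj : ∀ v u u', G.Adj v u → G.Adj v u' → κ v u = κ v u' → u = u'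
  inout : ∀ v u u', G.Adj v u → G.Adj v u' → θ u < θ v → θ v < θ u' → κ v u < κ v u'
  cyc : ∀ v, good v → Cyc G v (n v) (c v)
  kc : ∀ v, good v → ∀ i, i < n v → κ v (c v i) = i
  bad : {v | ¬ good v}.ncard ≤ e + 4

theorem exists_ordD {Δ e : ℕ} (hS : Surf G Δ e) {a b : V} {θ : V → ℕ}
    (hθ : Function.Injective θ) (hud : ∀ v, UpDn G a b θ v) : Nonempty (OrdD G θ e) := by
  classical
  obtain ⟨-, n, h2, h3⟩ := hS
  have h4 := sum_SW (θ := θ) fun v => (h2 v).2
  choose c hc using fun v => (h2 v).2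
  choose good κ c' a1 a2 a3 a4 a5 using fun v => exists_ord (hc v) hθ
  refine ⟨⟨good, κ, n, c', a1, a2, fun v hv => (a3 v hv).1, fun v hv => (a3 v hv).2, ?_⟩⟩
  have h5 : ∀ v, 2 + (if good v then 0 else 1) ≤ (SW G θ v).card +
      ((if v = a then 2 else 0) + (if v = b then 2 else 0)) := by
    intro v
    by_cases hg : good v
    · by_cases e1 : v = a
      · simp only [if_pos hg, if_pos e1]; omega
      by_cases e2 : v = b
      · simp only [if_pos hg, if_pos e2]; omega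
      have := a5 v ((hud v).1 e1) ((hud v).2 e2)
      simp only [if_pos hg]; omega
    · have := a4 v hg
      simp only [if_neg hg]; omega
  have h6 := Finset.sum_le_sum fun v (_ : v ∈ Finset.univ) => h5 v
  simp only [Finset.sum_add_distrib, Finset.sum_const, Finset.card_univ, smul_eq_mul,
    Finset.sum_ite_eq', Finset.mem_univ, if_true] at h6
  have h7 : {v | ¬ good v}.ncard = ∑ v, if good v then 0 else 1 := by
    rw [Finset.sum_ite]
    simp only [Finset.sum_const_zero, Finset.sum_const, smul_eq_mul, mul_one, zero_add]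
    rw [← Set.ncard_coe_finset]
    congr 1
    ext v; simp
  omega

lemma exists_count {a : V} {θ : V → ℕ} (h : ∀ v, v ≠ a → ∃ u, G.Adj v u ∧ θ u < θ v) :
    ∃ U : V → ℕ, (∀ v, 0 < U v) ∧
      ∀ v, v ≠ a → U v = ∑ u ∈ (nb G v).filter (fun u => θ u < θ v), U u := by
  classical
  let F : (v : V) → ((u : V) → θ u < θ v → ℕ) → ℕ := fun v f =>
    if v = a then 1 else ∑ u ∈ nb G v, if h : θ u < θ v then f u h else 0
  let U : V → ℕ := WellFounded.fix (InvImage.wf θ Nat.lt_wfRel.wf) F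
  have hU : ∀ v, U v = if v = a then 1 else ∑ u ∈ (nb G v).filter (fun u => θ u < θ v), U u := by
    intro v
    have : U v = F v fun u _ => U u := WellFounded.fix_eq _ _ _
    rw [this, Finset.sum_filter]
    simp only [F, dite_eq_ite]
  refine ⟨U, fun v => ?_, fun v hv => by rw [hU, if_neg hv]⟩
  induction hk : θ v using Nat.strong_induction_on generalizing v with
  | _ k ih =>
    rw [hU]
    split_ifs with e
    · omega
    · obtain ⟨u, a1, a2⟩ := h v e
      exact (ih _ (hk ▸ a2) u rfl).trans_le (Finset.single_le_sum (f := U)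
        (fun _ _ => Nat.zero_le _) (Finset.mem_filter.2 ⟨mem_nb.2 a1, a2⟩))

end Pool.Agent.Lib.MP_845f45_al
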