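import Pool.Agent.Lib.MP_845f45_al.Flw

namespace Pool.Agent.Lib.MP_845f45_al

open Real Relation H2

lemma sinh_le_two {x : ℝ} (h0 : 0 ≤ x) (h1 : x ≤ 1) : sinh x ≤ 2 * x := by
  have a := (abs_le.1 (abs_exp_sub_one_sub_id_le (x := x) (by rwa [abs_of_nonneg h0]))).2
  have b := add_one_le_exp (-x)
  rw [sinh_eq]
  nlinarith

lemma sq_le_cosh {x : ℝ} (h0 : 0 ≤ x) : x ^ 2 / 2 ≤ cosh x - 1 := by
  have h := cosh_two_mul (x / 2)
  rw [show 2 * (x / 2) = x by ring, cosh_sq] at h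
  have := self_le_sinh_iff.2 (show 0 ≤ x / 2 by positivity)
  nlinarith

lemma pair_lt {x s a b α β d e : ℝ} (x0 : 0 ≤ x) (x1 : 40 * x ≤ 1) (x2 : 40 * x ≤ s) (s0 : 0 < s)
    (ha : s ≤ a) (hb : s ≤ b) (d0 : 0 ≤ d) (e0 : 0 ≤ e) (hd : cosh d ≤ cosh (x + a))
    (he : cosh e ≤ cosh (x + b)) (hc : -1 / 2 ≤ cos (α - β)) :
    B (P α d) (P β e) < cosh (a + b) := by
  have k : ∀ {d y}, 0 ≤ d → s ≤ y → cosh d ≤ cosh (x + y) →
      sinh d ≤ sinh (x + y) ∧ s * cosh (x + y) ≤ (s + 1) * sinh (x + y) ∧ 0 < sinh (x + y) := by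
    intro d y d0 hy h
    have h1 := cosh_le_cosh.1 h
    rw [abs_of_nonneg d0, abs_of_nonneg (by linarith)] at h1
    have h2 := cosh_sub_sinh (x + y)
    have h3 := exp_le_one_iff.2 (show -(x + y) ≤ 0 by linarith)
    have h4 := self_le_sinh_iff.2 (show 0 ≤ x + y by linarith)
    exact ⟨sinh_le_sinh.2 h1, by nlinarith, by linarith⟩
  obtain ⟨a1, a2, a3⟩ := k d0 ha hd
  obtain ⟨b1, b2, b3⟩ := k e0 hb he
  have c1 := sinh_nonneg_iff.2 d0
  have c2 := sinh_nonneg_iff.2 e0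
  have c3 : cosh d * cosh e ≤ cosh (x + a) * cosh (x + b) :=
    mul_le_mul hd he (cosh_pos _).le (cosh_pos _).le
  have c4 : sinh d * sinh e ≤ sinh (x + a) * sinh (x + b) := mul_le_mul a1 b1 c2 a3.le
  have c5 := sinh_le_two (x := 2 * x) (by linarith) (by linarith)
  have c6 := one_le_cosh (2 * x)
  have c7 := mul_pos a3 b3
  have c8 : s * (sinh (x + a + (x + b)) * sinh (2 * x)) ≤
      s * (2 / 5 * (sinh (x + a) * sinh (x + b))) := by
    have e1 : s * sinh (x + a + (x + b)) ≤ 2 * (s + 1) * (sinh (x + a) * sinh (x + b)) := by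
      rw [sinh_add]
      nlinarith [mul_le_mul_of_nonneg_left a2 b3.le, mul_le_mul_of_nonneg_left b2 a3.le]
    have e2 : (s + 1) * (8 * x) ≤ s * (2 / 5) := by nlinarith
    calc _ = s * sinh (x + a + (x + b)) * sinh (2 * x) := by ring
      _ ≤ 2 * (s + 1) * (sinh (x + a) * sinh (x + b)) * (2 * (2 * x)) :=
          mul_le_mul e1 c5 (sinh_nonneg_iff.2 (by linarith)) (by positivity)
      _ = (s + 1) * (8 * x) * (sinh (x + a) * sinh (x + b)) := by ring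
      _ ≤ s * (2 / 5) * (sinh (x + a) * sinh (x + b)) := by gcongr
      _ = _ := by ring
  have c9 := le_of_mul_le_mul_left c8 s0
  rw [B_P, show a + b = (x + a + (x + b)) - 2 * x by ring, cosh_sub]
  have c10 := mul_le_mul_of_nonneg_left c6 (cosh_pos (x + a + (x + b))).le
  rw [cosh_add (x + a)] at c10 ⊢
  nlinarith [mul_nonneg c1 c2]

lemma three {x s a b c : ℝ} (x0 : 0 ≤ x) (x1 : 40 * x ≤ 1) (x2 : 40 * x ≤ s) (s0 : 0 < s)
    (ha : s ≤ a) (hb : s ≤ b) (hc : s ≤ c) {p q u : H2} (hp : p.t ≤ cosh (x + a))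
    (hq : q.t ≤ cosh (x + b)) (hu : u.t ≤ cosh (x + c)) (h1 : cosh (a + b) ≤ B p q)
    (h2 : cosh (a + c) ≤ B p u) (h3 : cosh (b + c) ≤ B q u) : False := by
  obtain ⟨α, d, d0, rfl⟩ := polar p
  obtain ⟨β, e, e0, rfl⟩ := polar q
  obtain ⟨γ, f, f0, rfl⟩ := polar u
  have k1 := not_le.1 fun h => (pair_lt x0 x1 x2 s0 ha hb d0 e0 hp hq h).not_ge h1
  have k2 := not_le.1 fun h => (pair_lt x0 x1 x2 s0 ha hc d0 f0 hp hu h).not_ge h2
  have k3 := not_le.1 fun h => (pair_lt x0 x1 x2 s0 hb hc e0 f0 hq hu h).not_ge h3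
  rw [cos_sub] at k1 k2 k3
  nlinarith [sin_sq_add_cos_sq α, sin_sq_add_cos_sq β, sin_sq_add_cos_sq γ,
    sq_nonneg (cos α + cos β + cos γ), sq_nonneg (sin α + sin β + sin γ)]

variable {V : Type} {G : SimpleGraph V} {r : V → ℝ}

inductive Wk (G : SimpleGraph V) (r : V → ℝ) (a : V) : V → ℝ → Prop
  | refl : Wk G r a a 0
  | tail {b g : V} {x : ℝ} : Wk G r a b x → G.Adj b g → Wk G r a g (x + 2 * r b)

lemma Wk.nonneg (r0 : ∀ v, 0 < r v) {a g : V} {x : ℝ} (h : Wk G r a g x) : 0 ≤ x := by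
  induction h with
  | refl => exact le_rfl
  | @tail b _ _ _ _ ih => linarith [r0 b]

lemma Wk.trans {a b g : V} {x y : ℝ} (h : Wk G r a b x) (h' : Wk G r b g y) :
    Wk G r a g (x + y) := by
  induction h' with
  | refl => simpa using h
  | tail _ h2 ih => rw [← add_assoc]; exact ih.tail h2

lemma Wk.symm {a g : V} {x : ℝ} (h : Wk G r a g x) : Wk G r g a (x - 2 * r a + 2 * r g) := by
  induction h with
  | refl => simpa using Wk.refl
  | tail _ h2 ih => convert (Wk.refl.tail h2.symm).trans ih using 1; ring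

lemma Wk.of_rtg {a g : V} (h : ReflTransGen G.Adj a g) : ∃ x, Wk G r a g x := by
  induction h with
  | refl => exact ⟨0, Wk.refl⟩
  | tail _ h2 ih => exact ⟨_, ih.choose_spec.tail h2⟩

def PK [Fintype V] (G : SimpleGraph V) (r : V → ℝ) (E : ℝ) : Prop :=
  (∀ v, 0 < r v) ∧ ∑ v, (cosh (r v) - 1) ≤ E ∧ ∀ a, ∃ Lf : V → H2 → Prop,
    (∀ g x, Wk G r a g x → ∃ p, Lf g p ∧ p.t ≤ cosh (x + r g)) ∧
    ∀ g g' p p', Lf g p → Lf g' p' → g ≠ g' → cosh (r g + r g') ≤ B p p'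

variable [Fintype V]

theorem exists_PK [Nonempty V] {Δ e : ℕ} (hS : Surf G Δ e) : ∃ r, PK G r (7 * (e + 16)) := by
  obtain ⟨D, hD⟩ := exists_FD hS
  refine ⟨D.r, D.r0, hD, fun a => ⟨fun g p => ∃ Y : Pl V, ReflTransGen D.Ag ⟨a, 1, Iso.one⟩ Y ∧
    Y.v = g ∧ p = Y.g o, fun g x h => ?_, ?_⟩⟩
  · induction h with
    | refl => exact ⟨o, ⟨_, ReflTransGen.refl, rfl, rfl⟩, one_le_cosh _⟩
    | @tail b g x h1 h2 ih =>
      obtain ⟨_, ⟨Y, y1, rfl, rfl⟩, y2⟩ := ih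
      obtain ⟨i, rfl⟩ := (D.pc _).surj g h2
      obtain ⟨Z, hZ⟩ := D.exists_vi Y i
      have e : D.c Y.v i = Z.v := hZ.choose_spec.choose_spec.2.2.1
      refine ⟨_, ⟨Z, y1.tail ⟨i, hZ⟩, e.symm, rfl⟩, ?_⟩
      rw [← B_o, B_comm, Y.iso.left, B_o] at y2
      rw [← B_o, B_comm, hZ.center, Y.iso.left, e]
      have := B_le (a := Y.g⁻¹ o) (u := x + D.r Y.v)
        (by linarith [h1.nonneg D.r0, D.r0 Y.v]) y2
        (D.a Y.v i) (l := D.r Y.v + D.r Z.v) (by linarith [D.r0 Y.v, D.r0 Z.v])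
      convert this using 2; ring
  · rintro _ _ _ _ ⟨Y, y1, rfl, rfl⟩ ⟨Z, z1, rfl, rfl⟩ hne
    refine FlD.disjoint (ReflTransGen.trans ?_ z1) hne
    exact ReflTransGen.mono (fun _ _ h => FlD.Ag.symm h) _ _ y1.swap

lemma PK.three {E : ℝ} (h : PK G r E) {a g1 g2 g3 : V} {x s x1 x2 x3 : ℝ} (a1 : 40 * x ≤ 1)
    (a2 : 40 * x ≤ s) (s0 : 0 < s) (w1 : Wk G r a g1 x1) (w2 : Wk G r a g2 x2)
    (w3 : Wk G r a g3 x3) (l1 : x1 ≤ x) (l2 : x2 ≤ x) (l3 : x3 ≤ x) (r1 : s ≤ r g1)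
    (r2 : s ≤ r g2) (r3 : s ≤ r g3) (n1 : g1 ≠ g2) (n2 : g1 ≠ g3) (n3 : g2 ≠ g3) : False := by
  obtain ⟨Lf, h1, h2⟩ := h.2.2 a
  have k : ∀ g y, Wk G r a g y → y ≤ x → ∃ p, Lf g p ∧ p.t ≤ cosh (x + r g) := fun g y w l => by
    obtain ⟨p, p1, p2⟩ := h1 g y w
    have := w.nonneg h.1
    have := h.1 g
    exact ⟨p, p1, p2.trans (cosh_le_cosh.2 (by
      rw [abs_of_nonneg (by linarith), abs_of_nonneg (by linarith)]; linarith))⟩
  obtain ⟨p, p1, p2⟩ := k _ _ w1 l1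
  obtain ⟨q, q1, q2⟩ := k _ _ w2 l2
  obtain ⟨u, u1, u2⟩ := k _ _ w3 l3
  exact MP_845f45_al.three ((w1.nonneg h.1).trans l1) a1 a2 s0 r1 r2 r3 p2 q2 u2
    (h2 _ _ _ _ p1 q1 n1) (h2 _ _ _ _ p1 u1 n2) (h2 _ _ _ _ q1 u1 n3)

lemma pk_count (E μ : ℝ) (hμ : 0 < μ) : ∃ N : ℕ, ∀ {V : Type} [Fintype V] {G : SimpleGraph V}
    {r : V → ℝ}, PK G r E → ∀ (a : V) (s : ℝ) (S : Finset V), 0 < s →
      (∀ g ∈ S, s ≤ r g ∧ ∃ x, x ≤ μ * s ∧ Wk G r a g x) → S.card ≤ N := by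
  set L := ⌈82 * μ⌉₊
  refine ⟨max ⌈2 * E * (50 * μ) ^ 2⌉₊ (2 + (2 * L + 1) * (2 * L + 1)),
    fun {V} _ {G r} h a s S s0 hS => ?_⟩
  classical
  by_cases ht : 1 ≤ 50 * μ * s
  · refine le_trans ?_ (le_max_left _ _)
    have e1 : S.card • (s ^ 2 / 2) ≤ ∑ v ∈ S, (cosh (r v) - 1) :=
      Finset.card_nsmul_le_sum _ _ _ fun g hg =>
        le_trans (by gcongr; exact (hS g hg).1) (sq_le_cosh (h.1 g).le)
    have e2 := (Finset.sum_le_sum_of_subset_of_nonneg (Finset.subset_univ S)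
      fun v _ _ => sub_nonneg.2 (one_le_cosh (r v))).trans h.2.1
    rw [nsmul_eq_mul] at e1
    have e3 : (S.card : ℝ) ≤ 2 * E * (50 * μ) ^ 2 := by
      have : 1 ≤ (50 * μ * s) ^ 2 := one_le_pow₀ ht
      calc (S.card : ℝ) ≤ S.card * (50 * μ * s) ^ 2 := le_mul_of_one_le_right (by positivity) this
        _ = 2 * (S.card * (s ^ 2 / 2)) * (50 * μ) ^ 2 := by ring
        _ ≤ _ := by gcongr; linarith
    exact_mod_cast e3.trans (Nat.le_ceil _)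
  refine le_trans ?_ (le_max_right _ _)
  rw [← Finset.card_filter_add_card_filter_not (s := S) fun g => 40 * (μ * s) ≤ r g]
  refine add_le_add ?_ ?_
  · by_contra hc
    obtain ⟨g1, g2, g3, m1, m2, m3, n1, n2, n3⟩ := Finset.two_lt_card_iff.1 (not_le.1 hc)
    rw [Finset.mem_filter] at m1 m2 m3
    obtain ⟨-, x1, l1, w1⟩ := hS _ m1.1
    obtain ⟨-, x2, l2, w2⟩ := hS _ m2.1
    obtain ⟨-, x3, l3, w3⟩ := hS _ m3.1
    exact h.three (by linarith) le_rfl (by positivity) w1 w2 w3 l1 l2 l3 m1.2 m2.2 m3.2 n1 n2 n3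
  obtain ⟨Lf, h1, h2⟩ := h.2.2 a
  have k : ∀ g, ∃ p : H2, g ∈ S.filter (fun g => ¬ 40 * (μ * s) ≤ r g) →
      Lf g p ∧ |p.x| ≤ 82 * μ * s ∧ |p.y| ≤ 82 * μ * s := by
    intro g
    by_cases hg : g ∈ S.filter fun g => ¬ 40 * (μ * s) ≤ r g
    · obtain ⟨g1, g2⟩ := Finset.mem_filter.1 hg
      obtain ⟨-, x, x1, x2⟩ := hS g g1
      obtain ⟨p, p1, p2⟩ := h1 g x x2
      have x0 := x2.nonneg h.1
      have r0 := h.1 g
      have e1 := sinh_le_two (x := x + r g) (by linarith) (by linarith)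
      have e2 := sinh_nonneg_iff.2 (show 0 ≤ x + r g by linarith)
      have e3 : p.x ^ 2 + p.y ^ 2 ≤ (82 * μ * s) ^ 2 := by
        have := pow_le_pow_left₀ p.p.le p2 2
        rw [cosh_sq, p.h] at this
        have : sinh (x + r g) ^ 2 ≤ (82 * μ * s) ^ 2 := by gcongr; linarith
        linarith
      exact ⟨p, fun _ => ⟨p1, abs_le_of_sq_le_sq (by nlinarith) (by positivity),
        abs_le_of_sq_le_sq (by nlinarith) (by positivity)⟩⟩
    · exact ⟨o, fun h => absurd h hg⟩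
  choose p hp using k
  have fl : ∀ z : ℝ, |z| ≤ 82 * μ * s → ⌊z / s⌋ ∈ Finset.Icc (-(L : ℤ)) L := fun z hz => by
    have a1 : 82 * μ ≤ L := Nat.le_ceil _
    obtain ⟨a2, a3⟩ := abs_le.1 hz
    rw [Finset.mem_Icc, Int.le_floor, Int.floor_le_iff]
    push_cast
    constructor
    · rw [le_div_iff₀ s0]; nlinarith
    · rw [div_lt_iff₀ s0]; nlinarith
  have cl : ∀ z z' : ℝ, ⌊z / s⌋ = ⌊z' / s⌋ → (z - z') ^ 2 ≤ s ^ 2 := fun z z' e => by
    have := Int.abs_sub_lt_one_of_floor_eq_floor e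
    rw [← sub_div, abs_div, abs_of_pos s0, div_lt_one s0] at this
    exact sq_le_sq' (abs_lt.1 this).1.le (abs_lt.1 this).2.le
  refine (Finset.card_le_card_of_injOn (t := Finset.Icc (-(L : ℤ)) L ×ˢ Finset.Icc (-(L : ℤ)) L)
    (fun g => (⌊(p g).x / s⌋, ⌊(p g).y / s⌋))
    (fun g hg => Finset.mem_product.2 ⟨fl _ (hp g hg).2.1, fl _ (hp g hg).2.2⟩)
    fun g hg g' hg' e => ?_).trans ?_
  · by_contra hne
    have a1 := h2 _ _ _ _ (hp g hg).1 (hp g' hg').1 hne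
    have a2 := sq_ge (p g) (p g')
    have a3 := cl _ _ (Prod.ext_iff.1 e).1
    have a4 := cl _ _ (Prod.ext_iff.1 e).2
    have a5 := (hS g (Finset.mem_filter.1 hg).1).1
    have a6 := (hS g' (Finset.mem_filter.1 hg').1).1
    have a7 := sq_le_cosh (show 0 ≤ r g + r g' by linarith)
    nlinarith
  · rw [Finset.card_product, Int.card_Icc, show (L : ℤ) + 1 - -L = (2 * L + 1 : ℕ) by push_cast; ring,
      Int.toNat_natCast]

end Pool.Agent.Lib.MP_845f45_al
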