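import Pool.Agent.Lib.MP_845f45_al.Lnk
import Pool.Agent.Lib.MP_845f45_al.Ang

namespace Pool.Agent.Lib.MP_845f45_al

open Real Filter Topology

variable {V : Type} [Fintype V] {G : SimpleGraph V}

def Tri (G : SimpleGraph V) (a b c : V) : Prop := G.Adj a b ∧ G.Adj a c ∧ G.Adj b c

open Classical in
variable (G) in
noncomputable def L2 (v : V) (f : V → V → ℝ) : ℝ := ∑ x, ∑ y, if Tri G v x y then f x y else 0

variable (G) in
noncomputable def S3 (f : V → V → V → ℝ) : ℝ := ∑ a, L2 G a (f a)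

lemma L2_mono {v : V} {f g : V → V → ℝ} (h : ∀ x y, Tri G v x y → f x y ≤ g x y) :
    L2 G v f ≤ L2 G v g := by
  refine Finset.sum_le_sum fun x _ => Finset.sum_le_sum fun y _ => ?_
  split_ifs with e
  · exact h x y e
  · exact le_rfl

lemma L2_nonneg {v : V} {f : V → V → ℝ} (h : ∀ x y, Tri G v x y → 0 ≤ f x y) : 0 ≤ L2 G v f := by
  have := L2_mono (G := G) (v := v) (f := fun _ _ => 0) h
  simpa [L2] using this

lemma L2_mul (v : V) (k : ℝ) (f : V → V → ℝ) :
    L2 G v (fun x y => k * f x y) = k * L2 G v f := by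
  simp only [L2, Finset.mul_sum, mul_ite, mul_zero]

lemma L2_le {v : V} {f : V → V → ℝ} {k : ℝ} (hk : 0 ≤ k) (h : ∀ x y, Tri G v x y → f x y ≤ k) :
    L2 G v f ≤ (Fintype.card V : ℝ) ^ 2 * k := by
  refine (Finset.sum_le_card_nsmul _ _ (Fintype.card V * k) fun x _ =>
    (Finset.sum_le_card_nsmul _ _ k fun y _ => ?_).trans (by simp)).trans (by simp [sq, mul_assoc])
  split_ifs with e
  · exact h x y e
  · exact hk

lemma S3_mono {f g : V → V → V → ℝ} (h : ∀ a b c, Tri G a b c → f a b c ≤ g a b c) :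
    S3 G f ≤ S3 G g := Finset.sum_le_sum fun a _ => L2_mono (h a)

lemma S3_add (f g : V → V → V → ℝ) :
    S3 G (fun a b c => f a b c + g a b c) = S3 G f + S3 G g := by
  simp only [S3, L2, ← Finset.sum_add_distrib]
  refine Finset.sum_congr rfl fun a _ => Finset.sum_congr rfl fun b _ =>
    Finset.sum_congr rfl fun c _ => ?_
  split_ifs <;> simp

lemma S3_mul (k : ℝ) (f : V → V → V → ℝ) : S3 G (fun a b c => k * f a b c) = k * S3 G f := by
  simp only [S3, L2_mul, Finset.mul_sum]

lemma S3_swap (f : V → V → V → ℝ) : S3 G (fun a b c => f b a c) = S3 G f := by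
  classical
  simp only [S3, L2]
  rw [Finset.sum_comm]
  refine Finset.sum_congr rfl fun a _ => Finset.sum_congr rfl fun b _ =>
    Finset.sum_congr rfl fun c _ => if_congr ?_ rfl rfl
  exact ⟨fun h => ⟨h.1.symm, h.2.2, h.2.1⟩, fun h => ⟨h.1.symm, h.2.2, h.2.1⟩⟩

lemma S3_swap' (f : V → V → V → ℝ) : S3 G (fun a b c => f a c b) = S3 G f := by
  classical
  simp only [S3, L2]
  refine Finset.sum_congr rfl fun a _ => ?_
  rw [Finset.sum_comm]
  refine Finset.sum_congr rfl fun b _ => Finset.sum_congr rfl fun c _ => if_congr ?_ rfl rfl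
  exact ⟨fun h => ⟨h.2.1, h.1, h.2.2.symm⟩, fun h => ⟨h.2.1, h.1, h.2.2.symm⟩⟩

lemma S3_rot (f : V → V → V → ℝ) :
    S3 G (fun a b c => f a b c + f b a c + f c a b) = 3 * S3 G f := by
  rw [S3_add (fun a b c => f a b c + f b a c), S3_add, S3_swap f,
    ← S3_swap' fun a b c => f c a b, S3_swap f]
  ring

lemma PC.L2_eq {v : V} {n : ℕ} {c : ℤ → V} (h : PC G v n c) (f : V → V → ℝ) :
    L2 G v f = ∑ k ∈ Finset.range n, (f (c k) (c (k + 1)) + f (c k) (c (k - 1))) := by
  classical
  have h4 := h.four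
  have inj : Set.InjOn (fun k : ℕ => c k) (Finset.range n : Set ℕ) := by
    intro i hi j hj e
    simp only [Finset.coe_range, Set.mem_Iio] at hi hj
    rcases lt_trichotomy i j with l | l | l
    · exact absurd e (h.ne (by omega) (by omega))
    · exact l
    · exact absurd e.symm (h.ne (by omega) (by omega))
  unfold L2
  rw [← Finset.sum_subset (Finset.subset_univ ((Finset.range n).image fun k : ℕ => c k)),
    Finset.sum_image inj]
  · refine Finset.sum_congr rfl fun k _ => ?_
    rw [← Finset.sum_pair (h.ne (by omega) (by omega)).symm, ← Finset.sum_filter]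
    congr 1
    ext y
    simp only [Finset.mem_filter, Finset.mem_univ, true_and, Finset.mem_insert, Finset.mem_singleton]
    refine ⟨fun e => h.common e.2.1 e.2.2, ?_⟩
    rintro (rfl | rfl)
    · exact ⟨h.adj _, h.adj _, h.adj_succ _⟩
    · exact ⟨h.adj _, h.adj _, h.adj_pred _⟩
  · intro x _ hx
    refine Finset.sum_eq_zero fun y _ => if_neg fun e => hx ?_
    obtain ⟨j, rfl⟩ := h.surj x e.1
    obtain ⟨k, h1, h2⟩ := h.exists_lt 0 j
    exact Finset.mem_image.2 ⟨k, Finset.mem_range.2 h1, by simpa using h2.symm⟩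

lemma PC.L2_one {v : V} {n : ℕ} {c : ℤ → V} (h : PC G v n c) : L2 G v (fun _ _ => 1) = 2 * n := by
  rw [h.L2_eq]; simp; ring

open Classical in
noncomputable def meets (J : Finset V) (a b c : V) : ℝ := if a ∈ J ∨ b ∈ J ∨ c ∈ J then 1 else 0

lemma count_faces {Δ e : ℕ} (hS : Surf G Δ e) {b1 b2 b3 : V} (hB : Tri G b1 b2 b3) {J : Finset V}
    (hJ : J.Nonempty) (h1 : b1 ∉ J) (h2 : b2 ∉ J) (h3 : b3 ∉ J) :
    12 * (J.card : ℝ) + 6 ≤ S3 G (meets J) := by
  classical
  obtain ⟨u, w, w', u1, u2, u3, u4, u5, u6⟩ := exists_face hS (J := J) hJ hB.1 h1 h2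
  obtain ⟨b, a1, a2, a3⟩ : ∃ b, b ∉ J ∧ b ≠ w ∧ b ≠ w' := by
    by_contra hc
    push Not at hc
    have n1 := hB.1.ne
    have n2 := hB.2.1.ne
    have n3 := hB.2.2.ne
    have k : ∀ b, b ∉ J → b = w ∨ b = w' := fun b hb => or_iff_not_imp_left.2 (hc b hb)
    rcases k b1 h1 with e1 | e1 <;> rcases k b2 h2 with e2 | e2 <;> rcases k b3 h3 with e3 | e3 <;>
      simp_all
  obtain ⟨θ, t1, t2, t3, t4⟩ := exists_theta hS u4 a2 a3
  let g : V → V → V → ℝ := fun a b c => meets J a b c * if θ b < θ a ∧ θ a < θ c then 1 else 0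
  have g0 : ∀ a b c, 0 ≤ g a b c := fun a b c => by
    simp only [g, meets]; split_ifs <;> norm_num
  have e1 : 6 * S3 G g ≤ S3 G (meets J) := by
    have := S3_rot (G := G) fun a b c => g a b c + g a c b
    rw [S3_add g, S3_swap' g] at this
    rw [show 6 * S3 G g = 3 * (S3 G g + S3 G g) by ring, ← this]
    refine S3_mono fun a b c _ => ?_
    have m1 : ∀ a b c, meets J a c b = meets J a b c := fun a b c => by
      simp only [meets, or_comm]
    have m2 : ∀ a b c, meets J b a c = meets J a b c := fun a b c => by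
      simp only [meets, or_left_comm]
    have m0 : 0 ≤ meets J a b c := by unfold meets; split_ifs <;> norm_num
    simp only [g]
    rw [m1 c a b, m1 b a c, m2 a c b, m1 a b c, m2 a b c]
    split_ifs <;> first | omega | linarith
  have e2 : ∀ a ∈ J, 2 ≤ L2 G a (g a) := by
    intro a ha
    obtain ⟨-, n, hn, -⟩ := hS
    obtain ⟨c, hc⟩ := (hn a).2
    obtain ⟨-, -, -, -, -, -, -, k⟩ := exists_ord hc t1
    have k1 := k ((t4 a).1 fun e => u2 (e ▸ ha)) ((t4 a).2 fun e => a1 (e ▸ ha))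
    have k2 : ((SW G θ a).card : ℝ) = L2 G a (g a) := by
      rw [SW, L2, ← Finset.sum_product', Finset.univ_product_univ, Finset.card_filter]
      push_cast
      refine Finset.sum_congr rfl fun p _ => ?_
      simp only [g, meets, Tri, ha, true_or, if_true, one_mul]
      split_ifs <;> tauto
    rw [← k2]; exact_mod_cast k1
  have e3 : 1 ≤ L2 G w' (g w') := by
    have uw : u ≠ w := fun e => u2 (e ▸ u1)
    have uw' : u ≠ w' := fun e => u3 (e ▸ u1)
    have k0 : ∀ x y, 0 ≤ if Tri G w' x y then g w' x y else 0 := fun x y => by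
      split_ifs
      · exact g0 _ _ _
      · exact le_rfl
    refine le_trans ?_ (Finset.single_le_sum (fun x _ => Finset.sum_nonneg fun y _ => k0 x y)
      (Finset.mem_univ w))
    refine le_trans ?_ (Finset.single_le_sum (fun y _ => k0 w y) (Finset.mem_univ u))
    rw [if_pos ⟨u4.symm, u6, u5⟩]
    simp only [g, meets]
    rw [if_pos (Or.inr (Or.inr (Finset.mem_coe.1 u1))), if_pos ⟨t2, t3 u uw uw'⟩, one_mul]
  have e4 : ∑ a ∈ insert w' J, L2 G a (g a) ≤ S3 G g :=
    Finset.sum_le_sum_of_subset_of_nonneg (Finset.subset_univ _) fun a _ _ =>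
      L2_nonneg fun x y _ => g0 _ _ _
  rw [Finset.sum_insert u3] at e4
  have e5 := Finset.card_nsmul_le_sum J _ 2 e2
  rw [nsmul_eq_mul] at e5
  linarith

variable (G) in
noncomputable def th (r : V → ℝ) (v : V) : ℝ := L2 G v fun x y => eta (r v) (r x) (r y)

lemma th_cont {X : Type} [TopologicalSpace X] {r : X → V → ℝ} {x : X} (hr : ContinuousAt r x)
    (h0 : ∀ v, 0 < r x v) (v : V) : ContinuousAt (fun y => th G (r y) v) x := by
  unfold th L2
  refine tendsto_finset_sum _ fun a _ => tendsto_finset_sum _ fun b _ => ?_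
  split_ifs
  · exact eta_cont (continuousAt_pi.1 hr v) (continuousAt_pi.1 hr a) (continuousAt_pi.1 hr b)
      (h0 v) (h0 a) (h0 b)
  · exact tendsto_const_nhds

lemma gap {A : V → ℝ} (hA : ∀ J : Finset V, J.Nonempty →
    ∑ v ∈ J, A v + π / 7 ≤ π / 6 * S3 G (meets J)) (R : ℝ) {ε : ℝ} (hε : 0 < ε) :
    ∃ ε' > 0, ∀ r : V → ℝ, (∀ v, 0 < r v ∧ r v ≤ R ∧ th G r v ≤ A v) → (∃ v, r v < ε') →
      ∃ u, ε' ≤ r u ∧ r u < ε := by
  classical
  have s0 := sinh_pos_iff.2 hε
  set C : ℝ := 2 * |sinh R| + 3 / sinh ε with hC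
  have C0 : 0 < C := by positivity
  set κ : ℝ := 1 / ((Fintype.card V : ℝ) ^ 3 + 1) with hκ
  have κ0 : 0 < κ := by positivity
  refine ⟨arsinh ((κ / C) ^ 2), arsinh_pos_iff.2 (by positivity), fun r hr hv => ?_⟩
  by_contra hc
  push Not at hc
  set J := Finset.univ.filter fun v => r v < arsinh ((κ / C) ^ 2)
  have hJ : J.Nonempty := hv.imp fun v hv => Finset.mem_filter.2 ⟨Finset.mem_univ _, hv⟩
  have j1 : ∀ v ∈ J, √(sinh (r v)) ≤ κ / C := fun v hv => by
    refine sqrt_le_iff.2 ⟨by positivity, ?_⟩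
    rw [← sinh_arsinh ((κ / C) ^ 2)]
    exact sinh_le_sinh.2 (Finset.mem_filter.1 hv).2.le
  let f : V → V → V → ℝ := fun a b c => (if a ∈ J then 1 else 0) * eta (r a) (r b) (r c)
  have e1 : S3 G f = ∑ v ∈ J, th G r v := by
    simp only [S3, f, L2_mul]
    simp only [ite_mul, one_mul, zero_mul]
    rw [← Finset.sum_filter]; simp [th]
  have e2 : S3 G (fun a b c => (π / 2 - κ) * meets J a b c) ≤
      S3 G fun a b c => f a b c + f b a c + f c a b := by
    refine S3_mono fun a b c _ => ?_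
    have pa := (hr a).1
    have pb := (hr b).1
    have pc := (hr c).1
    have k : ∀ x y z, TT (r x) (r y) (r z) = TT (r a) (r b) (r c) →
        eta (r x) (r y) (r z) - TT (r a) (r b) (r c) / sinh ε ≤ f x y z ∧ 0 ≤ f x y z := by
      intro x y z e
      have p0 := TT_pos pa pb pc
      have p1 := eta_pos (hr x).1 (hr y).1 (hr z).1
      simp only [f]
      split_ifs with hx
      · exact ⟨by rw [one_mul]; exact sub_le_self _ (by positivity), by positivity⟩
      · refine ⟨?_, by simp⟩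
        have p2 := hc x (by simpa [J] using hx)
        rw [zero_mul, sub_nonpos]
        refine (eta_le (hr x).1 (hr y).1 (hr z).1).trans ?_
        rw [e]
        gcongr
        exact sinh_le_sinh.2 p2
    obtain ⟨k1, k1'⟩ := k a b c rfl
    obtain ⟨k2, k2'⟩ := k b a c (TT_comm' _ _ _)
    obtain ⟨k3, k3'⟩ := k c a b (by rw [TT_comm', TT_comm])
    unfold meets
    split_ifs with hm
    · have t : TT (r a) (r b) (r c) ≤ κ / C := by
        rcases hm with hm | hm | hm
        · exact (TT_le pa pb pc).trans (j1 _ hm)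
        · rw [TT_comm']; exact (TT_le pb pa pc).trans (j1 _ hm)
        · rw [TT_comm, TT_comm']; exact (TT_le pc pa pb).trans (j1 _ hm)
      have m : ∀ v, sinh (r v) ≤ |sinh R| := fun v =>
        (sinh_le_sinh.2 (hr v).2.1).trans (le_abs_self _)
      have d := defect_le pa pb pc (m a) (m b) (m c)
      rw [le_div_iff₀ C0, hC, mul_add, mul_div_assoc'] at t
      have : TT (r a) (r b) (r c) * 3 / sinh ε = 3 * (TT (r a) (r b) (r c) / sinh ε) := by ring
      linarith
    · linarith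
  rw [S3_rot, S3_mul, e1] at e2
  have e3 := hA J hJ
  have e4 : ∑ v ∈ J, th G r v ≤ ∑ v ∈ J, A v := Finset.sum_le_sum fun v _ => (hr v).2.2
  have e5 : S3 G (meets J) ≤ (Fintype.card V : ℝ) ^ 3 := by
    refine (Finset.sum_le_card_nsmul _ _ ((Fintype.card V : ℝ) ^ 2 * 1) fun a _ =>
      L2_le zero_le_one fun x y _ => ?_).trans (by simp [pow_succ'])
    unfold meets; split_ifs <;> norm_num
  have e6 : κ * S3 G (meets J) ≤ 1 := by
    rw [hκ, div_mul_eq_mul_div, one_mul, div_le_one (by positivity)]; linarith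
  linarith [pi_gt_three]

theorem perron {A : V → ℝ} (hA0 : ∀ v, 1 / 2 ≤ A v) (hA : ∀ J : Finset V, J.Nonempty →
    ∑ v ∈ J, A v + π / 7 ≤ π / 6 * S3 G (meets J)) :
    ∃ r : V → ℝ, (∀ v, 0 < r v) ∧ ∀ v, th G r v = A v := by
  classical
  set R : ℝ := 2 * (Fintype.card V : ℝ) ^ 2 + 1 with hR
  have R0 : 0 < R := by positivity
  have low : ∀ k : ℕ, ∃ ε > 0, ∀ r : V → ℝ, (∀ v, 0 < r v ∧ r v ≤ R ∧ th G r v ≤ A v) →
      (∀ v, ε ≤ r v) ∨ k ≤ (Finset.univ.filter fun v => ε ≤ r v).card := by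
    intro k
    induction k with
    | zero => exact ⟨1, one_pos, fun r _ => Or.inr (Nat.zero_le _)⟩
    | succ k ih =>
      obtain ⟨ε, e0, e1⟩ := ih
      obtain ⟨ε', e2, e3⟩ := gap hA R e0
      refine ⟨min ε ε', lt_min e0 e2, fun r hr => ?_⟩
      rcases e1 r hr with h | h
      · exact Or.inl fun v => (min_le_left _ _).trans (h v)
      by_cases h' : ∃ v, r v < ε'
      · obtain ⟨u, u1, u2⟩ := e3 r hr h'
        refine Or.inr (h.trans_lt (Finset.card_lt_card ⟨fun v hv => ?_, fun hc => ?_⟩))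
        · simp only [Finset.mem_filter, Finset.mem_univ, true_and] at hv ⊢
          exact (min_le_left _ _).trans hv
        · have := hc (x := u) (Finset.mem_filter.2 ⟨Finset.mem_univ _, (min_le_right _ _).trans u1⟩)
          linarith [(Finset.mem_filter.1 this).2]
      · push Not at h'
        exact Or.inl fun v => (min_le_right _ _).trans (h' v)
  obtain ⟨ε, e0, e1⟩ := low (Fintype.card V + 1)
  have e2 : ∀ r : V → ℝ, (∀ v, 0 < r v ∧ r v ≤ R ∧ th G r v ≤ A v) → ∀ v, ε ≤ r v := fun r hr =>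
    (e1 r hr).resolve_right (by
      have := Finset.card_le_univ (Finset.univ.filter fun v => ε ≤ r v); omega)
  set K := {r : V → ℝ | ∀ v, 0 < r v ∧ r v ≤ R ∧ th G r v ≤ A v}
  have hK : IsCompact K := by
    have : K = Set.Icc (fun _ => ε) (fun _ => R) ∩ ⋂ v, (Set.Icc (fun _ => ε) (fun _ => R) ∩
        (fun r => th G r v) ⁻¹' Set.Iic (A v)) := by
      ext r
      simp only [Set.mem_inter_iff, Set.mem_iInter, Set.mem_Icc, Set.mem_preimage, Set.mem_Iic]
      exact ⟨fun h => ⟨⟨e2 r h, fun v => (h v).2.1⟩, fun v => ⟨⟨e2 r h, fun v => (h v).2.1⟩,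
        (h v).2.2⟩⟩, fun h v => ⟨e0.trans_le (h.1.1 v), h.1.2 v, (h.2 v).2⟩⟩
    rw [this]
    refine isCompact_Icc.inter_right (isClosed_iInter fun v =>
      ContinuousOn.preimage_isClosed_of_isClosed (fun r hr => ?_) isClosed_Icc isClosed_Iic)
    exact (th_cont continuousAt_id (fun v => e0.trans_le (hr.1 v)) v).continuousWithinAt
  have hne : K.Nonempty := by
    refine ⟨fun _ => R, fun v => ⟨R0, le_rfl, le_trans ?_ (hA0 v)⟩⟩
    refine (L2_le (k := 1 / R) (by positivity) fun _ _ _ => eta_const R0).trans ?_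
    rw [mul_one_div, div_le_div_iff₀ R0 (by norm_num)]
    linarith
  obtain ⟨r, hr, hm⟩ := hK.exists_isMinOn hne (f := fun r => ∑ v, r v) (by fun_prop)
  refine ⟨r, fun v => (hr v).1, fun v => le_antisymm (hr v).2.2 ?_⟩
  by_contra hc
  push Not at hc
  have c1 : ContinuousAt (fun s => th G (Function.update r v s) v) (r v) :=
    th_cont (by fun_prop) (by simpa using fun v => (hr v).1) v
  have c2 : ∀ᶠ s in 𝓝 (r v), th G (Function.update r v s) v < A v :=
    c1.eventually (eventually_lt_nhds (by simpa using hc))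
  obtain ⟨s, ⟨s1, s2⟩, s3⟩ := (((c2.and (eventually_gt_nhds (hr v).1)).filter_mono
    nhdsWithin_le_nhds).and (eventually_mem_nhdsWithin (s := Set.Iio (r v)))).exists
  have u0 : ∀ u, 0 < Function.update r v s u ∧ Function.update r v s u ≤ r u := fun u => by
    by_cases e : u = v
    · subst e; simp only [Function.update_self]; exact ⟨s2, s3.le⟩
    · rw [Function.update_of_ne e]; exact ⟨(hr u).1, le_rfl⟩
  have hs : Function.update r v s ∈ K := fun u => by
    refine ⟨(u0 u).1, (u0 u).2.trans (hr u).2.1, ?_⟩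
    by_cases e : u = v
    · rw [e]; exact s1.le
    refine le_trans (L2_mono fun x y _ => ?_) (hr u).2.2
    rw [Function.update_of_ne e]
    refine (eta_mono (hr u).1 (u0 x).1 (u0 y).1 (u0 x).2).trans ?_
    rw [eta_comm, eta_comm _ (r x)]
    exact eta_mono (hr u).1 (u0 y).1 (hr x).1 (u0 y).2
  have := Finset.sum_lt_sum (s := Finset.univ) (fun u _ => (u0 u).2)
    ⟨v, Finset.mem_univ _, by simpa using s3⟩
  exact absurd (hm hs) (not_le.2 this)

theorem exists_radii {Δ e : ℕ} (hS : Surf G Δ e) [Nonempty V] : ∃ (r : V → ℝ) (m : V → ℕ),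
    (∀ v, 0 < r v) ∧ (∀ v, m v * th G r v = 2 * π) ∧ ∑ v, (cosh (r v) - 1) ≤ 7 * (e + 16) := by
  classical
  obtain ⟨n, c, hc, hn⟩ := hS.pc
  obtain ⟨b⟩ := ‹Nonempty V›
  have hB : Tri G b (c b 0) (c b (0 + 1)) := ⟨(hc b).adj _, (hc b).adj _, (hc b).adj_succ _⟩
  set B : Finset V := {b, c b 0, c b (0 + 1)} with hBd
  have cB : (B.card : ℝ) ≤ 3 := by exact_mod_cast Finset.card_le_three
  let A : V → ℝ := fun v => if v ∈ B then 2 * π / 7 else 2 * π
  have p3 := pi_gt_three
  have A0 : ∀ v, 2 * π / 7 ≤ A v := fun v => by simp only [A]; split_ifs <;> linarith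
  have sA : ∀ J : Finset V, ∑ v ∈ J, A v = 2 * π * (J \ B).card + 2 * π / 7 * (J ∩ B).card := by
    intro J
    rw [Finset.sum_ite, Finset.sum_const, Finset.sum_const, Finset.filter_mem_eq_inter,
      Finset.filter_notMem_eq_sdiff, nsmul_eq_mul, nsmul_eq_mul]
    ring
  obtain ⟨r, r0, hr⟩ := perron (G := G) (A := A) (fun v => by linarith [A0 v]) fun J hJ => by
    have c1 : ((J ∩ B).card : ℝ) ≤ B.card := by
      exact_mod_cast Finset.card_le_card Finset.inter_subset_right
    have c2 : 12 * ((J \ B).card : ℝ) + 6 ≤ S3 G (meets J) := by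
      by_cases h : (J \ B).Nonempty
      · refine (count_faces hS hB h (by simp [hBd]) (by simp [hBd]) (by simp [hBd])).trans
          (S3_mono fun x y z _ => ?_)
        simp only [meets, Finset.mem_sdiff]
        split_ifs <;> first | tauto | norm_num
      · rw [Finset.not_nonempty_iff_eq_empty] at h
        obtain ⟨v, hv⟩ := hJ
        have c3 : L2 G v (meets J v) ≤ S3 G (meets J) :=
          Finset.single_le_sum (f := fun a => L2 G a (meets J a)) (fun a _ => L2_nonneg
            fun x y _ => by unfold meets; split_ifs <;> norm_num) (Finset.mem_univ v)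
        have c4 : meets J v = fun _ _ => 1 := by ext x y; simp [meets, hv]
        rw [c4, (hc v).L2_one] at c3
        have : (4 : ℝ) ≤ n v := by exact_mod_cast (hc v).four
        rw [h]; simp; linarith
    rw [sA]
    nlinarith
  refine ⟨r, fun v => if v ∈ B then 7 else 1, r0, fun v => ?_, ?_⟩
  · rw [hr]; simp only [A]; split_ifs <;> push_cast <;> ring
  have e1 : S3 G (fun a b c => (cosh (r a) - 1) / 2 * eta (r a) (r b) (r c) +
      (eta (r a) (r b) (r c) + eta (r b) (r a) (r c) + eta (r c) (r a) (r b))) ≤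
      S3 G fun _ _ _ => π / 2 * 1 :=
    S3_mono fun a b c _ => by linarith [le_defect (r0 a) (r0 b) (r0 c)]
  rw [S3_add, S3_rot fun a b c => eta (r a) (r b) (r c), S3_mul] at e1
  have e2 : S3 G (fun a b c => eta (r a) (r b) (r c)) = ∑ v, A v :=
    Finset.sum_congr rfl fun v _ => hr v
  have e3 : S3 G (fun _ _ _ => 1) = 2 * ∑ v, (n v : ℝ) := by
    rw [Finset.mul_sum]; exact Finset.sum_congr rfl fun v _ => (hc v).L2_one
  have e4 : π / 7 * ∑ v, (cosh (r v) - 1) ≤
      S3 G fun a b c => (cosh (r a) - 1) / 2 * eta (r a) (r b) (r c) := by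
    rw [Finset.mul_sum]
    refine Finset.sum_le_sum fun v _ => ?_
    rw [L2_mul]
    change _ ≤ _ * th G r v
    rw [hr]
    nlinarith [A0 v, one_le_cosh (r v)]
  have e5 : ∑ v, (n v : ℝ) ≤ 6 * Fintype.card V + e := by exact_mod_cast hn
  have e6 : ((Finset.univ \ B).card : ℝ) + B.card = Fintype.card V := by
    exact_mod_cast Finset.card_sdiff_add_card_eq_card (Finset.subset_univ B)
  rw [e2, e3, sA, Finset.univ_inter] at e1
  have e7 : π / 7 * ∑ v, (cosh (r v) - 1) ≤ π / 7 * (7 * (e + 16)) := by nlinarith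
  exact le_of_mul_le_mul_left e7 (by positivity)

end Pool.Agent.Lib.MP_845f45_al
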