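import Pool.Agent.Lib.MP_845f45_al.Heap

namespace Pool.Agent.Lib.MP_845f45_al

variable {V : Type}

structure LD (G : SimpleGraph V) (c : ℕ) (N : ℕ → ℕ) where
  ρ : V → ℕ
  δ : V → V → ℕ
  L1 : ∀ a, δ a a ≤ ρ a
  L2 : ∀ a b g, δ a g ≤ max (δ a b) (δ b g) + 1
  L3 : ∀ a g, G.Adj a g → δ a g ≤ ρ a
  L4 : ∀ a g, δ g a ≤ max (δ a g) (ρ g) + 1
  CL : ∀ v b b', b ≠ b' → ¬ G.Adj b b' → G.Adj v b → G.Adj v b' → min (ρ b) (ρ b') ≤ ρ v + c
  M : ∀ a K n, ∀ s : Finset V, (∀ g ∈ s, δ a g ≤ K + n ∧ K ≤ ρ g + n) → s.card ≤ N n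

variable [DecidableEq V] {G : SimpleGraph V} {c : ℕ} {N : ℕ → ℕ}

namespace LD

variable (D : LD G c N)

def Cap (n : ℕ) (s : V) (L : List (ℕ × V)) : Prop :=
  ∃ l1 x l2, L = l1 ++ x :: l2 ∧ D.ρ x.2 ≤ D.ρ s + n ∧ ∀ w ∈ x :: l1, D.δ s w.2 ≤ D.ρ s + n

def Top (A : Finset (ℕ × V)) (p : ℕ × V) : Prop :=
  ∀ t, IsMx G A t → D.ρ t.2 ≤ D.ρ p.2 + (c + 1)

open Classical in
noncomputable def Al (m : ℕ) (A : Finset (ℕ × V)) (mem : List (ℕ × V)) : Finset (ℕ × V) :=
  (Mx G A).filter fun p => D.Top A p ∨ D.Cap (c + 1) p.2 (mem.take m)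

variable {D}

omit [DecidableEq V] in
lemma Cap.mono {n n' : ℕ} {s : V} {L : List (ℕ × V)} (h : D.Cap n s L) (hn : n ≤ n') :
    D.Cap n' s L := by
  obtain ⟨l1, x, l2, h1, h2, h3⟩ := h
  exact ⟨l1, x, l2, h1, by omega, fun w hw => by have := h3 w hw; omega⟩

omit [DecidableEq V] in
lemma Cap.append {n : ℕ} {s : V} {L : List (ℕ × V)} (h : D.Cap n s L) (L' : List (ℕ × V)) :
    D.Cap n s (L ++ L') := by
  obtain ⟨l1, x, l2, h1, h2, h3⟩ := h
  exact ⟨l1, x, l2 ++ L', by simp [h1], h2, h3⟩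

omit [DecidableEq V] in
lemma Cap.of_take {n m : ℕ} {s : V} {L : List (ℕ × V)} (h : D.Cap n s (L.take m)) :
    D.Cap n s L := by
  have := h.append (L.drop m)
  rwa [List.take_append_drop] at this

omit [DecidableEq V] in
lemma mem_Al {m : ℕ} {A : Finset (ℕ × V)} {mem : List (ℕ × V)} {p : ℕ × V} :
    p ∈ D.Al m A mem ↔ IsMx G A p ∧ (D.Top A p ∨ D.Cap (c + 1) p.2 (mem.take m)) := by
  classical
  unfold Al
  rw [Finset.mem_filter, mem_Mx]

variable (D)

omit [DecidableEq V] in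
lemma exists_best {A : Finset (ℕ × V)} (h : A.Nonempty) :
    ∃ p, IsMx G A p ∧ ∀ t, IsMx G A t → D.ρ t.2 ≤ D.ρ p.2 := by
  obtain ⟨q, hq⟩ := exists_mx (G := G) h
  obtain ⟨p, h1, h2⟩ := (Mx G A).exists_max_image (fun p => D.ρ p.2) ⟨q, mem_Mx.2 hq⟩
  exact ⟨p, mem_Mx.1 h1, fun t ht => h2 t (mem_Mx.2 ht)⟩

omit [DecidableEq V] in
lemma exists_al (m : ℕ) {A : Finset (ℕ × V)} (h : A.Nonempty) :
    ∃ p, ∀ mem, p ∈ D.Al m A mem := by
  obtain ⟨p, h1, h2⟩ := D.exists_best h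
  exact ⟨p, fun mem => mem_Al.2 ⟨h1, Or.inl fun t ht => (h2 t ht).trans (Nat.le_add_right _ _)⟩⟩

lemma card_Al {ω : ℕ} (hω : ClB G ω) (m : ℕ) {A : Finset (ℕ × V)} (hA : Normal G A)
    (mem : List (ℕ × V)) : (D.Al m A mem).card ≤ ω :=
  (Finset.card_le_card fun _ hp => mem_Mx.2 (mem_Al.1 hp).1).trans (card_Mx hω hA)

def PZ (G : SimpleGraph V) (x : V) (A : Finset (ℕ × V)) : Prop :=
  (0, x) ∈ A ∨ ∀ p ∈ A, G.Adj p.2 x

open Classical in
noncomputable def Fk (m : ℕ) (x y : V) : ℕ → Finset (ℕ × V) → List (ℕ × V) → ℝ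
  | 0, _, _ => 0
  | k + 1, A, mem => if PZ G x A then 0 else if PZ G y A then 1 else
      (∑ p ∈ D.Al m A mem, Fk m x y k (A.erase p) (p :: mem)) / (D.Al m A mem).card

noncomputable def F (m : ℕ) (x y : V) (A : Finset (ℕ × V)) (mem : List (ℕ × V)) : ℝ :=
  D.Fk m x y A.card A mem

open Classical in
lemma F_eq (m : ℕ) (x y : V) (A : Finset (ℕ × V)) (mem : List (ℕ × V)) :
    D.F m x y A mem = if PZ G x A then 0 else if PZ G y A then 1 else
      (∑ p ∈ D.Al m A mem, D.F m x y (A.erase p) (p :: mem)) / (D.Al m A mem).card := by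
  unfold F
  rcases h : A.card with _ | k
  · rw [Finset.card_eq_zero] at h
    rw [if_pos (show PZ G x A from Or.inr (by simp [h]))]; rfl
  · rw [Fk]
    congr 3
    refine Finset.sum_congr rfl fun p hp => ?_
    rw [Finset.card_erase_of_mem (mem_Al.1 hp).1.1, h]; rfl

lemma F_mem (m : ℕ) (x y : V) (k : ℕ) : ∀ (A : Finset (ℕ × V)) (mem : List (ℕ × V)),
    A.card = k → 0 ≤ D.F m x y A mem ∧ D.F m x y A mem ≤ 1 := by
  induction k using Nat.strong_induction_on with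
  | _ k ih =>
    intro A mem hk
    rw [F_eq]
    split_ifs
    · simp
    · simp
    · have h : ∀ p ∈ D.Al m A mem, 0 ≤ D.F m x y (A.erase p) (p :: mem) ∧
          D.F m x y (A.erase p) (p :: mem) ≤ 1 := fun p hp =>
        ih _ (hk ▸ Finset.card_erase_lt_of_mem (mem_Al.1 hp).1.1) _ _ rfl
      refine ⟨div_nonneg (Finset.sum_nonneg fun p hp => (h p hp).1) (by positivity), ?_⟩
      apply div_le_one_of_le₀ _ (by positivity)
      simpa using Finset.sum_le_card_nsmul _ _ 1 fun p hp => (h p hp).2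

lemma F_bisim (m : ℕ) (x y : V) (R : Finset (ℕ × V) → List (ℕ × V) → List (ℕ × V) → Prop)
    (h1 : ∀ A l l', R A l l' → D.Al m A l = D.Al m A l')
    (h2 : ∀ A l l', R A l l' → ∀ p ∈ D.Al m A l, R (A.erase p) (p :: l) (p :: l')) (k : ℕ) :
    ∀ A l l', A.card = k → R A l l' → D.F m x y A l = D.F m x y A l' := by
  induction k using Nat.strong_induction_on with
  | _ k ih =>
    intro A l l' hk h
    rw [F_eq, D.F_eq m x y A l', ← h1 A l l' h]
    congr 3
    exact Finset.sum_congr rfl fun p hp =>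
      ih _ (hk ▸ Finset.card_erase_lt_of_mem (mem_Al.1 hp).1.1) _ _ _ rfl (h2 A l l' h p hp)

lemma F_take (m : ℕ) (x y : V) (A : Finset (ℕ × V)) {l l' : List (ℕ × V)}
    (h : l.take m = l'.take m) : D.F m x y A l = D.F m x y A l' := by
  refine D.F_bisim m x y (fun _ l l' => l.take m = l'.take m) ?_ ?_ _ A l l' rfl h
  · intro A l l' h
    unfold Al; rw [h]
  · intro A l l' h p _
    rcases m with _ | m
    · simp
    · simp only [List.take_succ_cons, List.cons.injEq, true_and]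
      have := congrArg (List.take m) h
      simpa [List.take_take] using this

def Harm (m ω : ℕ) (f : Finset (ℕ × V) → List (ℕ × V) → ℝ) : Prop :=
  ∀ A mem, Normal G A → ω + 1 < A.card →
    ((D.Al m A mem).card : ℝ) * f A mem = ∑ p ∈ D.Al m A mem, f (A.erase p) (p :: mem)

lemma PZ.erase {x : V} {A : Finset (ℕ × V)} (hA : Normal G A) (h : PZ G x A) {p : ℕ × V}
    (hp : IsMx G A p) : PZ G x (A.erase p) := by
  rcases h with h | h
  · by_cases e : p = (0, x)
    · right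
      intro q hq
      rw [Finset.mem_erase] at hq
      subst e
      rcases Nat.eq_zero_or_pos q.1 with h0 | h0
      · exact hA.1 q hq.2 _ h h0 fun e => hq.1 (Prod.ext h0 e)
      · exact hp.2 q hq.2 h0
    · exact Or.inl (Finset.mem_erase.2 ⟨Ne.symm e, h⟩)
  · exact Or.inr fun q hq => h q (Finset.mem_of_mem_erase hq)

lemma PZ.both {ω : ℕ} (hω : ClB G ω) (hs : NoSq G) {x y : V} (hxy : x ≠ y) (hn : ¬ G.Adj x y)
    {A : Finset (ℕ × V)} (hA : Normal G A) (h : PZ G x A) (h' : PZ G y A) : A.card ≤ ω := by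
  rcases h with h | h <;> rcases h' with h' | h'
  · exact absurd (hA.1 _ h _ h' rfl hxy) hn
  · exact absurd (h' _ h) hn
  · exact absurd (h _ h').symm hn
  · have := pair_of hA (Low.refl A) (A' := ∅) ⟨by simp, by simp⟩
    rw [Finset.sdiff_empty] at this
    exact hω.card_le (this fun p hp q hq e =>
      hs x y p.2 q.2 hxy hn (h p hp) (h' p hp) (h q hq) (h' q hq) e)

lemma F_harm {ω : ℕ} (hω : ClB G ω) (hs : NoSq G) (m : ℕ) {x y : V} (hxy : x ≠ y)
    (hn : ¬ G.Adj x y) : D.Harm m ω (D.F m x y) := by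
  intro A mem hA hc
  by_cases h0 : PZ G x A
  · rw [F_eq, if_pos h0, mul_zero]
    refine (Finset.sum_eq_zero fun p hp => ?_).symm
    rw [F_eq, if_pos (h0.erase hA (mem_Al.1 hp).1)]
  by_cases h1 : PZ G y A
  · rw [F_eq, if_neg h0, if_pos h1, mul_one, Finset.card_eq_sum_ones, Nat.cast_sum]
    refine Finset.sum_congr rfl fun p hp => ?_
    have hp' := (mem_Al.1 hp).1
    have h2 := h1.erase hA hp'
    rw [F_eq, if_neg, if_pos h2, Nat.cast_one]
    intro h3
    have := h3.both hω hs hxy hn (hA.erase hp') h2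
    rw [Finset.card_erase_of_mem hp'.1] at this
    omega
  · rw [F_eq, if_neg h0, if_neg h1]
    obtain ⟨p, hp⟩ := D.exists_al m (Finset.card_pos.1 (by omega : 0 < A.card))
    have : (0 : ℝ) < (D.Al m A mem).card := by
      exact_mod_cast Finset.card_pos.2 ⟨p, hp mem⟩
    field_simp

variable {D}

lemma Harm.affine {m ω : ℕ} {f : Finset (ℕ × V) → List (ℕ × V) → ℝ} (h : D.Harm m ω f)
    (a b : ℝ) : D.Harm m ω fun A l => a * f A l + b := by
  intro A mem hA hc
  rw [Finset.sum_add_distrib, ← Finset.mul_sum, ← h A mem hA hc]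
  simp; ring

variable (D) in
def Vl (m : ℕ) (A : Finset (ℕ × V)) (mem H : List (ℕ × V)) : Prop :=
  ∀ l1 p l2, H = l1 ++ p :: l2 → p ∈ D.Al m (A \ l2.toFinset) (l2 ++ mem)

variable (G) in
def Hs (A : Finset (ℕ × V)) (H : List (ℕ × V)) : Prop :=
  ∀ l1 p l2, H = l1 ++ p :: l2 → IsMx G (A \ l2.toFinset) p

lemma dec_cons {α : Type} {P : α → List α → Prop} {p : α} {H : List α} :
    (∀ l1 q l2, p :: H = l1 ++ q :: l2 → P q l2) ↔
      P p H ∧ ∀ l1 q l2, H = l1 ++ q :: l2 → P q l2 := by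
  constructor
  · intro h
    exact ⟨h [] p H rfl, fun l1 q l2 e => h (p :: l1) q l2 (by simp [e])⟩
  · rintro ⟨h1, h2⟩ l1 q l2 e
    rcases l1 with _ | ⟨a, l1⟩
    · simp only [List.nil_append, List.cons.injEq] at e
      rw [← e.1, ← e.2]; exact h1
    · simp only [List.cons_append, List.cons.injEq] at e
      exact h2 l1 q l2 e.2

lemma vl_nil (m : ℕ) (A : Finset (ℕ × V)) (mem : List (ℕ × V)) : D.Vl m A mem [] := by
  intro l1 p l2 h; simp at h

lemma vl_cons {m : ℕ} {A : Finset (ℕ × V)} {mem H : List (ℕ × V)} {p : ℕ × V} :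
    D.Vl m A mem (p :: H) ↔ p ∈ D.Al m (A \ H.toFinset) (H ++ mem) ∧ D.Vl m A mem H :=
  dec_cons (P := fun p l2 => p ∈ D.Al m (A \ l2.toFinset) (l2 ++ mem))

lemma hs_cons {A : Finset (ℕ × V)} {H : List (ℕ × V)} {p : ℕ × V} :
    Hs G A (p :: H) ↔ IsMx G (A \ H.toFinset) p ∧ Hs G A H :=
  dec_cons (P := fun p l2 => IsMx G (A \ l2.toFinset) p)

lemma Vl.hs {m : ℕ} {A : Finset (ℕ × V)} {mem H : List (ℕ × V)} (h : D.Vl m A mem H) :
    Hs G A H := fun l1 p l2 e => (mem_Al.1 (h l1 p l2 e)).1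

lemma sdiff_cons (A : Finset (ℕ × V)) (p : ℕ × V) (H : List (ℕ × V)) :
    A \ (p :: H).toFinset = (A \ H.toFinset).erase p := by
  ext q; simp only [List.toFinset_cons, Finset.mem_sdiff, Finset.mem_insert, Finset.mem_erase]
  tauto

lemma sdiff_append (A : Finset (ℕ × V)) (L H : List (ℕ × V)) :
    A \ (L ++ H).toFinset = (A \ H.toFinset) \ L.toFinset := by
  ext q; simp only [List.toFinset_append, Finset.mem_sdiff, Finset.mem_union]
  tauto

lemma Hs.low {A : Finset (ℕ × V)} {H : List (ℕ × V)} (h : Hs G A H) :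
    Low G (A \ H.toFinset) A ∧ (A \ H.toFinset).card + H.length = A.card := by
  induction H with
  | nil => simpa using Low.refl A
  | cons p H ih =>
    obtain ⟨h1, h2⟩ := hs_cons.1 h
    obtain ⟨h3, h4⟩ := ih h2
    rw [sdiff_cons, Finset.card_erase_of_mem h1.1, List.length_cons]
    have := Finset.card_pos.2 ⟨p, h1.1⟩
    exact ⟨h1.low.trans h3, by omega⟩

lemma Hs.mem {A : Finset (ℕ × V)} {H : List (ℕ × V)} (h : Hs G A H) {p : ℕ × V} (hp : p ∈ H) :
    p ∈ A := by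
  obtain ⟨l1, l2, e⟩ := List.append_of_mem hp
  exact (Finset.mem_sdiff.1 (h l1 p l2 e).1).1

lemma Vl.append {m : ℕ} {A : Finset (ℕ × V)} {mem H L : List (ℕ × V)} (h : D.Vl m A mem H)
    (h' : D.Vl m (A \ H.toFinset) (H ++ mem) L) : D.Vl m A mem (L ++ H) := by
  induction L with
  | nil => exact h
  | cons p L ih =>
    obtain ⟨h1, h2⟩ := vl_cons.1 h'
    rw [List.cons_append, vl_cons, sdiff_append, List.append_assoc]
    exact ⟨h1, ih h2⟩

variable (D) in
lemma exists_run (m r : ℕ) {X : Finset (ℕ × V)} (h : r ≤ X.card) :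
    ∃ L : List (ℕ × V), L.length = r ∧ ∀ mem, D.Vl m X mem L := by
  induction r with
  | zero => exact ⟨[], rfl, fun mem => vl_nil m X mem⟩
  | succ r ih =>
    obtain ⟨L, h1, h2⟩ := ih (by omega)
    have h3 := (h2 []).hs.low.2
    obtain ⟨p, hp⟩ := D.exists_al m (Finset.card_pos.1 (by omega : 0 < (X \ L.toFinset).card))
    exact ⟨p :: L, by simp [h1], fun mem => vl_cons.2 ⟨hp _, h2 mem⟩⟩

lemma Harm.const {m ω : ℕ} {f : Finset (ℕ × V) → List (ℕ × V) → ℝ} (hf : D.Harm m ω f)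
    {A : Finset (ℕ × V)} (hA : Normal G A) (mem : List (ℕ × V)) {v : ℝ} (t : ℕ)
    (ht : ω + 1 + t ≤ A.card)
    (h : ∀ H, H.length = t → D.Vl m A mem H → f (A \ H.toFinset) (H ++ mem) = v) :
    f A mem = v := by
  induction t with
  | zero => simpa using h [] rfl (vl_nil m A mem)
  | succ t ih =>
    refine ih (by omega) fun H h1 h2 => ?_
    obtain ⟨h3, h4⟩ := h2.hs.low
    have h5 := hf _ (H ++ mem) (h3.normal hA) (by omega)
    rw [Finset.sum_congr rfl (g := fun _ => v) fun p hp => by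
      rw [← sdiff_cons]; exact h (p :: H) (by simp [h1]) (vl_cons.2 ⟨hp, h2⟩)] at h5
    obtain ⟨p, hp⟩ := D.exists_al m (Finset.card_pos.1 (by omega : 0 < (A \ H.toFinset).card))
    have : (0 : ℝ) < (D.Al m (A \ H.toFinset) (H ++ mem)).card := by
      exact_mod_cast Finset.card_pos.2 ⟨p, hp _⟩
    rw [Finset.sum_const, nsmul_eq_mul] at h5
    exact mul_left_cancel₀ this.ne' h5

lemma Harm.nonneg {m ω : ℕ} {f : Finset (ℕ × V) → List (ℕ × V) → ℝ} (hf : D.Harm m ω f)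
    {B : Finset (ℕ × V)} (hB : Normal G B) {k : ℕ} (hk : ω + 1 ≤ k)
    (h : ∀ A mem, Low G A B → A.card = k → 0 ≤ f A mem) (t : ℕ) :
    ∀ A mem, Low G A B → A.card = k + t → 0 ≤ f A mem := by
  induction t with
  | zero => exact h
  | succ t ih =>
    intro A mem h1 h2
    have h5 := hf A mem (h1.normal hB) (by omega)
    obtain ⟨p, hp⟩ := D.exists_al m (Finset.card_pos.1 (by omega : 0 < A.card))
    have : (0 : ℝ) < (D.Al m A mem).card := by
      exact_mod_cast Finset.card_pos.2 ⟨p, hp _⟩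
    refine nonneg_of_mul_nonneg_right ?_ this
    rw [h5]
    refine Finset.sum_nonneg fun p hp => ih _ _ ((mem_Al.1 hp).1.low.trans h1) ?_
    rw [Finset.card_erase_of_mem (mem_Al.1 hp).1.1]; omega

lemma Harm.path {m ω : ℕ} (hω : ClB G ω) {f : Finset (ℕ × V) → List (ℕ × V) → ℝ}
    (hf : D.Harm m ω f) {B : Finset (ℕ × V)} (hB : Normal G B) {k : ℕ} (hk : ω + 1 ≤ k)
    (h : ∀ A mem, Low G A B → A.card = k → 0 ≤ f A mem) {A : Finset (ℕ × V)} (hA : Low G A B)
    (mem : List (ℕ × V)) (H : List (ℕ × V)) (hc : k + H.length ≤ A.card) (hH : D.Vl m A mem H) :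
    f (A \ H.toFinset) (H ++ mem) ≤ (ω : ℝ) ^ H.length * f A mem := by
  induction H with
  | nil => simp
  | cons p H ih =>
    obtain ⟨h1, h2⟩ := vl_cons.1 hH
    rw [List.length_cons] at hc
    have h3 := ih (by omega) h2
    obtain ⟨h4, h5⟩ := h2.hs.low
    have h6 := h4.trans hA
    have h7 := hf _ (H ++ mem) (h6.normal hB) (by omega)
    have h8 : f ((A \ H.toFinset).erase p) (p :: (H ++ mem)) ≤
        ∑ p ∈ D.Al m (A \ H.toFinset) (H ++ mem), f ((A \ H.toFinset).erase p) (p :: (H ++ mem)) := by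
      refine Finset.single_le_sum (f := fun p => f ((A \ H.toFinset).erase p) (p :: (H ++ mem)))
        (fun q hq => ?_) h1
      refine hf.nonneg hB hk h ((A \ H.toFinset).card - 1 - k) _ _
        ((mem_Al.1 hq).1.low.trans h6) ?_
      rw [Finset.card_erase_of_mem (mem_Al.1 hq).1.1]; omega
    have h9 := hf.nonneg hB hk h ((A \ H.toFinset).card - k) _ (H ++ mem) h6 (by omega)
    have h10 : ((D.Al m (A \ H.toFinset) (H ++ mem)).card : ℝ) ≤ ω := by
      exact_mod_cast D.card_Al hω m (h6.normal hB) _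
    rw [sdiff_cons, List.cons_append, List.length_cons, pow_succ]
    have : (0 : ℝ) ≤ ω := by positivity
    nlinarith

end LD

end Pool.Agent.Lib.MP_845f45_al
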