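import Pool.Agent.Lib.MP_845f45_al.Proc

namespace Pool.Agent.Lib.MP_845f45_al

variable {V : Type} [DecidableEq V] {G : SimpleGraph V} {c : ℕ} {N : ℕ → ℕ}

variable (G) in
noncomputable def Lay (U : Finset (ℕ × V)) : ℕ → Finset (ℕ × V)
  | 0 => U
  | r + 1 => Lay U r \ Mx G (Lay U r)

lemma lay_low (U : Finset (ℕ × V)) {i j : ℕ} (h : i ≤ j) : Low G (Lay G U j) (Lay G U i) := by
  induction h with
  | refl => exact Low.refl _
  | step _ ih => exact (low_Mx _).trans ih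

lemma lay_mx {U : Finset (ℕ × V)} {j : ℕ} {p : ℕ × V} (h : p ∈ Lay G U j)
    (h' : p ∉ Lay G U (j + 1)) : IsMx G (Lay G U j) p := by
  by_contra e
  exact h' (Finset.mem_sdiff.2 ⟨h, fun e' => e (mem_Mx.1 e')⟩)

lemma lay_exists {U : Finset (ℕ × V)} {p : ℕ × V} (h : p ∈ U) {j : ℕ} (h' : p ∉ Lay G U j) :
    ∃ i, i < j ∧ IsMx G (Lay G U i) p := by
  induction j with
  | zero => exact absurd h h'
  | succ j ih =>
    by_cases e : p ∈ Lay G U j
    · exact ⟨j, by omega, lay_mx e h'⟩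
    · obtain ⟨i, h1, h2⟩ := ih e
      exact ⟨i, by omega, h2⟩

lemma lay_card {ω : ℕ} (hω : ClB G ω) {U : Finset (ℕ × V)} (hU : Normal G U) (j : ℕ) :
    U.card ≤ (Lay G U j).card + ω * j := by
  induction j with
  | zero => exact le_rfl
  | succ j ih =>
    have h1 := card_Mx hω ((lay_low U (Nat.zero_le j)).normal hU)
    have h2 := Finset.le_card_sdiff (Mx G (Lay G U j)) (Lay G U j)
    rw [Lay, mul_add]
    omega

lemma lay_sub {U A : Finset (ℕ × V)} (h : Low G A U) (j : ℕ) :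
    (Lay G U j \ A).card ≤ (U \ A).card - j := by
  induction j with
  | zero => exact le_rfl
  | succ j ih =>
    by_cases e : (Lay G U j \ A).Nonempty
    · obtain ⟨p, h1, h2⟩ := h.exists_mx (lay_low U (Nat.zero_le j)).1 e
      have : Lay G U (j + 1) \ A ⊆ (Lay G U j \ A).erase p := by
        intro q hq
        simp only [Lay, Finset.mem_sdiff, Finset.mem_erase] at hq ⊢
        exact ⟨fun e => hq.1.2 (e ▸ mem_Mx.2 h2), hq.1.1, hq.2⟩
      have := Finset.card_le_card this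
      rw [Finset.card_erase_of_mem (Finset.mem_sdiff.2 ⟨h2.1, h1⟩)] at this
      omega
    · rw [Finset.not_nonempty_iff_eq_empty] at e
      have : Lay G U (j + 1) \ A ⊆ Lay G U j \ A :=
        Finset.sdiff_subset_sdiff (lay_low U (Nat.le_succ j)).1 subset_rfl
      rw [e, Finset.subset_empty] at this
      simp [this]

namespace LD

variable {D : LD G c N}

lemma game_step {ω m : ℕ} {U A : Finset (ℕ × V)} (hU : Normal G U) (hA : A ⊆ U)
    (hA' : Lay G U ω ⊆ A) {mem H : List (ℕ × V)} (hH : Hs G A H) (hm : H.length ≤ m)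
    (hne : ((A \ H.toFinset) \ Lay G U (ω + 1)).Nonempty) :
    ∃ s, s ∉ Lay G U (ω + 1) ∧ s ∈ D.Al m (A \ H.toFinset) (H ++ mem) := by
  classical
  set X := A \ H.toFinset with hX
  have hXU : X ⊆ U := Finset.sdiff_subset.trans hA
  have hex : ∃ j, (X \ Lay G U (j + 1)).Nonempty := ⟨ω, hne⟩
  have hj : Nat.find hex ≤ ω := Nat.find_min' hex hne
  obtain ⟨s, hs⟩ := Nat.find_spec hex
  have hXj : X ⊆ Lay G U (Nat.find hex) := by
    rcases h : Nat.find hex with _ | j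
    · exact hXU
    · have := Nat.find_min hex (m := j) (by omega)
      rwa [Finset.not_nonempty_iff_eq_empty, Finset.sdiff_eq_empty_iff_subset] at this
  set j := Nat.find hex
  rw [Finset.mem_sdiff] at hs
  have hs1 := lay_mx (hXj hs.1) hs.2
  have hs2 : IsMx G X s := hs1.mono hXj hs.1
  have hs3 : s ∉ Lay G U (ω + 1) := fun e => hs.2 ((lay_low U (by omega)).1 e)
  obtain ⟨g, hg, hg'⟩ := D.exists_best (G := G) ⟨s, hs.1⟩
  by_cases e : g ∈ Lay G U (ω + 1)
  swap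
  · exact ⟨g, e, mem_Al.2 ⟨hg, Or.inl fun t ht => (hg' t ht).trans (Nat.le_add_right _ _)⟩⟩
  refine ⟨s, hs3, mem_Al.2 ⟨hs2, ?_⟩⟩
  have hUω := lay_low (G := G) U (Nat.zero_le ω)
  obtain ⟨e1, e2⟩ := Finset.mem_sdiff.1 e
  have e3 : ∃ q ∈ Lay G U ω, g.1 < q.1 ∧ ¬ G.Adj q.2 g.2 := by
    by_contra hc
    push Not at hc
    exact e2 (mem_Mx.2 ⟨e1, hc⟩)
  obtain ⟨q, q1, q2, q3⟩ := e3
  obtain ⟨l, l1, l2, l3, l4⟩ := (hUω.normal hU).sep e1 q1 q2 q3
  have l5 : l ∈ H := by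
    by_contra hc
    exact l4 (hg.2 l (Finset.mem_sdiff.2 ⟨hA' l1, by simpa using hc⟩) l2)
  have jU := (lay_low (G := G) U (Nat.zero_le j)).1
  have k1 : ∀ w ∈ H, w ∈ Lay G U j → G.Adj w.2 s.2 := by
    intro w hw hw'
    obtain ⟨a, b, hab⟩ := List.append_of_mem hw
    have hsH : s ∉ H := by simpa using (Finset.mem_sdiff.1 hs.1).2
    refine hU.ord jU hs1 hw' (hH a w b hab) (Finset.mem_sdiff.2 ⟨(Finset.mem_sdiff.1 hs.1).1, ?_⟩)
      fun e => hsH (e ▸ hw)
    rw [List.mem_toFinset]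
    exact fun e => hsH (by simp [hab, e])
  have k2 := k1 l l5 ((lay_low U hj).1 l1)
  have k3 : G.Adj g.2 s.2 := hU.ord hXU hs2 hg.1 hg hs.1 fun e' => hs3 (e' ▸ e)
  have k4 := D.CL s.2 l.2 g.2 l3 l4 k2.symm k3.symm
  by_cases k5 : D.ρ g.2 ≤ D.ρ s.2 + c
  · exact Or.inl fun t ht => by have := hg' t ht; omega
  right
  rw [List.take_append, List.take_of_length_le hm]
  apply Cap.append
  obtain ⟨a, b, hab⟩ := List.append_of_mem l5
  refine ⟨a, l, b, hab, by omega, fun w hw => ?_⟩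
  have k6 := D.L3 _ _ k2.symm
  rcases List.mem_cons.1 hw with rfl | hw
  · omega
  have hwH : w ∈ H := by simp [hab, hw]
  by_cases k7 : w ∈ Lay G U j
  · have := D.L3 _ _ (k1 w hwH k7).symm
    omega
  obtain ⟨i, i1, i2⟩ := lay_exists (hA (hH.mem hwH)) k7
  obtain ⟨a1, a2, ha⟩ := List.append_of_mem hw
  have k8 := (hH a1 w (a2 ++ l :: b) (by simp [hab, ha])).1
  simp only [Finset.mem_sdiff, List.mem_toFinset, List.mem_append, List.mem_cons, not_or] at k8
  have k9 : G.Adj l.2 w.2 := hU.ord (lay_low U (Nat.zero_le i)).1 i2 ((lay_low U (by omega)).1 l1)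
    (hH a l b hab) (Finset.mem_sdiff.2 ⟨k8.1, by simpa using k8.2.2.2⟩) (Ne.symm k8.2.2.1)
  have := D.L3 _ _ k9
  have := D.L2 s.2 l.2 w.2
  omega

lemma game {ω m : ℕ} {U A : Finset (ℕ × V)} (hU : Normal G U) (hA : A ⊆ U)
    (hA' : Lay G U ω ⊆ A) (hm : A.card ≤ (Lay G U (ω + 1)).card + m) (mem : List (ℕ × V)) :
    ∃ H, D.Vl m A mem H ∧ A \ H.toFinset = Lay G U (ω + 1) := by
  have h0 : Lay G U (ω + 1) ⊆ A := (lay_low U (Nat.le_succ ω)).1.trans hA'
  have key : ∀ t, (Lay G U (ω + 1)).card + t ≤ A.card → ∃ H : List (ℕ × V), H.length = t ∧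
      D.Vl m A mem H ∧ Lay G U (ω + 1) ⊆ A \ H.toFinset := by
    intro t
    induction t with
    | zero => exact fun _ => ⟨[], rfl, vl_nil _ _ _, by simpa using h0⟩
    | succ t ih =>
      intro ht
      obtain ⟨H, h1, h2, h3⟩ := ih (by omega)
      have h4 := h2.hs.low.2
      obtain ⟨s, s1, s2⟩ := game_step (D := D) (m := m) (mem := mem) hU hA hA' h2.hs (by omega)
        (by rw [← Finset.card_pos, Finset.card_sdiff_of_subset h3]; omega)
      refine ⟨s :: H, by simp [h1], vl_cons.2 ⟨s2, h2⟩, ?_⟩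
      rw [sdiff_cons]
      exact fun q hq => Finset.mem_erase.2 ⟨fun e => s1 (e ▸ hq), h3 hq⟩
  have h5 := Finset.card_le_card h0
  obtain ⟨H, h1, h2, h3⟩ := key (A.card - (Lay G U (ω + 1)).card) (by omega)
  have h4 := h2.hs.low.2
  exact ⟨H, h2, (Finset.eq_of_subset_of_card_le h3 (by omega)).symm⟩

lemma couple {ω : ℕ} (hω : ClB G ω) (hs : NoSq G) {B A A' : Finset (ℕ × V)} (hB : Normal G B)
    (hA : Low G A B) (hA' : Low G A' B) (hc : A.card = A'.card)
    (hl : 2 * (ω * (ω + 1)) ≤ A.card) (mem mem' : List (ℕ × V)) :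
    ∃ H H' : List (ℕ × V), H.length = 2 * (ω * (ω + 1)) ∧ H'.length = 2 * (ω * (ω + 1)) ∧
      D.Vl (ω * (ω + 1)) A mem H ∧ D.Vl (ω * (ω + 1)) A' mem' H' ∧
      A \ H.toFinset = A' \ H'.toFinset ∧
      (H ++ mem).take (ω * (ω + 1)) = (H' ++ mem').take (ω * (ω + 1)) := by
  have hU := hA.union hA'
  have hN := hU.normal hB
  have key : ∀ X X', Low G X B → Low G X' B → X.card = X'.card → X ∪ X' = A ∪ A' → ∀ mem,
      ∃ H, D.Vl (ω * (ω + 1)) X mem H ∧ X \ H.toFinset = Lay G (A ∪ A') (ω + 1) := by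
    intro X X' h1 h2 h3 h4 mem
    have h5 : X ⊆ A ∪ A' := h4 ▸ Finset.subset_union_left
    refine game hN h5 ?_ ((Finset.card_le_card h5).trans (lay_card hω hN _)) mem
    have h6 := lay_sub (h1.of_subset h5 hU.1) ω
    have h7 := diff_card hω hs hB h2 h1 h3.symm
    have h8 : (A ∪ A') \ X = X' \ X := by rw [← h4, Finset.union_sdiff_left]
    rw [h8] at h6
    rw [← Finset.sdiff_eq_empty_iff_subset, ← Finset.card_eq_zero]
    omega
  obtain ⟨H, h1, h2⟩ := key A A' hA hA' hc rfl mem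
  obtain ⟨H', h3, h4⟩ := key A' A hA' hA hc.symm (Finset.union_comm _ _) mem'
  have h5 := h1.hs.low.2
  have h6 := h3.hs.low.2
  have h7 := lay_card hω hN (ω + 1)
  have h8 := Finset.card_le_card (Finset.subset_union_left (s₁ := A) (s₂ := A'))
  rw [h2] at h5
  rw [h4] at h6
  obtain ⟨L, l1, l2⟩ := D.exists_run (ω * (ω + 1)) (2 * (ω * (ω + 1)) - H.length)
    (X := Lay G (A ∪ A') (ω + 1)) (by omega)
  refine ⟨L ++ H, L ++ H', by rw [List.length_append]; omega, by rw [List.length_append]; omega,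
    h1.append (h2 ▸ l2 _), h3.append (h4 ▸ l2 _), by rw [sdiff_append, sdiff_append, h2, h4], ?_⟩
  rw [List.append_assoc, List.append_assoc, List.take_append_of_le_length (by omega),
    List.take_append_of_le_length (by omega)]

variable (D) in
def Osc (m : ℕ) (x y : V) (B : Finset (ℕ × V)) (k : ℕ) (r : ℝ) : Prop :=
  ∀ A A' mem mem', Low G A B → Low G A' B → A.card = k → A'.card = k →
    D.F m x y A mem - D.F m x y A' mem' ≤ r

lemma osc_step {ω : ℕ} (hω : ClB G ω) (hs : NoSq G) {x y : V} (hxy : x ≠ y) (hn : ¬ G.Adj x y)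
    {B : Finset (ℕ × V)} (hB : Normal G B) {k : ℕ} (hk : ω + 1 ≤ k) {r : ℝ} (h0 : 0 < ω)
    (h : D.Osc (ω * (ω + 1)) x y B k r) : D.Osc (ω * (ω + 1)) x y B (k + 2 * (ω * (ω + 1)))
      ((1 - 1 / (ω : ℝ) ^ (2 * (ω * (ω + 1)))) * r) := by
  intro A A' mem mem' hA hA' c1 c2
  obtain ⟨H, H', h1, h2, h3, h4, h5, h6⟩ := couple (D := D) hω hs hB hA hA' (c1.trans c2.symm)
    (by omega) mem mem'
  set m := ω * (ω + 1)
  have hF := D.F_harm hω hs m hxy hn
  obtain ⟨e1, e2⟩ := h3.hs.low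
  set S := {v | ∃ X l, Low G X B ∧ X.card = k ∧ v = D.F m x y X l}
  have hS : S.Nonempty := ⟨_, A \ H.toFinset, H ++ mem, e1.trans hA, by omega, rfl⟩
  have hb : BddBelow S := ⟨0, by rintro _ ⟨X, l, -, -, rfl⟩; exact (D.F_mem m x y _ X l rfl).1⟩
  have p1 := (hF.affine 1 (- sInf S)).path hω hB hk (fun X l a b => by
    have := csInf_le hb ⟨X, l, a, b, rfl⟩; linarith) hA' mem' H' (by omega) h4
  have p2 := (hF.affine (-1) (sInf S + r)).path hω hB hk (fun X l a b => by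
    have : D.F m x y X l - r ≤ sInf S := le_csInf hS (by
      rintro _ ⟨X', l', a', b', rfl⟩
      have := h X X' l l' a a' b b'; linarith)
    linarith) hA mem H (by omega) h3
  rw [h2, ← h5, ← D.F_take m x y _ h6] at p1
  rw [h1] at p2
  have : (0 : ℝ) < (ω : ℝ) ^ (2 * m) := by positivity
  have e3 : r ≤ (ω : ℝ) ^ (2 * m) * (r - (D.F m x y A mem - D.F m x y A' mem')) := by linarith
  rw [← div_le_iff₀' this] at e3
  rw [sub_mul, one_mul, div_mul_eq_mul_div, one_mul]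
  linarith

lemma osc_pow {ω : ℕ} (hω : ClB G ω) (hs : NoSq G) {x y : V} (hxy : x ≠ y) (hn : ¬ G.Adj x y)
    {B : Finset (ℕ × V)} (hB : Normal G B) (h0 : 0 < ω) (j : ℕ) :
    ∀ k, ω + 1 + j * (2 * (ω * (ω + 1))) ≤ k →
      D.Osc (ω * (ω + 1)) x y B k ((1 - 1 / (ω : ℝ) ^ (2 * (ω * (ω + 1)))) ^ j) := by
  induction j with
  | zero =>
    intro k _ A A' mem mem' _ _ _ _
    have := (D.F_mem (ω * (ω + 1)) x y _ A mem rfl).2
    have := (D.F_mem (ω * (ω + 1)) x y _ A' mem' rfl).1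
    rw [pow_zero]; linarith
  | succ j ih =>
    intro k hk
    rw [add_mul] at hk
    have := osc_step hω hs hxy hn hB (by omega) h0 (ih (k - 2 * (ω * (ω + 1))) (by omega))
    rwa [Nat.sub_add_cancel (by omega), ← pow_succ'] at this

lemma edge_le {ω : ℕ} (hω : ClB G ω) (hs : NoSq G) {x y : V} (hxy : x ≠ y) (hn : ¬ G.Adj x y)
    {B : Finset (ℕ × V)} (hB : Normal G B) (h0 : 0 < ω) {j : ℕ}
    (hj : ω + 2 + j * (2 * (ω * (ω + 1))) ≤ B.card) {p : ℕ × V} (hp : IsMx G B p) :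
    |D.F (ω * (ω + 1)) x y B [] - D.F (ω * (ω + 1)) x y (B.erase p) []| ≤
      (1 - 1 / (ω : ℝ) ^ (2 * (ω * (ω + 1)))) ^ j := by
  have h1 := osc_pow (D := D) hω hs hxy hn hB h0 j (B.card - 1) (by omega)
  set m := ω * (ω + 1)
  set r := (1 - 1 / (ω : ℝ) ^ (2 * m)) ^ j
  have hF := D.F_harm hω hs m hxy hn
  have c1 : (B.erase p).card = B.card - 1 := Finset.card_erase_of_mem hp.1
  have p1 := (hF.affine 1 (r - D.F m x y (B.erase p) [])).nonneg hB (k := B.card - 1) (by omega)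
    (fun X l a b => by have := h1 _ X [] l hp.low a c1 b; linarith) 1 B [] (Low.refl B) (by omega)
  have p2 := (hF.affine (-1) (r + D.F m x y (B.erase p) [])).nonneg hB (k := B.card - 1) (by omega)
    (fun X l a b => by have := h1 X _ l [] a hp.low b c1; linarith) 1 B [] (Low.refl B) (by omega)
  rw [abs_le]
  constructor <;> linarith

end LD

end Pool.Agent.Lib.MP_845f45_al
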