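import Pool.Agent.Lib.MP_845f45_al.Proc2

namespace Pool.Agent.Lib.MP_845f45_al

variable {V : Type} [DecidableEq V] {G : SimpleGraph V} {c : ℕ} {N : ℕ → ℕ}

namespace LD

lemma swap1 {B : Finset (ℕ × V)} (hB : Normal G B) {H H' l1 l2 a1 a2 : List (ℕ × V)}
    {x w : ℕ × V} (hH : Hs G B H) (hH' : Hs G B H') (e : H = l1 ++ x :: l2) (hw : w ∈ l1)
    (e' : H' = a1 ++ w :: a2) (hx : x ∉ a2) : G.Adj w.2 x.2 := by
  obtain ⟨b1, b2, hb⟩ := List.append_of_mem hw
  have k := (hH b1 w (b2 ++ x :: l2) (by simp [e, hb])).1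
  simp only [Finset.mem_sdiff, List.mem_toFinset, List.mem_append, List.mem_cons, not_or] at k
  have k2 := hH l1 x l2 e
  exact hB.ord Finset.sdiff_subset k2 (Finset.mem_sdiff.2 ⟨k.1, by simpa using k.2.2.2⟩)
    (hH' a1 w a2 e') (Finset.mem_sdiff.2 ⟨(Finset.mem_sdiff.1 k2.1).1, by simpa using hx⟩) k.2.2.1

lemma swap2 {B X : Finset (ℕ × V)} (hB : Normal G B) {H : List (ℕ × V)} {b w : ℕ × V}
    (hH : Hs G B H) (hw : w ∈ H) (hb : b ∉ H) (hX : X ⊆ B) (h1 : IsMx G X b) (h2 : w ∈ X) :
    G.Adj w.2 b.2 := by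
  obtain ⟨a1, a2, e⟩ := List.append_of_mem hw
  refine hB.ord hX h1 h2 (hH a1 w a2 e) (Finset.mem_sdiff.2 ⟨hX h1.1, ?_⟩) fun e => hb (e ▸ hw)
  rw [List.mem_toFinset]
  exact fun e' => hb (by simp [e, e'])

variable {D : LD G c N}

variable (D) in
def Sm (n : ℕ) (a y : V) : Prop := D.ρ a ≤ D.ρ y + n ∧ D.δ y a ≤ D.ρ y + n

omit [DecidableEq V] in
lemma Sm.near {j n : ℕ} {b y w : V} (h : D.Sm j b y) (h' : D.δ b w ≤ D.ρ b + n) :
    D.δ y w ≤ D.ρ y + (j + n + 1) := by
  have := D.L2 y b w
  have := h.1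
  have := h.2
  omega

omit [DecidableEq V] in
lemma Sm.adj {j : ℕ} {b y w : V} (h : D.Sm j b y) (h' : G.Adj w b) :
    D.δ y w ≤ D.ρ y + (j + 1) := h.near (n := 0) (D.L3 _ _ h'.symm)

lemma cap_old {B : Finset (ℕ × V)} (hB : Normal G B) {H H' : List (ℕ × V)} (hH : Hs G B H)
    (hH' : Hs G B H') {k0 l2' k1 k2 : List (ℕ × V)} {x : ℕ × V} {b y : V} {j : ℕ}
    (e0 : H' = k0 ++ l2') (e : l2' = k1 ++ x :: k2) (hx : x ∈ H) (hb : D.Sm j b y)
    (h1 : D.ρ x.2 ≤ D.ρ b + (c + 1)) (h2 : ∀ w ∈ x :: k1, D.δ b w.2 ≤ D.ρ b + (c + 1))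
    (h3 : ∀ w ∈ H, w ∉ l2' → G.Adj w.2 b) : D.Cap (j + c + 3) y H := by
  obtain ⟨l1, l2, hl⟩ := List.append_of_mem hx
  have s1 : D.Sm (j + c + 2) x.2 y :=
    ⟨by have := hb.1; omega, hb.near (h2 x List.mem_cons_self)⟩
  refine ⟨l1, x, l2, hl, by have := s1.1; omega, fun w hw => ?_⟩
  rcases List.mem_cons.1 hw with rfl | hw
  · have := s1.2; omega
  by_cases a : w ∈ l2'
  · rw [e, List.mem_append, List.mem_cons, ← or_assoc, or_comm (a := w ∈ k1), ← List.mem_cons] at a
    rcases a with a | a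
    · have := hb.near (h2 w a); omega
    · obtain ⟨a1, a2, ha⟩ := List.append_of_mem a
      have k := (hH' (k0 ++ k1) x k2 (by simp [e0, e])).1
      have := s1.adj (swap1 hB hH hH' hl hw (a1 := k0 ++ k1 ++ x :: a1) (a2 := a2)
        (by simp [e0, e, ha]) fun e' => (Finset.mem_sdiff.1 k).2 (by simp [ha, e']))
      omega
  · have := hb.adj (h3 w (by simp [hl, hw]) a)
    omega

lemma cap_new {B : Finset (ℕ × V)} (hB : Normal G B) {H H' : List (ℕ × V)} (hH : Hs G B H)
    (hH' : Hs G B H') (hl : H.length = H'.length) {y : V}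
    (hal : ∀ l1 p l2, H' = l1 ++ p :: l2 →
      p ∈ H ∨ D.Top (B \ l2.toFinset) p ∨ D.Cap (c + 1) p.2 l2) (n : ℕ) :
    ∀ l1' b l2' j, l2'.length = n → H' = l1' ++ b :: l2' → b ∉ H → D.Sm j b.2 y →
      D.Cap (j + ((l2'.toFinset \ H.toFinset).card + 1) * (c + 2) + 1) y H := by
  induction n using Nat.strong_induction_on with
  | _ n ih =>
    intro l1' b l2' j hn e hb hs
    have hb' := hH' l1' b l2' e
    have k0 : ∀ w ∈ H, w ∉ l2' → G.Adj w.2 b.2 := fun w hw hw' =>
      swap2 hB hH hw hb Finset.sdiff_subset hb' (Finset.mem_sdiff.2 ⟨hH.mem hw, by simpa using hw'⟩)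
    have le1 : c + 2 ≤ ((l2'.toFinset \ H.toFinset).card + 1) * (c + 2) :=
      Nat.le_mul_of_pos_left _ (by omega)
    rcases hal l1' b l2' e with h | h | ⟨k1, x, k2, h1, h2, h3⟩
    · exact absurd h hb
    · obtain ⟨a1, a2⟩ := hH.low
      have a3 : ((B \ l2'.toFinset) \ (B \ H.toFinset)).Nonempty := by
        rw [Finset.sdiff_nonempty]
        intro hc
        have b1 := Finset.card_le_card hc
        have b2 := Finset.le_card_sdiff l2'.toFinset B
        have b3 := List.toFinset_card_le l2'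
        have b4 := congrArg List.length e
        simp only [List.length_append, List.length_cons] at b4
        omega
      obtain ⟨p, p1, p2⟩ := a1.exists_mx Finset.sdiff_subset a3
      have p3 := Finset.mem_sdiff.1 p2.1
      have p4 : p ∈ H := by
        by_contra hc
        exact p1 (Finset.mem_sdiff.2 ⟨p3.1, by simpa using hc⟩)
      have p5 := h p p2
      have p6 := hs.adj (k0 p p4 (by simpa using p3.2))
      have s1 : D.Sm (j + c + 1) p.2 y := ⟨by have := hs.1; omega, by omega⟩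
      obtain ⟨l1, l2, hl⟩ := List.append_of_mem p4
      refine ⟨l1, p, l2, hl, by have := s1.1; omega, fun w hw => ?_⟩
      rcases List.mem_cons.1 hw with rfl | hw
      · omega
      by_cases a : w ∈ l2'
      · obtain ⟨a1, a2, ha⟩ := List.append_of_mem a
        have := s1.adj (swap1 hB hH hH' hl hw (a1 := l1' ++ b :: a1) (a2 := a2)
          (by simp [e, ha]) fun e' => p3.2 (by simp [ha, e']))
        omega
      · have := hs.adj (k0 w (by simp [hl, hw]) a)
        omega
    · by_cases hx : x ∈ H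
      · exact (cap_old hB hH hH' (k0 := l1' ++ [b]) (by simp [e]) h1 hx hs h2 h3 k0).mono
          (by omega)
      · have s1 : D.Sm (j + c + 2) x.2 y :=
          ⟨by have := hs.1; omega, hs.near (h3 x List.mem_cons_self)⟩
        have b4 := congrArg List.length h1
        simp only [List.length_append, List.length_cons] at b4
        have := ih k2.length (by omega) (l1' ++ b :: k1) x k2 _ rfl (by simp [e, h1]) hx s1
        refine this.mono ?_
        have k := (hH' (l1' ++ b :: k1) x k2 (by simp [e, h1])).1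
        have : (k2.toFinset \ H.toFinset).card < (l2'.toFinset \ H.toFinset).card := by
          refine Finset.card_lt_card ⟨Finset.sdiff_subset_sdiff ?_ subset_rfl, fun hc => ?_⟩
          · intro q hq; simp only [h1, List.mem_toFinset] at hq ⊢; simp [hq]
          · have := hc (x := x) (Finset.mem_sdiff.2 ⟨by simp [h1], by simpa using hx⟩)
            exact (Finset.mem_sdiff.1 k).2 (Finset.mem_sdiff.1 this).1
        have := Nat.mul_le_mul_right (c + 2) (show (k2.toFinset \ H.toFinset).card + 1 + 1 ≤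
          (l2'.toFinset \ H.toFinset).card + 1 by omega)
        rw [add_mul _ 1] at this
        omega

lemma same_set {ω : ℕ} (hω : ClB G ω) (hs : NoSq G) {B : Finset (ℕ × V)} (hB : Normal G B)
    {H H' : List (ℕ × V)} (hH : Hs G B H) (hH' : Hs G B H') (hl : H.length = H'.length) {y : V}
    (hal : ∀ l1 p l2, H' = l1 ++ p :: l2 →
      p ∈ H ∨ D.Top (B \ l2.toFinset) p ∨ D.Cap (c + 1) p.2 l2)
    (hy : ∀ t, IsMx G (B \ H.toFinset) t → D.Sm (c + 1) t.2 y)
    (hn : ¬ D.Cap ((ω + 3) * (c + 2)) y H) : B \ H'.toFinset = B \ H.toFinset := by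
  obtain ⟨a1, a2⟩ := hH.low
  obtain ⟨a3, a4⟩ := hH'.low
  by_contra hc
  have a5 : ((B \ H.toFinset) \ (B \ H'.toFinset)).Nonempty := by
    rw [Finset.sdiff_nonempty]
    exact fun h => hc (Finset.eq_of_subset_of_card_le h (by omega)).symm
  obtain ⟨b, b1, b2⟩ := a3.exists_mx Finset.sdiff_subset a5
  have b3 := Finset.mem_sdiff.1 b2.1
  have b4 : b ∈ H' := by
    by_contra hc
    exact b1 (Finset.mem_sdiff.2 ⟨b3.1, by simpa using hc⟩)
  obtain ⟨l1, l2, e⟩ := List.append_of_mem b4
  refine hn ((cap_new hB hH hH' hl hal _ l1 b l2 _ rfl e (by simpa using b3.2) (hy b b2)).mono ?_)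
  have c1 := diff_card hω hs hB a1 a3 (by omega)
  have c2 : l2.toFinset \ H.toFinset ⊆ (B \ H.toFinset) \ (B \ H'.toFinset) := by
    intro q hq
    simp only [Finset.mem_sdiff, List.mem_toFinset] at hq ⊢
    have : q ∈ H' := by simp [e, hq.1]
    exact ⟨⟨hH'.mem this, hq.2⟩, fun h => h.2 this⟩
  have := Nat.mul_le_mul_right (c + 2) (show (l2.toFinset \ H.toFinset).card + 1 ≤ ω + 1 by
    have := Finset.card_le_card c2; omega)
  rw [show ω + 3 = ω + 1 + 2 by ring, add_mul _ 2]
  omega

lemma forget {m n : ℕ} (x y' : V) {B : Finset (ℕ × V)} (hB : Normal G B)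
    {H H' H1 H2 : List (ℕ × V)} (hH : Hs G B H) (hH' : Hs G B H') (e1 : H' = H1 ++ H2)
    (he : B \ H'.toFinset = B \ H.toFinset) {y : V}
    (hy : ∀ t, IsMx G (B \ H.toFinset) t → D.Sm (c + 1) t.2 y) (hn : ¬ D.Cap n y H)
    (hn' : 2 * c + 6 ≤ n) :
    D.F m x y' (B \ H.toFinset) H1 = D.F m x y' (B \ H.toFinset) [] := by
  set A := B \ H.toFinset
  have m1 : ∀ w, w ∈ H ↔ w ∈ H' := by
    intro w
    have := Finset.ext_iff.1 he w
    simp only [A, Finset.mem_sdiff, List.mem_toFinset] at this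
    constructor
    · intro h; by_contra h'; exact (this.1 ⟨hH.mem h, h'⟩).2 h
    · intro h; by_contra h'; exact (this.2 ⟨hH'.mem h, h'⟩).2 h
  have noen : ∀ s, D.Sm (c + 3) s y → ¬ D.Cap (c + 1) s H' := by
    rintro s hs ⟨k1, z, k2, h1, h2, h3⟩
    refine hn ((cap_old hB hH hH' (k0 := []) rfl h1 ((m1 z).2 (by simp [h1])) hs h2 h3
      fun w hw hw' => absurd ((m1 w).1 hw) hw').mono (by omega))
  refine D.F_bisim m x y' (fun X l l' => Hs G A l' ∧ X = A \ l'.toFinset ∧ l = l' ++ H1) ?_ ?_ _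
    A H1 [] rfl ⟨fun _ _ _ h => by simp at h, by simp, rfl⟩
  · rintro X l l' ⟨r1, rfl, rfl⟩
    ext s
    rw [mem_Al, mem_Al]
    refine and_congr_right fun hs => or_congr_right ⟨fun h => ?_, fun h => ?_⟩
    · obtain ⟨k1, z, k2, h1, h2, h3⟩ := h
      by_cases hm : m ≤ l'.length
      · rw [List.take_append_of_le_length hm] at h1
        exact ⟨k1, z, k2, h1, h2, h3⟩
      rw [List.take_append, List.take_of_length_le (by omega)] at h1
      rw [List.take_of_length_le (by omega)]
      rcases List.append_eq_append_iff.1 h1 with ⟨a, a1, a2⟩ | ⟨a, a1, a2⟩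
      · have c1 : D.Cap (c + 1) s.2 H' := by
          rw [e1]
          refine Cap.append (Cap.of_take (m := m - l'.length) ⟨a, z, k2, a2, h2, fun w hw => h3 w ?_⟩) _
          rw [a1]; simp only [List.mem_cons, List.mem_append] at hw ⊢; tauto
        rcases List.eq_nil_or_concat' l' with rfl | ⟨l0, z0, rfl⟩
        · have := hy s (by simpa using hs)
          exact absurd c1 (noen _ ⟨by have := this.1; omega, by have := this.2; omega⟩)
        · have z1 := hy z0 (by simpa using r1 l0 z0 [] rfl)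
          have z2 : ∀ w ∈ z0 :: l0, D.δ s.2 w.2 ≤ D.ρ s.2 + (c + 1) := fun w hw => h3 w (by
            rw [a1]; simp only [List.mem_cons, List.mem_append] at hw ⊢; tauto)
          by_cases z3 : D.ρ z0.2 ≤ D.ρ s.2 + (c + 1)
          · exact ⟨l0, z0, [], rfl, z3, z2⟩
          · refine absurd c1 (noen _ ⟨by have := z1.1; omega, ?_⟩)
            have := z2 z0 List.mem_cons_self
            have := D.L4 s.2 z0.2
            have := D.L2 y z0.2 s.2
            have := z1.1
            have := z1.2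
            omega
      · rcases a with _ | ⟨b, a⟩
        · have c1 : D.Cap (c + 1) s.2 H' := by
            rw [e1]
            refine Cap.append (Cap.of_take (m := m - l'.length)
              ⟨[], z, k2, by simpa using a2.symm, h2, fun w hw => h3 w (by simp at hw; simp [hw])⟩) _
          rw [List.append_nil] at a1
          rcases List.eq_nil_or_concat' l' with rfl | ⟨l0, z0, rfl⟩
          · have := hy s (by simpa using hs)
            exact absurd c1 (noen _ ⟨by have := this.1; omega, by have := this.2; omega⟩)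
          · have z1 := hy z0 (by simpa using r1 l0 z0 [] rfl)
            have z2 : ∀ w ∈ z0 :: l0, D.δ s.2 w.2 ≤ D.ρ s.2 + (c + 1) := fun w hw => h3 w (by
              rw [← a1]; simp only [List.mem_cons, List.mem_append] at hw ⊢; tauto)
            by_cases z3 : D.ρ z0.2 ≤ D.ρ s.2 + (c + 1)
            · exact ⟨l0, z0, [], rfl, z3, z2⟩
            · refine absurd c1 (noen _ ⟨by have := z1.1; omega, ?_⟩)
              have := z2 z0 List.mem_cons_self
              have := D.L4 s.2 z0.2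
              have := D.L2 y z0.2 s.2
              have := z1.1
              have := z1.2
              omega
        · simp only [List.cons_append, List.cons.injEq] at a2
          exact ⟨k1, z, a, by rw [a1, a2.1], h2, h3⟩
    · rw [List.take_append]
      exact h.append _
  · rintro X l l' ⟨r1, rfl, rfl⟩ p hp
    exact ⟨hs_cons.2 ⟨(mem_Al.1 hp).1, r1⟩, (sdiff_cons _ _ _).symm, rfl⟩

theorem edge_eq {ω m : ℕ} (hω : ClB G ω) (hs : NoSq G) (h0 : 0 < ω) {x y' : V} (hxy : x ≠ y')
    (hn : ¬ G.Adj x y') {B : Finset (ℕ × V)} (hB : Normal G B) {p0 : ℕ × V} (hp : IsMx G B p0)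
    {H0 : List (ℕ × V)} {y : ℕ × V} (hH : D.Vl m (B.erase p0) [] (y :: H0))
    (hc : ω + 2 + H0.length ≤ B.card) (hy : ¬ D.Cap ((ω + 3) * (c + 2)) y.2 (H0 ++ [p0])) :
    D.F m x y' B [] = D.F m x y' (B.erase p0) [] := by
  have hF := D.F_harm hω hs m hxy hn
  have sd : ∀ L : List (ℕ × V), B \ (L ++ [p0]).toFinset = B.erase p0 \ L.toFinset := by
    intro L; rw [sdiff_append]; congr 1; ext q; simp [and_comm]
  have hsB : ∀ L, Hs G (B.erase p0) L → Hs G B (L ++ [p0]) := by
    intro L hL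
    induction L with
    | nil => exact hs_cons.2 ⟨by simpa using hp, fun _ _ _ h => by simp at h⟩
    | cons q L ih =>
      obtain ⟨a1, a2⟩ := hs_cons.1 hL
      exact hs_cons.2 ⟨(sd L).symm ▸ a1, ih a2⟩
  obtain ⟨y1, y2⟩ := vl_cons.1 hH
  have hH1 := hsB H0 y2.hs
  have le1 : 2 * c + 6 ≤ (ω + 3) * (c + 2) := by nlinarith
  obtain ⟨y3, y4⟩ := mem_Al.1 y1
  rw [← sd] at y3 y4
  have y5 : ∀ t, IsMx G (B \ (H0 ++ [p0]).toFinset) t → D.Sm (c + 1) t.2 y.2 := by
    rcases y4 with y4 | y4
    · intro t ht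
      refine ⟨y4 t ht, ?_⟩
      by_cases e : t = y
      · rw [e]; have := D.L1 y.2; omega
      · have := D.L3 _ _ (hB.ord Finset.sdiff_subset y3 ht.1 ht y3.1 e).symm
        omega
    · rw [List.append_nil] at y4
      exact absurd ((y4.of_take.append _).mono (by omega)) hy
  have c1 : (B.erase p0).card = B.card - 1 := Finset.card_erase_of_mem hp.1
  trans D.F m x y' (B \ (H0 ++ [p0]).toFinset) []
  · refine hF.const hB [] (H0.length + 1) (by omega) fun H' h1 h2 => ?_
    have := same_set hω hs hB hH1 h2.hs (by simp [h1]) (fun l1 p l2 e => Or.inr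
      ((mem_Al.1 (h2 l1 p l2 e)).2.imp_right fun h => by simpa using h.of_take)) y5 hy
    rw [this, List.append_nil]
    exact forget x y' hB hH1 h2.hs (List.append_nil _).symm this y5 hy le1
  · refine (hF.const (hB.erase hp) [] H0.length (by omega) fun H' h1 h2 => ?_).symm
    have h3 := hsB H' h2.hs
    have := same_set hω hs hB hH1 h3 (by simp [h1]) (fun l1 p l2 e => ?_) y5 hy
    · rw [← sd, this, List.append_nil]
      exact forget x y' hB hH1 h3 rfl this y5 hy le1
    · rcases List.eq_nil_or_concat' l2 with rfl | ⟨l0, z0, rfl⟩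
      · left
        have := List.append_inj_right' e rfl
        simp only [List.cons.injEq, and_true] at this
        simp [this]
      · right
        have e2 : H' ++ [p0] = (l1 ++ p :: l0) ++ [z0] := by simp [e]
        have e3 := List.append_inj' e2 rfl
        have e4 : p0 = z0 := by simpa using e3.2
        subst e4
        rw [sd]
        exact (mem_Al.1 (h2 l1 p l0 e3.1)).2.imp_right fun h =>
          Cap.append (by simpa using h.of_take) _

end LD

end Pool.Agent.Lib.MP_845f45_al
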