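import Pool.Agent.Lib.MP_845f45_al.Ring

namespace Pool.Agent.Lib.MP_845f45_al

open Relation

lemma Cl_of_close {k k' j n x x' y y' : ℕ} (h1 : k ≤ j) (h2 : k' ≤ j) (h3 : j < k + n)
    (h4 : j < k' + n) (a1 : x ≤ x' + 2 ^ j) (a2 : x' ≤ x + 2 ^ j) (a3 : y ≤ y' + 2 ^ j)
    (a4 : y' ≤ y + 2 ^ j) : Cl n (k, x / 2 ^ k, y / 2 ^ k) (k', x' / 2 ^ k', y' / 2 ^ k') := by
  refine ⟨j, h1, h2, h3, h4, ?_⟩
  have key : ∀ u v : ℕ, u ≤ v + 2 ^ j → u / 2 ^ j ≤ v / 2 ^ j + 1 := fun u v h => by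
    rw [← Nat.add_div_right _ (by positivity)]
    exact Nat.div_le_div_right h
  simp only [Cz, W1, up, Nat.div_div_eq_div_mul, ← pow_add, Nat.add_sub_cancel' h1,
    Nat.add_sub_cancel' h2]
  exact ⟨key _ _ a1, key _ _ a2, key _ _ a3, key _ _ a4⟩

variable {V : Type} {G : SimpleGraph V}

lemma Wi.cl {f : V → ZZ} {lam : ℕ} (hf : ∀ u v, G.Adj u v → Cl lam (f u) (f v)) {n : ℕ} {u v : V}
    (h : Wi G.Adj n u v) : Cl (n * lam + 1) (f u) (f v) := by
  induction n generalizing v with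
  | zero => rw [show u = v from h]; simpa using Cl.refl _
  | succ n ih =>
    rw [add_mul]
    rcases h with h | ⟨w, h1, h2⟩
    · exact (ih h).mono (by omega)
    · exact ((ih h1).trans (hf _ _ h2)).mono (by omega)

lemma Wi.restrict {p : V → Prop} {n : ℕ} {u v : V} (h : Wi G.Adj n u v)
    (hp : ∀ w, Wi G.Adj n u w → p w) : Wi (fun a b => G.Adj a b ∧ p a ∧ p b) n u v := by
  induction n generalizing v with
  | zero => exact h
  | succ n ih =>
    rcases h with h | ⟨w, h1, h2⟩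
    · exact Or.inl (ih h fun w hw => hp w (Or.inl hw))
    · exact Or.inr ⟨w, ih h1 fun w hw => hp w (Or.inl hw), h2, hp w (Or.inl h1),
        hp v (Or.inr ⟨w, h1, h2⟩)⟩

lemma conn_ball (n : ℕ) (u : V) : Conn G {v | Wi G.Adj n u v} := by
  refine conn_of_base (Wi.refl _ n u) fun v hv => ?_
  exact ReflTransGen.mono (fun a b h => ⟨h.1, h.2.2⟩) _ _
    (Wi.restrict (p := fun v => Wi G.Adj n u v) hv fun _ h => h).rtg

theorem exists_regular_aux {Δ e M : ℕ} : ∃ lam μ : ℕ, ∀ {V : Type} [Fintype V]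
    (G : SimpleGraph V), Surf G Δ e → ∀ (O : Set V) (a b : V), a ≠ b → a ∈ O → b ∈ O →
      (∀ x, Ch G O M (2 * ((2 + (e + 4) * (Δ * 2)) * 2) * (6 * Δ + 5) + 1) {x} {u | G.Adj x u}) →
      ∃ f : V → ZZ, (∀ u v, G.Adj u v → Cl lam (f u) (f v)) ∧
        ∀ z, {v | f v = z}.ncard ≤ μ := by
  classical
  set κ := (2 + (e + 4) * (Δ * 2)) * 2
  set C := ((4 * Δ + 1) * ((M + 1) * (2 * (Δ + 1)))) ^ (M + 1) with hC
  set Q := (2 * M + 1) * (2 * (Δ + 1)) * C * ((3 * Δ + 1) * 2) with hQ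
  have hC1 : 1 ≤ C := Nat.one_le_iff_ne_zero.2 (by positivity)
  refine ⟨Q + 1, 2 * κ * (6 * Δ + 5) * (Δ + 1) ^ M, fun {V} _ G hS O a b hab ha hb hch => ?_⟩
  obtain ⟨B, hB, hF⟩ := exists_flow hS hab
  obtain ⟨F⟩ := hF (B * C + 2 * B * (3 * Δ + 1) + 1) (by omega)
  have hx : ∀ w, ∃ x, Wi G.Adj M w x ∧ ∀ v, Wi G.Adj M w v → F.s v ≤ F.s x := fun w =>
    Set.exists_max_image {v | Wi G.Adj M w v} F.s (Set.toFinite _) ⟨w, Wi.refl _ _ _⟩
  choose x hx1 hx2 using hx
  have big : ∀ v, 0 < F.s v → B * C + 2 * B * (3 * Δ + 1) + 1 ≤ F.s v := by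
    intro v hv
    obtain ⟨u, h1, h2⟩ := Finset.exists_ne_zero_of_sum_ne_zero hv.ne'
    have := Flow.H_le (F := F) (mem_nb.1 h1)
    unfold Nat.dist at h2
    rcases lt_trichotomy (F.H u) (F.H v) with h | h | h
    · have := F.big _ _ h; omega
    · omega
    · have := F.big _ _ h; omega
  have ratio : ∀ w u, G.Adj w u → F.s (x u) ≤ F.s (x w) * C := by
    intro w u h
    have h0 : F.s (x w) ≤ F.s (x w) * C := Nat.le_mul_of_pos_right _ hC1
    have h1 : Wi G.Adj (M + 1) w (x u) := by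
      rw [add_comm]; exact (Wi.single h).trans (hx1 u)
    rcases h1 with h1 | ⟨x', h1, h2⟩
    · exact (hx2 w _ h1).trans h0
    rcases Wi.grow G.Adj w M with h3 | h3
    · exact (hx2 w _ (h3 _ (hS.1 _ _))).trans h0
    rcases Nat.eq_zero_or_pos (F.s (x u)) with h4 | h4
    · omega
    have h5 := big _ h4
    have := Flow.ring (F := F) hS hab ha hb (hch (x u)) h2.symm (conn_ball M w) (by omega) h1
      (η₀ := max (F.s (x w)) B) (le_max_right _ _) (by omega)
      (fun v hv => (hx2 w v hv).trans (le_max_left _ _))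
    rw [← hC] at this
    rcases le_total (F.s (x w)) B with h6 | h6
    · rw [max_eq_right h6] at this; omega
    · rw [max_eq_left h6] at this; omega
  have pos : ∀ w, 0 < F.s (x w) := by
    obtain ⟨v, hv⟩ : ∃ v, 0 < F.s v := by
      by_contra hc
      push Not at hc
      have key : ∀ u, ReflTransGen G.Adj a u → F.H u = F.H a := by
        intro u hu
        induction hu with
        | refl => rfl
        | @tail c d _ hcd ih =>
          have := Flow.H_le (F := F) hcd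
          have := hc c
          omega
      have := key b (hS.1 a b)
      have := F.hab
      omega
    intro w
    induction hS.1 v w with
    | refl => exact hv.trans_le (hx2 v v (Wi.refl _ _ _))
    | @tail c d _ hcd ih =>
      have := ratio d c hcd.symm
      by_contra hc
      rw [show F.s (x d) = 0 by omega] at this
      omega
  let k : V → ℕ := fun w => Nat.log 2 (F.s (x w) / (3 * Δ + 1))
  have k1 : ∀ w, F.s (x w) < (3 * Δ + 1) * 2 * 2 ^ k w := fun w => by
    have := Nat.lt_pow_succ_log_self (b := 2) (by norm_num) (F.s (x w) / (3 * Δ + 1))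
    rw [Nat.div_lt_iff_lt_mul (by omega)] at this
    calc F.s (x w) < 2 ^ (k w + 1) * (3 * Δ + 1) := this
      _ = _ := by ring
  have k2 : ∀ w, B ≤ 2 ^ k w := fun w => by
    have h1 := k1 w
    have h2 := big _ (pos w)
    by_contra hc
    have : (3 * Δ + 1) * 2 * 2 ^ k w ≤ (3 * Δ + 1) * 2 * B := Nat.mul_le_mul_left _ (by omega)
    have : (3 * Δ + 1) * 2 * B = 2 * B * (3 * Δ + 1) := by ring
    omega
  have k3 : ∀ w, (3 * Δ + 1) * 2 ^ k w ≤ F.s (x w) := fun w => by
    have h2 := big _ (pos w)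
    have : F.s (x w) / (3 * Δ + 1) ≠ 0 := by
      rw [Nat.div_ne_zero_iff]
      have : 1 * (3 * Δ + 1) ≤ 2 * B * (3 * Δ + 1) := Nat.mul_le_mul_right _ (by omega)
      omega
    have := Nat.pow_log_le_self 2 this
    rw [Nat.le_div_iff_mul_le (by omega), mul_comm] at this
    exact this
  refine ⟨fun w => (k w, F.H (x w) / 2 ^ k w, F.P hS (x w) / 2 ^ k w), fun u w h => ?_,
    fun z => ?_⟩
  · set m := max (F.s (x u)) (F.s (x w)) with hm
    have r1 := ratio u w h
    have r2 := ratio w u h.symm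
    have r3 : F.s (x u) ≤ F.s (x u) * C := Nat.le_mul_of_pos_right _ hC1
    have r4 : F.s (x w) ≤ F.s (x w) * C := Nat.le_mul_of_pos_right _ hC1
    have hBm : B ≤ m := by
      have := big _ (pos u)
      have : B ≤ B * C := Nat.le_mul_of_pos_right _ hC1
      omega
    have p1 : ∀ c d, G.Adj c d ∧ F.s c ≤ m ∧ F.s d ≤ m →
        F.H c ≤ F.H d + 2 * (Δ + 1) * m ∧ F.H d ≤ F.H c + 2 * (Δ + 1) * m := fun c d hcd => by
      have := Flow.H_le (F := F) hcd.1
      have : m ≤ 2 * (Δ + 1) * m := Nat.le_mul_of_pos_left _ (by omega)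
      omega
    have p2 : ∀ c d, G.Adj c d ∧ F.s c ≤ m ∧ F.s d ≤ m →
        F.P hS c ≤ F.P hS d + 2 * (Δ + 1) * m ∧ F.P hS d ≤ F.P hS c + 2 * (Δ + 1) * m :=
      fun c d hcd => by
        have := Flow.P_adj (F := F) hS hcd.1
        have := Flow.P_adj (F := F) hS hcd.1.symm
        have := Flow.T_le (F := F) hS c
        have := Flow.T_le (F := F) hS d
        have := Nat.mul_le_mul_left Δ hBm
        have : 2 * (Δ + 1) * m = 2 * (Δ * m) + 2 * m := by ring
        omega
    have w1 := (hx1 u).restrict (p := fun v => F.s v ≤ m) fun v hv =>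
      (hx2 u v hv).trans (le_max_left _ _)
    have w2 := (hx1 w).restrict (p := fun v => F.s v ≤ m) fun v hv =>
      (hx2 w v hv).trans (le_max_right _ _)
    have w3 : G.Adj u w ∧ F.s u ≤ m ∧ F.s w ≤ m :=
      ⟨h, (hx2 u u (Wi.refl _ _ _)).trans (le_max_left _ _),
        (hx2 w w (Wi.refl _ _ _)).trans (le_max_right _ _)⟩
    have q1 := w1.lip p1
    have q2 := w2.lip p1
    have q3 := p1 _ _ w3
    have q4 := w1.lip p2
    have q5 := w2.lip p2
    have q6 := p2 _ _ w3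
    have key : ∀ v, m ≤ F.s (x v) * C →
        2 * (M * (2 * (Δ + 1) * m)) + 2 * (Δ + 1) * m ≤ 2 ^ (k v + Q) := fun v hv => by
      calc 2 * (M * (2 * (Δ + 1) * m)) + 2 * (Δ + 1) * m = (2 * M + 1) * (2 * (Δ + 1)) * m := by
            ring
        _ ≤ (2 * M + 1) * (2 * (Δ + 1)) * ((3 * Δ + 1) * 2 * 2 ^ k v * C) := by
            gcongr
            exact hv.trans (Nat.mul_le_mul_right _ (k1 v).le)
        _ = 2 ^ k v * Q := by rw [hQ]; ring
        _ ≤ 2 ^ (k v + Q) := by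
            rw [pow_add]; exact Nat.mul_le_mul_left _ Nat.lt_two_pow_self.le
    have e1 := key u (by omega)
    have e2 := key w (by omega)
    have e3 : m ≤ 2 * (Δ + 1) * m := Nat.le_mul_of_pos_left _ (by omega)
    have e4 : ∀ v, 2 ^ k v ≤ F.s (x v) := fun v =>
      (Nat.le_mul_of_pos_left _ (by omega)).trans (k3 v)
    have e5 : k u ≤ k w + Q := by
      have := e4 u
      exact (Nat.pow_le_pow_iff_right (by norm_num)).1 (show 2 ^ k u ≤ 2 ^ (k w + Q) by omega)
    have e6 : k w ≤ k u + Q := by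
      have := e4 w
      exact (Nat.pow_le_pow_iff_right (by norm_num)).1 (show 2 ^ k w ≤ 2 ^ (k u + Q) by omega)
    rcases le_total (k u) (k w) with h | h
    · exact Cl_of_close (j := k u + Q) (by omega) (by omega) (by omega) (by omega) (by omega)
        (by omega) (by omega) (by omega)
    · exact Cl_of_close (j := k w + Q) (by omega) (by omega) (by omega) (by omega) (by omega)
        (by omega) (by omega) (by omega)
  · obtain ⟨j, p, q⟩ := z
    let X : Finset V := (Finset.univ.filter fun w =>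
      (k w, F.H (x w) / 2 ^ k w, F.P hS (x w) / 2 ^ k w) = (j, p, q)).image x
    rcases X.eq_empty_or_nonempty with h0 | ⟨v0, hv0⟩
    · have : {w | (k w, F.H (x w) / 2 ^ k w, F.P hS (x w) / 2 ^ k w) = (j, p, q)} = ∅ := by
        ext w
        simp only [Set.mem_ofPred_eq, Set.mem_empty_iff_false, iff_false]
        intro hw
        have : x w ∈ X := Finset.mem_image.2 ⟨w, Finset.mem_filter.2 ⟨Finset.mem_univ _, hw⟩, rfl⟩
        rw [h0] at this
        simp at this
      rw [this]; simp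
    have hj : B ≤ 2 ^ j := by
      obtain ⟨w, hw, -⟩ := Finset.mem_image.1 hv0
      have := (Finset.mem_filter.1 hw).2
      simp only [Prod.mk.injEq] at this
      rw [← this.1]; exact k2 w
    have hX := Flow.window (F := F) hS (ω := 2 ^ j) hj Nat.one_le_two_pow (p * 2 ^ j) (q * 2 ^ j) X
      fun v hv => by
        obtain ⟨w, hw, rfl⟩ := Finset.mem_image.1 hv
        have := (Finset.mem_filter.1 hw).2
        simp only [Prod.mk.injEq] at this
        obtain ⟨rfl, rfl, rfl⟩ := this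
        have a1 := Nat.lt_div_mul_add (a := F.H (x w)) (b := 2 ^ k w) (by positivity)
        have a2 := Nat.div_mul_le_self (F.H (x w)) (2 ^ k w)
        have a3 := Nat.lt_div_mul_add (a := F.P hS (x w)) (b := 2 ^ k w) (by positivity)
        have a4 := Nat.div_mul_le_self (F.P hS (x w)) (2 ^ k w)
        refine ⟨by omega, by omega, k3 w, _, (hS.exists_adj (x w)).choose_spec, ?_, ?_⟩
        · exact a3.le
        · exact a4.trans (Nat.le_add_right _ _)
    have h1 : {w | (k w, F.H (x w) / 2 ^ k w, F.P hS (x w) / 2 ^ k w) = (j, p, q)} ⊆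
        ⋃ v ∈ (X : Set V), {w | Wi G.Adj M v w} := by
      intro w hw
      exact Set.mem_biUnion (x := x w)
        (Finset.mem_image.2 ⟨w, Finset.mem_filter.2 ⟨Finset.mem_univ _, hw⟩, rfl⟩) (hx1 w).symm
    refine (Set.ncard_le_ncard h1).trans ((ncard_biUnion_le _ _
      fun v _ => Wi.ncard_le hS.deg v M).trans ?_)
    rw [Set.ncard_coe_finset]
    exact Nat.mul_le_mul_right _ hX

theorem exists_regular {Δ e : ℕ} (hΔ : 6 ≤ Δ) : ∃ lam μ : ℕ, ∀ {V : Type} [Fintype V]
    (G : SimpleGraph V), Surf G Δ e → ∃ f : V → ZZ, (∀ u v, G.Adj u v → Cl lam (f u) (f v)) ∧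
      ∀ z, {v | f v = z}.ncard ≤ μ := by
  obtain ⟨M, L, h1⟩ := exists_refinement (e := e) hΔ
    (2 * ((2 + (e + 4) * (Δ * 2)) * 2) * (6 * Δ + 5) + 1)
  obtain ⟨lam, μ, h2⟩ := exists_regular_aux (Δ := Δ) (e := e) (M := M)
  refine ⟨L * lam + 1, μ, fun {V} _ G hS => ?_⟩
  rcases isEmpty_or_nonempty V with hV | ⟨⟨a⟩⟩
  · exact ⟨fun _ => (0, 0, 0), fun u => isEmptyElim u, fun z => by
      rw [Set.eq_empty_of_isEmpty {v : V | _}]; simp⟩
  obtain ⟨b, hab⟩ := hS.exists_adj a
  obtain ⟨V', _, G', ι, a1, a2, a3, a4⟩ := h1 G hS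
  obtain ⟨f, b1, b2⟩ := h2 G' a1 (Set.range ι) (ι a) (ι b) (a2.ne hab.ne) ⟨a, rfl⟩ ⟨b, rfl⟩ a4
  refine ⟨f ∘ ι, fun u v h => (a3 u v h).cl b1, fun z => le_trans ?_ (b2 z)⟩
  exact Set.ncard_le_ncard_of_injOn ι (fun v hv => hv) a2.injOn

end Pool.Agent.Lib.MP_845f45_al
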