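import Pool.Agent.Lib.MP_845f45_al.Flow2
import Pool.Agent.Lib.MP_845f45_al.Host

namespace Pool.Agent.Lib.MP_845f45_al

open Relation

variable {V : Type} [Fintype V] {G : SimpleGraph V}

lemma exists_gap {Ω : Set V} {M : ℕ} (hΩ : Ω.ncard ≤ M) (s : V → ℕ) (η H : ℕ) (hH : 1 ≤ H) :
    ∃ i, i ≤ M ∧ ∀ v ∈ Ω, s v ≤ η * H ^ i ∨ η * H ^ (i + 1) < s v := by
  by_contra hc
  push Not at hc
  haveI : Nonempty V := ⟨(hc 0 (Nat.zero_le _)).choose⟩
  choose! f h1 h2 h3 using hc
  have key : ∀ i j, i ≤ M → j ≤ M → f i = f j → ¬ i < j := by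
    intro i j hi hj e hlt
    have a1 := h3 i hi
    have a2 := h2 j hj
    have := Nat.mul_le_mul_left η (Nat.pow_le_pow_right hH (show i + 1 ≤ j from hlt))
    rw [e] at a1
    omega
  have := Set.ncard_le_ncard_of_injOn (s := (Finset.range (M + 1) : Set ℕ)) (t := Ω) f
    (fun i hi => h1 i (by simpa [Nat.lt_succ_iff] using hi)) (fun i hi j hj e => by
      have hi' : i ≤ M := by simpa [Nat.lt_succ_iff] using hi
      have hj' : j ≤ M := by simpa [Nat.lt_succ_iff] using hj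
      have := key i j hi' hj' e
      have := key j i hj' hi' e.symm
      omega)
  rw [Set.ncard_coe_finset, Finset.card_range] at this
  omega

lemma maxp (hc : ∀ u v, ReflTransGen G.Adj u v) {I S : Set V} (h : Sep G I S) {g : V → ℤ} {t : ℤ}
    (hg : ∀ c ∈ I, t < g c → ∑ u ∈ nb G c, (g u - g c) = 0) (hS : ∀ z ∈ S, g z ≤ t) {z : V}
    (hz : z ∈ S) {y : V} (hy : y ∈ I) : g y ≤ t := by
  by_contra hlt
  obtain ⟨m, hm, hm'⟩ := Set.exists_max_image I g (Set.toFinite I) ⟨y, hy⟩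
  have h0 := hm' y hy
  have key : ∀ u, ReflTransGen G.Adj m u → u ∈ I ∧ g u = g m := by
    intro u hu
    induction hu with
    | refl => exact ⟨hm, rfl⟩
    | @tail c d _ hcd ih =>
      have h1 := (Finset.sum_eq_zero_iff_of_nonpos (fun u hu => by
        rcases h.2.1 c ih.1 u (mem_nb.1 hu) with a | a
        · have := hm' u a; omega
        · have := hS u a; omega)).1 (hg c ih.1 (by omega)) d (mem_nb.2 hcd)
      rcases h.2.1 c ih.1 d hcd with a | a
      · exact ⟨a, by omega⟩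
      · have := hS d a; omega
  exact Set.disjoint_left.1 h.1 (key z (hc m z)).1 hz

lemma Surf.exists_adj {Δ e : ℕ} (hS : Surf G Δ e) (v : V) : ∃ u, G.Adj v u := by
  obtain ⟨-, n, h2, -⟩ := hS
  obtain ⟨-, c, hc⟩ := h2 v
  exact ⟨c 0, hc.adj 0 (by have := hc.four; omega)⟩

namespace Flow

variable {a b : V} {κ B N Δ e : ℕ} (F : Flow G a b κ B N)

noncomputable def s (v : V) : ℕ := ∑ u ∈ nb G v, Nat.dist (F.H v) (F.H u)

noncomputable def T (v : V) : ℕ := ∑ u ∈ nb G v, F.φ v u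

noncomputable def P (hS : Surf G Δ e) (v : V) : ℕ := F.Ψ v (hS.exists_adj v).choose 0

variable {F}

lemma s_le_T (v : V) : F.s v ≤ F.T v :=
  Finset.sum_le_sum fun u hu => F.φlo v u (mem_nb.1 hu)

lemma T_le (hS : Surf G Δ e) (v : V) : F.T v ≤ F.s v + Δ * B := by
  have h1 : F.T v ≤ ∑ u ∈ nb G v, (Nat.dist (F.H v) (F.H u) + B) :=
    Finset.sum_le_sum fun u hu => F.φhi v u (mem_nb.1 hu)
  rw [Finset.sum_add_distrib, Finset.sum_const, smul_eq_mul] at h1
  have := Nat.mul_le_mul_right B (hS.card_nb v)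
  unfold s
  omega

lemma H_le {v u : V} (h : G.Adj v u) : F.H v ≤ F.H u + F.s v ∧ F.H u ≤ F.H v + F.s v := by
  have : Nat.dist (F.H v) (F.H u) ≤ F.s v :=
    Finset.single_le_sum (f := fun u => Nat.dist (F.H v) (F.H u)) (fun _ _ => Nat.zero_le _)
      (mem_nb.2 h)
  unfold Nat.dist at this
  omega

lemma P_le (hS : Surf G Δ e) {v u : V} (h : G.Adj v u) :
    F.P hS v ≤ F.Ψ v u 0 + F.T v ∧ F.Ψ v u 0 ≤ F.P hS v + F.T v :=
  have h' := (hS.exists_adj v).choose_spec
  ⟨F.L1 _ _ _ _ _ h' h (F.φpos _ _ h') (F.φpos _ _ h),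
    F.L1 _ _ _ _ _ h h' (F.φpos _ _ h) (F.φpos _ _ h')⟩

lemma P_adj (hS : Surf G Δ e) {v u : V} (h : G.Adj v u) :
    F.P hS v ≤ F.P hS u + (F.T v + F.T u) := by
  have h1 := P_le (F := F) hS h
  have h2 := P_le (F := F) hS h.symm
  rw [F.Ψsymm u v] at h2
  omega

lemma window (hS : Surf G Δ e) {ω : ℕ} (hω : B ≤ ω) (hω1 : 1 ≤ ω) (h0 c : ℕ) (X : Finset V)
    (hX : ∀ v ∈ X, F.H v ≤ h0 + ω ∧ h0 ≤ F.H v + ω ∧ (3 * Δ + 1) * ω ≤ F.s v ∧
      ∃ u, G.Adj v u ∧ F.Ψ v u 0 ≤ c + ω ∧ c ≤ F.Ψ v u 0 + ω) :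
    X.card ≤ 2 * κ * (6 * Δ + 5) := by
  classical
  have key : ∀ v, ∃ S : Finset (V × ℕ), v ∈ X → ω ≤ S.card ∧ ∀ d ∈ S, G.Adj v d.1 ∧
      d.2 < F.φ v d.1 ∧ F.Ψ v d.1 d.2 ≤ c + ((3 * Δ + 1) * ω + ω) ∧
      c ≤ F.Ψ v d.1 d.2 + ((3 * Δ + 1) * ω + ω) ∧ 2 * ω < Nat.dist (F.H v) (F.H d.1) := by
    intro v
    by_cases hv : v ∈ X
    swap
    · exact ⟨∅, fun h => absurd h hv⟩
    obtain ⟨-, -, a3, u, a4, a5, a6⟩ := hX v hv
    obtain ⟨S, b1, b2⟩ := F.L2 v u 0 _ a4 (F.φpos _ _ a4) (a3.trans (s_le_T v))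
    refine ⟨S.filter fun d => 2 * ω < Nat.dist (F.H v) (F.H d.1), fun _ => ⟨?_, fun d hd => ?_⟩⟩
    · have c1 := Finset.card_filter_add_card_filter_not (s := S)
        (fun d => 2 * ω < Nat.dist (F.H v) (F.H d.1))
      have c2 : (S.filter fun d => ¬ 2 * ω < Nat.dist (F.H v) (F.H d.1)) ⊆
          nb G v ×ˢ Finset.range (3 * ω) := by
        intro d hd
        rw [Finset.mem_filter] at hd
        obtain ⟨e1, e2, -⟩ := b2 d hd.1
        have := F.φhi _ _ e1
        simp only [Finset.mem_product, mem_nb, Finset.mem_range]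
        exact ⟨e1, by omega⟩
      have c3 := Finset.card_le_card c2
      rw [Finset.card_product, Finset.card_range] at c3
      have c4 := Nat.mul_le_mul_right (3 * ω) (hS.card_nb v)
      have c5 : (3 * Δ + 1) * ω = Δ * (3 * ω) + ω := by ring
      omega
    · rw [Finset.mem_filter] at hd
      obtain ⟨e1, e2, e3, e4⟩ := b2 d hd.1
      exact ⟨e1, e2, by omega, by omega, hd.2⟩
  choose S hS' using key
  let U : Finset (V × V × ℕ) := X.biUnion fun v => (S v).image fun d => (v, d)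
  have hU : ∀ d ∈ U, d.1 ∈ X ∧ d.2 ∈ S d.1 := by
    intro d hd
    simp only [U, Finset.mem_biUnion, Finset.mem_image] at hd
    obtain ⟨v, h1, d', h2, rfl⟩ := hd
    exact ⟨h1, h2⟩
  have c1 : X.card * ω ≤ U.card := by
    rw [Finset.card_biUnion]
    · rw [← smul_eq_mul, ← Finset.sum_const]
      refine Finset.sum_le_sum fun v hv => ?_
      rw [Finset.card_image_of_injective _ (Prod.mk_right_injective v)]
      exact (hS' v hv).1
    · intro v _ w _ hne
      simp only [Function.onFun]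
      rw [Finset.disjoint_left]
      intro d h1 h2
      obtain ⟨_, _, rfl⟩ := Finset.mem_image.1 h1
      obtain ⟨_, _, e⟩ := Finset.mem_image.1 h2
      exact hne (congrArg Prod.fst e).symm
  have c2 := Finset.card_filter_add_card_filter_not (s := U) (fun d => F.H d.1 < F.H d.2.1)
  have c3 := F.cnt (h0 + ω + 1) c ((3 * Δ + 1) * ω + ω) (U.filter fun d => F.H d.1 < F.H d.2.1)
    fun d hd => by
      rw [Finset.mem_filter] at hd
      obtain ⟨e1, e2⟩ := hU d hd.1
      obtain ⟨a1, a2, a3, a4, a5⟩ := (hS' _ e1).2 _ e2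
      obtain ⟨b1, b2, -⟩ := hX _ e1
      unfold Nat.dist at a5
      exact ⟨a1, by omega, by omega, a2, a3, a4⟩
  have c4 := F.cnt (h0 - ω) c ((3 * Δ + 1) * ω + ω)
    ((U.filter fun d => ¬ F.H d.1 < F.H d.2.1).image fun d => (d.2.1, d.1, d.2.2)) fun d hd => by
      obtain ⟨d, hd', rfl⟩ := Finset.mem_image.1 hd
      clear hd
      have hd := Finset.mem_filter.1 hd'
      obtain ⟨e1, e2⟩ := hU d hd.1
      obtain ⟨a1, a2, a3, a4, a5⟩ := (hS' _ e1).2 _ e2
      obtain ⟨b1, b2, -⟩ := hX _ e1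
      unfold Nat.dist at a5
      rw [F.Ψsymm] at a3 a4
      rw [F.φsymm] at a2
      exact ⟨a1.symm, by simp only; omega, by simp only; omega, a2, a3, a4⟩
  rw [Finset.card_image_of_injective _ (Function.Involutive.injective
    (f := fun d : V × V × ℕ => (d.2.1, d.1, d.2.2)) fun _ => rfl)] at c4
  have c5 : κ * (2 * ((3 * Δ + 1) * ω + ω) + 1) ≤ κ * ((6 * Δ + 5) * ω) :=
    Nat.mul_le_mul_left _ (by nlinarith)
  have c6 : X.card * ω ≤ 2 * κ * (6 * Δ + 5) * ω := by
    have : 2 * κ * (6 * Δ + 5) * ω = 2 * (κ * ((6 * Δ + 5) * ω)) := by ring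
    omega
  exact Nat.le_of_mul_le_mul_right c6 hω1

lemma s_le_of_up (hS : Surf G Δ e) {x : V} (hx : x ≠ b) {t : ℕ}
    (h : ∀ u, G.Adj x u → F.H u ≤ F.H x + t) : F.s x ≤ Δ * (2 * t) := by
  have h1 : ∑ u ∈ nb G x, 2 * (F.H u - F.H x) ≤ Δ * (2 * t) := by
    refine (Finset.sum_le_card_nsmul _ _ (2 * t) fun u hu => ?_).trans ?_
    · have := h u (mem_nb.1 hu); omega
    · rw [smul_eq_mul]; exact Nat.mul_le_mul_right _ (hS.card_nb x)
  refine le_trans ?_ h1
  by_cases ha : x = a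
  · refine Finset.sum_le_sum fun u _ => ?_
    have : F.H x ≤ F.H u := by rw [ha]; exact F.amin u
    unfold Nat.dist; omega
  · have h2 := F.harm x ha hx
    have h3 : ((F.s x : ℕ) : ℤ) = ((∑ u ∈ nb G x, 2 * (F.H u - F.H x) : ℕ) : ℤ) -
        ∑ u ∈ nb G x, ((F.H u : ℤ) - F.H x) := by
      unfold s
      rw [Nat.cast_sum, Nat.cast_sum, ← Finset.sum_sub_distrib]
      refine Finset.sum_congr rfl fun u _ => ?_
      unfold Nat.dist; omega
    omega

lemma s_le_of_down (hS : Surf G Δ e) {x : V} (hx : x ≠ a) {t : ℕ}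
    (h : ∀ u, G.Adj x u → F.H x ≤ F.H u + t) : F.s x ≤ Δ * (2 * t) := by
  have h1 : ∑ u ∈ nb G x, 2 * (F.H x - F.H u) ≤ Δ * (2 * t) := by
    refine (Finset.sum_le_card_nsmul _ _ (2 * t) fun u hu => ?_).trans ?_
    · have := h u (mem_nb.1 hu); omega
    · rw [smul_eq_mul]; exact Nat.mul_le_mul_right _ (hS.card_nb x)
  refine le_trans ?_ h1
  by_cases hb : x = b
  · refine Finset.sum_le_sum fun u _ => ?_
    have : F.H u ≤ F.H x := by rw [hb]; exact F.bmax u
    unfold Nat.dist; omega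
  · have h2 := F.harm x hx hb
    have h3 : ((F.s x : ℕ) : ℤ) = ((∑ u ∈ nb G x, 2 * (F.H x - F.H u) : ℕ) : ℤ) +
        ∑ u ∈ nb G x, ((F.H u : ℤ) - F.H x) := by
      unfold s
      rw [Nat.cast_sum, Nat.cast_sum, ← Finset.sum_add_distrib]
      refine Finset.sum_congr rfl fun u _ => ?_
      unfold Nat.dist; omega
    omega

theorem ring (hS : Surf G Δ e) (hab : a ≠ b) {O : Set V} (ha : a ∈ O) (hb : b ∈ O) {M : ℕ}
    {x x' : V} (hch : Ch G O M (2 * κ * (6 * Δ + 5) + 1) {x} {u | G.Adj x u}) (hx : G.Adj x x')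
    {A : Set V} (hA : Conn G A) (hA' : M < A.ncard) (hx' : x' ∈ A) {η₀ : ℕ} (hη : B ≤ η₀)
    (hη1 : 1 ≤ η₀) (hs : ∀ v ∈ A, F.s v ≤ η₀) :
    F.s x < η₀ * ((4 * Δ + 1) * ((M + 1) * (2 * (Δ + 1)))) ^ (M + 1) := by
  classical
  by_contra hc
  push Not at hc
  set H := (4 * Δ + 1) * ((M + 1) * (2 * (Δ + 1))) with hH
  have hH1 : 2 ≤ H := by
    have : 1 * (1 * (2 * 1)) ≤ H := by rw [hH]; gcongr <;> omega
    omega
  obtain ⟨-, I0, S0, h1, h2⟩ := hch
  obtain ⟨Ω, hΩ, h3⟩ := h2.extract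
  obtain ⟨i, hi, hgap⟩ := exists_gap hΩ F.s η₀ H (by omega)
  have g1 : η₀ ≤ η₀ * H ^ i := Nat.le_mul_of_pos_right _ (by positivity)
  have g2 : η₀ * H ^ (i + 1) ≤ F.s x :=
    (Nat.mul_le_mul_left _ (Nat.pow_le_pow_right (by omega) (by omega))).trans hc
  rw [pow_succ, ← mul_assoc] at hgap g2
  generalize η₀ * H ^ i = η at hgap g1 g2
  set ω := (M + 1) * (2 * (Δ + 1)) * η with hω
  have g3 : η * H = (4 * Δ + 1) * ω := by rw [hH, hω]; ring
  have g4 : (M + 1) * η ≤ ω := by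
    rw [hω, mul_assoc]; exact Nat.mul_le_mul_left _ (Nat.le_mul_of_pos_left _ (by omega))
  have g5 : M * (2 * ((Δ + 1) * η)) + (Δ + 1) * η ≤ ω := by
    have : ω = M * (2 * ((Δ + 1) * η)) + 2 * ((Δ + 1) * η) := by rw [hω]; ring
    omega
  have g6 : η ≤ ω := by rw [add_mul] at g4; omega
  have tiny : ∀ v, F.s v ≤ η → F.T v ≤ (Δ + 1) * η := fun v hv => by
    have := T_le (F := F) hS v
    have := Nat.mul_le_mul_left Δ (hη.trans g1)
    rw [add_mul]; omega
  let R : V → V → Prop := fun u v => G.Adj u v ∧ F.s u ≤ η ∧ F.s v ≤ η ∧ v ∈ Ω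
  have sub0 : I0 ⊆ Ω := by
    obtain ⟨I, S, b1, -, b3, -⟩ := h3 ∅ (by simp)
    exact b1.trans (Set.subset_union_left.trans b3)
  have hU : ∀ v, ReflTransGen R x' v → v ∈ Ω ∧ F.s v ≤ η := by
    intro v hv
    rcases hv.cases_tail with rfl | ⟨w, -, h⟩
    · exact ⟨sub0 (h1 (Or.inr hx)), (hs _ hx').trans g1⟩
    · exact ⟨h.2.2.2, h.2.2.1⟩
  have hW : ∀ v, ReflTransGen R x' v → Wi R M x' v := by
    rcases Wi.grow R x' M with h | h
    · exact h
    · have := Set.ncard_le_ncard (s := {v | Wi R M x' v}) (t := Ω) fun v hv => (hU v hv.rtg).1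
      omega
  have hH' : ∀ v, ReflTransGen R x' v → F.H x' ≤ F.H v + M * η ∧ F.H v ≤ F.H x' + M * η :=
    fun v hv => (hW v hv).lip fun u w h => by
      have := H_le (F := F) h.1
      have := h.2.1
      omega
  have hP' : ∀ v, ReflTransGen R x' v → F.P hS x' ≤ F.P hS v + M * (2 * ((Δ + 1) * η)) ∧
      F.P hS v ≤ F.P hS x' + M * (2 * ((Δ + 1) * η)) :=
    fun v hv => (hW v hv).lip fun u w h => by
      have := P_adj (F := F) hS h.1
      have := P_adj (F := F) hS h.1.symm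
      have := tiny u h.2.1
      have := tiny w h.2.2.1
      omega
  let X : Finset V := Finset.univ.filter fun v => v ∈ Ω ∧ η < F.s v ∧
    ∃ u, ReflTransGen R x' u ∧ G.Adj u v
  have hX := window (F := F) hS (ω := ω) (by omega) (by omega) (F.H x') (F.P hS x') X
    fun v hv => by
      simp only [X, Finset.mem_filter, Finset.mem_univ, true_and] at hv
      obtain ⟨a1, a2, u, a3, a4⟩ := hv
      have b1 := hH' u a3
      have b2 := hP' u a3
      have b3 := (hU u a3).2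
      have b4 := H_le (F := F) a4
      have b5 := P_le (F := F) hS a4
      have b6 := tiny u b3
      have b7 := hgap v a1
      rw [F.Ψsymm] at b5
      rw [add_mul] at g4
      refine ⟨by omega, by omega, ?_, u, a4.symm, by omega, by omega⟩
      have : (3 * Δ + 1) * ω ≤ (4 * Δ + 1) * ω := Nat.mul_le_mul_right _ (by omega)
      omega
  obtain ⟨I, S, b1, b2, b3, b4, b5⟩ := h3 X hX
  have xI : x ∈ I := b1 (h1 (Or.inl rfl))
  have nI : ∀ u, G.Adj x u → u ∈ I := fun u hu => b1 (h1 (Or.inr hu))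
  obtain ⟨z, z1, z2⟩ : ∃ z ∈ S, ReflTransGen R x' z := by
    by_contra hcon
    push Not at hcon
    have : A ⊆ Ω := by
      intro v hv
      have key : ∀ w, ReflTransGen (fun a b => G.Adj a b ∧ b ∈ A) x' w →
          w ∈ I ∧ ReflTransGen R x' w := by
        intro w hw
        induction hw with
        | refl => exact ⟨nI _ hx, ReflTransGen.refl⟩
        | @tail c d _ hcd ih =>
          have e1 := b2.2.1 c ih.1 d hcd.1
          have e2 : ReflTransGen R x' d :=
            ih.2.tail ⟨hcd.1, (hU c ih.2).2, (hs d hcd.2).trans g1, b3 e1⟩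
          exact ⟨e1.resolve_right fun h => hcon d h e2, e2⟩
      exact b3 (Or.inl (key v (hA x' hx' v hv)).1)
    have := Set.ncard_le_ncard this
    omega
  have hSU : ∀ w ∈ S, ReflTransGen R x' w := by
    intro w hw
    have := b2.2.2 z z1 w hw
    clear hw
    induction this with
    | refl => exact z2
    | @tail c d _ hcd ih =>
      refine ih.tail ⟨hcd.1, (hU c ih).2, ?_, b3 (Or.inr hcd.2)⟩
      by_contra hlt
      refine b5 d ?_ hcd.2
      simp only [X, Finset.mem_filter, Finset.mem_univ, true_and]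
      exact ⟨b3 (Or.inr hcd.2), by omega, c, ih, hcd.1⟩
  have e0 := H_le (F := F) hx.symm
  have e1 := (hU x' ReflTransGen.refl).2
  have e2 : Δ * (2 * (2 * ω)) < F.s x := by
    have : (4 * Δ + 1) * ω = Δ * (2 * (2 * ω)) + ω := by ring
    omega
  rw [add_mul] at g4
  have bI : b ∈ I := by
    by_contra hbI
    have hxb : x ≠ b := fun e => hbI (e ▸ xI)
    refine absurd (s_le_of_up (F := F) hS hxb (t := 2 * ω) fun u hu => ?_) (by omega)
    have := maxp hS.1 b2 (g := fun v => (F.H v : ℤ)) (t := F.H x' + M * η) (fun c hc hlt => by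
      refine F.harm c ?_ (fun e => hbI (e ▸ hc))
      rintro rfl
      have := F.amin x'
      have : (0 : ℤ) ≤ M * η := by positivity
      omega) (fun w hw => by exact_mod_cast (hH' w (hSU w hw)).2) z1 (nI u hu)
    have : F.H u ≤ F.H x' + M * η := by exact_mod_cast this
    omega
  have aI : a ∈ I := by
    by_contra haI
    have hxa : x ≠ a := fun e => haI (e ▸ xI)
    refine absurd (s_le_of_down (F := F) hS hxa (t := 2 * ω) fun u hu => ?_) (by omega)
    have := maxp hS.1 b2 (g := fun v => - (F.H v : ℤ)) (t := - F.H x' + M * η) (fun c hc hlt => by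
      have h0 := F.harm c (fun e => haI (e ▸ hc)) (by
        rintro rfl
        have := F.bmax x'
        have : (0 : ℤ) ≤ M * η := by positivity
        omega)
      rw [← neg_eq_zero, ← Finset.sum_neg_distrib] at h0
      rw [← h0]
      exact Finset.sum_congr rfl fun u _ => by ring) (fun w hw => by
        have : (F.H x' : ℤ) ≤ F.H w + M * η := by exact_mod_cast (hH' w (hSU w hw)).1
        linarith) z1 (nI u hu)
    have : (F.H x' : ℤ) ≤ F.H u + M * η := by linarith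
    have : F.H x' ≤ F.H u + M * η := by exact_mod_cast this
    omega
  exact hab (b4 ⟨aI, ha⟩ ⟨bI, hb⟩)

end Flow

end Pool.Agent.Lib.MP_845f45_al
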