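import Mathlib

namespace Pool.Agent.Lib.MP_845f45_al

open Relation

variable {V : Type}

def Nx (n i j : ℕ) : Prop := j = i + 1 ∨ i = j + 1 ∨ (i = 0 ∧ j + 1 = n) ∨ (j = 0 ∧ i + 1 = n)

structure Cyc (G : SimpleGraph V) (v : V) (n : ℕ) (c : ℕ → V) : Prop where
  four : 4 ≤ n
  inj : ∀ i j, i < n → j < n → c i = c j → i = j
  adj : ∀ i, i < n → G.Adj v (c i)
  surj : ∀ u, G.Adj v u → ∃ i, i < n ∧ c i = u
  link : ∀ i j, i < n → j < n → (G.Adj (c i) (c j) ↔ Nx n i j)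

def Surf [Fintype V] (G : SimpleGraph V) (Δ e : ℕ) : Prop :=
  (∀ u v, ReflTransGen G.Adj u v) ∧
  ∃ n : V → ℕ, (∀ v, n v ≤ Δ ∧ ∃ c, Cyc G v (n v) c) ∧ ∑ v, n v ≤ 6 * Fintype.card V + e

def Conn (G : SimpleGraph V) (S : Set V) : Prop :=
  ∀ u ∈ S, ∀ v ∈ S, ReflTransGen (fun a b => G.Adj a b ∧ b ∈ S) u v

variable {G : SimpleGraph V}

lemma Cyc.two {v u : V} {n : ℕ} {c : ℕ → V} (h : Cyc G v n c) (hu : G.Adj v u) :
    ∃ x y, x ≠ y ∧ ¬ G.Adj x y ∧ G.Adj v x ∧ G.Adj u x ∧ G.Adj v y ∧ G.Adj u y ∧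
      ∀ z, G.Adj v z → G.Adj u z → z = x ∨ z = y := by
  obtain ⟨i, hi, rfl⟩ := h.surj u hu
  have h4 := h.four
  obtain ⟨p, hp, hp'⟩ : ∃ p, p < n ∧ (i = p + 1 ∨ (i = 0 ∧ p + 1 = n)) := by
    by_cases h0 : i = 0
    · exact ⟨n - 1, by omega, by omega⟩
    · exact ⟨i - 1, by omega, by omega⟩
  obtain ⟨q, hq, hq'⟩ : ∃ q, q < n ∧ (q = i + 1 ∨ (q = 0 ∧ i + 1 = n)) := by
    by_cases h0 : i + 1 = n
    · exact ⟨0, by omega, by omega⟩
    · exact ⟨i + 1, by omega, by omega⟩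
  refine ⟨c p, c q, fun e => ?_, ?_, h.adj p hp, ?_, h.adj q hq, ?_, fun z h1 h2 => ?_⟩
  · have := h.inj p q hp hq e; omega
  · rw [h.link p q hp hq]; unfold Nx; omega
  · rw [h.link i p hi hp]; unfold Nx; omega
  · rw [h.link i q hi hq]; unfold Nx; omega
  · obtain ⟨j, hj, rfl⟩ := h.surj z h1
    rw [h.link i j hi hj] at h2
    unfold Nx at h2
    have : j = p ∨ j = q := by omega
    rcases this with rfl | rfl
    · exact Or.inl rfl
    · exact Or.inr rfl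

lemma rtg_symm {S : Set V} {u v : V} (hu : u ∈ S)
    (h : ReflTransGen (fun a b => G.Adj a b ∧ b ∈ S) u v) :
    ReflTransGen (fun a b => G.Adj a b ∧ b ∈ S) v u := by
  induction h with
  | refl => exact ReflTransGen.refl
  | @tail b c hab hbc ih =>
    refine ReflTransGen.head ⟨hbc.1.symm, ?_⟩ ih
    rcases hab.cases_tail with rfl | ⟨_, _, h⟩
    · exact hu
    · exact h.2

lemma conn_of_base {S : Set V} {x : V} (hx : x ∈ S)
    (h : ∀ v ∈ S, ReflTransGen (fun a b => G.Adj a b ∧ b ∈ S) x v) : Conn G S :=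
  fun u hu v hv => (rtg_symm hx (h u hu)).trans (h v hv)

lemma Cyc.conn {v : V} {n : ℕ} {c : ℕ → V} (h : Cyc G v n c) : Conn G {u | G.Adj v u} := by
  have h4 := h.four
  refine conn_of_base (h.adj 0 (by omega)) fun u hu => ?_
  obtain ⟨i, hi, rfl⟩ := h.surj u hu
  clear hu
  induction i with
  | zero => exact ReflTransGen.refl
  | succ i ih =>
    exact (ih (by omega)).tail ⟨(h.link i (i + 1) (by omega) hi).2 (Or.inl rfl), h.adj _ hi⟩

lemma Cyc.card_le {v : V} {n : ℕ} {c : ℕ → V} (h : Cyc G v n c) (s : Finset V)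
    (hs : ∀ u ∈ s, G.Adj v u) : s.card ≤ n := by
  classical
  have : s ⊆ (Finset.range n).image c := by
    intro u hu
    obtain ⟨i, hi, e⟩ := h.surj u (hs u hu)
    exact Finset.mem_image.2 ⟨i, Finset.mem_range.2 hi, e⟩
  exact (Finset.card_le_card this).trans (Finset.card_image_le.trans (by simp))

lemma Cyc.ncard_le {v : V} {n : ℕ} {c : ℕ → V} (h : Cyc G v n c) :
    {u | G.Adj v u}.ncard ≤ n := by
  have : {u | G.Adj v u} ⊆ c '' (Finset.range n : Set ℕ) := by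
    intro u hu
    obtain ⟨i, hi, e⟩ := h.surj u hu
    exact ⟨i, by simpa using hi, e⟩
  refine (Set.ncard_le_ncard this ((Finset.finite_toSet _).image _)).trans ?_
  exact (Set.ncard_image_le (Finset.finite_toSet _)).trans (by simp)

variable (G) in
def sdAdj : V ⊕ G.edgeSet → V ⊕ G.edgeSet → Prop
  | .inl _, .inl _ => False
  | .inl v, .inr e => v ∈ e.1
  | .inr e, .inl v => v ∈ e.1
  | .inr e, .inr e' => ∃ u v w, e.1 = s(u, v) ∧ e'.1 = s(u, w) ∧ G.Adj v w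

variable (G) in
def Sd : SimpleGraph (V ⊕ G.edgeSet) where
  Adj := sdAdj G
  symm := ⟨by
    rintro (a | a) (b | b) h
    · exact h
    · exact h
    · exact h
    · obtain ⟨u, v, w, h1, h2, h3⟩ := h
      exact ⟨u, w, v, h2, h1, h3.symm⟩⟩
  loopless := ⟨by
    rintro (a | a) h
    · exact h
    · obtain ⟨u, v, w, h1, h2, h3⟩ := h
      rw [h1, Sym2.congr_right] at h2
      exact h3.ne h2⟩

@[simp] lemma sd_ll (u v : V) : ¬ (Sd G).Adj (.inl u) (.inl v) := id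
@[simp] lemma sd_lr (v : V) (e : G.edgeSet) : (Sd G).Adj (.inl v) (.inr e) ↔ v ∈ e.1 := Iff.rfl
@[simp] lemma sd_rl (v : V) (e : G.edgeSet) : (Sd G).Adj (.inr e) (.inl v) ↔ v ∈ e.1 := Iff.rfl
lemma sd_rr (e e' : G.edgeSet) : (Sd G).Adj (.inr e) (.inr e') ↔
    ∃ u v w, e.1 = s(u, v) ∧ e'.1 = s(u, w) ∧ G.Adj v w := Iff.rfl

lemma sd_rr' {a b c d : V} (h : s(a, b) ∈ G.edgeSet) (h' : s(c, d) ∈ G.edgeSet) :
    (Sd G).Adj (.inr ⟨_, h⟩) (.inr ⟨_, h'⟩) ↔
      (a = c ∧ G.Adj b d) ∨ (a = d ∧ G.Adj b c) ∨ (b = c ∧ G.Adj a d) ∨ (b = d ∧ G.Adj a c) := by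
  rw [sd_rr]
  constructor
  · rintro ⟨u, v, w, h1, h2, h3⟩
    simp only [Sym2.eq_iff] at h1 h2
    rcases h1 with ⟨rfl, rfl⟩ | ⟨rfl, rfl⟩ <;> rcases h2 with ⟨rfl, rfl⟩ | ⟨rfl, rfl⟩ <;> simp [h3]
  · rintro (⟨rfl, h⟩ | ⟨rfl, h⟩ | ⟨rfl, h⟩ | ⟨rfl, h⟩)
    · exact ⟨a, b, d, rfl, rfl, h⟩
    · exact ⟨a, b, c, rfl, Sym2.eq_swap, h⟩
    · exact ⟨b, a, d, Sym2.eq_swap, rfl, h⟩
    · exact ⟨b, a, c, Sym2.eq_swap, Sym2.eq_swap, h⟩

lemma exists_other {v : V} {e : G.edgeSet} (h : v ∈ e.1) :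
    ∃ u, ∃ h : G.Adj v u, e = ⟨s(v, u), h⟩ := by
  obtain ⟨u, hu⟩ := Sym2.mem_iff_exists.1 h
  exact ⟨u, by have := e.2; rwa [hu] at this, Subtype.ext hu⟩

lemma Cyc.sd_inl {v : V} {n : ℕ} {c : ℕ → V} (h : Cyc G v n c) :
    ∃ c', Cyc (Sd G) (.inl v) n c' := by
  refine ⟨fun i => if hi : i < n then .inr ⟨s(v, c i), h.adj i hi⟩ else .inl v, h.four, ?_, ?_,
    ?_, ?_⟩
  · intro i j hi hj e
    simp only [dif_pos hi, dif_pos hj, Sum.inr.injEq, Subtype.mk.injEq, Sym2.congr_right] at e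
    exact h.inj i j hi hj e
  · intro i hi
    simp [dif_pos hi]
  · rintro (u | e) hu
    · exact absurd hu (sd_ll _ _)
    · obtain ⟨u, hu', rfl⟩ := exists_other hu
      obtain ⟨i, hi, rfl⟩ := h.surj u hu'
      exact ⟨i, hi, by simp [dif_pos hi]⟩
  · intro i j hi hj
    simp only [dif_pos hi, dif_pos hj]
    rw [sd_rr', ← h.link i j hi hj]
    have a1 := (h.adj i hi).ne
    have a2 := (h.adj j hj).ne
    simp [a1.symm, a2]

lemma sd_inr {v u x y : V} (hu : G.Adj v u) (hxy : x ≠ y) (hxy' : ¬ G.Adj x y) (h1 : G.Adj v x)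
    (h2 : G.Adj u x) (h3 : G.Adj v y) (h4 : G.Adj u y)
    (h5 : ∀ z, G.Adj v z → G.Adj u z → z = x ∨ z = y) :
    ∃ c', Cyc (Sd G) (.inr ⟨s(v, u), hu⟩) 6 c' := by
  let c' : ℕ → V ⊕ G.edgeSet := fun i => match i with
    | 0 => .inl v
    | 1 => .inr ⟨s(v, x), h1⟩
    | 2 => .inr ⟨s(u, x), h2⟩
    | 3 => .inl u
    | 4 => .inr ⟨s(u, y), h4⟩
    | _ => .inr ⟨s(v, y), h3⟩
  have n1 := hu.ne
  have n2 := h1.ne
  have n3 := h2.ne
  have n4 := h3.ne
  have n5 := h4.ne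
  have hyx' : ¬ G.Adj y x := fun h => hxy' h.symm
  refine ⟨c', by norm_num, ?_, ?_, ?_, ?_⟩
  · intro i j hi hj
    interval_cases i <;> interval_cases j <;>
      simp [c', n1, n2, n3, n4, n5, hxy, n1.symm, n2.symm, n3.symm, n4.symm, n5.symm, hxy.symm]
  · intro i hi
    interval_cases i <;> simp [c', sd_rr', h1, h2, h3, h4]
  · rintro (z | e) hz
    · simp only [sd_rl, Sym2.mem_iff] at hz
      rcases hz with rfl | rfl
      · exact ⟨0, by norm_num, rfl⟩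
      · exact ⟨3, by norm_num, rfl⟩
    · obtain ⟨a, b, w, e1, e2, e3⟩ := hz
      obtain ⟨e, he⟩ := e
      simp only at e2
      subst e2
      simp only [Sym2.eq_iff] at e1
      rcases e1 with ⟨rfl, rfl⟩ | ⟨rfl, rfl⟩
      · rcases h5 w he e3 with rfl | rfl
        · exact ⟨1, by norm_num, rfl⟩
        · exact ⟨5, by norm_num, rfl⟩
      · rcases h5 w e3 he with rfl | rfl
        · exact ⟨2, by norm_num, rfl⟩
        · exact ⟨4, by norm_num, rfl⟩
  · intro i j hi hj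
    interval_cases i <;> interval_cases j <;>
      simp [c', Nx, sd_rr', n1, n2, n3, n4, n5, hxy, n1.symm, n2.symm, n3.symm, n4.symm, n5.symm,
        hxy.symm, hu, hu.symm, hxy', hyx']

lemma exists_ends (e : G.edgeSet) : ∃ u v, ∃ h : G.Adj u v, e = ⟨s(u, v), h⟩ := by
  obtain ⟨e, he⟩ := e
  induction e using Sym2.ind with
  | _ u v => exact ⟨u, v, he, rfl⟩

@[reducible] noncomputable def sdFin [Fintype V] (G : SimpleGraph V) : Fintype (V ⊕ G.edgeSet) :=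
  @instFintypeSum _ _ _ (Fintype.ofFinite _)

lemma Surf.sd [Fintype V] {Δ e : ℕ} (h : Surf G Δ e) (hΔ : 6 ≤ Δ) :
    @Surf _ (sdFin G) (Sd G) Δ e := by
  obtain ⟨h1, n, h2, h3⟩ := h
  have key : ∀ u v, ReflTransGen (Sd G).Adj (.inl u) (.inl v) := by
    intro u v
    induction h1 u v with
    | refl => exact ReflTransGen.refl
    | @tail a b _ hab ih =>
      exact (ih.tail (b := .inl a) (c := .inr ⟨s(a, b), hab⟩) (by simp)).tail (by simp)
  have key2 : ∀ x : V ⊕ G.edgeSet, ∃ u, ReflTransGen (Sd G).Adj x (.inl u) ∧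
      ReflTransGen (Sd G).Adj (.inl u) x := by
    rintro (u | e)
    · exact ⟨u, ReflTransGen.refl, ReflTransGen.refl⟩
    · obtain ⟨u, v, h, rfl⟩ := exists_ends e
      exact ⟨u, ReflTransGen.single (by simp), ReflTransGen.single (by simp)⟩
  refine ⟨fun x y => ?_, Sum.elim n (fun _ => 6), ?_, ?_⟩
  · obtain ⟨u, a1, -⟩ := key2 x
    obtain ⟨v, -, a2⟩ := key2 y
    exact (a1.trans (key u v)).trans a2
  · rintro (v | e)
    · obtain ⟨a1, c, hc⟩ := h2 v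
      exact ⟨a1, hc.sd_inl⟩
    · obtain ⟨u, v, h, rfl⟩ := exists_ends e
      obtain ⟨-, c, hc⟩ := h2 u
      obtain ⟨x, y, b1, b2, b3, b4, b5, b6, b7⟩ := hc.two h
      exact ⟨hΔ, sd_inr h b1 b2 b3 b4 b5 b6 b7⟩
  · letI := Fintype.ofFinite G.edgeSet
    rw [Fintype.sum_sum_type, Fintype.card_sum]
    simp only [Sum.elim_inl, Sum.elim_inr, Finset.sum_const, Finset.card_univ, smul_eq_mul]
    omega

def Sep (G : SimpleGraph V) (I S : Set V) : Prop :=
  Disjoint I S ∧ (∀ u ∈ I, ∀ v, G.Adj u v → v ∈ I ∪ S) ∧ Conn G S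

def Ch (G : SimpleGraph V) (O : Set V) (M : ℕ) : ℕ → Set V → Set V → Prop
  | 0, I, S => Sep G I S ∧ (I ∩ O).Subsingleton ∧ (I ∪ S).ncard ≤ M
  | r + 1, I, S => Sep G I S ∧ ∃ I' S', I ∪ S ⊆ I' ∧ Ch G O M r I' S'

lemma Ch.extract {O : Set V} {M : ℕ} (r : ℕ) : ∀ {I S : Set V}, Ch G O M r I S →
    ∃ Ω : Set V, Ω.ncard ≤ M ∧ ∀ X : Finset V, X.card ≤ r → ∃ I' S', I ⊆ I' ∧ Sep G I' S' ∧
      I' ∪ S' ⊆ Ω ∧ (I' ∩ O).Subsingleton ∧ ∀ x ∈ X, x ∉ S' := by
  classical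
  induction r with
  | zero =>
    intro I S h
    refine ⟨I ∪ S, h.2.2, fun X hX => ⟨I, S, subset_rfl, h.1, subset_rfl, h.2.1, ?_⟩⟩
    rw [Finset.card_eq_zero.1 (Nat.le_zero.1 hX)]
    simp
  | succ r ih =>
    rintro I S ⟨h1, I', S', h2, h3⟩
    obtain ⟨Ω, a1, a2⟩ := ih h3
    refine ⟨Ω, a1, fun X hX => ?_⟩
    by_cases hc : ∀ x ∈ X, x ∉ S
    · obtain ⟨I'', S'', b1, -, b3, b4, -⟩ := a2 ∅ (by simp)
      refine ⟨I, S, subset_rfl, h1, (h2.trans b1).trans (Set.subset_union_left.trans b3), ?_, hc⟩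
      exact b4.anti (Set.inter_subset_inter_left _ ((Set.subset_union_left.trans h2).trans b1))
    · push Not at hc
      obtain ⟨x, hx, hx'⟩ := hc
      obtain ⟨I'', S'', b1, b2, b3, b4, b5⟩ := a2 (X.erase x) (by
        have := Finset.card_erase_add_one hx; omega)
      refine ⟨I'', S'', (Set.subset_union_left.trans h2).trans b1, b2, b3, b4, fun y hy => ?_⟩
      by_cases e : y = x
      · rw [e]
        exact Set.disjoint_left.1 b2.1 (b1 (h2 (Or.inr hx')))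
      · exact b5 y (Finset.mem_erase.2 ⟨e, hy⟩)

variable (G) in
def olift (I : Set V) : Set (V ⊕ G.edgeSet) :=
  {x | match x with
    | .inl v => v ∈ I
    | .inr e => ∃ v ∈ I, v ∈ e.1}

variable (G) in
def clift (S : Set V) : Set (V ⊕ G.edgeSet) :=
  {x | match x with
    | .inl v => v ∈ S
    | .inr e => ∀ v ∈ e.1, v ∈ S}

@[simp] lemma olift_l {I : Set V} {v : V} : .inl v ∈ olift G I ↔ v ∈ I := Iff.rfl
@[simp] lemma olift_r {I : Set V} {e : G.edgeSet} : .inr e ∈ olift G I ↔ ∃ v ∈ I, v ∈ e.1 :=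
  Iff.rfl
@[simp] lemma clift_l {I : Set V} {v : V} : .inl v ∈ clift G I ↔ v ∈ I := Iff.rfl
@[simp] lemma clift_r {I : Set V} {e : G.edgeSet} : .inr e ∈ clift G I ↔ ∀ v ∈ e.1, v ∈ I :=
  Iff.rfl

lemma olift_mono {I J : Set V} (h : I ⊆ J) : olift G I ⊆ olift G J := by
  rintro (v | e) hx
  · exact h hx
  · obtain ⟨v, h1, h2⟩ := hx
    exact ⟨v, h h1, h2⟩

lemma lift_union (I S : Set V) : olift G I ∪ clift G S ⊆ olift G (I ∪ S) := by
  rintro (v | e) (hx | hx)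
  · exact Or.inl hx
  · exact Or.inr hx
  · exact olift_mono Set.subset_union_left hx
  · obtain ⟨u, v, h, rfl⟩ := exists_ends e
    exact ⟨u, Or.inr (hx u (by simp)), by simp⟩

lemma Sep.lift {I S : Set V} (h : Sep G I S) : Sep (Sd G) (olift G I) (clift G S) := by
  obtain ⟨h1, h2, h3⟩ := h
  refine ⟨?_, ?_, ?_⟩
  · rw [Set.disjoint_left] at h1 ⊢
    rintro (v | e) hx hx'
    · exact h1 hx hx'
    · obtain ⟨v, a1, a2⟩ := hx
      exact h1 a1 (hx' v a2)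
  · rintro (v | e) hx (u | e') hadj
    · exact absurd hadj (sd_ll _ _)
    · exact Or.inl ⟨v, hx, hadj⟩
    · obtain ⟨v, a1, a2⟩ := hx
      obtain ⟨w, hw, rfl⟩ := exists_other a2
      simp only [sd_rl, Sym2.mem_iff] at hadj
      rcases hadj with rfl | rfl
      · exact Or.inl a1
      · exact h2 v a1 u hw
    · obtain ⟨v, a1, a2⟩ := hx
      obtain ⟨w, hw, rfl⟩ := exists_other a2
      obtain ⟨c, d, hcd, rfl⟩ := exists_ends e'
      rw [sd_rr'] at hadj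
      have key : G.Adj v c → G.Adj v d →
          Sum.inr ⟨s(c, d), hcd⟩ ∈ olift G I ∪ clift G S := by
        intro a b
        rcases h2 v a1 c a with a' | a'
        · exact Or.inl ⟨c, a', by simp⟩
        rcases h2 v a1 d b with b' | b'
        · exact Or.inl ⟨d, b', by simp⟩
        · right; simp [a', b']
      rcases hadj with ⟨rfl, -⟩ | ⟨rfl, -⟩ | ⟨rfl, h⟩ | ⟨rfl, h⟩
      · exact Or.inl ⟨v, a1, by simp⟩
      · exact Or.inl ⟨v, a1, by simp⟩
      · exact key hw h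
      · exact key h hw
  · have key : ∀ u ∈ S, ∀ v ∈ S, ReflTransGen (fun a b => (Sd G).Adj a b ∧ b ∈ clift G S)
        (.inl u) (.inl v) := by
      intro u hu v hv
      have := h3 u hu v hv
      clear hv
      induction this with
      | refl => exact ReflTransGen.refl
      | @tail a b hua hab ih =>
        have ha : a ∈ S := by
          rcases hua.cases_tail with rfl | ⟨_, _, h⟩
          · exact hu
          · exact h.2
        exact (ih.tail (b := .inl a) (c := .inr ⟨s(a, b), hab.1⟩)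
          ⟨by simp, by simp [ha, hab.2]⟩).tail ⟨by simp, hab.2⟩
    have key2 : ∀ x ∈ clift G S, ∃ u ∈ S,
        ReflTransGen (fun a b => (Sd G).Adj a b ∧ b ∈ clift G S) (.inl u) x := by
      rintro (u | e) hx
      · exact ⟨u, hx, ReflTransGen.refl⟩
      · obtain ⟨u, v, h, rfl⟩ := exists_ends e
        exact ⟨u, hx u (by simp), ReflTransGen.single ⟨by simp, hx⟩⟩
    intro x hx y hy
    obtain ⟨u, a1, a2⟩ := key2 x hx
    obtain ⟨v, a3, a4⟩ := key2 y hy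
    exact ((rtg_symm (by simpa using a1) a2).trans (key u a1 v a3)).trans a4

lemma ncard_olift [Finite V] {Δ : ℕ} (hΔ : ∀ v, {u | G.Adj v u}.ncard ≤ Δ) (I : Set V) :
    (olift G I).ncard ≤ I.ncard * (Δ + 1) := by
  induction I, Set.toFinite I using Set.Finite.induction_on with
  | empty =>
    have : olift G ∅ = ∅ := by
      ext (v | e) <;> simp
    simp [this]
  | @insert a s ha hs ih =>
    have h1 : olift G (insert a s) ⊆ olift G s ∪ insert (.inl a)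
        ((fun u : {u | G.Adj a u} => (Sum.inr ⟨s(a, u.1), u.2⟩ : V ⊕ G.edgeSet)) '' Set.univ) := by
      rintro (v | e) hx
      · rcases hx with rfl | hx
        · exact Or.inr (Or.inl rfl)
        · exact Or.inl hx
      · obtain ⟨v, rfl | a1, a2⟩ := hx
        · obtain ⟨u, hu, rfl⟩ := exists_other a2
          exact Or.inr (Or.inr ⟨⟨u, hu⟩, trivial, rfl⟩)
        · exact Or.inl ⟨v, a1, a2⟩
    have h2 := Set.ncard_le_ncard h1
    have h3 := Set.ncard_union_le (olift G s) (insert (.inl a)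
        ((fun u : {u | G.Adj a u} => (Sum.inr ⟨s(a, u.1), u.2⟩ : V ⊕ G.edgeSet)) '' Set.univ))
    have h4 := Set.ncard_insert_le (.inl a)
        ((fun u : {u | G.Adj a u} => (Sum.inr ⟨s(a, u.1), u.2⟩ : V ⊕ G.edgeSet)) '' Set.univ)
    have h5 := Set.ncard_image_le (s := Set.univ) (f := fun u : {u | G.Adj a u} =>
      (Sum.inr ⟨s(a, u.1), u.2⟩ : V ⊕ G.edgeSet))
    rw [Set.ncard_univ, Nat.card_coe_set_eq] at h5
    have := hΔ a
    rw [Set.ncard_insert_of_notMem ha, add_mul]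
    omega

lemma Ch.lift [Finite V] {Δ : ℕ} (hΔ : ∀ v, {u | G.Adj v u}.ncard ≤ Δ) {O : Set V} {M : ℕ}
    (r : ℕ) : ∀ {I S : Set V}, Ch G O M r I S →
      Ch (Sd G) (Sum.inl '' O) (M * (Δ + 1)) r (olift G I) (clift G S) := by
  induction r with
  | zero =>
    rintro I S ⟨h1, h2, h3⟩
    refine ⟨h1.lift, ?_, ?_⟩
    · rintro _ ⟨a1, u, a2, rfl⟩ _ ⟨a3, v, a4, rfl⟩
      rw [h2 ⟨a1, a2⟩ ⟨a3, a4⟩]
    · exact (Set.ncard_le_ncard (lift_union I S)).trans
        ((ncard_olift hΔ _).trans (Nat.mul_le_mul_right _ h3))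
  | succ r ih =>
    rintro I S ⟨h1, I', S', h2, h3⟩
    exact ⟨h1.lift, _, _, (lift_union I S).trans (olift_mono h2), ih h3⟩

lemma star_sub (x : (V ⊕ G.edgeSet) ⊕ (Sd G).edgeSet) :
    ∃ y : V, {x} ∪ {u | (Sd (Sd G)).Adj x u} ⊆ olift (Sd G) (olift G {y}) := by
  rcases x with z | e
  · obtain ⟨y, hy⟩ : ∃ y, z ∈ olift G {y} := by
      rcases z with y | e
      · exact ⟨y, rfl⟩
      · obtain ⟨u, v, h, rfl⟩ := exists_ends e
        exact ⟨u, u, rfl, by simp⟩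
    refine ⟨y, ?_⟩
    rintro (u | e) (hu | hu)
    · simp only [Set.mem_singleton_iff, Sum.inl.injEq] at hu
      rw [hu]; exact hy
    · exact False.elim hu
    · simp at hu
    · exact ⟨z, hy, hu⟩
  · obtain ⟨z, z', h, rfl⟩ := exists_ends e
    obtain ⟨y, hy, hy'⟩ : ∃ y, z ∈ olift G {y} ∧ z' ∈ olift G {y} := by
      rcases z with y | e <;> rcases z' with y' | e'
      · exact absurd h (sd_ll _ _)
      · exact ⟨y, rfl, y, rfl, h⟩
      · exact ⟨y', ⟨y', rfl, h⟩, rfl⟩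
      · obtain ⟨u, v, w, a1, a2, -⟩ := h
        exact ⟨u, ⟨u, rfl, by simp [a1]⟩, u, rfl, by simp [a2]⟩
    refine ⟨y, ?_⟩
    rintro (u | e) (hu | hu)
    · simp at hu
    · simp only [Set.mem_ofPred_eq, sd_rl, Sym2.mem_iff] at hu
      rcases hu with rfl | rfl
      · exact hy
      · exact hy'
    · simp only [Set.mem_singleton_iff, Sum.inr.injEq] at hu
      rw [hu]; exact ⟨z, hy, by simp⟩
    · obtain ⟨c, d, hcd, rfl⟩ := exists_ends e
      simp only [Set.mem_ofPred_eq] at hu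
      rw [sd_rr'] at hu
      rcases hu with ⟨rfl, -⟩ | ⟨rfl, -⟩ | ⟨rfl, -⟩ | ⟨rfl, -⟩
      · exact ⟨z, hy, by simp⟩
      · exact ⟨z, hy, by simp⟩
      · exact ⟨z', hy', by simp⟩
      · exact ⟨z', hy', by simp⟩

lemma Surf.deg [Fintype V] {Δ e : ℕ} (h : Surf G Δ e) (v : V) : {u | G.Adj v u}.ncard ≤ Δ := by
  obtain ⟨-, n, h2, -⟩ := h
  obtain ⟨a1, c, hc⟩ := h2 v
  exact hc.ncard_le.trans a1

lemma Surf.sep_star [Fintype V] {Δ e : ℕ} (h : Surf G Δ e) (v : V) :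
    Sep G {v} {u | G.Adj v u} := by
  obtain ⟨-, n, h2, -⟩ := h
  obtain ⟨a1, c, hc⟩ := h2 v
  refine ⟨by simp, ?_, hc.conn⟩
  rintro u rfl w hw
  exact Or.inr hw

def Wi (R : V → V → Prop) : ℕ → V → V → Prop
  | 0, u, v => u = v
  | n + 1, u, v => Wi R n u v ∨ ∃ w, Wi R n u w ∧ R w v

lemma Wi.mono {R : V → V → Prop} {n m : ℕ} {u v : V} (h : Wi R n u v) (hnm : n ≤ m) :
    Wi R m u v := by
  induction hnm with
  | refl => exact h
  | step _ ih => exact Or.inl ih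

lemma Wi.refl (R : V → V → Prop) (n : ℕ) (u : V) : Wi R n u u :=
  Wi.mono (n := 0) rfl (Nat.zero_le _)

lemma Wi.trans {R : V → V → Prop} {n m : ℕ} {u v w : V} (h : Wi R n u v) (h' : Wi R m v w) :
    Wi R (n + m) u w := by
  induction m generalizing w with
  | zero => exact h' ▸ h
  | succ m ih =>
    rcases h' with h' | ⟨x, h1, h2⟩
    · exact Or.inl (ih h')
    · exact Or.inr ⟨x, ih h1, h2⟩

lemma Wi.single {R : V → V → Prop} {u v : V} (h : R u v) : Wi R 1 u v := Or.inr ⟨u, rfl, h⟩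

lemma Wi.sd {n : ℕ} {u v : V} (h : Wi G.Adj n u v) :
    Wi (Sd G).Adj (2 * n) (.inl u) (.inl v) := by
  induction n generalizing v with
  | zero => exact congrArg _ h
  | succ n ih =>
    rcases h with h | ⟨x, h1, h2⟩
    · exact (ih h).mono (by omega)
    · exact Or.inr ⟨.inr ⟨s(x, v), h2⟩, Or.inr ⟨_, ih h1, by simp⟩, by simp⟩

theorem exists_refinement {Δ e : ℕ} (hΔ : 6 ≤ Δ) (r : ℕ) : ∃ M L : ℕ,
    ∀ {V : Type} [Fintype V] (G : SimpleGraph V), Surf G Δ e →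
      ∃ (V' : Type) (_ : Fintype V') (G' : SimpleGraph V') (ι : V → V'), Surf G' Δ e ∧
        Function.Injective ι ∧ (∀ u v, G.Adj u v → Wi G'.Adj L (ι u) (ι v)) ∧
        ∀ y, Ch G' (Set.range ι) M r {y} {u | G'.Adj y u} := by
  induction r with
  | zero =>
    refine ⟨Δ + 1, 1, fun G h => ⟨_, inferInstance, G, id, h, Function.injective_id,
      fun u v h => Wi.single h, fun y => ⟨h.sep_star y, ?_, ?_⟩⟩⟩
    · exact Set.subsingleton_singleton.anti Set.inter_subset_left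
    · have := h.deg y
      have := Set.ncard_union_le {y} {u | G.Adj y u}
      rw [Set.ncard_singleton] at this
      omega
  | succ r ih =>
    obtain ⟨M, L, ih⟩ := ih
    refine ⟨M * (Δ + 1) * (Δ + 1), 2 * (2 * L), fun G h => ?_⟩
    obtain ⟨V', _, G', ι, h1, h2, h3, h4⟩ := ih G h
    have h5 := h1.sd hΔ
    letI := sdFin G'
    have h6 := h5.sd hΔ
    letI := sdFin (Sd G')
    refine ⟨_, sdFin (Sd G'), Sd (Sd G'), fun v => .inl (.inl (ι v)), h6, ?_,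
      fun u v h => (h3 u v h).sd.sd, fun x => ⟨h6.sep_star x, ?_⟩⟩
    · intro u v huv
      simp only [Sum.inl.injEq] at huv
      exact h2 huv
    · obtain ⟨y, hy⟩ := star_sub x
      refine ⟨_, clift _ (clift _ {u | G'.Adj y u}), hy, ?_⟩
      have := Ch.lift h5.deg r (Ch.lift h1.deg r (h4 y))
      rwa [← Set.range_comp, ← Set.range_comp] at this

end Pool.Agent.Lib.MP_845f45_al
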