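import Mathlib

namespace Pool.Agent.Lib.MP_845f45_al

open Relation Topology Set

variable {Z V V' : Type} [TopologicalSpace Z]

def Lft (f : Z → AddCircle (1 : ℝ)) (A : Set Z) : Prop :=
  ∃ g : Z → ℝ, ContinuousOn g A ∧ ∀ y ∈ A, (g y : AddCircle (1 : ℝ)) = f y

def Con (A : Set Z) : Prop := IsPreconnected A ∧ ∀ f, ContinuousOn f A → Lft f A

lemma Lft.mono {f : Z → AddCircle (1 : ℝ)} {A B : Set Z} (h : Lft f A) (hB : B ⊆ A) : Lft f B :=
  let ⟨g, h1, h2⟩ := h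
  ⟨g, h1.mono hB, fun y hy => h2 y (hB hy)⟩

lemma con_of_contractible (A : Set Z) [ContractibleSpace A] : Con A := by
  classical
  refine ⟨isPreconnected_iff_preconnectedSpace.2 inferInstance, fun f hf => ?_⟩
  obtain ⟨p, ⟨H⟩⟩ := id_nullhomotopic A
  obtain ⟨r, hr⟩ := QuotientAddGroup.mk_surjective (f p)
  let F : C(A, AddCircle (1 : ℝ)) := ⟨_, hf.restrict⟩
  let L := (AddCircle.isCoveringMap_coe (1 : ℝ)).liftHomotopy (F.comp H.symm.toContinuousMap)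
    (ContinuousMap.const A r) fun a => by simpa [F] using hr.symm
  refine ⟨fun y => if h : y ∈ A then L (1, ⟨y, h⟩) else 0, ?_, fun y hy => ?_⟩
  · rw [continuousOn_iff_continuous_restrict]
    convert (show Continuous fun a : A => L (1, a) by fun_prop) using 1
    ext a; simp
  · beta_reduce
    rw [dif_pos hy]
    have := congrFun ((AddCircle.isCoveringMap_coe (1 : ℝ)).liftHomotopy_lifts
      (F.comp H.symm.toContinuousMap) (ContinuousMap.const A r)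
      fun a => by simpa [F] using hr.symm) (1, ⟨y, hy⟩)
    exact this.trans (by simp [F])

lemma circ_eq {a b : ℝ} : (a : AddCircle (1 : ℝ)) = b ↔ ∃ k : ℤ, a - b = k := by
  rw [← sub_eq_zero, ← AddCircle.coe_sub, AddCircle.coe_eq_zero_iff]
  simp [eq_comm]

lemma int_const {A : Set Z} (hA : IsPreconnected A) {g : Z → ℝ} (hg : ContinuousOn g A)
    (h : ∀ y ∈ A, ∃ k : ℤ, g y = k) : ∃ k : ℤ, ∀ y ∈ A, g y = k := by
  rcases A.eq_empty_or_nonempty with rfl | ⟨x, hx⟩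
  · exact ⟨0, by simp⟩
  obtain ⟨k, hk⟩ := h x hx
  have key : ∀ a ∈ A, ∀ b ∈ A, g b ≤ g a := by
    intro a ha b hb
    by_contra hc
    obtain ⟨i, hi⟩ := h a ha
    obtain ⟨j, hj⟩ := h b hb
    have l : (i : ℝ) + 1 ≤ j := by
      rw [hi, hj, not_le] at hc
      exact_mod_cast hc
    obtain ⟨c, c1, c2⟩ := hA.intermediate_value ha hb hg
      (show (i : ℝ) + 1 / 2 ∈ Icc (g a) (g b) from ⟨by linarith, by linarith⟩)
    obtain ⟨l, hl⟩ := h c c1
    have : ((2 * l : ℤ) : ℝ) = ((2 * i + 1 : ℤ) : ℝ) := by push_cast; linarith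
    have := Int.cast_injective this
    omega
  exact ⟨k, fun y hy => hk ▸ le_antisymm (key x hx y hy) (key y hy x hx)⟩

structure Good (t : V → Z → ℝ) (Y : Set Z) (N : V → V → V → Prop) : Prop where
  cont : ∀ v, ContinuousOn (t v) Y
  nn : ∀ v, ∀ y ∈ Y, 0 ≤ t v y
  pos : ∀ y ∈ Y, ∃ v, 0 < t v y
  ner : ∀ u v w, N u v w ↔ ∃ y ∈ Y, 0 < t u y ∧ 0 < t v y ∧ 0 < t w y
  con : ∀ u v, N u v v → Con {y ∈ Y | 0 < t u y ∧ 0 < t v y}

def Coc (N : V → V → V → Prop) (z : V → V → ℤ) : Prop := ∀ u v w, N u v w → z u v + z v w = z u w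

def Cob (N : V → V → V → Prop) (z : V → V → ℤ) : Prop :=
  ∃ n : V → ℤ, ∀ u v, N u v v → z u v = n u - n v

def Qr (m : ℕ) (N : V → V → V → Prop) : Prop :=
  ∀ (ι : Type) [Fintype ι], m < Fintype.card ι → ∀ z : ι → V → V → ℤ, (∀ i, Coc N (z i)) →
    ∃ a : ι → ℤ, a ≠ 0 ∧ Cob N fun u v => ∑ i, a i * z i u v

namespace Good

variable {t : V → Z → ℝ} {Y : Set Z} {N : V → V → V → Prop} (h : Good t Y N)
include h

lemma glue {X : Type} [TopologicalSpace X] {g : Z → X}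
    (hg : ∀ v, ContinuousOn g {y ∈ Y | 0 < t v y}) : ContinuousOn g Y := by
  intro y hy
  obtain ⟨v, hv⟩ := h.pos y hy
  refine (hg v y ⟨hy, hv⟩).mono_of_mem_nhdsWithin ?_
  exact Filter.inter_mem self_mem_nhdsWithin (h.cont v y hy (Ioi_mem_nhds hv))

lemma pre (u v : V) : IsPreconnected {y ∈ Y | 0 < t u y ∧ 0 < t v y} := by
  rcases {y ∈ Y | 0 < t u y ∧ 0 < t v y}.eq_empty_or_nonempty with e | ⟨y, y1, y2, y3⟩
  · rw [e]; exact isPreconnected_empty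
  · exact (h.con u v ((h.ner _ _ _).2 ⟨y, y1, y2, y3, y3⟩)).1

lemma up {ι : Type} [Fintype ι] {f : ι → Z → AddCircle (1 : ℝ)} (hf : ∀ i, ContinuousOn (f i) Y) :
    ∃ z : ι → V → V → ℤ, (∀ i, Coc N (z i)) ∧ ∀ a : ι → ℤ,
      Cob N (fun u v => ∑ i, a i * z i u v) → Lft (fun y => ∑ i, a i • f i y) Y := by
  classical
  have k1 : ∀ i v, Lft (f i) {y ∈ Y | 0 < t v y} := fun i v => by
    rcases {y ∈ Y | 0 < t v y}.eq_empty_or_nonempty with e | ⟨y, y1, y2⟩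
    · rw [e]; exact ⟨0, continuousOn_empty _, by simp⟩
    · exact ((h.con v v ((h.ner _ _ _).2 ⟨y, y1, y2, y2, y2⟩)).2 _
        ((hf i).mono fun y hy => hy.1)).mono fun y hy => ⟨hy.1, hy.2, hy.2⟩
  choose L L1 L2 using k1
  have k2 : ∀ i u v, ∃ k : ℤ, ∀ y ∈ {y ∈ Y | 0 < t u y ∧ 0 < t v y}, L i u y - L i v y = k :=
    fun i u v => int_const (h.pre u v) (((L1 i u).mono fun y hy => ⟨hy.1, hy.2.1⟩).sub
      ((L1 i v).mono fun y hy => ⟨hy.1, hy.2.2⟩)) fun y hy =>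
        circ_eq.1 ((L2 i u y ⟨hy.1, hy.2.1⟩).trans (L2 i v y ⟨hy.1, hy.2.2⟩).symm)
  choose z hz using k2
  refine ⟨z, fun i u v w e => ?_, fun a ⟨n, hn⟩ => ?_⟩
  · obtain ⟨y, y1, y2, y3, y4⟩ := (h.ner _ _ _).1 e
    have : ((z i u v + z i v w : ℤ) : ℝ) = z i u w := by
      push_cast
      linarith [hz i u v y ⟨y1, y2, y3⟩, hz i v w y ⟨y1, y3, y4⟩, hz i u w y ⟨y1, y2, y4⟩]
    exact_mod_cast this
  let g : Z → ℝ := fun y => if e : ∃ v, 0 < t v y then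
    ∑ i, a i * L i e.choose y - n e.choose else 0
  have hg : ∀ v, ∀ y ∈ {y ∈ Y | 0 < t v y}, g y = ∑ i, a i * L i v y - n v := by
    intro v y hy
    have e : ∃ v, 0 < t v y := ⟨v, hy.2⟩
    simp only [g, dif_pos e]
    have e1 := hn e.choose v ((h.ner _ _ _).2 ⟨y, hy.1, e.choose_spec, hy.2, hy.2⟩)
    have e2 : ∑ i, (a i : ℝ) * z i e.choose v = n e.choose - n v := by exact_mod_cast e1
    have e3 : ∑ i, (a i : ℝ) * z i e.choose v =
        ∑ i, a i * L i e.choose y - ∑ i, a i * L i v y := by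
      rw [← Finset.sum_sub_distrib]
      exact Finset.sum_congr rfl fun i _ => by
        rw [← hz i _ v y ⟨hy.1, e.choose_spec, hy.2⟩]; ring
    linarith
  refine ⟨g, h.glue fun v => ContinuousOn.congr ?_ (hg v), fun y hy => ?_⟩
  · exact (continuousOn_finset_sum _ fun i _ => continuousOn_const.mul (L1 i v)).sub
      continuousOn_const
  · obtain ⟨v, hv⟩ := h.pos y hy
    rw [hg v y ⟨hy, hv⟩, (circ_eq (b := ∑ i, a i * L i v y)).2 ⟨-n v, by push_cast; ring⟩,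
      QuotientAddGroup.mk_sum]
    refine Finset.sum_congr rfl fun i _ => ?_
    rw [← L2 i v y ⟨hy, hv⟩, ← zsmul_eq_mul, QuotientAddGroup.mk_zsmul]

variable [Fintype V]

lemma sum_pos {y : Z} (hy : y ∈ Y) : 0 < ∑ v, t v y :=
  Finset.sum_pos' (fun v _ => h.nn v y hy)
    (let ⟨v, hv⟩ := h.pos y hy; ⟨v, Finset.mem_univ _, hv⟩)

lemma tau {z : V → V → ℤ} (hz : Coc N z) {y : Z} (hy : y ∈ Y) {u v : V} (hu : 0 < t u y)
    (hv : 0 < t v y) :
    (∑ w, z u w * t w y) / ∑ w, t w y - (∑ w, z v w * t w y) / ∑ w, t w y = z u v := by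
  rw [← sub_div, div_eq_iff (h.sum_pos hy).ne', Finset.mul_sum, ← Finset.sum_sub_distrib]
  refine Finset.sum_congr rfl fun w _ => ?_
  rcases (h.nn w y hy).eq_or_lt with e | e
  · simp [← e]
  · rw [← hz u v w ((h.ner _ _ _).2 ⟨y, hy, hu, hv, e⟩)]; push_cast; ring

lemma tau_cont (z : V → V → ℤ) (u : V) :
    ContinuousOn (fun y => (∑ w, z u w * t w y) / ∑ w, t w y) Y :=
  (continuousOn_finset_sum _ fun w _ => continuousOn_const.mul (h.cont w)).div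
    (continuousOn_finset_sum _ fun w _ => h.cont w) fun _ hy => (h.sum_pos hy).ne'

lemma down {z : V → V → ℤ} (hz : Coc N z) : ∃ f : Z → AddCircle (1 : ℝ), ContinuousOn f Y ∧
    ∀ y ∈ Y, ∀ u, 0 < t u y → f y = (((∑ w, z u w * t w y) / ∑ w, t w y : ℝ) : AddCircle (1 : ℝ)) := by
  classical
  let f : Z → AddCircle (1 : ℝ) := fun y => if e : ∃ v, 0 < t v y then
    (((∑ w, z e.choose w * t w y) / ∑ w, t w y : ℝ) : AddCircle (1 : ℝ)) else 0
  have hf : ∀ y ∈ Y, ∀ u, 0 < t u y →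
      f y = (((∑ w, z u w * t w y) / ∑ w, t w y : ℝ) : AddCircle (1 : ℝ)) := by
    intro y hy u hu
    have e : ∃ v, 0 < t v y := ⟨u, hu⟩
    simp only [f, dif_pos e]
    exact circ_eq.2 ⟨_, h.tau hz hy e.choose_spec hu⟩
  refine ⟨f, h.glue fun v => ContinuousOn.congr ?_ fun y hy => hf y hy.1 v hy.2, hf⟩
  exact (AddCircle.continuous_mk' 1).comp_continuousOn ((h.tau_cont z v).mono fun y hy => hy.1)

lemma down' {z : V → V → ℤ} (hz : Coc N z) {f : Z → AddCircle (1 : ℝ)} (hf : ∀ y ∈ Y, ∀ u,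
    0 < t u y → f y = (((∑ w, z u w * t w y) / ∑ w, t w y : ℝ) : AddCircle (1 : ℝ)))
    (hl : Lft f Y) : Cob N z := by
  obtain ⟨g, g1, g2⟩ := hl
  choose n hn using fun u => int_const (h.pre u u) (((h.tau_cont z u).sub g1).mono
    fun y hy => hy.1) fun y hy => circ_eq.1 ((hf y hy.1 u hy.2.1).symm.trans (g2 y hy.1).symm)
  refine ⟨n, fun u v e => ?_⟩
  obtain ⟨y, y1, y2, y3, -⟩ := (h.ner _ _ _).1 e
  have : (z u v : ℝ) = n u - n v := by
    have a1 := hn u y ⟨y1, y2, y2⟩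
    have a2 := hn v y ⟨y1, y3, y3⟩
    simp only [Pi.sub_apply] at a1 a2
    linarith [h.tau hz y1 y2 y3]
  exact_mod_cast this

lemma qr {t' : V' → Z → ℝ} {Y' Y'' : Set Z} {N' : V' → V' → V' → Prop} (h' : Good t' Y' N')
    (h'' : Good t Y'' N) (s1 : Y' ⊆ Y) (s2 : Y'' ⊆ Y') {m : ℕ} (hq : Qr m N') : Qr m N := by
  intro ι _ hι z hz
  choose f f1 f2 using fun i => h.down (hz i)
  obtain ⟨z', a1, a2⟩ := h'.up fun i => (f1 i).mono s1
  obtain ⟨a, a3, a4⟩ := hq ι hι z' a1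
  refine ⟨a, a3, h''.down' (fun u v w e => ?_) (fun y hy u hu => ?_) ((a2 a a4).mono s2)⟩
  · rw [← Finset.sum_add_distrib]
    exact Finset.sum_congr rfl fun i _ => by rw [← hz i u v w e]; ring
  · have : (∑ w, ((∑ i, a i * z i u w : ℤ) : ℝ) * t w y) / ∑ w, t w y =
        ∑ i, a i • ((∑ w, z i u w * t w y) / ∑ w, t w y) := by
      simp only [zsmul_eq_mul, ← mul_div_assoc, Finset.mul_sum]
      rw [← Finset.sum_div, Finset.sum_comm]
      congr 1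
      refine Finset.sum_congr rfl fun w _ => ?_
      push_cast
      rw [Finset.sum_mul]
      exact Finset.sum_congr rfl fun i _ => by ring
    rw [this, QuotientAddGroup.mk_sum]
    refine Finset.sum_congr rfl fun i _ => ?_
    rw [f2 i y (s1 (s2 hy)) u hu, QuotientAddGroup.mk_zsmul]

omit [Fintype V] in
lemma reach {Y' : Set Z} (s1 : Y' ⊆ Y) (hY : IsPreconnected Y') {u v : V} {x y : Z} (hx : x ∈ Y')
    (hy : y ∈ Y') (hu : 0 < t u x) (hv : 0 < t v y) :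
    ReflTransGen (fun a b => N a b b) u v := by
  classical
  let g : Z → ℝ := fun y => if ∃ w, 0 < t w y ∧ ReflTransGen (fun a b => N a b b) u w then 1 else 0
  have hg : ∀ w, ∀ y ∈ {y ∈ Y | 0 < t w y},
      g y = if ReflTransGen (fun a b => N a b b) u w then 1 else 0 := by
    intro w y hy
    refine if_congr ⟨fun ⟨w', a1, a2⟩ => a2.tail ((h.ner _ _ _).2 ⟨y, hy.1, a1, hy.2, hy.2⟩),
      fun e => ⟨w, hy.2, e⟩⟩ rfl rfl
  obtain ⟨k, hk⟩ := int_const hY ((h.glue fun w => continuousOn_const.congr (hg w)).mono s1)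
    fun y _ => by
      simp only [g]; split_ifs
      · exact ⟨1, by simp⟩
      · exact ⟨0, by simp⟩
  have e := (hk x hx).trans (hk y hy).symm
  rw [hg u x ⟨s1 hx, hu⟩, hg v y ⟨s1 hy, hv⟩, if_pos ReflTransGen.refl] at e
  by_contra hc
  rw [if_neg hc] at e
  exact one_ne_zero e

omit [Fintype V] in
lemma conn (hN : ∀ u v, N u u u → N v v v → ReflTransGen (fun a b => N a b b) u v) :
    IsPreconnected Y := by
  have e : Y = ⋃ u ∈ {u | N u u u}, {y ∈ Y | 0 < t u y ∧ 0 < t u y} := by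
    refine subset_antisymm (fun y hy => ?_) (iUnion₂_subset fun u _ y hy => hy.1)
    obtain ⟨v, hv⟩ := h.pos y hy
    exact mem_biUnion ((h.ner v v v).2 ⟨y, hy, hv, hv, hv⟩) ⟨hy, hv, hv⟩
  rw [e]
  refine IsPreconnected.biUnion_of_reflTransGen (fun u _ => h.pre u u) fun u hu v hv => ?_
  refine ReflTransGen.mono (fun a b hab => ?_) _ _ (hN u v hu hv)
  obtain ⟨y, y1, y2, y3, -⟩ := (h.ner _ _ _).1 hab
  exact ⟨⟨y, ⟨y1, y2, y2⟩, y1, y3, y3⟩, (h.ner a a a).2 ⟨y, y1, y2, y2, y2⟩⟩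

omit [Fintype V] in
lemma pull {Z' : Type} [TopologicalSpace Z'] {e : Z' → Z} {e' : Z → Z'} {S : Set Z'}
    (c0 : ContinuousOn e S) (c3 : ContinuousOn e' Y) (m0 : MapsTo e' Y S)
    (r : ∀ y ∈ Y, e (e' y) = y) (l : ∀ y ∈ S, e' (e y) = y) :
    Good (fun v y => t v (e y)) (S ∩ e ⁻¹' Y) N := by
  refine ⟨fun v => (h.cont v).comp (c0.mono inter_subset_left) fun y hy => hy.2,
    fun v y hy => h.nn v _ hy.2, fun y hy => h.pos _ hy.2, fun u v w => (h.ner u v w).trans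
      ⟨fun ⟨y, y1, y2⟩ => ⟨e' y, ⟨m0 y1, by rwa [mem_preimage, r y y1]⟩,
        by rwa [r y y1]⟩, fun ⟨y, y1, y2⟩ => ⟨e y, y1.2, y2⟩⟩, fun u v hn => ?_⟩
  obtain ⟨c1, c2⟩ := h.con u v hn
  have m : MapsTo e' {y ∈ Y | 0 < t u y ∧ 0 < t v y}
      {y ∈ S ∩ e ⁻¹' Y | 0 < t u (e y) ∧ 0 < t v (e y)} := fun y hy =>
    ⟨⟨m0 hy.1, by rw [mem_preimage, r y hy.1]; exact hy.1⟩, by rw [r y hy.1]; exact hy.2⟩
  have c4 := c3.mono fun y (hy : y ∈ {y ∈ Y | 0 < t u y ∧ 0 < t v y}) => hy.1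
  refine ⟨?_, fun f hf => ?_⟩
  · convert c1.image _ c4
    exact subset_antisymm (fun y hy => ⟨e y, ⟨hy.1.2, hy.2⟩, l y hy.1.1⟩) m.image_subset
  · obtain ⟨g, g1, g2⟩ := c2 _ (hf.comp c4 m)
    refine ⟨g ∘ e, g1.comp (c0.mono fun y hy => hy.1.1) fun y hy => ⟨hy.1.2, hy.2⟩,
      fun y hy => ?_⟩
    rw [Function.comp_apply, g2 _ ⟨hy.1.2, hy.2⟩, Function.comp_apply, l y hy.1.1]

end Good

lemma exists_dep {ι κ : Type} [Fintype ι] [Fintype κ] (h : Fintype.card κ < Fintype.card ι)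
    (w : ι → κ → ℤ) : ∃ a : ι → ℤ, a ≠ 0 ∧ ∀ k, ∑ i, a i * w i k = 0 := by
  have : ¬ LinearIndependent ℤ w := fun e => by
    have := e.fintype_card_le_finrank
    rw [Module.finrank_fintype_fun_eq_card] at this
    omega
  obtain ⟨a, a1, i, a2⟩ := Fintype.not_linearIndependent_iff.1 this
  exact ⟨a, fun e => a2 (by simp [e]), fun k => by simpa using congrFun a1 k⟩

def Loc (F : Filter Z) (x : Z) (t : V → Z → ℝ) (N : V → V → V → Prop) : Prop :=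
  ∀ U ∈ F, ∃ W ∈ F, W ⊆ U ∧ Good t (W \ {x}) N

def Cn (N : V → V → V → Prop) : Prop :=
  ∀ u v, N u u u → N v v v → ReflTransGen (fun a b => N a b b) u v

namespace Loc

variable {F : Filter Z} {x : Z} {t : V → Z → ℝ} {N : V → V → V → Prop}
  {t' : V' → Z → ℝ} {N' : V' → V' → V' → Prop}

lemma qr [Fintype V] (h : Loc F x t N) (h' : Loc F x t' N') {m : ℕ} (hq : Qr m N') : Qr m N := by
  obtain ⟨W1, a1, -, a2⟩ := h univ Filter.univ_mem
  obtain ⟨W2, b1, b2, b3⟩ := h' W1 a1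
  obtain ⟨W3, -, c2, c3⟩ := h W2 b1
  exact a2.qr b3 c3 (diff_subset_diff_left b2) (diff_subset_diff_left c2) hq

lemma cn (h : Loc F x t N) (h' : Loc F x t' N') (hq : Cn N') : Cn N := by
  obtain ⟨W1, a1, -, a2⟩ := h univ Filter.univ_mem
  obtain ⟨W2, b1, b2, b3⟩ := h' W1 a1
  obtain ⟨W3, -, c2, c3⟩ := h W2 b1
  intro u v hu hv
  obtain ⟨y, y1, y2, -⟩ := (c3.ner _ _ _).1 hu
  obtain ⟨z, z1, z2, -⟩ := (c3.ner _ _ _).1 hv
  exact a2.reach (diff_subset_diff_left b2) (b3.conn hq) (diff_subset_diff_left c2 y1)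
    (diff_subset_diff_left c2 z1) y2 z2

lemma pull {Z' : Type} [TopologicalSpace Z'] {e : Z' → Z} {e' : Z → Z'} {F' : Filter Z'} {x' : Z'}
    (h : Loc F (e x') t N) {K : Set Z} {K' : Set Z'} (hK : K ∈ F) (hK' : K' ∈ F')
    (c1 : ContinuousOn e K') (c2 : ContinuousOn e' K) (r : ∀ y ∈ K, e (e' y) = y)
    (l : ∀ y ∈ K', e' (e y) = y) (hx : x' ∈ K') (T1 : Filter.Tendsto e F' F)
    (T2 : Filter.Tendsto e' F F') : Loc F' x' (fun v y => t v (e y)) N := by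
  intro U hU
  obtain ⟨W, a1, a2, a3⟩ := h _ (Filter.inter_mem hK (T2 (Filter.inter_mem hU hK')))
  refine ⟨K' ∩ e ⁻¹' W, Filter.inter_mem hK' (T1 a1), fun y hy => ?_, ?_⟩
  · have := (a2 hy.2).2.1
    rwa [l y hy.1] at this
  · convert a3.pull c1 (c2.mono fun y hy => (a2 hy.1).1) (fun y hy => (a2 hy.1).2.2)
      (fun y hy => r y (a2 hy.1).1) l using 1
    ext y
    refine ⟨fun hy => ⟨hy.1.1, hy.1.2, fun e => hy.2 ?_⟩,
      fun hy => ⟨⟨hy.1, hy.2.1⟩, fun e => hy.2.2 (by rw [e]; rfl)⟩⟩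
    rw [mem_singleton_iff, ← l y hy.1.1, e, l x' hx]

end Loc

end Pool.Agent.Lib.MP_845f45_al
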