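import Pool.Agent.Lib.MP_845f45_al.Top1
import Pool.Agent.Lib.MP_845f45_al.Nerve

namespace Pool.Agent.Lib.MP_845f45_al

open Relation Topology Set Filter

variable {V : Type} [Fintype V] [DecidableEq V] {G : SimpleGraph V}

def LN (G : SimpleGraph V) (σ : Set V) (u v w : V) : Prop :=
  G.IsClique (σ ∪ {u, v, w}) ∧ ∃ s ∈ σ, s ≠ u ∧ s ≠ v ∧ s ≠ w

def GN (G : SimpleGraph V) (u v w : V) : Prop := G.IsClique {u, v, w}

omit [DecidableEq V] in
lemma con_star {C : Set (V → ℝ)} (hC : Convex ℝ C) {p : V → ℝ} (hp : p ∈ nerve G ∩ C)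
    (hs : ∀ y ∈ nerve G ∩ C, ∀ v, p v ≠ 0 → y v ≠ 0) : Con (nerve G ∩ C) := by
  have : StarConvex ℝ p (nerve G ∩ C) := by
    intro y hy a b ha hb hab
    refine ⟨⟨fun v => ?_, ?_, hy.1.2.2.subset fun v hv (e : y v = 0) => hv ?_⟩, hC hp.2 hy.2 ha hb hab⟩
    · exact add_nonneg (mul_nonneg ha (hp.1.1 v)) (mul_nonneg hb (hy.1.1 v))
    · simp only [Pi.add_apply, Pi.smul_apply, smul_eq_mul, Finset.sum_add_distrib,
        ← Finset.mul_sum, hp.1.2.1, hy.1.2.1]
      linarith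
    · have : p v = 0 := by_contra fun e' => hs y hy v e' e
      simp [this, e]
  haveI := this.contractibleSpace ⟨p, hp⟩
  exact con_of_contractible _

lemma bump (u v w : V) : ∃ b : V → ℝ, (∀ s, 0 ≤ b s) ∧ ∑ s, b s = 1 ∧ 0 < b u ∧ 0 < b v ∧
    0 < b w ∧ (∀ s, b s ≤ 1) ∧ ∀ s, b s ≠ 0 → s = u ∨ s = v ∨ s = w := by
  refine ⟨fun s => ((if s = u then 1 else 0) + (if s = v then 1 else 0) +
    (if s = w then 1 else 0)) / 3, fun s => by beta_reduce; split_ifs <;> norm_num, ?_, ?_, ?_, ?_,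
    fun s => by beta_reduce; split_ifs <;> norm_num, fun s hs => ?_⟩
  · rw [← Finset.sum_div]
    simp [Finset.sum_add_distrib]
    norm_num
  · simp only [if_true]; split_ifs <;> norm_num
  · simp only [if_true]; split_ifs <;> norm_num
  · simp only [if_true]; split_ifs <;> norm_num
  · by_contra hc
    push Not at hc
    simp [hc] at hs

lemma good_glob : Good (fun v (y : V → ℝ) => y v) (nerve G) (GN G) := by
  have k : ∀ u v w, GN G u v w → ∃ y ∈ nerve G, 0 < y u ∧ 0 < y v ∧ 0 < y w ∧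
      ∀ s, y s ≠ 0 → s = u ∨ s = v ∨ s = w := fun u v w h => by
    obtain ⟨b, b1, b2, b3, b4, b5, -, b6⟩ := bump u v w
    exact ⟨b, ⟨b1, b2, h.subset b6⟩, b3, b4, b5, b6⟩
  refine ⟨fun v => (continuous_apply v).continuousOn, fun v y hy => hy.1 v, fun y hy => ?_,
    fun u v w => ⟨fun h => ?_, fun ⟨y, y1, y2, y3, y4⟩ => y1.2.2.subset ?_⟩, fun u v h => ?_⟩
  · by_contra hc
    push Not at hc
    linarith [hy.2.1, Finset.sum_nonpos fun v (_ : v ∈ Finset.univ) => hc v]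
  · obtain ⟨y, y1, y2, y3, y4, -⟩ := k u v w h
    exact ⟨y, y1, y2, y3, y4⟩
  · rintro s (rfl | rfl | rfl)
    exacts [y2.ne', y3.ne', y4.ne']
  · obtain ⟨p, p1, p2, p3, -, p4⟩ := k u v v h
    refine con_star (C := {y | 0 < y u ∧ 0 < y v}) ?_ ⟨p1, p2, p3⟩ fun y hy s hs => ?_
    · exact (convex_halfSpace_gt (LinearMap.proj (R := ℝ) (φ := fun _ : V => ℝ) u).isLinear 0).inter
        (convex_halfSpace_gt (LinearMap.proj (R := ℝ) (φ := fun _ : V => ℝ) v).isLinear 0)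
    · rcases p4 s hs with rfl | rfl | rfl
      exacts [hy.2.1.ne', hy.2.2.ne', hy.2.2.ne']

lemma good_loc {x : V → ℝ} (hx : x ∈ nerve G) {r : ℝ} (hr : 0 < r) (h0 : ∀ v, x v ≠ 0 → r ≤ x v) :
    Good (fun v (y : V → ℝ) => max (y v - x v) 0) ((nerve G ∩ Metric.ball x r) \ {x})
      (LN G {v | x v ≠ 0}) := by
  have ps : ∀ a b : ℝ, 0 < max (a - b) 0 ↔ b < a := fun a b => by simp
  have sp : ∀ y ∈ Metric.ball x r, ∀ v, x v ≠ 0 → y v ≠ 0 := fun y hy v hv e => by
    have := (dist_pi_lt_iff hr).1 hy v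
    rw [Real.dist_eq, abs_lt] at this
    linarith [h0 v hv, this.1]
  have k : ∀ u v w, LN G {v | x v ≠ 0} u v w → ∃ y ∈ nerve G ∩ Metric.ball x r,
      x u < y u ∧ x v < y v ∧ x w < y w ∧ ∀ s, y s ≠ 0 → x s ≠ 0 ∨ s = u ∨ s = v ∨ s = w := by
    rintro u v w ⟨h1, s, s1, s2, s3, s4⟩
    obtain ⟨b, b1, b2, b3, b4, b5, b7, b6⟩ := bump u v w
    have e : ∀ a, x a + r / 2 * (b a - if a = s then 1 else 0) ≠ 0 →
        x a ≠ 0 ∨ a = u ∨ a = v ∨ a = w := fun a ha => by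
      by_contra hc
      rw [not_or, not_not] at hc
      have e1 : b a = 0 := by_contra fun e => hc.2 (b6 a e)
      have e2 : a ≠ s := fun e => s1 (e ▸ hc.1)
      simp [hc.1, e1, e2] at ha
    refine ⟨fun a => x a + r / 2 * (b a - if a = s then 1 else 0), ⟨⟨fun a => ?_, ?_,
      h1.subset e⟩, ?_⟩, ?_, ?_, ?_, e⟩
    · have := mul_nonneg (half_pos hr).le (b1 a)
      beta_reduce
      split_ifs with e
      · subst e; nlinarith [h0 a s1]
      · linarith [hx.1 a]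
    · simp [Finset.sum_add_distrib, ← Finset.mul_sum, hx.2.1, b2]
    · rw [Metric.mem_ball, dist_pi_lt_iff hr]
      intro a
      rw [Real.dist_eq, abs_lt]
      have := b1 a
      have := b7 a
      split_ifs <;> constructor <;> nlinarith
    · simp [s2.symm, hr, b3]
    · simp [s3.symm, hr, b4]
    · simp [s4.symm, hr, b5]
  refine ⟨fun v => by fun_prop, fun v y _ => le_max_right _ _, fun y hy => ?_,
    fun u v w => ⟨fun h => ?_, fun ⟨y, y1, y2, y3, y4⟩ => ⟨y1.1.1.2.2.subset ?_, ?_⟩⟩,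
    fun u v h => ?_⟩
  · by_contra hc
    simp only [ps, not_exists, not_lt] at hc
    exact hy.2 (funext fun v => (Finset.sum_eq_sum_iff_of_le fun v _ => hc v).1
      (hy.1.1.2.1.trans hx.2.1.symm) v (Finset.mem_univ _))
  · obtain ⟨y, y1, y2, y3, y4, -⟩ := k u v w h
    exact ⟨y, ⟨y1, fun e => by rw [e] at y2; exact lt_irrefl _ y2⟩, (ps _ _).2 y2, (ps _ _).2 y3,
      (ps _ _).2 y4⟩
  · rw [ps] at y2 y3 y4
    rintro s (hs | rfl | rfl | rfl)
    exacts [sp y y1.1.2 s hs, ((hx.1 _).trans_lt y2).ne', ((hx.1 _).trans_lt y3).ne',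
      ((hx.1 _).trans_lt y4).ne']
  · rw [ps] at y2 y3 y4
    by_contra hc
    have : ∑ s, x s < ∑ s, y s := by
      refine Finset.sum_lt_sum (fun s _ => ?_) ⟨u, Finset.mem_univ _, y2⟩
      by_cases e : x s = 0
      · exact e ▸ y1.1.1.1 s
      by_contra e'
      exact hc ⟨s, e, fun a => e' (a ▸ y2.le), fun a => e' (a ▸ y3.le), fun a => e' (a ▸ y4.le)⟩
    linarith [y1.1.1.2.1, hx.2.1]
  · obtain ⟨p, p1, p2, p3, -, p4⟩ := k u v v h
    have := con_star (G := G) (C := Metric.ball x r ∩ {y | x u < y u ∧ x v < y v}) (p := p) ?_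
      ⟨p1.1, p1.2, p2, p3⟩ fun y hy s hs => ?_
    · convert this using 1
      ext y
      simp only [ps]
      exact ⟨fun hy => ⟨hy.1.1.1, hy.1.1.2, hy.2⟩, fun hy => ⟨⟨⟨hy.1, hy.2.1⟩, fun e => by
        have := hy.2.2.1; rw [e] at this; exact lt_irrefl _ this⟩, hy.2.2⟩⟩
    · exact (convex_ball x r).inter
        ((convex_halfSpace_gt (LinearMap.proj (R := ℝ) (φ := fun _ : V => ℝ) u).isLinear _).inter
        (convex_halfSpace_gt (LinearMap.proj (R := ℝ) (φ := fun _ : V => ℝ) v).isLinear _))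
    · rcases p4 s hs with e | rfl | rfl | rfl
      exacts [sp y hy.2.1 s e, ((hx.1 _).trans_lt hy.2.2.1).ne', ((hx.1 _).trans_lt hy.2.2.2).ne',
        ((hx.1 _).trans_lt hy.2.2.2).ne']

lemma loc_nerve {x : V → ℝ} (hx : x ∈ nerve G) :
    Loc (𝓝[nerve G] x) x (fun v (y : V → ℝ) => max (y v - x v) 0) (LN G {v | x v ≠ 0}) := by
  intro U hU
  obtain ⟨ε, e1, e2⟩ := Metric.mem_nhdsWithin_iff.1 hU
  have : ∀ᶠ r in 𝓝[>] (0 : ℝ), r < ε ∧ ∀ v, x v ≠ 0 → r ≤ x v := by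
    refine nhdsWithin_le_nhds (Filter.Eventually.and (Iio_mem_nhds e1) (eventually_all.2 fun v => ?_))
    by_cases e : x v = 0
    · exact Eventually.of_forall fun r e' => absurd e e'
    · filter_upwards [Iic_mem_nhds ((hx.1 v).lt_of_ne' e)] with r hr _ using hr
  obtain ⟨r, ⟨r1, r2⟩, r3⟩ := (this.and self_mem_nhdsWithin).exists
  exact ⟨nerve G ∩ Metric.ball x r, inter_mem_nhdsWithin _ (Metric.ball_mem_nhds x r3),
    fun y hy => e2 ⟨Metric.ball_subset_ball r1.le hy.2, hy.1⟩, good_loc hx r3 r2⟩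

def N3 (u v w : Fin 3) : Prop := u = v ∨ v = w ∨ u = w

lemma loc_plane (p : EuclideanSpace ℝ (Fin 2)) : ∃ t, Loc (𝓝 p) p t N3 := by
  let e : EuclideanSpace ℝ (Fin 2) → Fin 3 → ℝ := fun y =>
    ![1 / 3 + (y 0 - p 0), 1 / 3 + (y 1 - p 1), 1 / 3 - (y 0 - p 0) - (y 1 - p 1)]
  let e' : (Fin 3 → ℝ) → EuclideanSpace ℝ (Fin 2) := fun z =>
    !₂[z 0 - 1 / 3 + p 0, z 1 - 1 / 3 + p 1]
  have ce : Continuous e := by
    refine continuous_pi fun i => ?_
    fin_cases i <;> simp only [e] <;> simp <;> fun_prop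
  have ce' : Continuous e' := by
    simp only [e']
    fun_prop
  have l : ∀ y, e' (e y) = y := fun y => by
    ext i; fin_cases i <;> simp [e, e']
  have ep : ∀ i, e p i = 1 / 3 := fun i => by fin_cases i <;> simp [e]
  have sm : ∀ y, ∑ i, e y i = 1 := fun y => by simp [e, Fin.sum_univ_three]; ring
  have cl : ∀ s : Set (Fin 3), (⊤ : SimpleGraph (Fin 3)).IsClique s := fun s a _ b _ h => h
  have hp : e p ∈ nerve (⊤ : SimpleGraph (Fin 3)) := ⟨fun i => by rw [ep]; norm_num, sm p, cl _⟩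
  have hN : LN (⊤ : SimpleGraph (Fin 3)) {v | e p v ≠ 0} = N3 := by
    funext u v w
    simp only [LN, cl, true_and, mem_setOf_eq, ep, N3, eq_iff_iff]
    norm_num
    revert u v w
    decide
  refine ⟨_, hN ▸ (loc_nerve hp).pull (e' := e') self_mem_nhdsWithin univ_mem ce.continuousOn
    ce'.continuousOn (fun z hz => ?_) (fun y _ => l y) trivial ?_ ?_⟩
  · have := hz.2.1
    rw [Fin.sum_univ_three] at this
    ext i; fin_cases i <;> simp [e, e']
    linarith
  · refine tendsto_nhdsWithin_iff.2 ⟨ce.tendsto p, ?_⟩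
    have : ∀ᶠ y in 𝓝 p, ∀ i, 0 ≤ e y i := eventually_all.2 fun i =>
      (((continuous_apply i).comp ce).tendsto p).eventually
        (Ici_mem_nhds (show 0 < e p i by rw [ep]; norm_num))
    filter_upwards [this] with y hy using ⟨hy, sm y, cl _⟩
  · have := ce'.tendsto (e p)
    rw [l] at this
    exact this.mono_left nhdsWithin_le_nhds

lemma loc_chart {S : Type} [TopologicalSpace S] [ChartedSpace (EuclideanSpace ℝ (Fin 2)) S]
    (s : S) : ∃ t, Loc (𝓝 s) s t N3 := by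
  let c := chartAt (EuclideanSpace ℝ (Fin 2)) s
  have hs : s ∈ c.source := mem_chart_source _ s
  obtain ⟨t, ht⟩ := loc_plane (c s)
  refine ⟨_, ht.pull (e' := c.symm) (c.open_target.mem_nhds (c.map_source hs))
    (c.open_source.mem_nhds hs) c.continuousOn c.continuousOn_symm (fun y hy => c.right_inv hy)
    (fun y hy => c.left_inv hy) hs (c.continuousAt hs) (c.tendsto_symm hs)⟩

omit [DecidableEq V] in
lemma homeo_data {S : Type} [TopologicalSpace S] [Nonempty S] (H : nerve G ≃ₜ S) :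
    ∃ (e : S → V → ℝ) (e' : (V → ℝ) → S), Continuous e ∧ ContinuousOn e' (nerve G) ∧
      (∀ y ∈ nerve G, e (e' y) = y) ∧ (∀ s, e' (e s) = s) ∧ ∀ s, e s ∈ nerve G := by
  classical
  refine ⟨fun s => H.symm s, fun y => if h : y ∈ nerve G then H ⟨y, h⟩ else Classical.arbitrary S,
    by fun_prop, ?_, fun y hy => by simp [hy], fun s => by simp, fun s => (H.symm s).2⟩
  rw [continuousOn_iff_continuous_restrict]
  convert H.continuous using 1
  ext a; simp

lemma loc_surf {S : Type} [TopologicalSpace S] [Nonempty S] (H : nerve G ≃ₜ S) {x : V → ℝ}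
    (hx : x ∈ nerve G) : ∃ s t, Loc (𝓝 s : Filter S) s t (LN G {v | x v ≠ 0}) := by
  obtain ⟨e, e', c1, c2, r, l, m⟩ := homeo_data H
  obtain ⟨s, rfl⟩ : ∃ s, e s = x := ⟨_, r x hx⟩
  refine ⟨s, _, (loc_nerve hx).pull (e' := e') self_mem_nhdsWithin univ_mem c1.continuousOn c2 r
    (fun y _ => l y) trivial
    (tendsto_nhdsWithin_iff.2 ⟨c1.tendsto s, Eventually.of_forall m⟩) ?_⟩
  have := (c2 _ hx).tendsto
  rwa [l] at this

lemma glob_surf {S : Type} [TopologicalSpace S] [Nonempty S] (H : nerve G ≃ₜ S) :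
    ∃ t, Good t (univ : Set S) (GN G) := by
  obtain ⟨e, e', c1, c2, r, l, m⟩ := homeo_data H
  refine ⟨fun v y => e y v, ?_⟩
  convert good_glob.pull (S := univ) c1.continuousOn c2 (mapsTo_univ _ _) r (fun y _ => l y) using 1
  exact (eq_univ_of_forall fun s => mem_inter trivial (m s)).symm

lemma Coc.anti {W : Type} {N : W → W → W → Prop} {z : W → W → ℤ} (h : Coc N z) {u v : W}
    (a : N u u u) (b : N u v u) : z u u = 0 ∧ z v u = - z u v := by
  have := h _ _ _ a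
  have := h _ _ _ b
  omega

lemma coc_of_anti {W : Type} {N : W → W → W → Prop} {z : W → W → ℤ}
    (hN : ∀ u v w, N u v w → u = v ∨ v = w ∨ u = w) (hz : ∀ u v, z v u = - z u v) : Coc N z := by
  intro u v w h
  have := hz u u
  have := hz v v
  have := hz u v
  rcases hN u v w h with rfl | rfl | rfl <;> omega

lemma Coc.sum {W ι : Type} [Fintype ι] {N : W → W → W → Prop} {z : ι → W → W → ℤ}
    (hz : ∀ i, Coc N (z i)) (a : ι → ℤ) : Coc N fun u v => ∑ i, a i * z i u v := by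
  intro u v w e
  rw [← Finset.sum_add_distrib]
  exact Finset.sum_congr rfl fun i _ => by rw [← hz i u v w e]; ring

lemma qr_zero {W : Type} {N : W → W → W → Prop} (h : ∀ z, Coc N z → Cob N z) : Qr 0 N := by
  intro ι _ hι z hz
  obtain ⟨i⟩ := Fintype.card_pos_iff.1 hι
  exact ⟨1, fun e => one_ne_zero (congrFun e i), h _ (Coc.sum hz 1)⟩

lemma qr_N3 : Qr 1 N3 := by
  intro ι _ hι z hz
  obtain ⟨a, a1, a2⟩ := exists_dep (κ := Unit) (by simpa using hι)
    fun i _ => z i 0 1 + z i 1 2 + z i 2 0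
  refine ⟨a, a1, ?_⟩
  have a3 := a2 ()
  simp only [mul_add, Finset.sum_add_distrib] at a3
  have hc := Coc.sum hz a
  generalize hZ : (fun u v => ∑ i, a i * z i u v) = Z at hc
  have a4 : Z 0 1 + Z 1 2 + Z 2 0 = 0 := by rw [← hZ]; exact a3
  have k : ∀ u v, Z u u = 0 ∧ Z v u = - Z u v := fun u v =>
    hc.anti (Or.inl rfl) (Or.inr (Or.inr rfl))
  refine ⟨![0, -Z 0 1, Z 2 0], fun u v _ => ?_⟩
  have := k 0 1
  have := k 1 2
  have := k 2 0
  fin_cases u <;> fin_cases v <;> simp <;> omega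

lemma not_qr_N3 : ¬ Qr 0 N3 := by
  intro h
  obtain ⟨a, a1, n, a2⟩ := h Unit (by simp) (fun _ => ![![0, 1, 0], ![-1, 0, 0], ![0, 0, 0]])
    fun _ => coc_of_anti (fun _ _ _ h => h) (by decide)
  have b1 := a2 0 1 (Or.inr (Or.inl rfl))
  have b2 := a2 1 2 (Or.inr (Or.inl rfl))
  have b3 := a2 2 0 (Or.inr (Or.inl rfl))
  simp at b1 b2 b3
  exact a1 (funext fun i => by cases i; simp; omega)

lemma ln_facts {S : Type} [TopologicalSpace S] [Nonempty S]
    [ChartedSpace (EuclideanSpace ℝ (Fin 2)) S] (H : nerve G ≃ₜ S) {σ : Finset V}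
    (h0 : σ.Nonempty) (hσ : G.IsClique σ) :
    Qr 1 (LN G σ) ∧ ¬ Qr 0 (LN G σ) ∧ Cn (LN G σ) := by
  have hc : (0 : ℝ) < σ.card := by exact_mod_cast h0.card_pos
  have e : {v | (fun v => if v ∈ σ then (1 : ℝ) / σ.card else 0) v ≠ 0} = (σ : Set V) := by
    ext v; simp [h0.ne_empty]
  obtain ⟨s, t, h⟩ := loc_surf H (x := fun v => if v ∈ σ then (1 : ℝ) / σ.card else 0)
    ⟨fun v => by beta_reduce; split_ifs <;> positivity, by simp [hc.ne'], e ▸ hσ⟩
  rw [e] at h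
  obtain ⟨t', h'⟩ := loc_chart s
  exact ⟨h.qr h' qr_N3, fun a => not_qr_N3 (h'.qr h a),
    h.cn h' fun u v _ _ => .single (Or.inr (Or.inl rfl))⟩

end Pool.Agent.Lib.MP_845f45_al
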