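import Pool.Agent.Lib.MP_845f45_al.Top2
import Pool.Agent.Lib.MP_845f45_al.Lev

namespace Pool.Agent.Lib.MP_845f45_al

open Relation Set SimpleGraph Module

variable {V : Type} [Fintype V] [DecidableEq V] {G : SimpleGraph V}

def LF (G : SimpleGraph V) : Prop := ∀ σ : Finset V, σ.Nonempty → G.IsClique σ →
  Qr 1 (LN G σ) ∧ ¬ Qr 0 (LN G σ) ∧ Cn (LN G σ)

lemma qr_cone {W : Type} {N : W → W → W → Prop} (s : W) (h : ∀ u v, N u v v → N u v s) : Qr 0 N :=
  qr_zero fun z hz => ⟨fun u => z u s, fun u v e => eq_sub_of_add_eq (hz _ _ _ (h u v e))⟩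

omit [Fintype V] [DecidableEq V] in
lemma cl3 {a b c : V} (h1 : G.Adj a b) (h2 : G.Adj a c) (h3 : G.Adj b c) : G.IsClique {a, b, c} := by
  rintro x (rfl | rfl | rfl) y (rfl | rfl | rfl) e <;>
    first | exact absurd rfl e | assumption | exact Adj.symm ‹_›

namespace LF

variable (h : LF G)
include h

lemma no4 (s : Finset V) (hs : G.IsClique s) : s.card ≤ 3 := by
  classical
  by_contra hc
  obtain ⟨σ, a1, a2⟩ := Finset.exists_max_image (Finset.univ.filter fun t : Finset V =>
    G.IsClique t) Finset.card ⟨s, by simpa using hs⟩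
  simp only [Finset.mem_filter, Finset.mem_univ, true_and] at a1 a2
  have a3 := a2 s hs
  obtain ⟨x, hx⟩ : σ.Nonempty := Finset.card_pos.1 (by omega)
  refine (h σ ⟨x, hx⟩ a1).2.1 (qr_cone x fun u v e => ?_)
  have k : ∀ y ∈ ({u, v, v} : Set V), y ∈ σ := fun y hy => by
    by_contra hn
    have := a2 (insert y σ) (e.1.subset (by
      rw [Finset.coe_insert]; exact insert_subset (Or.inr hy) subset_union_left))
    rw [Finset.card_insert_of_notMem hn] at this
    omega
  refine ⟨a1.subset ?_, ?_⟩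
  · rintro y (hy | rfl | rfl | rfl)
    exacts [hy, k _ (by simp), k _ (by simp), hx]
  · obtain ⟨y, y1, y2⟩ := Finset.exists_mem_notMem_of_card_lt_card
      (show ({u, v, x} : Finset V).card < σ.card from Finset.card_le_three.trans_lt (by omega))
    exact ⟨y, y1, by simpa using y2⟩

lemma four {a b c d : V} (h1 : G.Adj a b) (h2 : G.Adj a c) (h3 : G.Adj a d) (h4 : G.Adj b c)
    (h5 : G.Adj b d) (h6 : G.Adj c d) : False := by
  have := h.no4 {a, b, c, d} (by
    push_cast
    rintro x (rfl | rfl | rfl | rfl) y (rfl | rfl | rfl | rfl) e <;>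
      first | exact absurd rfl e | assumption | exact Adj.symm ‹_›)
  rw [Finset.card_insert_of_notMem (by simp [h1.ne, h2.ne, h3.ne]),
    Finset.card_insert_of_notMem (by simp [h4.ne, h5.ne]), Finset.card_pair h6.ne] at this
  omega

lemma deg {σ : Set V} (u v w : V) (e : LN G σ u v w) : u = v ∨ v = w ∨ u = w := by
  obtain ⟨e, s, s1, s2, s3, s4⟩ := e
  by_contra hc
  push Not at hc
  exact h.four (e (Or.inl s1) (by simp) s2) (e (Or.inl s1) (by simp) s3)
    (e (Or.inl s1) (by simp) s4) (e (by simp) (by simp) hc.1) (e (by simp) (by simp) hc.2.2)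
    (e (by simp) (by simp) hc.2.1)

lemma edge {a b : V} (hab : G.Adj a b) : {w | G.Adj a w ∧ G.Adj b w}.ncard = 2 := by
  obtain ⟨q1, q0, -⟩ := h {a, b} (by simp) (by simpa [isClique_pair] using fun _ => hab)
  push_cast at q1 q0
  have F : ∀ u v, LN G {a, b} u v v → ∀ x ∈ ({u, v} : Set V),
      x = a ∨ x = b ∨ (G.Adj a x ∧ G.Adj b x) := fun u v e x hx => by
    by_cases e1 : x = a
    · exact Or.inl e1
    by_cases e2 : x = b
    · exact Or.inr (Or.inl e2)
    have : x ∈ ({a, b} : Set V) ∪ {u, v, v} := Or.inr (by simpa using hx)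
    exact Or.inr (Or.inr ⟨e.1 (by simp) this (Ne.symm e1), e.1 (by simp) this (Ne.symm e2)⟩)
  rcases lt_trichotomy {w | G.Adj a w ∧ G.Adj b w}.ncard 2 with l | l | l
  · exfalso
    rcases {w | G.Adj a w ∧ G.Adj b w}.eq_empty_or_nonempty with e0 | ⟨w, hw⟩
    · refine q0 (qr_zero fun z hz => ⟨0, fun u v e => ?_⟩)
      have k : ∀ x, ¬ (G.Adj a x ∧ G.Adj b x) := fun x hx => (e0 ▸ hx : x ∈ (∅ : Set V))
      have f1 := F u v e u (by simp)
      have f2 := F u v e v (by simp)
      obtain rfl : u = v := by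
        obtain ⟨-, s, s1, s2, s3, -⟩ := e
        rcases s1 with rfl | rfl <;> grind
      have := hz _ _ _ e
      simp; omega
    · have k : ∀ x, G.Adj a x ∧ G.Adj b x → x = w := fun x hx =>
        (ncard_le_one_iff (toFinite _)).1 (by omega) hx hw
      refine q0 (qr_cone w fun u v e => ⟨(cl3 hab hw.1 hw.2).subset ?_, ?_⟩)
      · have f1 := F u v e u (by simp)
        have f2 := F u v e v (by simp)
        rintro x ((rfl | rfl) | rfl | rfl | rfl) <;> simp <;> grind
      · obtain ⟨-, s, s1, s2, s3, -⟩ := e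
        refine ⟨s, s1, s2, s3, ?_⟩
        rcases s1 with rfl | rfl
        exacts [hw.1.ne, hw.2.ne]
  · exact l
  · exfalso
    obtain ⟨x, y, w, hx, hy, hw, n1, n2, n3⟩ := (two_lt_ncard_iff (toFinite _)).1 l
    obtain ⟨c, c1, n, c2⟩ := q1 (Fin 2) (by simp) (fun i u v =>
      (if u = a ∧ v = ![x, y] i then 1 else 0) - if v = a ∧ u = ![x, y] i then 1 else 0)
      fun i => coc_of_anti h.deg fun u v => by ring
    have k : ∀ t, G.Adj a t ∧ G.Adj b t → LN G {a, b} a t t ∧ LN G {a, b} b t t := fun t ht =>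
      ⟨⟨(cl3 hab ht.1 ht.2).subset (by rintro x ((rfl | rfl) | rfl | rfl | rfl) <;> simp),
        b, by simp, hab.ne', ht.2.ne, ht.2.ne⟩,
      ⟨(cl3 hab ht.1 ht.2).subset (by rintro x ((rfl | rfl) | rfl | rfl | rfl) <;> simp),
        a, by simp, hab.ne, ht.1.ne, ht.1.ne⟩⟩
    have b1 := c2 _ _ (k x hx).1
    have b2 := c2 _ _ (k x hx).2
    have b3 := c2 _ _ (k y hy).1
    have b4 := c2 _ _ (k y hy).2
    have b5 := c2 _ _ (k w hw).1
    have b6 := c2 _ _ (k w hw).2
    simp [Fin.sum_univ_two, hab.ne', hx.1.ne', hy.1.ne', hw.1.ne', n1, n1.symm, n2.symm,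
      n3.symm] at b1 b2 b3 b4 b5 b6
    refine c1 (funext fun i => ?_)
    fin_cases i <;> simp <;> omega

lemma cyc (a : V) : ∃ n c, Cyc G a n c := by
  obtain ⟨-, q0, q2⟩ := h {a} (by simp) (by simp)
  push_cast at q0 q2
  let L : SimpleGraph V :=
    { Adj := fun u v => G.Adj a u ∧ G.Adj a v ∧ G.Adj u v
      symm := ⟨fun u v e => ⟨e.2.1, e.1, e.2.2.symm⟩⟩
      loopless := ⟨fun u e => e.2.2.ne rfl⟩ }
  have l1 : ∀ u, G.Adj a u → (L.neighborSet u).ncard = 2 := fun u hu => by
    rw [← h.edge hu]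
    congr 1
    ext w
    exact ⟨fun e => e.2, fun e => ⟨hu, e⟩⟩
  have l2 : L.IsCycles := fun u ⟨w, hw⟩ => l1 u hw.1
  have l3 : ∀ u v, LN G {a} u v v → G.Adj a u ∧ G.Adj a v := by
    rintro u v ⟨e, s, rfl, s2, s3, -⟩
    exact ⟨e (by simp) (by simp) s2, e (by simp) (by simp) s3⟩
  obtain ⟨u, hu⟩ : ∃ u, G.Adj a u := by
    by_contra hc
    exact q0 (qr_cone a fun u v e => absurd ⟨u, (l3 u v e).1⟩ hc)
  have l4 : ∀ u, G.Adj a u → LN G {a} u u u := fun u hu =>
    ⟨by simpa [isClique_pair] using fun _ => hu.symm, a, rfl, hu.ne, hu.ne, hu.ne⟩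
  have l5 : ∀ v, G.Adj a v → L.Reachable u v := fun v hv => by
    have := q2 u v (l4 u hu) (l4 v hv)
    clear hv
    induction this with
    | refl => rfl
    | @tail x y _ e ih =>
      by_cases e' : x = y
      · exact e' ▸ ih
      · exact ih.trans (Adj.reachable ⟨(l3 x y e).1, (l3 x y e).2, e.1 (by simp) (by simp) e'⟩)
  obtain ⟨p, p1, p2⟩ := l2.exists_cycle_toSubgraph_verts_eq_connectedComponentSupp
    (c := L.connectedComponentMk u) (v := u) rfl (nonempty_of_ncard_ne_zero (by rw [l1 u hu]; simp))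
  have p3 := p1.three_le_length
  have inj : ∀ i j, i < p.length → j < p.length → p.getVert i = p.getVert j → i = j :=
    fun i j hi hj e => p1.getVert_injOn' (show i ≤ _ by omega) (show j ≤ _ by omega) e
  have nx : ∀ i j, i < p.length → j < p.length → Nx p.length i j →
      L.Adj (p.getVert i) (p.getVert j) := by
    rintro i j hi hj (rfl | rfl | ⟨rfl, e⟩ | ⟨rfl, e⟩)
    · exact p.adj_getVert_succ hi
    · exact (p.adj_getVert_succ hj).symm
    · have := (p.adj_getVert_succ hj).symm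
      rw [e, p.getVert_length] at this
      rwa [p.getVert_zero]
    · have := p.adj_getVert_succ hi
      rw [e, p.getVert_length] at this
      rwa [p.getVert_zero]
  have ad : ∀ i, i < p.length → G.Adj a (p.getVert i) := fun i hi => (p.adj_getVert_succ hi).1
  refine ⟨p.length, p.getVert, ?_, inj, ad, fun v hv => ?_,
    fun i j hi hj => ⟨fun e => ?_, fun e => (nx i j hi hj e).2.2⟩⟩
  · by_contra hc
    exact h.four (ad 0 (by omega)) (ad 1 (by omega)) (ad 2 (by omega))
      (nx 0 1 (by omega) (by omega) (by simp [Nx])).2.2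
      (nx 0 2 (by omega) (by omega) (by unfold Nx; omega)).2.2
      (nx 1 2 (by omega) (by omega) (by simp [Nx])).2.2
  · have : v ∈ p.support := by
      rw [← p.mem_verts_toSubgraph, p2, ConnectedComponent.mem_supp_iff, ConnectedComponent.eq]
      exact (l5 v hv).symm
    obtain ⟨i, i1, i2⟩ := Walk.mem_support_iff_exists_getVert.1 this
    rcases i2.eq_or_lt with rfl | l
    · exact ⟨0, by omega, by simpa using i1⟩
    · exact ⟨i, l, i1⟩
  · obtain ⟨k, k1, k2⟩ : ∃ k, k < p.length ∧ (k = i + 1 ∨ (k = 0 ∧ i + 1 = p.length)) := by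
      by_cases e : i + 1 < p.length
      · exact ⟨_, e, Or.inl rfl⟩
      · exact ⟨0, by omega, by omega⟩
    obtain ⟨l, m1, m2⟩ : ∃ l, l < p.length ∧ (i = l + 1 ∨ (i = 0 ∧ l + 1 = p.length)) := by
      rcases i with _ | i
      · exact ⟨p.length - 1, by omega, by omega⟩
      · exact ⟨i, by omega, by omega⟩
    by_cases e1 : j = k
    · simp only [Nx]; omega
    obtain ⟨w, -, hw⟩ := l2.existsUnique_ne_adj (nx i k hi k1 (by simp only [Nx]; omega))
    have := inj j l hj m1 ((hw _ ⟨fun e => e1 (inj _ _ k1 hj e).symm, ad i hi, ad j hj, e⟩).trans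
      (hw _ ⟨fun e => by have := inj _ _ k1 m1 e; omega,
        nx i l hi m1 (by simp only [Nx]; omega)⟩).symm)
    simp only [Nx]; omega

end LF

lemma rank_count {E F W : Type} [Fintype E] [Fintype F] [Fintype W] {m : ℕ}
    (A : (E → ℤ) →ₗ[ℤ] (F → ℤ)) (B : (W → ℤ) →ₗ[ℤ] (E → ℤ))
    (H : ∀ z : Fin (m + 1) → E → ℤ, (∀ i, A (z i) = 0) →
      ∃ a : Fin (m + 1) → ℤ, a ≠ 0 ∧ ∑ i, a i • z i ∈ LinearMap.range B) :
    Fintype.card E ≤ m + Fintype.card W + Fintype.card F := by
  let φ := (LinearMap.range B).mkQ ∘ₗ (LinearMap.ker A).subtype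
  have h1 := (LinearMap.ker A).finrank_quotient_add_finrank
  have h2 := (LinearMap.ker φ).finrank_quotient_add_finrank
  rw [A.quotKerEquivRange.finrank_eq, finrank_fintype_fun_eq_card] at h1
  rw [φ.quotKerEquivRange.finrank_eq] at h2
  have h3 := (LinearMap.range A).finrank_le
  have h4 := B.finrank_range_le
  rw [finrank_fintype_fun_eq_card] at h3 h4
  have h5 : finrank ℤ (LinearMap.ker φ) ≤ finrank ℤ (LinearMap.range B) := by
    rw [← Submodule.finrank_map_subtype_eq]
    refine Submodule.finrank_mono ?_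
    rintro _ ⟨x, hx, rfl⟩
    simpa [φ] using hx
  have h6 : finrank ℤ (LinearMap.range φ) ≤ m := by
    by_contra hc
    obtain ⟨f, hf⟩ := exists_linearIndependent_of_le_finrank (Nat.succ_le_of_lt (not_le.1 hc))
    choose z hz using fun i => (f i).2
    obtain ⟨a, a1, a2⟩ := H (fun i => z i) fun i => (z i).2
    refine a1 (funext (Fintype.linearIndependent_iff.1 hf a (Subtype.ext ?_)))
    have := (Submodule.Quotient.mk_eq_zero _).2 a2
    rw [← Submodule.mkQ_apply, map_sum] at this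
    simp only [map_smul] at this
    simpa [← hz, φ] using this
  omega

lemma euler [DecidableRel G.Adj] {m : ℕ} (hq : Qr m (GN G)) {n : V → ℕ}
    (h : ∀ v, ∃ c, Cyc G v (n v) c) : ∑ v, n v ≤ 6 * Fintype.card V + 6 * m := by
  classical
  let θ : V → ℕ := fun v => Fintype.equivFin V v
  have hθ : ∀ u v, θ u = θ v → u = v := fun u v e => (Fintype.equivFin V).injective (Fin.ext e)
  let P : V × V → Prop := fun p => G.Adj p.1 p.2 ∧ θ p.1 < θ p.2
  let X : V × V → ({p // P p} → ℤ) →ₗ[ℤ] ℤ := fun p =>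
    if h : P p then LinearMap.proj (⟨p, h⟩ : {p // P p}) else 0
  let w : V → V → ({p // P p} → ℤ) →ₗ[ℤ] ℤ := fun u v => X (u, v) - X (v, u)
  have h1 := rank_count (m := m) (LinearMap.pi fun q : Finset.univ.sigma (SW G θ) =>
      w q.1.2.1 q.1.1 + w q.1.1 q.1.2.2 - w q.1.2.1 q.1.2.2)
    (LinearMap.pi fun e : {p // P p} => LinearMap.proj (R := ℤ) (φ := fun _ : V => ℤ) e.1.1 -
      LinearMap.proj (R := ℤ) (φ := fun _ : V => ℤ) e.1.2) ?_
  · have h2 := sum_SW (θ := θ) h
    rw [Fintype.card_coe, Finset.card_sigma] at h1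
    have h3 : ∀ v, n v ≤ G.degree v := fun v => by
      obtain ⟨c, hc⟩ := h v
      rw [← Finset.card_range (n v)]
      exact Finset.card_le_card_of_injOn c (fun i hi => by simpa using hc.adj i (by simpa using hi))
        fun i hi j hj => hc.inj i j (by simpa using hi) (by simpa using hj)
    have h4 : ∑ v, n v ≤ ∑ v, G.degree v := Finset.sum_le_sum fun v _ => h3 v
    have h5 : G.edgeFinset.card ≤ Fintype.card {p // P p} := by
      refine le_trans (Finset.card_le_card ?_) (Finset.card_image_le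
        (f := fun p : {p // P p} => s(p.1.1, p.1.2)))
      intro e he
      induction e with
      | h u v =>
        have e : G.Adj u v := by simpa using he
        rcases lt_trichotomy (θ u) (θ v) with l | l | l
        · exact Finset.mem_image.2 ⟨⟨(u, v), e, l⟩, Finset.mem_univ _, rfl⟩
        · exact absurd (hθ u v l) e.ne
        · exact Finset.mem_image.2 ⟨⟨(v, u), e.symm, l⟩, Finset.mem_univ _, Sym2.eq_swap⟩
    rw [G.sum_degrees_eq_twice_card_edges] at h4
    omega
  intro z hz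
  have an : ∀ z u v, w v u z = - w u v z := fun z u v => by simp [w]
  obtain ⟨a, a1, b, a2⟩ := hq (Fin (m + 1)) (by simp) (fun i u v => w u v (z i)) fun i => by
    have k : ∀ x y t, G.Adj x y → G.Adj x t → G.Adj y t → θ y < θ x → θ x < θ t →
        w y x (z i) + w x t (z i) = w y t (z i) := fun x y t e1 e2 e3 e4 e5 => by
      have := congrFun (hz i) ⟨⟨x, y, t⟩, by simp [SW, e1, e2, e3, e4, e5]⟩
      simpa [sub_eq_zero] using this
    intro x y t e
    beta_reduce
    have := an (z i) x x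
    have := an (z i) y y
    have := an (z i) x y
    have := an (z i) y t
    have := an (z i) x t
    by_cases e1 : x = y
    · subst e1; omega
    by_cases e2 : y = t
    · subst e2; omega
    by_cases e3 : x = t
    · subst e3; omega
    have f1 : G.Adj x y := e (by simp) (by simp) e1
    have f2 : G.Adj y t := e (by simp) (by simp) e2
    have f3 : G.Adj x t := e (by simp) (by simp) e3
    have := mt (hθ x y) e1
    have := mt (hθ y t) e2
    have := mt (hθ x t) e3
    have := k x y t f1 f3 f2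
    have := k x t y f3 f1 f2.symm
    have := k y x t f1.symm f2 f3
    have := k y t x f2 f1.symm f3.symm
    have := k t x y f3.symm f2.symm f1
    have := k t y x f2.symm f3.symm f1.symm
    omega
  refine ⟨a, a1, b, funext fun ⟨⟨u, v⟩, e⟩ => ?_⟩
  have := a2 u v (by simpa [GN, isClique_pair] using fun _ => e.1)
  have e' : ¬ P (v, u) := fun e' => lt_asymm e.2 e'.2
  simpa [w, X, e, e'] using this.symm

lemma surf_top {S : Type} [TopologicalSpace S] [ConnectedSpace S]
    [ChartedSpace (EuclideanSpace ℝ (Fin 2)) S] [DecidableRel G.Adj] (H : nerve G ≃ₜ S) {m : ℕ}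
    (hq : Qr m (GN G)) : Surf G (Fintype.card V) (6 * m) := by
  have h : LF G := fun σ h0 hσ => ln_facts H h0 hσ
  choose n hn using h.cyc
  refine ⟨fun u v => ?_, n, fun v => ⟨?_, hn v⟩, euler hq hn⟩
  · obtain ⟨t, ht⟩ := glob_surf H
    obtain ⟨x, -, hx, -⟩ := (ht.ner u u u).1 (by simp [GN])
    obtain ⟨y, -, hy, -⟩ := (ht.ner v v v).1 (by simp [GN])
    have := ht.reach subset_rfl isPreconnected_univ trivial trivial hx hy
    clear hy
    induction this with
    | refl => rfl
    | @tail x y _ e ih =>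
      by_cases e' : x = y
      · exact e' ▸ ih
      · exact ih.tail (e (by simp) (by simp) e')
  · obtain ⟨c, hc⟩ := hn v
    rw [← Finset.card_range (n v)]
    exact Finset.card_le_card_of_injOn c (fun i _ => by simp)
      fun i hi j hj => hc.inj i j (by simpa using hi) (by simpa using hj)

lemma exists_qr (S : Type) [TopologicalSpace S] [Nonempty S] : ∃ m : ℕ,
    ∀ (V : Type) [Fintype V] [DecidableEq V] (G : SimpleGraph V), Nonempty (nerve G ≃ₜ S) →
      Qr m (GN G) := by
  by_cases h : ∃ (V : Type) (_ : Fintype V) (_ : DecidableEq V) (G : SimpleGraph V),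
    Nonempty (nerve G ≃ₜ S)
  · obtain ⟨V0, _, _, G0, ⟨H0⟩⟩ := h
    refine ⟨Fintype.card (V0 × V0), fun V _ _ G ⟨H⟩ => ?_⟩
    obtain ⟨t, ht⟩ := glob_surf H
    obtain ⟨t0, ht0⟩ := glob_surf H0
    refine ht.qr ht0 ht subset_rfl subset_rfl fun ι _ hι z _ => ?_
    obtain ⟨a, a1, a2⟩ := exists_dep hι fun i p => z i p.1 p.2
    exact ⟨a, a1, 0, fun u v _ => by simpa using a2 (u, v)⟩
  · exact ⟨0, fun V _ _ G e => absurd ⟨V, _, inferInstance, G, e⟩ h⟩

theorem full_top (S : Type) [TopologicalSpace S] [ConnectedSpace S]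
    [ChartedSpace (EuclideanSpace ℝ (Fin 2)) S] : ∃ d : ℕ, ∀ (V : Type) [Fintype V] [DecidableEq V]
    (G : SimpleGraph V) [DecidableRel G.Adj], Nonempty (nerve G ≃ₜ S) → IsHyperbolic (gp G) →
      ∀ m : MetricSpace (Bdry (gp G)), IsVisual (gp G) m → confDim m ≤ d := by
  obtain ⟨k, hk⟩ := exists_qr S
  obtain ⟨c, N, h1⟩ := exists_LD (7 * (((6 * k : ℕ) : ℝ) + 16)) 3
  obtain ⟨p, h2⟩ := hypF_of_LD 3 c N (by norm_num)
  refine ⟨p + 1, fun V _ _ G _ a1 a2 m hm => ?_⟩
  obtain ⟨H⟩ := id a1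
  haveI : Nonempty V := by
    by_contra hc
    rw [not_nonempty_iff] at hc
    simpa using (H.symm (Classical.arbitrary S)).2.2.1
  have hS := surf_top H (hk V G a1)
  obtain ⟨r, hr⟩ := exists_PK hS
  obtain ⟨D⟩ := h1 hr (noSq_of_hyp a2) hS.clB hS.1
  exact confDim_le_of_hypF (by norm_num) hS.clB a2 (h2 G hS.clB (noSq_of_hyp a2) D) m hm

end Pool.Agent.Lib.MP_845f45_al
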