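import Pool.Agent.Lib.MP_845f45_al.NF2
import Pool.Agent.Lib.MP_845f45_al.Host

namespace Pool.Agent.Lib.MP_845f45_al

structure Dat {V : Type} (G : SimpleGraph V) (Δ lam : ℕ) where
  κ : ℕ × V → ℕ
  κinj : Function.Injective κ
  κmono : ∀ p q : ℕ × V, p.1 < q.1 → κ p < κ q
  f : V → ZZ
  hf : ∀ u v, G.Adj u v → Cl lam (f u) (f v)
  hΔ : ∀ (v : V) (s : Finset V), (∀ u ∈ s, G.Adj v u) → s.card ≤ Δ
  nosq : NoSq G

variable {V : Type} [DecidableEq V] {G : SimpleGraph V} [DecidableRel G.Adj] {Δ lam : ℕ}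
  (D : Dat G Δ lam)

namespace Dat

def IsTop (w : WG G) (t : ℕ × V) : Prop := t ∈ phi G w ∧ ∀ q ∈ phi G w, D.κ q ≤ D.κ t

lemma exists_isTop {w : WG G} (h : (phi G w).Nonempty) : ∃ t, D.IsTop w t :=
  (phi G w).exists_max_image D.κ h

noncomputable def ent (w : WG G) : ZZ :=
  if h : (phi G w).Nonempty then D.f (D.exists_isTop h).choose.2 else (0, 0, 0)

noncomputable def dn (w : WG G) : WG G :=
  if h : (phi G w).Nonempty then w * (csG G).simple (D.exists_isTop h).choose.2 else w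

variable {D}

lemma IsTop.unique {w : WG G} {t t' : ℕ × V} (h : D.IsTop w t) (h' : D.IsTop w t') : t = t' :=
  D.κinj (le_antisymm (h'.2 t h.1) (h.2 t' h'.1))

lemma IsTop.ent_eq {w : WG G} {t : ℕ × V} (h : D.IsTop w t) : D.ent w = D.f t.2 := by
  unfold ent
  rw [dif_pos ⟨t, h.1⟩, ← h.unique (D.exists_isTop ⟨t, h.1⟩).choose_spec]

lemma IsTop.dn_eq {w : WG G} {t : ℕ × V} (h : D.IsTop w t) :
    D.dn w = w * (csG G).simple t.2 := by
  unfold dn
  rw [dif_pos ⟨t, h.1⟩, ← h.unique (D.exists_isTop ⟨t, h.1⟩).choose_spec]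

lemma IsTop.level {w : WG G} {t : ℕ × V} (h : D.IsTop w t) {q : ℕ × V} (hq : q ∈ phi G w) :
    q.1 ≤ t.1 := by
  by_contra hc
  have := D.κmono t q (by omega)
  have := h.2 q hq
  omega

lemma IsTop.isMx {w : WG G} {t : ℕ × V} (h : D.IsTop w t) : IsMx G (phi G w) t :=
  ⟨h.1, fun q hq hlt => absurd (h.level hq) (by omega)⟩

lemma IsTop.phi_dn {w : WG G} {t : ℕ × V} (h : D.IsTop w t) :
    phi G (D.dn w) = (phi G w).erase t := by rw [h.dn_eq, phi_mul_mx h.isMx]

lemma IsTop.adj {w : WG G} {t p : ℕ × V} (h : D.IsTop w t) (hp : IsMx G (phi G w) p)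
    (hne : p ≠ t) : G.Adj t.2 p.2 := by
  rcases (h.level hp.1).lt_or_eq with hlt | heq
  · exact hp.2 t h.1 hlt
  · exact (phi_normal w).1 t h.1 p hp.1 heq.symm fun he => hne (Prod.ext heq he.symm)

variable (D)

noncomputable def Hc (w : WG G) : ℕ :=
  if h : (phi G w).Nonempty then Hc (D.dn w) + htZ (D.ent (D.dn w)) (D.ent w) + 1 else 0
termination_by (phi G w).card
decreasing_by
  obtain ⟨t, ht⟩ := D.exists_isTop h
  rw [ht.phi_dn]
  exact Finset.card_erase_lt_of_mem ht.1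

noncomputable def ht (x : WG G × ZZ) : ℕ := D.Hc x.1 + htZ (D.ent x.1) x.2

open Classical in
noncomputable def par (x : WG G × ZZ) : WG G × ZZ :=
  if x.2 ≠ D.ent x.1 then (x.1, parZ (D.ent x.1) x.2) else (D.dn x.1, x.2)

variable {D}

lemma IsTop.Hc_eq {w : WG G} {t : ℕ × V} (h : D.IsTop w t) :
    D.Hc w = D.ht (D.dn w, D.f t.2) + 1 := by
  rw [Hc, dif_pos ⟨t, h.1⟩, h.ent_eq]; rfl

lemma Hc_empty {w : WG G} (h : ¬ (phi G w).Nonempty) : D.Hc w = 0 := by
  rw [Hc, dif_neg h]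

lemma dn_empty {w : WG G} (h : ¬ (phi G w).Nonempty) : D.dn w = w := by
  rw [dn, dif_neg h]

lemma par_ne {w : WG G} {z : ZZ} (h : z ≠ D.ent w) : D.par (w, z) = (w, parZ (D.ent w) z) := by
  unfold par; rw [if_pos h]

lemma par_ent (w : WG G) : D.par (w, D.ent w) = (D.dn w, D.ent w) := by
  unfold par; rw [if_neg (by simp)]

lemma ht_par (x : WG G × ZZ) : D.ht (D.par x) = D.ht x - 1 ∧ (D.ht x = 0 → D.par x = x) := by
  obtain ⟨w, z⟩ := x
  by_cases h : z = D.ent w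
  · subst h
    rw [par_ent]
    by_cases hw : (phi G w).Nonempty
    · obtain ⟨t, ht⟩ := D.exists_isTop hw
      have := ht.Hc_eq
      rw [← ht.ent_eq] at this
      simp only [Dat.ht, htZ_self] at this ⊢
      omega
    · rw [dn_empty hw]
      simp [Dat.ht, htZ_self, Hc_empty hw]
  · rw [par_ne h]
    have := htZ_parZ h
    simp only [Dat.ht]
    omega

lemma ht_iter (k : ℕ) (x : WG G × ZZ) : D.ht (D.par^[k] x) = D.ht x - k := by
  induction k with
  | zero => simp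
  | succ k ih => rw [Function.iterate_succ_apply', (ht_par _).1, ih]; omega

variable (D) in
def Anc (x y : WG G × ZZ) : Prop := ∃ k, D.par^[k] x = y

variable (D) in
noncomputable def anc (x : WG G × ZZ) (s : ℕ) : WG G × ZZ := D.par^[D.ht x - s] x

lemma Anc.refl (x : WG G × ZZ) : D.Anc x x := ⟨0, rfl⟩

lemma Anc.trans {x y z : WG G × ZZ} (h : D.Anc x y) (h' : D.Anc y z) : D.Anc x z := by
  obtain ⟨k, rfl⟩ := h
  obtain ⟨l, rfl⟩ := h'
  exact ⟨l + k, Function.iterate_add_apply _ _ _ _⟩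

lemma Anc.par (x : WG G × ZZ) : D.Anc x (D.par x) := ⟨1, rfl⟩

lemma anc_anc (x : WG G × ZZ) (s : ℕ) : D.Anc x (D.anc x s) := ⟨_, rfl⟩

lemma ht_anc {x : WG G × ZZ} {s : ℕ} (h : s ≤ D.ht x) : D.ht (D.anc x s) = s := by
  unfold anc; rw [ht_iter]; omega

lemma Anc.eq_anc {x y : WG G × ZZ} (h : D.Anc x y) : y = D.anc x (D.ht y) := by
  obtain ⟨k, rfl⟩ := h
  unfold anc
  rw [ht_iter]
  by_cases hk : k ≤ D.ht x
  · rw [show D.ht x - (D.ht x - k) = k by omega]
  · rw [show D.ht x - (D.ht x - k) = D.ht x by omega,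
      show k = (k - D.ht x) + D.ht x by omega, Function.iterate_add_apply]
    apply Function.iterate_fixed
    exact (ht_par _).2 (by rw [ht_iter]; omega)

lemma Anc.ht_le {x y : WG G × ZZ} (h : D.Anc x y) : D.ht y ≤ D.ht x := by
  obtain ⟨k, rfl⟩ := h
  rw [ht_iter]; omega

lemma Anc.anc_eq {x y : WG G × ZZ} (h : D.Anc x y) {s : ℕ} (hs : s ≤ D.ht y) :
    D.anc x s = D.anc y s := by
  have h1 := (h.trans (anc_anc y s)).eq_anc
  rw [ht_anc hs] at h1
  exact h1.symm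

lemma anc_of_ancZ {w : WG G} {z y : ZZ} (h : AncZ (D.ent w) z y) : D.Anc (w, z) (w, y) := by
  induction h with
  | refl => exact Anc.refl _
  | tail _ hbc ih =>
    refine ih.trans ⟨1, ?_⟩
    rw [hbc.2]
    exact par_ne hbc.1

lemma anc_ent (w : WG G) (z : ZZ) : D.Anc (w, z) (w, D.ent w) := anc_of_ancZ (ancZ_root _ _)

lemma anc_dn (w : WG G) (z : ZZ) : D.Anc (w, z) (D.dn w, D.ent w) :=
  (anc_ent w z).trans ⟨1, par_ent w⟩

lemma Anc.cases {w : WG G} {z : ZZ} {y : WG G × ZZ} (h : D.Anc (w, z) y) :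
    (∃ a, AncZ (D.ent w) z a ∧ y = (w, a)) ∨ D.Anc (D.dn w, D.ent w) y := by
  obtain ⟨k, rfl⟩ := h
  induction k generalizing z with
  | zero => exact Or.inl ⟨z, Relation.ReflTransGen.refl, rfl⟩
  | succ k ih =>
    rw [Function.iterate_succ_apply]
    by_cases hz : z = D.ent w
    · subst hz
      rw [par_ent]
      exact Or.inr ⟨k, rfl⟩
    · rw [par_ne hz]
      rcases ih (z := parZ (D.ent w) z) with ⟨a, h1, h2⟩ | h
      · exact Or.inl ⟨a, Relation.ReflTransGen.head ⟨hz, rfl⟩ h1, h2⟩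
      · exact Or.inr h

variable (D) in
def Near (n : ℕ) (x y : WG G × ZZ) : Prop :=
  Cl n x.2 y.2 ∧ ∃ u : List V, u.length ≤ n ∧ y.1 = x.1 * (csG G).wordProd u ∧
    ∀ v ∈ u, Cl n (D.f v) x.2 ∧ Cl n (D.f v) y.2

lemma Near.mono {n m : ℕ} {x y : WG G × ZZ} (h : D.Near n x y) (hnm : n ≤ m) : D.Near m x y := by
  obtain ⟨h1, u, h2, h3, h4⟩ := h
  exact ⟨h1.mono hnm, u, h2.trans hnm, h3, fun v hv => ⟨(h4 v hv).1.mono hnm, (h4 v hv).2.mono hnm⟩⟩

lemma Near.symm {n : ℕ} {x y : WG G × ZZ} (h : D.Near n x y) : D.Near n y x := by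
  obtain ⟨h1, u, h2, h3, h4⟩ := h
  refine ⟨h1.symm, u.reverse, by simpa using h2, ?_, fun v hv => ?_⟩
  · rw [CoxeterSystem.wordProd_reverse, h3]; group
  · exact (h4 v (List.mem_reverse.1 hv)).symm

lemma Near.trans {n m : ℕ} {x y z : WG G × ZZ} (h : D.Near n x y) (h' : D.Near m y z) :
    D.Near (n + m) x z := by
  obtain ⟨h1, u, h2, h3, h4⟩ := h
  obtain ⟨e1, u', e2, e3, e4⟩ := h'
  refine ⟨h1.trans e1, u ++ u', by simp; omega, ?_, fun v hv => ?_⟩
  · rw [CoxeterSystem.wordProd_append, e3, h3, mul_assoc]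
  · rw [List.mem_append] at hv
    rcases hv with hv | hv
    · exact ⟨(h4 v hv).1.mono (by omega), (h4 v hv).2.trans e1⟩
    · exact ⟨((e4 v hv).1.trans h1.symm).mono (by omega), (e4 v hv).2.mono (by omega)⟩

lemma near_same {n : ℕ} (w : WG G) {z z' : ZZ} (h : Cl n z z') : D.Near n (w, z) (w, z') :=
  ⟨h, [], by simp, by simp, by simp⟩

lemma Near.refl (x : WG G × ZZ) : D.Near 1 x x := near_same x.1 (Cl.refl _)

lemma near_step {n : ℕ} (w : WG G) {v : V} {z z' : ZZ} (h : Cl n z z') (h1 : Cl n (D.f v) z)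
    (h2 : Cl n (D.f v) z') : D.Near n (w, z) (w * (csG G).simple v, z') :=
  ⟨h, [v], h.pos, by simp, by simpa using ⟨h1, h2⟩⟩

lemma near_par (x : WG G × ZZ) : D.Near 2 x (D.par x) := by
  obtain ⟨w, z⟩ := x
  by_cases h : z = D.ent w
  · subst h
    rw [par_ent]
    by_cases hw : (phi G w).Nonempty
    · obtain ⟨t, ht⟩ := D.exists_isTop hw
      rw [ht.dn_eq, ht.ent_eq]
      exact (near_step w (Cl.refl _) (Cl.refl _) (Cl.refl _)).mono (by omega)
    · rw [dn_empty hw]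
      exact (Near.refl _).mono (by omega)
  · rw [par_ne h]
    exact near_same w (Cl_parZ h)

lemma near_iter (k : ℕ) (x : WG G × ZZ) : D.Near (2 * k + 1) x (D.par^[k] x) := by
  induction k with
  | zero => exact Near.refl x
  | succ k ih =>
    rw [Function.iterate_succ_apply']
    exact (ih.trans (near_par _)).mono (by omega)

end Dat

lemma AncZ.cl {e z y : ZZ} (h : AncZ e z y) : Cl (2 * htZ e z + 1) z y := by
  have : ∃ k, htZ e y + k = htZ e z ∧ Cl (2 * k + 1) z y := by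
    induction h with
    | refl => exact ⟨0, rfl, Cl.refl _⟩
    | tail _ hbc ih =>
      obtain ⟨k, h1, h2⟩ := ih
      have := htZ_parZ hbc.1
      rw [hbc.2]
      exact ⟨k + 1, by omega, (h2.trans (Cl_parZ hbc.1)).mono (by omega)⟩
  obtain ⟨k, h1, h2⟩ := this
  exact h2.mono (by omega)

namespace Dat

def NE (E : ℕ) (x y : WG G × ZZ) : Prop := ∀ a, D.Anc x a → ∃ b, D.Anc y b ∧ D.Near E a b

variable {D}

lemma NE.trans {E E' : ℕ} {x y z : WG G × ZZ} (h : D.NE E x y) (h' : D.NE E' y z) :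
    D.NE (E + E') x z := by
  intro a ha
  obtain ⟨b, hb, h1⟩ := h a ha
  obtain ⟨c, hc, h2⟩ := h' b hb
  exact ⟨c, hc, h1.trans h2⟩

lemma NE.mono {E E' : ℕ} {x y : WG G × ZZ} (h : D.NE E x y) (hE : E ≤ E') : D.NE E' x y := by
  intro a ha
  obtain ⟨b, hb, h1⟩ := h a ha
  exact ⟨b, hb, h1.mono hE⟩

lemma ne_same {n : ℕ} (w : WG G) {z z' : ZZ} (h : Cl n z z') :
    D.NE (2 * n + 2) (w, z) (w, z') := by
  intro a ha
  rcases ha.cases with ⟨b, h1, rfl⟩ | h1
  · obtain ⟨b', h2, h3⟩ := ancZ_ne h h1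
    exact ⟨(w, b'), anc_of_ancZ h2, near_same w h3⟩
  · exact ⟨a, (anc_dn w z').trans h1, (Near.refl a).mono (by omega)⟩

lemma elem {n : ℕ} (hn : lam ≤ n) (k : ℕ) : ∀ (w : WG G) (p : ℕ × V) (z : ZZ),
    (phi G w).card = k → IsMx G (phi G w) p → Cl n z (D.f p.2) →
    D.ht (w, z) ≤ D.ht (w * (csG G).simple p.2, z) + (6 * n + 1) ∧
    D.ht (w * (csG G).simple p.2, z) ≤ D.ht (w, z) + (6 * n + 1) ∧
    D.NE (9 * n + 2) (w, z) (w * (csG G).simple p.2, z) ∧
    D.NE (9 * n + 2) (w * (csG G).simple p.2, z) (w, z) := by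
  induction k using Nat.strong_induction_on with
  | _ k ih =>
    intro w p z hk hp hz
    obtain ⟨t, ht⟩ := D.exists_isTop ⟨p, hp.1⟩
    by_cases hpt : p = t
    · subst hpt
      have e1 := ht.Hc_eq
      have e2 := ht.ent_eq
      have e3 := ht.dn_eq
      have a1 := htZ_le_of_Cl hz.symm
      have a2 := htZ_le_add (D.ent (D.dn w)) hz
      have a3 := htZ_le_add (D.ent (D.dn w)) hz.symm
      rw [← e3]
      refine ⟨?_, ?_, ?_, ?_⟩
      · simp only [Dat.ht] at e1 ⊢; rw [e2]; omega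
      · simp only [Dat.ht] at e1 ⊢; rw [e2]; omega
      · intro a ha
        rcases ha.cases with ⟨b, h1, rfl⟩ | h1
        · refine ⟨(D.dn w, z), Anc.refl _, ?_⟩
          have h2 := h1.cl
          rw [e2] at h2
          rw [e3]
          exact near_step w (h2.symm.mono (by omega)) ((hz.symm.trans h2).mono (by omega))
            (hz.symm.mono (by omega))
        · rw [e2] at h1
          obtain ⟨b, h2, h3⟩ := ne_same (D.dn w) hz.symm a h1
          exact ⟨b, h2, h3.mono (by omega)⟩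
      · intro a ha
        obtain ⟨b, h2, h3⟩ := ne_same (D.dn w) hz a ha
        refine ⟨b, Anc.trans ?_ h2, h3.mono (by omega)⟩
        rw [← e2]; exact anc_dn w z
    · have hadj := ht.adj hp hpt
      have hphi := phi_mul_mx hp
      have ht' : D.IsTop (w * (csG G).simple p.2) t := by
        refine ⟨?_, fun q hq => ?_⟩
        · rw [hphi]; exact Finset.mem_erase.2 ⟨Ne.symm hpt, ht.1⟩
        · rw [hphi] at hq; exact ht.2 q (Finset.mem_of_mem_erase hq)
      have hdn : D.dn (w * (csG G).simple p.2) = D.dn w * (csG G).simple p.2 := by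
        rw [ht'.dn_eq, ht.dn_eq, mul_assoc, mul_assoc, simple_comm hadj]
      have hp' : IsMx G (phi G (D.dn w)) p := by
        rw [ht.phi_dn]
        exact ⟨Finset.mem_erase.2 ⟨hpt, hp.1⟩, fun q hq => hp.2 q (Finset.mem_of_mem_erase hq)⟩
      have hcl := (D.hf _ _ hadj).mono hn
      obtain ⟨i1, i2, i3, i4⟩ := ih _ (by
        rw [← hk, ht.phi_dn]; exact Finset.card_erase_lt_of_mem ht.1) (D.dn w) p (D.f t.2) rfl
        hp' hcl
      have e1 := ht.Hc_eq
      have e1' := ht'.Hc_eq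
      have e2 := ht.ent_eq
      have e2' := ht'.ent_eq
      rw [hdn] at e1'
      have a1 := htZ_le_of_Cl (hcl.trans hz.symm)
      have key : ∀ b, AncZ (D.f t.2) z b → D.Near (9 * n + 2) (w, b)
          (w * (csG G).simple p.2, b) := by
        intro b hb
        have h2 := hb.cl
        exact near_step w ((Cl.refl _).mono (by omega)) ((hz.symm.trans h2).mono (by omega))
          ((hz.symm.trans h2).mono (by omega))
      refine ⟨?_, ?_, ?_, ?_⟩
      · have : D.Hc w ≤ D.Hc (w * (csG G).simple p.2) + (6 * n + 1) := by omega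
        simp only [Dat.ht]; rw [e2, e2']; omega
      · have : D.Hc (w * (csG G).simple p.2) ≤ D.Hc w + (6 * n + 1) := by omega
        simp only [Dat.ht]; rw [e2, e2']; omega
      · intro a ha
        rcases ha.cases with ⟨b, h1, rfl⟩ | h1
        · rw [e2] at h1
          exact ⟨_, anc_of_ancZ (by rw [e2']; exact h1), key b h1⟩
        · rw [e2] at h1
          obtain ⟨b, h2, h3⟩ := i3 a h1
          refine ⟨b, Anc.trans ?_ h2, h3⟩
          rw [← hdn, ← e2']; exact anc_dn _ z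
      · intro a ha
        rcases ha.cases with ⟨b, h1, rfl⟩ | h1
        · rw [e2'] at h1
          exact ⟨_, anc_of_ancZ (by rw [e2]; exact h1), (key b h1).symm⟩
        · rw [e2', hdn] at h1
          obtain ⟨b, h2, h3⟩ := i4 a h1
          refine ⟨b, Anc.trans ?_ h2, h3⟩
          rw [← e2]; exact anc_dn _ z

lemma elem' {n : ℕ} (hn : lam ≤ n) (w : WG G) (v : V) (z : ZZ) (hz : Cl n (D.f v) z) :
    D.ht (w, z) ≤ D.ht (w * (csG G).simple v, z) + (6 * n + 1) ∧
    D.NE (9 * n + 2) (w, z) (w * (csG G).simple v, z) := by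
  rcases act_cases (G := G) (phi G w) v with ⟨p, hp, rfl, -⟩ | ⟨l, -, he, e1, -⟩
  · obtain ⟨h1, -, h2, -⟩ := elem hn _ w p z rfl hp hz.symm
    exact ⟨h1, h2⟩
  · rw [← phi_mul] at he
    obtain ⟨-, h1, -, h2⟩ := elem (D := D) hn _ (w * (csG G).simple v) (l, v) z rfl
      (by rw [he]; exact isMx_insert e1) hz.symm
    simp only [CoxeterSystem.simple_mul_simple_cancel_right] at h1 h2
    exact ⟨h1, h2⟩

lemma word_ne {n : ℕ} (hn : lam ≤ n) (u : List V) : ∀ (w : WG G) (z : ZZ),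
    (∀ v ∈ u, Cl n (D.f v) z) →
    D.ht (w, z) ≤ D.ht (w * (csG G).wordProd u, z) + u.length * (6 * n + 1) ∧
    D.NE (u.length * (9 * n + 2) + 1) (w, z) (w * (csG G).wordProd u, z) := by
  induction u with
  | nil =>
    intro w z _
    refine ⟨by simp, fun a ha => ⟨a, by simpa using ha, by simpa using Near.refl a⟩⟩
  | cons v u ih =>
    intro w z h
    obtain ⟨h1, h2⟩ := elem' hn w v z (h v (by simp))
    obtain ⟨h3, h4⟩ := ih (w * (csG G).simple v) z fun a ha => h a (by simp [ha])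
    rw [CoxeterSystem.wordProd_cons, ← mul_assoc, List.length_cons, add_mul, add_mul]
    exact ⟨by omega, (h2.trans h4).mono (by omega)⟩

lemma Near.ht_le {n : ℕ} (hn : lam ≤ n) {x y : WG G × ZZ} (h : D.Near n x y) :
    D.ht x ≤ D.ht y + (n * (6 * n + 1) + 4 * n) := by
  obtain ⟨h1, u, h2, h3, h4⟩ := h
  have a1 := (word_ne hn u x.1 x.2 fun v hv => (h4 v hv).1).1
  rw [← h3] at a1
  have a2 := htZ_le_add (D.ent y.1) h1
  have a3 := Nat.mul_le_mul_right (6 * n + 1) h2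
  simp only [Dat.ht] at a1 ⊢
  omega

lemma Near.ne {n : ℕ} (hn : lam ≤ n) {x y : WG G × ZZ} (h : D.Near n x y) :
    D.NE (n * (9 * n + 2) + 2 * n + 3) x y := by
  obtain ⟨h1, u, h2, h3, h4⟩ := h
  have a1 := (word_ne hn u x.1 x.2 fun v hv => (h4 v hv).1).2
  rw [← h3] at a1
  have a3 := Nat.mul_le_mul_right (9 * n + 2) h2
  exact (a1.trans (ne_same y.1 h1)).mono (by omega)

end Dat

end Pool.Agent.Lib.MP_845f45_al
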