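import Pool.Agent.Lib.MP_845f45_al.Tree1

namespace Pool.Agent.Lib.MP_845f45_al

section
variable {V : Type} [DecidableEq V] {G : SimpleGraph V} [DecidableRel G.Adj] {Δ lam : ℕ}

lemma pre_word {m w w' : WG G} (h : Pre G m w) (h' : Pre G m w') :
    ∃ u : List V, u.length = (phi G w \ phi G m).card + (phi G w' \ phi G m).card ∧
      w' = w * (csG G).wordProd u ∧
      ∀ v ∈ u, ∃ p ∈ (phi G w \ phi G m) ∪ (phi G w' \ phi G m), p.2 = v := by
  obtain ⟨u, h1, h2, h3⟩ := Pre.word _ h rfl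
  obtain ⟨u', e1, e2, e3⟩ := Pre.word _ h' rfl
  refine ⟨u.reverse ++ u', by simp [h1, e1], ?_, fun v hv => ?_⟩
  · rw [CoxeterSystem.wordProd_append, CoxeterSystem.wordProd_reverse, e2, h2]; group
  · rw [List.mem_append, List.mem_reverse] at hv
    rcases hv with hv | hv
    · obtain ⟨p, hp, e⟩ := h3 v hv
      exact ⟨p, Finset.mem_union_left _ hp, e⟩
    · obtain ⟨p, hp, e⟩ := e3 v hv
      exact ⟨p, Finset.mem_union_right _ hp, e⟩

lemma Pre.adj {m w : WG G} (h : Pre G m w) {p q : ℕ × V} (hp : p ∈ phi G w \ phi G m)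
    (hq : q ∈ phi G m) (hle : p.1 ≤ q.1) : G.Adj p.2 q.2 := by
  rw [Finset.mem_sdiff] at hp
  rcases hle.lt_or_eq with hlt | heq
  · exact h.2 p hp.1 hp.2 q hq hlt
  · refine (phi_normal w).1 p hp.1 q (h.1 hq) heq fun he => hp.2 ?_
    rw [Prod.ext heq he]; exact hq

lemma Dat.card_diff (D : Dat G Δ lam) {m w : WG G} (h : Pre G m w) {b b' : V} (hne : b ≠ b')
    (hb : ¬ G.Adj b b') (hA : ∀ p ∈ phi G w \ phi G m, G.Adj p.2 b ∧ G.Adj p.2 b') :
    (phi G w \ phi G m).card ≤ Δ := by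
  have key : ∀ p ∈ phi G w \ phi G m, ∀ q ∈ phi G w \ phi G m, p.2 = q.2 → ¬ p.1 < q.1 := by
    intro p hp q hq he hlt
    obtain ⟨r, hr, e1, e2, e3⟩ := (phi_normal w).2 q (Finset.mem_sdiff.1 hq).1 (by omega)
    by_cases hrm : r ∈ phi G m
    · have := h.adj hp hrm (by omega)
      rw [he] at this
      exact e3 this.symm
    · have hr' := hA r (Finset.mem_sdiff.2 ⟨hr, hrm⟩)
      exact e3 (D.nosq b b' r.2 q.2 hne hb hr'.1 hr'.2 (hA q hq).1 (hA q hq).2 e2)
  rw [← Finset.card_image_of_injOn (f := Prod.snd)]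
  · apply D.hΔ b
    intro u hu
    obtain ⟨p, hp, rfl⟩ := Finset.mem_image.1 hu
    exact (hA p hp).1.symm
  · intro p hp q hq he
    have h1 := key p hp q hq he
    have h2 := key q hq p hp he.symm
    exact Prod.ext (by omega) he

lemma Dat.card_level (D : Dat G Δ lam) (w : WG G) (l : ℕ) :
    ((phi G w).filter fun q => q.1 = l).card ≤ Δ + 1 := by
  rcases ((phi G w).filter fun q => q.1 = l).eq_empty_or_nonempty with h | ⟨p, hp⟩
  · rw [h]; simp
  have h1 := Finset.card_erase_add_one hp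
  rw [← h1, ← Finset.card_image_of_injOn (f := Prod.snd)]
  · refine Nat.succ_le_succ (D.hΔ p.2 _ fun u hu => ?_)
    obtain ⟨q, hq, rfl⟩ := Finset.mem_image.1 hu
    rw [Finset.mem_erase, Finset.mem_filter] at hq
    rw [Finset.mem_filter] at hp
    refine (phi_normal w).1 p hp.1 q hq.2.1 (by omega) fun he => hq.1 ?_
    exact Prod.ext (by omega) he.symm
  · intro a ha b hb he
    have ha := (Finset.mem_filter.1 (Finset.mem_of_mem_erase ha)).2
    have hb := (Finset.mem_filter.1 (Finset.mem_of_mem_erase hb)).2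
    exact Prod.ext (by omega) he

lemma Dat.card_two_levels (D : Dat G Δ lam) (w : WG G) (l : ℕ) (s : Finset (ℕ × V))
    (hs : ∀ q ∈ s, q ∈ phi G w ∧ l ≤ q.1 ∧ q.1 < l + 2) : s.card ≤ 2 * Δ + 2 := by
  have h1 := D.card_level w l
  have h2 := D.card_level w (l + 1)
  have h3 : s ⊆ ((phi G w).filter fun q => q.1 = l) ∪ ((phi G w).filter fun q => q.1 = l + 1) := by
    intro q hq
    obtain ⟨e1, e2, e3⟩ := hs q hq
    simp only [Finset.mem_union, Finset.mem_filter]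
    by_cases h : q.1 = l
    · exact Or.inl ⟨e1, h⟩
    · exact Or.inr ⟨e1, by omega⟩
  have := (Finset.card_le_card h3).trans (Finset.card_union_le _ _)
  omega

namespace Dat

variable (D : Dat G Δ lam)

def St (d n : ℕ) (m w w' : WG G) (z z' : ZZ) : Prop :=
  Pre G m w ∧ Pre G m w' ∧ (phi G w \ phi G m).card + (phi G w' \ phi G m).card ≤ d ∧
    Cl n z z' ∧ ∀ p ∈ (phi G w \ phi G m) ∪ (phi G w' \ phi G m), Cl n (D.f p.2) z ∧ Cl n (D.f p.2) z'

def Concl (C : ℕ) (x y : WG G × ZZ) : Prop :=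
  ∃ a b, D.Anc x a ∧ D.Anc y b ∧ D.Near (2 * Δ + lam + 1) a b ∧ D.ht x ≤ D.ht a + C

noncomputable def above (m w w' : WG G) : Finset (ℕ × V) :=
  (phi G m).filter fun q => ∀ p ∈ (phi G w \ phi G m) ∪ (phi G w' \ phi G m), D.κ p < D.κ q

variable {D}

lemma Concl.of_anc {C C' : ℕ} {x y x' y' : WG G × ZZ} (h : D.Concl C x' y') (hx : D.Anc x x')
    (hy : D.Anc y y') (hh : D.ht x ≤ D.ht x' + C') : D.Concl (C + C') x y := by
  obtain ⟨a, b, h1, h2, h3, h4⟩ := h
  exact ⟨a, b, hx.trans h1, hy.trans h2, h3, by omega⟩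

lemma Concl.mono {C C' : ℕ} {x y : WG G × ZZ} (h : D.Concl C x y) (hC : C ≤ C') :
    D.Concl C' x y := by
  obtain ⟨a, b, h1, h2, h3, h4⟩ := h
  exact ⟨a, b, h1, h2, h3, by omega⟩

lemma ht_dn {w : WG G} {t : ℕ × V} (h : D.IsTop w t) {z : ZZ} {n : ℕ} (hz : Cl n (D.f t.2) z) :
    D.Anc (w, z) (D.dn w, D.f t.2) ∧ D.ht (w, z) ≤ D.ht (D.dn w, D.f t.2) + (2 * n + 1) := by
  refine ⟨h.ent_eq ▸ anc_dn w z, ?_⟩
  have := h.Hc_eq
  have h2 := htZ_le_of_Cl hz
  rw [Dat.ht, h.ent_eq]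
  simp only
  omega

lemma pre_dn {m w : WG G} (h : Pre G m w) {t : ℕ × V} (ht : D.IsTop w t) (htm : t ∉ phi G m) :
    Pre G m (D.dn w) ∧ phi G (D.dn w) \ phi G m = (phi G w \ phi G m).erase t := by
  refine ⟨⟨?_, ?_⟩, ?_⟩
  · rw [ht.phi_dn]; intro q hq
    exact Finset.mem_erase.2 ⟨fun e => htm (e ▸ hq), h.1 hq⟩
  · rw [ht.phi_dn]; exact fun a ha => h.2 a (Finset.mem_of_mem_erase ha)
  · rw [ht.phi_dn]; ext q; simp only [Finset.mem_sdiff, Finset.mem_erase]; tauto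

lemma pre_dn_dn {m w : WG G} (h : Pre G m w) {t : ℕ × V} (ht : D.IsTop w t) (htm : D.IsTop m t) :
    Pre G (D.dn m) (D.dn w) ∧ phi G (D.dn w) \ phi G (D.dn m) = phi G w \ phi G m := by
  have e : phi G (D.dn w) \ phi G (D.dn m) = phi G w \ phi G m := by
    rw [ht.phi_dn, htm.phi_dn]; ext q
    simp only [Finset.mem_sdiff, Finset.mem_erase]
    constructor
    · intro hq; exact ⟨hq.1.2, fun h => hq.2 ⟨hq.1.1, h⟩⟩
    · intro hq; exact ⟨⟨fun e => hq.2 (e ▸ htm.1), hq.1⟩, fun h => hq.2 h.2⟩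
  refine ⟨⟨?_, fun a ha ha' q hq => ?_⟩, e⟩
  · rw [ht.phi_dn, htm.phi_dn]; exact Finset.erase_subset_erase _ h.1
  · have : a ∈ phi G w \ phi G m := e ▸ Finset.mem_sdiff.2 ⟨ha, ha'⟩
    rw [Finset.mem_sdiff] at this
    rw [htm.phi_dn] at hq
    exact h.2 a this.1 this.2 q (Finset.mem_of_mem_erase hq)

lemma top_of_above {m w w' : WG G} (h : Pre G m w) (h' : Pre G m w') {q : ℕ × V}
    (hq : q ∈ D.above m w w') : ∃ t, t ∈ D.above m w w' ∧ D.IsTop m t ∧ D.IsTop w t ∧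
      D.IsTop w' t ∧ ∀ p ∈ (phi G w \ phi G m) ∪ (phi G w' \ phi G m), G.Adj p.2 t.2 := by
  rw [above, Finset.mem_filter] at hq
  obtain ⟨t, ht⟩ := D.exists_isTop ⟨q, hq.1⟩
  have h1 : ∀ p ∈ (phi G w \ phi G m) ∪ (phi G w' \ phi G m), D.κ p < D.κ t :=
    fun p hp => (hq.2 p hp).trans_le (ht.2 q hq.1)
  refine ⟨t, Finset.mem_filter.2 ⟨ht.1, h1⟩, ht, ⟨h.1 ht.1, fun a ha => ?_⟩,
    ⟨h'.1 ht.1, fun a ha => ?_⟩, fun p hp => ?_⟩
  · by_cases ham : a ∈ phi G m
    · exact ht.2 a ham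
    · exact (h1 a (Finset.mem_union_left _ (Finset.mem_sdiff.2 ⟨ha, ham⟩))).le
  · by_cases ham : a ∈ phi G m
    · exact ht.2 a ham
    · exact (h1 a (Finset.mem_union_right _ (Finset.mem_sdiff.2 ⟨ha, ham⟩))).le
  · have hle : p.1 ≤ t.1 := by
      by_contra hc
      have := D.κmono t p (by omega)
      have := h1 p hp
      omega
    rcases Finset.mem_union.1 hp with hp | hp
    · exact h.adj hp ht.1 hle
    · exact h'.adj hp ht.1 hle

lemma top_of_not_above {m w w' : WG G} (hab : D.above m w w' = ∅) {t : ℕ × V}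
    (ht : ∀ p ∈ (phi G w \ phi G m) ∪ (phi G w' \ phi G m), D.κ p ≤ D.κ t) :
    (∀ q ∈ phi G w, D.κ q ≤ D.κ t) ∧ (∀ q ∈ phi G w', D.κ q ≤ D.κ t) := by
  have h1 : ∀ q ∈ phi G m, D.κ q ≤ D.κ t := by
    intro q hq
    by_contra hc
    have : q ∈ D.above m w w' := Finset.mem_filter.2 ⟨hq, fun p hp => by
      have := ht p hp; omega⟩
    rw [hab] at this
    simp at this
  constructor
  · intro a ha
    by_cases ham : a ∈ phi G m
    · exact h1 a ham
    · exact ht a (Finset.mem_union_left _ (Finset.mem_sdiff.2 ⟨ha, ham⟩))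
  · intro a ha
    by_cases ham : a ∈ phi G m
    · exact h1 a ham
    · exact ht a (Finset.mem_union_right _ (Finset.mem_sdiff.2 ⟨ha, ham⟩))

lemma stepQ {d n C : ℕ} (hn : lam ≤ n)
    (hP : ∀ m w w' z z', D.St d (2 * n) m w w' z z' → D.Concl C (w, z) (w', z')) (g : ℕ) :
    ∀ m w w' z z', D.St (d + 1) n m w w' z z' →
      ((phi G w \ phi G m) ∪ (phi G w' \ phi G m)).Nonempty → (D.above m w w').card ≤ g →
      D.Concl (C + (2 * n + 1) + g * (4 * n + 1)) (w, z) (w', z') := by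
  have base : ∀ m w w' z z', D.St (d + 1) n m w w' z z' →
      ((phi G w \ phi G m) ∪ (phi G w' \ phi G m)).Nonempty → D.above m w w' = ∅ →
      D.Concl (C + (2 * n + 1)) (w, z) (w', z') := by
    intro m w w' z z' ⟨h1, h2, h3, h4, h5⟩ hne hab
    obtain ⟨t, ht, ht'⟩ := Finset.exists_max_image _ D.κ hne
    obtain ⟨e1, e2⟩ := top_of_not_above hab ht'
    have h6 := h5 t ht
    rcases Finset.mem_union.1 ht with ha | ha
    · have htop : D.IsTop w t := ⟨(Finset.mem_sdiff.1 ha).1, e1⟩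
      obtain ⟨a1, a2⟩ := pre_dn h1 htop (Finset.mem_sdiff.1 ha).2
      obtain ⟨b1, b2⟩ := ht_dn htop h6.1
      refine (hP m (D.dn w) w' (D.f t.2) z' ⟨a1, h2, ?_, h6.2.mono (by omega), ?_⟩).of_anc b1
        (Anc.refl _) b2
      · rw [a2]
        have := Finset.card_erase_add_one ha
        omega
      · intro p hp
        have := h5 p (Finset.union_subset_union_left (a2 ▸ Finset.erase_subset _ _) hp)
        exact ⟨(this.1.trans h6.1.symm).mono (by omega), this.2.mono (by omega)⟩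
    · have htop : D.IsTop w' t := ⟨(Finset.mem_sdiff.1 ha).1, e2⟩
      obtain ⟨a1, a2⟩ := pre_dn h2 htop (Finset.mem_sdiff.1 ha).2
      obtain ⟨b1, b2⟩ := ht_dn htop h6.2
      refine (hP m w (D.dn w') z (D.f t.2) ⟨h1, a1, ?_, h6.1.symm.mono (by omega), ?_⟩).of_anc
        (Anc.refl _) b1 (by omega)
      · rw [a2]
        have := Finset.card_erase_add_one ha
        omega
      · intro p hp
        have := h5 p (Finset.union_subset_union_right (a2 ▸ Finset.erase_subset _ _) hp)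
        exact ⟨this.1.mono (by omega), (this.2.trans h6.2.symm).mono (by omega)⟩
  induction g with
  | zero =>
    intro m w w' z z' h hne hab
    simpa using base m w w' z z' h hne (Finset.card_eq_zero.1 (by omega))
  | succ g ih =>
    intro m w w' z z' h hne hab
    rcases (D.above m w w').eq_empty_or_nonempty with h0 | ⟨q, hq⟩
    · exact (base m w w' z z' h hne h0).mono (by omega)
    obtain ⟨h1, h2, h3, h4, h5⟩ := h
    obtain ⟨t, t0, t1, t2, t3, t4⟩ := top_of_above h1 h2 hq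
    obtain ⟨a1, a2⟩ := pre_dn_dn h1 t2 t1
    obtain ⟨a3, a4⟩ := pre_dn_dn h2 t3 t1
    obtain ⟨p, hp⟩ := hne
    have c1 := (D.hf _ _ (t4 p hp)).mono hn
    obtain ⟨b1, b2⟩ := ht_dn t2 (c1.symm.trans (h5 p hp).1)
    obtain ⟨b3, -⟩ := ht_dn t3 (c1.symm.trans (h5 p hp).2)
    refine ((ih (D.dn m) (D.dn w) (D.dn w') (D.f t.2) (D.f t.2)
      ⟨a1, a3, by rw [a2, a4]; exact h3, (Cl.refl _).mono h4.pos, ?_⟩
      (by rw [a2, a4]; exact ⟨p, hp⟩) ?_).of_anc b1 b3 b2).mono (by rw [add_mul]; omega)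
    · rw [a2, a4]
      intro r hr
      exact ⟨(D.hf _ _ (t4 r hr)).mono hn, (D.hf _ _ (t4 r hr)).mono hn⟩
    · have : D.above (D.dn m) (D.dn w) (D.dn w') = (D.above m w w').erase t := by
        unfold above
        rw [a2, a4, t1.phi_dn, Finset.filter_erase]
      rw [this]
      have := Finset.card_erase_add_one t0
      omega

lemma stepP {d n C : ℕ} (hn : lam ≤ n)
    (hP : ∀ m w w' z z', D.St d (2 * n) m w w' z z' → D.Concl C (w, z) (w', z')) :
    ∀ m w w' z z', D.St (d + 1) n m w w' z z' →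
      D.Concl (C + (2 * n + 1) + (2 * Δ + 3) * (4 * n + 1)) (w, z) (w', z') := by
  intro m w w' z z' h
  rcases ((phi G w \ phi G m) ∪ (phi G w' \ phi G m)).eq_empty_or_nonempty with h0 | hne
  · obtain ⟨h1, h2, h3, h4, h5⟩ := h
    refine (hP m w w' z z' ⟨h1, h2, ?_, h4.mono (by omega), ?_⟩).mono (by omega)
    · rw [Finset.union_eq_empty] at h0
      rw [h0.1, h0.2]; simp
    · rw [h0]; simp
  obtain ⟨r, hr, hr'⟩ := Finset.exists_max_image _ D.κ hne
  have hlev : ∀ p ∈ (phi G w \ phi G m) ∪ (phi G w' \ phi G m), p.1 ≤ r.1 := by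
    intro p hp
    by_contra hc
    have := D.κmono r p (by omega)
    have := hr' p hp
    omega
  by_cases hc : ∃ q ∈ phi G m, r.1 + 2 ≤ q.1
  · obtain ⟨h1, h2, h3, h4, h5⟩ := h
    obtain ⟨q, hq, hq'⟩ := hc
    obtain ⟨q', e0, e1, e2, e3⟩ := (phi_normal m).2 q hq (by omega)
    have c1 := D.card_diff h1 e2 e3 fun p hp => by
      have := hlev p (Finset.mem_union_left _ hp)
      exact ⟨h1.adj hp e0 (by omega), h1.adj hp hq (by omega)⟩
    have c2 := D.card_diff h2 e2 e3 fun p hp => by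
      have := hlev p (Finset.mem_union_right _ hp)
      exact ⟨h2.adj hp e0 (by omega), h2.adj hp hq (by omega)⟩
    obtain ⟨t, t0, t1, t2, t3, t4⟩ := top_of_above (D := D) h1 h2 (q := q)
      (Finset.mem_filter.2 ⟨hq, fun p hp => D.κmono p q (by have := hlev p hp; omega)⟩)
    obtain ⟨u, u1, u2, u3⟩ := pre_word h1 h2
    refine ⟨(w, D.f t.2), (w', D.f t.2), t2.ent_eq ▸ anc_ent w z, t3.ent_eq ▸ anc_ent w' z',
      ⟨(Cl.refl _).mono (by omega), u, by omega, u2, fun v hv => ?_⟩, ?_⟩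
    · obtain ⟨p, hp, rfl⟩ := u3 v hv
      exact ⟨(D.hf _ _ (t4 p hp)).mono (by omega), (D.hf _ _ (t4 p hp)).mono (by omega)⟩
    · have c3 := htZ_le_of_Cl (((D.hf _ _ (t4 r hr)).mono hn).symm.trans (h5 r hr).1)
      simp only [Dat.ht, t2.ent_eq, htZ_self]
      rw [add_mul]
      omega
  · push Not at hc
    refine (stepQ hn hP (2 * Δ + 2) m w w' z z' h hne (D.card_two_levels m r.1 _ ?_)).mono
      (by rw [show 2 * Δ + 3 = 2 * Δ + 2 + 1 by ring, add_mul _ 1]; omega)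
    intro q hq
    rw [above, Finset.mem_filter] at hq
    refine ⟨hq.1, ?_, hc q hq.1⟩
    by_contra hc'
    have := D.κmono q r (by omega)
    have := hq.2 r hr
    omega

lemma baseP {n : ℕ} : ∀ m w w' z z', D.St 0 n m w w' z z' → D.Concl (3 * n) (w, z) (w', z') := by
  intro m w w' z z' ⟨h1, h2, h3, h4, _⟩
  have e1 : w = m := by
    have : (phi G w \ phi G m).card = 0 := by omega
    rw [Finset.card_eq_zero, Finset.sdiff_eq_empty_iff_subset] at this
    exact phi_inj (Finset.Subset.antisymm this h1.1)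
  have e2 : w' = m := by
    have : (phi G w' \ phi G m).card = 0 := by omega
    rw [Finset.card_eq_zero, Finset.sdiff_eq_empty_iff_subset] at this
    exact phi_inj (Finset.Subset.antisymm this h2.1)
  subst e1 e2
  obtain ⟨y, y', a1, a2, a3, a4⟩ := ancZ_contract (D.ent w') h4
  refine ⟨(w', y), (w', y'), anc_of_ancZ a1, anc_of_ancZ a2, near_same _ (a3.mono (by omega)), ?_⟩
  simp only [Dat.ht]
  omega

end Dat

end

def cP (Δ : ℕ) : ℕ → ℕ → ℕ
  | 0, n => 3 * n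
  | d + 1, n => cP Δ d (2 * n) + (2 * n + 1) + (2 * Δ + 3) * (4 * n + 1)

def n0 (Δ lam : ℕ) : ℕ := 2 * Δ + lam + 1
def E0 (Δ lam : ℕ) : ℕ := n0 Δ lam * (9 * n0 Δ lam + 2) + 2 * n0 Δ lam + 3
def k0 (Δ lam : ℕ) : ℕ := E0 Δ lam * (6 * E0 Δ lam + 1) + 4 * E0 Δ lam
def RR (Δ lam : ℕ) : ℕ := E0 Δ lam + (2 * k0 Δ lam + 1)

variable {V : Type} [DecidableEq V] {G : SimpleGraph V} [DecidableRel G.Adj] {Δ lam : ℕ}

namespace Dat

variable {D : Dat G Δ lam}

lemma allP (d : ℕ) : ∀ n, lam ≤ n → ∀ m w w' z z', D.St d n m w w' z z' →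
    D.Concl (cP Δ d n) (w, z) (w', z') := by
  induction d with
  | zero => intro n _; exact baseP
  | succ d ih => intro n hn; exact stepP hn (ih (2 * n) (by omega))

lemma Near.concl {n : ℕ} (hn : lam ≤ n) {x y : WG G × ZZ} (h : D.Near n x y) :
    D.Concl (cP Δ n n) x y := by
  obtain ⟨h1, u, h2, h3, h4⟩ := h
  obtain ⟨m, e1, e2, e3, e4, e5⟩ := exists_common x.1 u
  rw [← h3] at e2 e3 e5
  refine allP n n hn m x.1 y.1 x.2 y.2 ⟨e1, e2, by omega, h1, fun p hp => h4 _ ?_⟩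
  rcases Finset.mem_union.1 hp with hp | hp
  · exact e4 p hp
  · exact e5 p hp

lemma lam_le_RR : lam ≤ RR Δ lam := by
  unfold RR E0 n0; omega

theorem contract {n : ℕ} (hn : lam ≤ n) {x y : WG G × ZZ} (h : D.Near n x y) {s : ℕ}
    (hs : s + cP Δ n n ≤ D.ht x) (hs' : s ≤ D.ht y) :
    D.Near (RR Δ lam) (D.anc x s) (D.anc y s) := by
  obtain ⟨a, b, h1, h2, h3, h4⟩ := h.concl hn
  have hsa : s ≤ D.ht a := by omega
  rw [h1.anc_eq hsa]
  obtain ⟨c, h5, h6⟩ := Near.ne (n := n0 Δ lam) (by unfold n0; omega) h3 _ (anc_anc a s)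
  have hE : lam ≤ E0 Δ lam := by unfold E0 n0; omega
  have k1 : D.ht (D.anc a s) ≤ D.ht c + k0 Δ lam := Near.ht_le hE h6
  have k2 : D.ht c ≤ D.ht (D.anc a s) + k0 Δ lam := Near.ht_le hE h6.symm
  rw [ht_anc hsa] at k1 k2
  have hc := h2.trans h5
  refine h6.trans (m := 2 * k0 Δ lam + 1) ?_
  by_cases hle : s ≤ D.ht c
  · rw [hc.anc_eq hle]
    exact (near_iter _ c).mono (by omega)
  · have e : c = D.anc (D.anc y s) (D.ht c) := by
      rw [← (anc_anc y s).anc_eq (by rw [ht_anc hs']; omega)]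
      exact hc.eq_anc
    rw [e]
    refine (near_iter _ _).symm.mono ?_
    rw [ht_anc hs']
    omega

end Dat

end Pool.Agent.Lib.MP_845f45_al
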